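import Pool.Agent.H670R2.GramPoly

set_option autoImplicit false

/-!
# A simplex method with quasi-polynomially many pivots: the algorithm, on lists of integers

1. `posMask`: for a list of integer vectors `c₀, …, c_{N-1}`, the positions `k` for which
   `∑ x_j c_j = 0`, `x ≥ 0`, `x_k > 0` is solvable (rescaled perceptron, exact arithmetic).
2. `gtQ`: comparison of the tops of two facets of a face of a linear program.
3. `basic`, `mults`, `feas`, `impr`, `enter`: bases, multipliers, pivots.
4. `mstep`: the simplex method, with a stack.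
-/

namespace Pool.Agent.H24U

open Pool.Agent.H670R2

/-! ### Vectors -/

def vadd (u v : List ℤ) : List ℤ := List.zipWith (fun a b => a + b) u v

def vsmul (c : ℤ) (u : List ℤ) : List ℤ := u.map fun a => c * a

def mulVec (G : List (List ℤ)) (u : List ℤ) : List ℤ := G.map fun r => dotL r u

/-- the coefficients of the characteristic polynomial of a symmetric matrix, lowest first -/
def coefs (G : List (List ℤ)) : List ℤ := (newt (psL G))^[G.length] [1]

/-- remove the leading zeros of a list -/
def trim (cs : List ℤ) : List ℤ :=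
  cs.foldl (fun acc c => if acc = [] ∧ c = 0 then acc else acc ++ [c]) []

/-- `(∑ᵢ csᵢ Gⁱ) u` -/
def horner (G : List (List ℤ)) (u cs : List ℤ) : List ℤ :=
  cs.foldr (fun c w => vadd (vsmul c u) (mulVec G w)) (vsmul 0 u)

/-- the denominator of the projection on the kernel of `G` -/
def pden (G : List (List ℤ)) : ℤ := (trim (coefs G)).headD 1

/-- a positive multiple (`|pden G|`) of the orthogonal projection of `u` on the kernel of the
symmetric positive semidefinite matrix `G` -/
def proj (G : List (List ℤ)) (u : List ℤ) : List ℤ :=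
  vsmul (if pden G < 0 then -1 else 1) (horner G u (trim (coefs G)))

/-- `G * (solveG G w).2 = (solveG G w).1 • w` -/
def solveG (G : List (List ℤ)) (w : List ℤ) : ℤ × List ℤ :=
  ((coefs G).headD 0, vsmul (-1) (horner G w (coefs G).tail))

/-! ### Positive combinations -/

def scale (D : List ℤ) (cols : List (List ℤ)) : List (List ℤ) :=
  List.zipWith (fun d c => vsmul d c) D cols

/-- one step of the rescaled perceptron; the state consists of the weights and the counters -/
def pstep (τ : ℤ) (cols : List (List ℤ)) (s : List ℤ × List ℤ) : List ℤ × List ℤ :=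
  let z := proj (gramL (scale s.1 cols)) s.2
  let u := List.zipWith (fun (x : ℤ) (b : ℤ × ℤ) => if b.1 ≠ 0 ∧ b.2 ≤ 0 then x + 1 else x)
    s.2 (List.zip s.1 z)
  (List.zipWith (fun d x => if τ ≤ x then d / 2 else d) s.1 u,
    if u.any (fun x => decide (τ ≤ x)) = true then vsmul 0 u else u)

/-- the sum of the absolute values of the entries -/
def l1s (cols : List (List ℤ)) : ℕ := (cols.map fun c => (c.map Int.natAbs).sum).sum

/-- the initial exponent of the weights -/
def expB (cols : List (List ℤ)) : ℕ := 2 * cols.length * (1 + l1s cols).bits.length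

/-- the number of steps -/
def stepsN (cols : List (List ℤ)) : ℕ :=
  (cols.length * (expB cols + 1) + 1) * (4 * cols.length ^ 3 + 1)

/-- the threshold of the counters -/
def thr (cols : List (List ℤ)) : ℤ := 4 * (cols.length : ℤ) ^ 2

def pinit (cols : List (List ℤ)) : List ℤ × List ℤ :=
  (List.replicate cols.length ((2 : ℤ) ^ expB cols), List.replicate cols.length 0)

/-- `(posMask cols)[k] = true` iff there is `x ≥ 0` with `∑ x_j cols_j = 0` and `x_k > 0` -/
def posMask (cols : List (List ℤ)) : List Bool :=
  ((pstep (thr cols) cols)^[stepsN cols] (pinit cols)).1.map fun d => decide (d ≠ 0)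

/-! ### Linear programs -/

/-- A linear program `max c·x`, `a_r · x ≤ B_r`: the rows `(a_r, B_r)` and `c`. -/
abbrev LPd : Type := List (List ℤ × ℤ) × List ℤ

def rowA (P : LPd) (r : ℕ) : List ℤ := (P.1.getD r ([], 0)).1

def rowB (P : LPd) (r : ℕ) : ℤ := (P.1.getD r ([], 0)).2

def zeros (n : ℕ) : List ℤ := List.replicate n 0

/-- The homogeneous system for: there are `x` with `a_r · x = B_r` (`r ∈ k :: F`),
`a_r · x ≤ B_r` (`r ∈ G`), and multipliers `y`, nonnegative outside `j :: F`, with
`∑ y_r a_r = c` and `∑ y_r B_r < c · x`. -/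
def gtCols (P : LPd) (F G : List ℕ) (k j : ℕ) : List (List ℤ) :=
  let E := k :: F
  let n := P.2.length
  let xs := (List.range n).map fun i => (E.map fun r => (rowA P r).getD i 0) ++
    (G.map fun r => (rowA P r).getD i 0) ++ zeros n ++ [P.2.getD i 0]
  let ys := (j :: F).map fun r => zeros E.length ++ zeros G.length ++ rowA P r ++ [-(rowB P r)]
  [(E.map fun r => -(rowB P r)) ++ (G.map fun r => -(rowB P r)) ++ (P.2.map fun x => -x) ++ [0],
   zeros E.length ++ zeros G.length ++ zeros n ++ [-1]] ++
  xs ++ xs.map (vsmul (-1)) ++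
  (G.map fun r => zeros E.length ++ (G.map fun r' => if r' = r then 1 else 0) ++ zeros n ++ [0]) ++
  ys ++ ys.map (vsmul (-1)) ++
  (G.map fun r => zeros E.length ++ zeros G.length ++ rowA P r ++ [-(rowB P r)])

/-- The top of the facet `k` of the face `F` is higher than that of the facet `j`
(constraints `F ∪ G`). -/
def gtQ (P : LPd) (F G : List ℕ) (k j : ℕ) : Bool :=
  (posMask (gtCols P F G k j)).getD 0 false && (posMask (gtCols P F G k j)).getD 1 false

/-- the rows of a basis -/
def bas (P : LPd) (v : List ℕ) : List (List ℤ) := v.map (rowA P)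

/-- `∑ y_p L_p`, as a vector of length `n` -/
def tmul (n : ℕ) (L : List (List ℤ)) (y : List ℤ) : List ℤ :=
  (List.range n).map fun i => dotL (L.map fun r => r.getD i 0) y

/-- The basic solution of the basis `v`: denominator (`0` if `v` is not a basis), numerators. -/
def basic (P : LPd) (v : List ℕ) : ℤ × List ℤ :=
  ((solveG (gramL (bas P v)) (v.map (rowB P))).1,
    tmul P.2.length (bas P v) (solveG (gramL (bas P v)) (v.map (rowB P))).2)

/-- The coordinates of `c` with respect to the basis `v`: denominator, numerators. -/
def mults (P : LPd) (v : List ℕ) : ℤ × List ℤ :=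
  solveG (gramL (bas P v)) ((bas P v).map fun r => dotL r P.2)

/-- `v` is a feasible basis -/
def feas (P : LPd) (v : List ℕ) : Bool :=
  decide ((basic P v).1 ≠ 0) && (List.range P.1.length).all fun r =>
    decide (0 ≤ (basic P v).1 * ((basic P v).1 * rowB P r - dotL (rowA P r) (basic P v).2))

/-- the objective function increases on the edge which leaves the constraint `j` of the basis -/
def impr (P : LPd) (v : List ℕ) (j : ℕ) : Bool :=
  (List.zip v (mults P v).2).any fun q => decide (q.1 = j) && decide ((mults P v).1 * q.2 < 0)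

/-- replace `j` by `r` -/
def repl (v : List ℕ) (j r : ℕ) : List ℕ := v.map fun x => if x = j then r else x

/-- the other end of the edge which leaves the constraint `j` of the basis `v` -/
def enter (P : LPd) (v : List ℕ) (j : ℕ) : Option ℕ :=
  ((List.range P.1.length).filter fun r => decide (r ∉ v) && feas P (repl v j r)).head?

/-! ### The simplex method -/

/-- A face `F`, the constraints `G`, and the stage (`0` relaxation, `1` facet, `2` upper part;
second component: the facet). -/
abbrev Frame : Type := (List ℕ × List ℕ) × (ℕ × ℕ)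

/-- Basis, stack, mode (`0` call, `1` return, `2` constraint entered, `3` halted). -/
abbrev Cfg : Type := List ℕ × (List Frame × (ℕ × ℕ))

/-- The oracles of the machine. -/
structure Orc : Type where
  gt : List ℕ → List ℕ → ℕ → ℕ → Bool
  im : List ℕ → ℕ → Bool
  en : List ℕ → ℕ → Option ℕ

/-- the number of constraints whose top is higher than that of `j` -/
def cnt (o : Orc) (F G : List ℕ) (j : ℕ) : ℕ := (G.filter fun k => o.gt F G k j).length

def callStep (o : Orc) (v F G : List ℕ) (rest : List Frame) : Cfg :=
  if (v.filter fun j => decide (j ∉ F) && o.im v j) = [] then (v, (rest, (1, 0)))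
  else if (v.filter fun j => decide (j ∈ G) && decide (cnt o F G j < (G.length + 1) / 2)) = [] then
    (v, (((F, G.filter fun j => decide ((G.length + 1) / 2 ≤ cnt o F G j)), (0, 0)) ::
      ((F, G), (0, 0)) :: rest, (0, 0)))
  else
    (v, ((((v.filter fun j => decide (j ∈ G) &&
          decide (cnt o F G j < (G.length + 1) / 2)).headD 0) :: F,
        G.erase ((v.filter fun j => decide (j ∈ G) &&
          decide (cnt o F G j < (G.length + 1) / 2)).headD 0)), (0, 0)) ::
      ((F, G), (1, (v.filter fun j => decide (j ∈ G) &&
          decide (cnt o F G j < (G.length + 1) / 2)).headD 0)) :: rest, (0, 0))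

def retStep (o : Orc) (v F G : List ℕ) (st : ℕ × ℕ) (rest : List Frame) : Cfg :=
  if st.1 = 1 ∧ o.im v st.2 = true then
    (o.en v st.2).elim (v, (((F, G), st) :: rest, (3, 1)))
      fun r => (repl v st.2 r, (((F, G), st) :: rest, (2, r)))
  else (v, (rest, (1, 0)))

def enterStep (o : Orc) (v F G : List ℕ) (st : ℕ × ℕ) (rest : List Frame) (r : ℕ) : Cfg :=
  if r ∉ G then (v, (rest, (2, r)))
  else if st.1 = 0 then
    (v, (((r :: F, G.erase r), (0, 0)) :: ((F, G), (1, r)) :: rest, (0, 0)))
  else
    (v, (((F, G.filter fun k => o.gt F G k st.2), (0, 0)) :: ((F, G), (2, 0)) :: rest, (0, 0)))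

/-- One step of the machine. -/
def step (o : Orc) (c : Cfg) : Cfg :=
  if c.2.2.1 = 3 then c
  else (c.2.1.head?).elim (c.1, ([], (3, if c.2.2.1 = 1 then 0 else 2))) fun t =>
    if c.2.2.1 = 0 then callStep o c.1 t.1.1 t.1.2 c.2.1.tail
    else if c.2.2.1 = 1 then retStep o c.1 t.1.1 t.1.2 t.2 c.2.1.tail
    else enterStep o c.1 t.1.1 t.1.2 t.2 c.2.1.tail c.2.2.2

/-- The initial configuration, `R` constraints. -/
def start (R : ℕ) (v : List ℕ) : Cfg := (v, ([(([], List.range R), (0, 0))], (0, 0)))

/-- The oracles of a linear program. -/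
def orc (P : LPd) : Orc := ⟨gtQ P, impr P, enter P⟩

end Pool.Agent.H24U
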