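import Pool.Agent.H24R2.U.Spec
import Pool.Agent.NPC.Dec
import Pool.Agent.H670R2.RatDec

set_option autoImplicit false

/-!
# Definitions: invariant of the perceptron, instances, output
-/

namespace Pool.Agent.H24U

open Pool.Agent.H670R2 Pool.Agent.H24R2 Matrix Function
open Pool.Agent.NPC hiding Poly

/-- Invariant of the rescaled perceptron. -/
structure PInv (cols : List (List ℤ)) (s : List ℤ × List ℤ) : Prop where
  lenD : s.1.length = cols.length
  lenU : s.2.length = cols.length
  pow : ∀ k < cols.length, s.1.getD k 0 = 0 ∨ ∃ e ≤ expB cols, s.1.getD k 0 = 2 ^ e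
  nonneg : ∀ k, 0 ≤ s.2.getD k 0
  lt : ∀ k < cols.length, s.2.getD k 0 < thr cols
  dead : ∀ k < cols.length, s.1.getD k 0 = 0 → s.2.getD k 0 = 0
  box : ∀ x, Feasible cols x → (∀ j, x j ≤ 1) → ∀ k < cols.length,
    x k * 2 ^ expB cols ≤ ((s.1.getD k 0 : ℤ) : ℝ)
  pot : ∑ k ∈ Finset.range cols.length, (proj (gramL (scale s.1 cols)) s.2).getD k 0 ^ 2 ≤
    pden (gramL (scale s.1 cols)) ^ 2 * ∑ k ∈ Finset.range cols.length, s.2.getD k 0

/-- instances: `A`, `b`, `c`, initial vertex -/
abbrev Inst : Type := List (List ℚ) × (List ℚ × (List ℚ × List ℚ))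

def lden (l : List ℚ) : ℕ := (l.map fun q => q.den).foldr (fun a b => a * b) 1

def intVec (D : ℕ) (l : List ℚ) : List ℤ := l.map fun q => q.num * ((D / q.den : ℕ) : ℤ)

def toP (I : Inst) : LPd :=
  (List.zipWith (fun (a : List ℚ) (b : ℚ) =>
      (intVec (lden (b :: a)) a, b.num * ((lden (b :: a) / b.den : ℕ) : ℤ))) I.1 I.2.1 ++
    (List.range I.2.2.1.length).map (fun j =>
      ((List.range I.2.2.1.length).map (fun i => if i = j then (-1 : ℤ) else 0), (0 : ℤ))),
    intVec (lden I.2.2.1) I.2.2.1)

/-- greedy choice of independent tight constraints at the point `x` -/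
def basis0 (P : LPd) (x : List ℚ) : List ℕ :=
  (List.range P.1.length).foldl (fun acc r =>
    if dotL (rowA P r) (intVec (lden x) x) = (lden x : ℤ) * rowB P r ∧
        gdet (bas P (acc ++ [r])) ≠ 0 then acc ++ [r] else acc) []

/-- an instance from matrices -/
def mkInst {m n : ℕ} (A : Fin m → Fin n → ℚ) (b : Fin m → ℚ) (c v : Fin n → ℚ) : Inst :=
  (List.ofFn fun i => List.ofFn (A i), (List.ofFn b, (List.ofFn c, List.ofFn v)))

lemma length_intVec (D : ℕ) (l : List ℚ) : (intVec D l).length = l.length := by
  simp [intVec]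

theorem toP_len {m n : ℕ} (A : Fin m → Fin n → ℚ) (b : Fin m → ℚ) (c v : Fin n → ℚ) :
    (toP (mkInst A b c v)).1.length = m + n ∧ (toP (mkInst A b c v)).2.length = n ∧
      WF (toP (mkInst A b c v)) := by
  have h1 : (toP (mkInst A b c v)).1.length = m + n := by
    simp [toP, mkInst]
  have h2 : (toP (mkInst A b c v)).2.length = n := by
    simp [toP, mkInst, length_intVec]
  refine ⟨h1, h2, ?_⟩
  have h3 : ∀ q ∈ (toP (mkInst A b c v)).1, q.1.length = n := by
    intro q hq
    simp only [toP, mkInst, List.mem_append, List.mem_map, List.mem_range] at hq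
    rcases hq with hq | ⟨j, _, rfl⟩
    · obtain ⟨i, hi, rfl⟩ := List.mem_iff_getElem.1 hq
      simp [length_intVec]
    · simp
  intro r hr
  rw [h2]
  unfold rowA
  rw [List.getD_eq_getElem _ _ hr]
  exact h3 _ (List.getElem_mem hr)

/-- the basic solution as a rational vector -/
def ratPt (P : LPd) (v : List ℕ) : List ℚ :=
  (basic P v).2.map fun x => (x : ℚ) / (((basic P v).1 : ℤ) : ℚ)

/-- one step of the machine, with the list of the points visited (latest first) -/
def tstep (P : LPd) (o : Orc) (s : Cfg × (List ℚ × List (List ℚ))) :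
    Cfg × (List ℚ × List (List ℚ)) :=
  (step o s.1, if ratPt P (step o s.1).1 = s.2.1 then s.2
    else (ratPt P (step o s.1).1, ratPt P (step o s.1).1 :: s.2.2))

/-- the points visited after the initial vertex, `T` steps of the machine -/
def outF (I : Inst) (T : ℕ) : List (List ℚ) :=
  ((tstep (toP I) (orc (pert (toP I) (basis0 (toP I) I.2.2.2))))^[T]
    (start (toP I).1.length (basis0 (toP I) I.2.2.2),
      (ratPt (toP I) (basis0 (toP I) I.2.2.2), []))).2.2.reverse

/-- the leading `true`s of a word, and what follows the first `false` -/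
def splitPad : List Bool → List Unit × List Bool
  | [] => ([], [])
  | false :: l => ([], l)
  | true :: l => (() :: (splitPad l).1, (splitPad l).2)

/-- `T` ones, a zero and the code of an instance are mapped to the code of `outF I T` -/
def gfun (w : List Bool) : List Bool :=
  (unbits (α := Inst) (splitPad w).2).elim [] fun I => bits (outF I (splitPad w).1.length)

/-- padding -/
def pad (K : ℕ) (x : List Bool) : List Bool :=
  List.replicate (2 ^ (K * (Nat.size x.length + 1) ^ 2)) true ++ false :: x

end Pool.Agent.H24U
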