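import Pool.Agent.H24R2.U.PolyD
import Pool.Agent.H24R2.U.Spec2
import Pool.Agent.NPC.Dec

set_option autoImplicit false

/-!
# Task GPOLY: `gfun` is computable in polynomial time
-/

namespace Pool.Agent.H24U

open Pool.Agent.H670R2 Pool.Agent.H24R2 Matrix Function
open Pool.Agent.NPC hiding Poly


namespace GPoly

/-- one step of the splitting -/
def spstep (s : List Unit × List Bool × Bool) : List Unit × List Bool × Bool :=
  if s.2.2 = true then s else
    match s.2.1 with
    | [] => s
    | b :: l => if b = true then (() :: s.1, l, false) else (s.1, l, true)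

theorem unit_list_ext {a b : List Unit} (h : a.length = b.length) : a = b := by
  refine List.ext_getElem h fun i h1 h2 => ?_
  exact Subsingleton.elim _ _

theorem spstep_iterate : ∀ (x : List Bool) (acc : List Unit) (k : ℕ), x.length ≤ k →
    (spstep^[k] (acc, x, false)).1 = (splitPad x).1 ++ acc ∧
      (spstep^[k] (acc, x, false)).2.1 = (splitPad x).2 := by
  intro x
  induction x with
  | nil =>
    intro acc k _
    have h : ∀ k, spstep^[k] (acc, [], false) = (acc, [], false) := by
      intro k
      induction k with
      | zero => rfl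
      | succ k ih => rw [Function.iterate_succ_apply]; simpa [spstep] using ih
    rw [h]
    simp [splitPad]
  | cons b x ih =>
    intro acc k hk
    obtain ⟨k, rfl⟩ : ∃ k', k = k' + 1 := ⟨k - 1, by simp at hk; omega⟩
    rw [Function.iterate_succ_apply]
    have hk' : x.length ≤ k := by simp at hk; omega
    cases b with
    | false =>
      have h1 : spstep (acc, false :: x, false) = (acc, x, true) := by simp [spstep]
      have h2 : ∀ k, spstep^[k] (acc, x, true) = (acc, x, true) := by
        intro k
        induction k with
        | zero => rfl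
        | succ k ih => rw [Function.iterate_succ_apply]; simpa [spstep] using ih
      rw [h1, h2]
      simp [splitPad]
    | true =>
      have h1 : spstep (acc, true :: x, false) = (() :: acc, x, false) := by simp [spstep]
      rw [h1]
      obtain ⟨i1, i2⟩ := ih (() :: acc) k hk'
      refine ⟨?_, ?_⟩
      · rw [i1]
        apply unit_list_ext
        simp [splitPad]
        omega
      · rw [i2]
        simp [splitPad]

theorem splitPad_eq (y : List Bool) : splitPad y =
    ((spstep^[y.length] ([], y, false)).1, (spstep^[y.length] ([], y, false)).2.1) := by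
  obtain ⟨h1, h2⟩ := spstep_iterate y [] y.length le_rfl
  rw [List.append_nil] at h1
  rw [h1, h2]

theorem sz_spstep (s : List Unit × List Bool × Bool) : sz (spstep s) ≤ sz s + 2 := by
  obtain ⟨a, l, b⟩ := s
  unfold spstep
  cases b with
  | true => simp
  | false =>
    match l with
    | [] => simp
    | true :: l' => simp; omega
    | false :: l' => simp; omega

theorem poly_splitPad : NPC.Poly splitPad := by
  have hstep : NPC.Poly spstep := by
    unfold spstep
    refine NPC.Poly.ite (NPC.Poly.decide_eq (NPC.Poly.snd (NPC.Poly.snd NPC.Poly.id)) (NPC.Poly.const _)) NPC.Poly.id ?_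
    refine (NPC.Poly.listCases (l := fun s : List Unit × List Bool × Bool => s.2.1)
      (g := fun s => s) (h := fun s b l => if b = true then (() :: s.1, l, false)
        else (s.1, l, true)) (NPC.Poly.fst (NPC.Poly.snd NPC.Poly.id))
      NPC.Poly.id ?_).congr ?_
    · refine NPC.Poly.ite (NPC.Poly.decide_eq (NPC.Poly.fst (NPC.Poly.snd NPC.Poly.id)) (NPC.Poly.const _)) ?_ ?_
      · exact NPC.Poly.pair (NPC.Poly.cons (NPC.Poly.const _) (NPC.Poly.fst (NPC.Poly.fst NPC.Poly.id)))
          (NPC.Poly.pair (NPC.Poly.snd (NPC.Poly.snd NPC.Poly.id)) (NPC.Poly.const _))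
      · exact NPC.Poly.pair (NPC.Poly.fst (NPC.Poly.fst NPC.Poly.id)) (NPC.Poly.pair (NPC.Poly.snd (NPC.Poly.snd NPC.Poly.id))
          (NPC.Poly.const _))
    · rintro ⟨a, l, b⟩
      cases l <;> rfl
  have hiter : NPC.Poly (fun y : List Bool => spstep^[y.length] ([], y, false)) := by
    refine NPC.Poly.iterLen (F := fun _ => spstep) (s := fun y : List Bool => ([], y, false)) NPC.Poly.id
      (NPC.Poly.pair (NPC.Poly.const _) (NPC.Poly.pair NPC.Poly.id (NPC.Poly.const _)))
      (hstep.comp (NPC.Poly.snd NPC.Poly.id)) (Polynomial.C 3 * Polynomial.X + 5) ?_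
    intro y k hk
    have h1 : ∀ k (s : List Unit × List Bool × Bool), sz (spstep^[k] s) ≤ sz s + 2 * k := by
      intro k
      induction k with
      | zero => intro s; simp
      | succ k ih =>
        intro s
        rw [Function.iterate_succ_apply]
        have h2 := ih (spstep s)
        have h3 := sz_spstep s
        omega
    have h2 := h1 k ([], y, false)
    have h3 := length_lt_sz y
    simp only [sz_pair, sz_list_nil, sz_false] at h2
    simp only [Polynomial.eval_add, Polynomial.eval_mul, Polynomial.eval_C, Polynomial.eval_X,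
      Polynomial.eval_ofNat]
    omega
  exact (NPC.Poly.pair (NPC.Poly.fst hiter) (NPC.Poly.fst (NPC.Poly.snd hiter))).congr fun y =>
    (splitPad_eq y).symm

end GPoly

open GPoly

theorem poly_body_aux {α β γ δ : Type} [TEnc α] [TEnc β] [TEnc γ] [TEnc δ] {F : β × δ → γ}
    (hF : NPC.Poly F) {sp : α → δ} (hs : NPC.Poly sp) :
    NPC.Poly (fun p : α × β => F (p.2, sp p.1)) :=
  NPC.Poly.comp (g := F) (f := fun p : α × β => (p.2, sp p.1)) hF
    (NPC.Poly.pair (NPC.Poly.snd NPC.Poly.id) (hs.comp (NPC.Poly.fst NPC.Poly.id)))

theorem poly_body : NPC.Poly (fun p : List Bool × Inst =>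
    outF p.2 (splitPad p.1).1.length) :=
  poly_body_aux (F := fun a : Inst × List Unit => outF a.1 a.2.length) poly_outF
    (sp := fun w => (splitPad w).1) (NPC.Poly.fst poly_splitPad)

theorem poly_unb : NPC.Poly (fun w : List Bool => unbits Inst (splitPad w).2) :=
  NPC.Poly.comp (g := unbits Inst) (f := fun w => (splitPad w).2) poly_unbits
    (NPC.Poly.snd poly_splitPad)

theorem gfun_polyTime : PolyTime gfun := by
  have h1 : NPC.Poly (fun w : List Bool =>
      (unbits Inst (splitPad w).2).map ((fun w I => outF I (splitPad w).1.length) w)) :=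
    NPC.Poly.optMap (f := fun (w : List Bool) (I : Inst) => outF I (splitPad w).1.length)
      poly_unb poly_body
  have h2 := polyTime_opt h1
  convert h2 using 1
  funext w
  unfold gfun
  cases unbits Inst (splitPad w).2 with
  | none => rfl
  | some I => rfl

end Pool.Agent.H24U
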