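import Pool.Agent.H24R2.U.Num
import Pool.Agent.H24R2.U.Spec2

set_option autoImplicit false

/-!
# The ratio test
-/

namespace Pool.Agent.H24U

open Pool.Agent.H670R2 Pool.Agent.H24R2 Matrix Function


theorem bv_mem {P : LPd} {v : List ℕ} (hv : Sel P v) (p : Fin P.2.length) : bv P v p ∈ v := by
  unfold bv
  have hp : (p : ℕ) < v.length := by
    rw [hv.1]
    exact p.2
  rw [List.getD_eq_getElem _ _ hp]
  exact List.getElem_mem hp

theorem lm_zero_of_ge {P : LPd} (β : Fin P.2.length → ℕ) (p : Fin P.2.length) {r : ℕ}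
    (hr : P.1.length ≤ r) : lm (aR P) β p (aR P r) = 0 := by
  have h1 : aR P r = 0 := by
    funext i
    unfold aR rowA
    rw [List.getD_eq_default _ _ hr]
    simp
  unfold lm
  have h2 : ((bm (aR P) β).updateRow p (aR P r)).det = 0 := by
    apply det_eq_zero_of_row_eq_zero p
    intro i
    rw [updateRow_self, h1]
    rfl
  rw [h2, zero_div]

theorem lam_neg_of_enter {P : LPd} (hP : WF P) (hN : ND P) {v : List ℕ} (hv : Ok P v)
    (p : Fin P.2.length) {r : ℕ} (h : enter P v (bv P v p) = some r) :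
    lm (aR P) (bv P v) p (aR P r) < 0 := by
  obtain ⟨hS, hf⟩ := hv
  obtain ⟨hd, hs⟩ := (feas_iff hP hS).1 hf
  obtain ⟨hr, hrv, hf'⟩ := enter_some h
  have hjv := bv_mem hS p
  have hS' := sel_repl hS hjv hr hrv
  obtain ⟨hd', hs'⟩ := (feas_iff hP hS').1 hf'
  rw [bv_repl hS p r] at hd' hs'
  have hl : lm (aR P) (bv P v) p (aR P r) ≠ 0 := by
    intro h0
    rw [dt_update hd, h0, zero_mul] at hd'
    exact hd' rfl
  have h1 := hs' (bv P v p) (hS.2.2 _ hjv)
  rw [sk_update hd p r (bv P v p) hl, sk_self hd, lm_self hd, zero_sub] at h1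
  have h2 : 0 < sk (aR P) (bR P) (bv P v) r :=
    lt_of_le_of_ne (hs r hr) (Ne.symm (hN v hS hd r hr hrv))
  by_contra hcon
  push Not at hcon
  have h3 : 0 < lm (aR P) (bv P v) p (aR P r) := lt_of_le_of_ne hcon (Ne.symm hl)
  have h4 : 0 < sk (aR P) (bR P) (bv P v) r * (1 / lm (aR P) (bv P v) p (aR P r)) := by positivity
  linarith

theorem lam_nonneg_of_none {P : LPd} (hP : WF P) (_hN : ND P) {v : List ℕ} (hv : Ok P v)
    (p : Fin P.2.length) (h : enter P v (bv P v p) = none) :
    ∀ r, 0 ≤ lm (aR P) (bv P v) p (aR P r) := by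
  classical
  obtain ⟨hS, hf⟩ := hv
  obtain ⟨hd, hs⟩ := (feas_iff hP hS).1 hf
  have hjv := bv_mem hS p
  intro r
  by_contra hcon
  push Not at hcon
  have key : ∀ r, lm (aR P) (bv P v) p (aR P r) < 0 → r < P.1.length ∧ r ∉ v := by
    intro r hlt
    constructor
    · by_contra hge
      push Not at hge
      rw [lm_zero_of_ge _ _ hge] at hlt
      exact lt_irrefl _ hlt
    · intro hrv
      obtain ⟨q, hq⟩ := exists_pos hS hrv
      rw [← hq] at hlt
      by_cases hqp : q = p
      · rw [hqp, lm_self hd] at hlt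
        linarith
      · rw [lm_ne p q hqp] at hlt
        exact lt_irrefl _ hlt
  set S : Finset ℕ := (Finset.range P.1.length).filter
    (fun r => lm (aR P) (bv P v) p (aR P r) < 0) with hSd
  have hne : S.Nonempty := ⟨r, Finset.mem_filter.2 ⟨Finset.mem_range.2 (key r hcon).1, hcon⟩⟩
  obtain ⟨t, htS, htmin⟩ := Finset.exists_min_image S
    (fun r => sk (aR P) (bR P) (bv P v) r / (-lm (aR P) (bv P v) p (aR P r))) hne
  have htl : lm (aR P) (bv P v) p (aR P t) < 0 := (Finset.mem_filter.1 htS).2
  obtain ⟨htR, htv⟩ := key t htl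
  have hS' := sel_repl hS hjv htR htv
  have h1 := enter_none h t htR htv
  have h2 : feas P (repl v (bv P v p) t) = true := by
    rw [feas_iff hP hS', bv_repl hS p t]
    constructor
    · rw [dt_update hd]
      exact mul_ne_zero htl.ne hd
    · intro k hk
      rw [sk_update hd p t k htl.ne]
      have e1 := hs k hk
      have e2 := hs t htR
      by_cases hk0 : 0 ≤ lm (aR P) (bv P v) p (aR P k)
      · have e3 : lm (aR P) (bv P v) p (aR P k) / lm (aR P) (bv P v) p (aR P t) ≤ 0 :=
          div_nonpos_of_nonneg_of_nonpos hk0 htl.le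
        have e4 := mul_nonpos_of_nonneg_of_nonpos e2 e3
        linarith
      · push Not at hk0
        have hkS : k ∈ S := Finset.mem_filter.2 ⟨Finset.mem_range.2 hk, hk0⟩
        have e3 := htmin k hkS
        rw [div_le_div_iff₀ (by linarith) (by linarith)] at e3
        have e4 : sk (aR P) (bR P) (bv P v) t * (lm (aR P) (bv P v) p (aR P k) /
            lm (aR P) (bv P v) p (aR P t)) =
            (sk (aR P) (bR P) (bv P v) t * (-lm (aR P) (bv P v) p (aR P k))) /
              (-lm (aR P) (bv P v) p (aR P t)) := by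
          have := htl.ne
          field_simp
        rw [e4, sub_nonneg, div_le_iff₀ (by linarith)]
        exact e3
  rw [h1] at h2
  exact Bool.false_ne_true h2

end Pool.Agent.H24U
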