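import Pool.Agent.H24R2.U.PercB
import Pool.Agent.H24R2.U.Spec2

set_option autoImplicit false

/-!
# The homogeneous system `gtCols` expresses the comparison of the tops of two facets
-/

namespace Pool.Agent.H24U

open Pool.Agent.H670R2 Pool.Agent.H24R2


namespace GtQ

open Finset

theorem sumR_append {α : Type*} (d : α) (g : α → ℝ) (L1 L2 : List α) (x : ℕ → ℝ) :
    ∑ j ∈ range (L1 ++ L2).length, x j * g ((L1 ++ L2).getD j d) =
      ∑ j ∈ range L1.length, x j * g (L1.getD j d) +
      ∑ j ∈ range L2.length, x (L1.length + j) * g (L2.getD j d) := by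
  rw [List.length_append, Finset.sum_range_add]
  congr 1
  · refine Finset.sum_congr rfl fun j hj => ?_
    rw [List.getD_append _ _ _ _ (Finset.mem_range.1 hj)]
  · refine Finset.sum_congr rfl fun j hj => ?_
    rw [List.getD_append_right _ _ _ _ (Nat.le_add_right _ _), Nat.add_sub_cancel_left]

theorem getD_map' {α β : Type*} (f : α → β) (L : List α) (d : α) (d' : β) {j : ℕ}
    (hj : j < L.length) : (L.map f).getD j d' = f (L.getD j d) := by
  simp [List.getD_eq_getElem?_getD, List.getElem?_map, List.getElem?_eq_getElem hj]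

theorem sumR_map {α β : Type*} (d : α) (d' : β) (f : α → β) (g : β → ℝ) (L : List α)
    (x : ℕ → ℝ) :
    ∑ j ∈ range (L.map f).length, x j * g ((L.map f).getD j d') =
      ∑ j ∈ range L.length, x j * g (f (L.getD j d)) := by
  rw [List.length_map]
  refine Finset.sum_congr rfl fun j hj => ?_
  rw [getD_map' f L d d' (Finset.mem_range.1 hj)]

theorem range_getD {n i : ℕ} (h : i < n) : (List.range n).getD i 0 = i := by
  simp [List.getD_eq_getElem?_getD, h]

/-- columns in four blocks -/
abbrev Qd : Type := List ℤ × List ℤ × List ℤ × ℤ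

def flat (q : Qd) : List ℤ := q.1 ++ q.2.1 ++ q.2.2.1 ++ [q.2.2.2]

def neg (q : Qd) : Qd := (vsmul (-1) q.1, vsmul (-1) q.2.1, vsmul (-1) q.2.2.1, -1 * q.2.2.2)

theorem flat_neg (q : Qd) : flat (neg q) = vsmul (-1) (flat q) := by
  simp [flat, neg, vsmul]

/-- the lengths of the blocks -/
def Len (e g n : ℕ) (q : Qd) : Prop := q.1.length = e ∧ q.2.1.length = g ∧ q.2.2.1.length = n

theorem Len.neg {e g n : ℕ} {q : Qd} (h : Len e g n q) : Len e g n (neg q) := by
  simpa [Len, GtQ.neg, vsmul] using h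

theorem flat_length {e g n : ℕ} {q : Qd} (h : Len e g n q) : (flat q).length = e + g + n + 1 := by
  obtain ⟨h1, h2, h3⟩ := h
  simp [flat, h1, h2, h3]; omega

theorem flat_getD1 {e g n : ℕ} {q : Qd} (h : Len e g n q) {i : ℕ} (hi : i < e) :
    (flat q).getD i 0 = q.1.getD i 0 := by
  obtain ⟨h1, h2, h3⟩ := h
  unfold flat
  rw [List.append_assoc, List.append_assoc, List.getD_append _ _ _ _ (by omega)]

theorem flat_getD2 {e g n : ℕ} {q : Qd} (h : Len e g n q) {i : ℕ} (hi : i < g) :
    (flat q).getD (e + i) 0 = q.2.1.getD i 0 := by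
  obtain ⟨h1, h2, h3⟩ := h
  unfold flat
  rw [List.append_assoc, List.append_assoc, List.getD_append_right _ _ _ _ (by omega),
    List.getD_append _ _ _ _ (by omega)]
  congr 1; omega

theorem flat_getD3 {e g n : ℕ} {q : Qd} (h : Len e g n q) {i : ℕ} (hi : i < n) :
    (flat q).getD (e + g + i) 0 = q.2.2.1.getD i 0 := by
  obtain ⟨h1, h2, h3⟩ := h
  unfold flat
  rw [List.append_assoc, List.getD_append_right _ _ _ _ (by simp [h1, h2]),
    List.getD_append _ _ _ _ (by simp [h1, h2, h3]; omega)]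
  congr 1; simp [h1, h2]

theorem flat_getD4 {e g n : ℕ} {q : Qd} (h : Len e g n q) :
    (flat q).getD (e + g + n) 0 = q.2.2.2 := by
  obtain ⟨h1, h2, h3⟩ := h
  unfold flat
  have hl : (q.1 ++ q.2.1 ++ q.2.2.1).length = e + g + n := by
    simp only [List.length_append, h1, h2, h3]
  rw [List.getD_append_right _ _ _ _ hl.le, hl, Nat.sub_self]
  rfl

theorem rows_iff {e g n : ℕ} {L : List Qd} (hL : ∀ q ∈ L, Len e g n q) (d : Qd) (x : ℕ → ℝ) :
    (∀ i, ∑ j ∈ range (L.map flat).length, x j * ((((L.map flat).getD j []).getD i 0 : ℤ) : ℝ) = 0) ↔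
    (∀ i < e, ∑ j ∈ range L.length, x j * (((L.getD j d).1.getD i 0 : ℤ) : ℝ) = 0) ∧
    (∀ i < g, ∑ j ∈ range L.length, x j * (((L.getD j d).2.1.getD i 0 : ℤ) : ℝ) = 0) ∧
    (∀ i < n, ∑ j ∈ range L.length, x j * (((L.getD j d).2.2.1.getD i 0 : ℤ) : ℝ) = 0) ∧
    ∑ j ∈ range L.length, x j * (((L.getD j d).2.2.2 : ℤ) : ℝ) = 0 := by
  have hmem : ∀ j ∈ range L.length, Len e g n (L.getD j d) := by
    intro j hj
    rw [Finset.mem_range] at hj
    rw [List.getD_eq_getElem _ _ hj]
    exact hL _ (List.getElem_mem hj)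
  have key : ∀ i, ∑ j ∈ range (L.map flat).length,
      x j * ((((L.map flat).getD j []).getD i 0 : ℤ) : ℝ) =
      ∑ j ∈ range L.length, x j * (((flat (L.getD j d)).getD i 0 : ℤ) : ℝ) := fun i =>
    sumR_map d [] flat (fun c => ((c.getD i 0 : ℤ) : ℝ)) L x
  simp only [key]
  constructor
  · intro h
    refine ⟨fun i hi => ?_, fun i hi => ?_, fun i hi => ?_, ?_⟩
    · rw [← h i]
      exact Finset.sum_congr rfl fun j hj => by rw [flat_getD1 (hmem j hj) hi]
    · rw [← h (e + i)]
      exact Finset.sum_congr rfl fun j hj => by rw [flat_getD2 (hmem j hj) hi]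
    · rw [← h (e + g + i)]
      exact Finset.sum_congr rfl fun j hj => by rw [flat_getD3 (hmem j hj) hi]
    · rw [← h (e + g + n)]
      exact Finset.sum_congr rfl fun j hj => by rw [flat_getD4 (hmem j hj)]
  · rintro ⟨h1, h2, h3, h4⟩ i
    by_cases a1 : i < e
    · rw [← h1 i a1]
      exact Finset.sum_congr rfl fun j hj => by rw [flat_getD1 (hmem j hj) a1]
    by_cases a2 : i < e + g
    · obtain ⟨i', rfl⟩ := Nat.exists_eq_add_of_le (Nat.le_of_not_lt a1)
      have a2' : i' < g := by omega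
      rw [← h2 i' a2']
      exact Finset.sum_congr rfl fun j hj => by rw [flat_getD2 (hmem j hj) a2']
    by_cases a3 : i < e + g + n
    · obtain ⟨i', rfl⟩ := Nat.exists_eq_add_of_le (Nat.le_of_not_lt a2)
      have a3' : i' < n := by omega
      rw [← h3 i' a3']
      exact Finset.sum_congr rfl fun j hj => by rw [flat_getD3 (hmem j hj) a3']
    by_cases a4 : i = e + g + n
    · rw [a4, ← h4]
      exact Finset.sum_congr rfl fun j hj => by rw [flat_getD4 (hmem j hj)]
    · refine Finset.sum_eq_zero fun j hj => ?_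
      rw [List.getD_eq_default _ _ (by rw [flat_length (hmem j hj)]; omega)]
      simp

section

variable (P : LPd) (F G : List ℕ) (k j : ℕ)

def q0 : Qd := ((k :: F).map (fun r => -(rowB P r)), G.map (fun r => -(rowB P r)),
  P.2.map (fun x => -x), 0)

def q1 : Qd := (zeros (k :: F).length, zeros G.length, zeros P.2.length, -1)

def qx (i : ℕ) : Qd := ((k :: F).map (fun r => (rowA P r).getD i 0),
  G.map (fun r => (rowA P r).getD i 0), zeros P.2.length, P.2.getD i 0)

def qs (r : ℕ) : Qd := (zeros (k :: F).length, G.map (fun r' => if r' = r then 1 else 0),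
  zeros P.2.length, 0)

def qy (r : ℕ) : Qd := (zeros (k :: F).length, zeros G.length, rowA P r, -(rowB P r))

def qL : List Qd := [q0 P F G k, q1 P F G k] ++ (List.range P.2.length).map (qx P F G k) ++
  (List.range P.2.length).map (fun i => neg (qx P F G k i)) ++ G.map (qs P F G k) ++
  (j :: F).map (qy P F G k) ++ (j :: F).map (fun r => neg (qy P F G k r)) ++
  G.map (qy P F G k)

theorem gtCols_eq : gtCols P F G k j = (qL P F G k j).map flat := by
  unfold gtCols qL
  simp only [List.map_append, List.map_map, List.map_cons, List.map_nil, Function.comp_def,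
    flat_neg]
  simp only [flat, q0, q1, qx, qs, qy, List.length_cons, List.map_cons]

theorem qL_len (hP : WF P) (hF : ∀ r ∈ F ++ G, r < P.1.length) (hj : j ∈ G) :
    ∀ q ∈ qL P F G k j, Len (k :: F).length G.length P.2.length q := by
  have hy : ∀ r, r < P.1.length → Len (k :: F).length G.length P.2.length (qy P F G k r) := by
    intro r hr
    simp [Len, qy, zeros, hP r hr]
  have hx : ∀ i, Len (k :: F).length G.length P.2.length (qx P F G k i) := by
    intro i
    simp [Len, qx, zeros]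
  have hjF : ∀ r ∈ j :: F, r < P.1.length := by
    intro r hr
    rcases List.mem_cons.1 hr with rfl | h
    · exact hF _ (List.mem_append_right _ hj)
    · exact hF _ (List.mem_append_left _ h)
  intro q hq
  unfold qL at hq
  simp only [List.mem_append, List.mem_map] at hq
  rcases hq with (((((hq | ⟨i, _, rfl⟩) | ⟨i, _, rfl⟩) | ⟨r, _, rfl⟩) | ⟨r, hr, rfl⟩) |
    ⟨r, hr, rfl⟩) | ⟨r, hr, rfl⟩
  · rcases List.mem_cons.1 hq with rfl | hq
    · simp [Len, q0]
    · rw [List.mem_singleton] at hq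
      subst hq
      simp [Len, q1, zeros]
  · exact hx i
  · exact (hx i).neg
  · simp [Len, qs, zeros]
  · exact hy r (hjF r hr)
  · exact (hy r (hjF r hr)).neg
  · exact hy r (hF r (List.mem_append_right _ hr))

theorem sum_qL (d : Qd) (g : Qd → ℝ) (x : ℕ → ℝ) :
    ∑ i ∈ range (qL P F G k j).length, x i * g ((qL P F G k j).getD i d) =
      x 0 * g (q0 P F G k) + x 1 * g (q1 P F G k) +
      ∑ i ∈ range P.2.length, x (2 + i) * g (qx P F G k i) +
      ∑ i ∈ range P.2.length, x (2 + P.2.length + i) * g (neg (qx P F G k i)) +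
      ∑ i ∈ range G.length, x (2 + P.2.length + P.2.length + i) * g (qs P F G k (G.getD i 0)) +
      ∑ i ∈ range (j :: F).length, x (2 + P.2.length + P.2.length + G.length + i) *
        g (qy P F G k ((j :: F).getD i 0)) +
      ∑ i ∈ range (j :: F).length, x (2 + P.2.length + P.2.length + G.length +
        (j :: F).length + i) * g (neg (qy P F G k ((j :: F).getD i 0))) +
      ∑ i ∈ range G.length, x (2 + P.2.length + P.2.length + G.length + (j :: F).length +
        (j :: F).length + i) * g (qy P F G k (G.getD i 0)) := by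
  unfold qL
  rw [sumR_append, sumR_append, sumR_append, sumR_append, sumR_append, sumR_append]
  simp only [List.length_append, List.length_map, List.length_range, List.length_cons,
    List.length_nil]
  have e1 : ∀ (L : List ℕ) (f : ℕ → Qd) (o : ℕ), ∑ i ∈ range L.length,
      x (o + i) * g ((L.map f).getD i d) = ∑ i ∈ range L.length, x (o + i) * g (f (L.getD i 0)) := by
    intro L f o
    refine Finset.sum_congr rfl fun i hi => ?_
    rw [getD_map' f L 0 d (Finset.mem_range.1 hi)]
  have e2 : ∀ (f : ℕ → Qd) (o : ℕ), ∑ i ∈ range P.2.length,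
      x (o + i) * g (((List.range P.2.length).map f).getD i d) =
      ∑ i ∈ range P.2.length, x (o + i) * g (f i) := by
    intro f o
    refine Finset.sum_congr rfl fun i hi => ?_
    have hi' := Finset.mem_range.1 hi
    rw [getD_map' f (List.range P.2.length) 0 d (by simpa using hi'), range_getD hi']
  have e3 := e1 (j :: F)
  simp only [List.length_cons] at e3
  rw [e2, e2, e1 G, e1 G, e3, e3]
  simp [Finset.sum_range_succ]

theorem zeros_getD (n i : ℕ) : (zeros n).getD i 0 = 0 := by
  unfold zeros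
  rw [List.getD_eq_getElem?_getD, List.getElem?_replicate]
  split <;> rfl

theorem vsmul_getD (c : ℤ) (u : List ℤ) (i : ℕ) : (vsmul c u).getD i 0 = c * u.getD i 0 := by
  unfold vsmul
  rw [List.getD_eq_getElem?_getD, List.getElem?_map, List.getD_eq_getElem?_getD]
  cases u[i]? <;> simp

/-- the system -/
def Sys (t s : ℝ) (xp xm σ yp ym yg : ℕ → ℝ) : Prop :=
  (∀ r ∈ k :: F, -(t * (rowB P r : ℝ)) +
    ∑ i ∈ range P.2.length, (xp i - xm i) * (((rowA P r).getD i 0 : ℤ) : ℝ) = 0) ∧
  (∀ a < G.length, -(t * (rowB P (G.getD a 0) : ℝ)) +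
    ∑ i ∈ range P.2.length, (xp i - xm i) * (((rowA P (G.getD a 0)).getD i 0 : ℤ) : ℝ) +
      σ a = 0) ∧
  (∀ i < P.2.length, -(t * ((P.2.getD i 0 : ℤ) : ℝ)) +
    ∑ q ∈ range (j :: F).length, (yp q - ym q) *
      (((rowA P ((j :: F).getD q 0)).getD i 0 : ℤ) : ℝ) +
    ∑ q ∈ range G.length, yg q * (((rowA P (G.getD q 0)).getD i 0 : ℤ) : ℝ) = 0) ∧
  -s + ∑ i ∈ range P.2.length, (xp i - xm i) * ((P.2.getD i 0 : ℤ) : ℝ) -
    ∑ q ∈ range (j :: F).length, (yp q - ym q) * (rowB P ((j :: F).getD q 0) : ℝ) -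
    ∑ q ∈ range G.length, yg q * (rowB P (G.getD q 0) : ℝ) = 0

theorem feasible_iff (hP : WF P) (hF : ∀ r ∈ F ++ G, r < P.1.length) (hj : j ∈ G)
    (hG : G.Nodup) (x : ℕ → ℝ) :
    Feasible (gtCols P F G k j) x ↔ (∀ i, 0 ≤ x i) ∧ Sys P F G k j (x 0) (x 1)
      (fun i => x (2 + i)) (fun i => x (2 + P.2.length + i))
      (fun i => x (2 + P.2.length + P.2.length + i))
      (fun i => x (2 + P.2.length + P.2.length + G.length + i))
      (fun i => x (2 + P.2.length + P.2.length + G.length + (j :: F).length + i))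
      (fun i => x (2 + P.2.length + P.2.length + G.length + (j :: F).length +
        (j :: F).length + i)) := by
  unfold Feasible
  rw [gtCols_eq, rows_iff (qL_len P F G k j hP hF hj) ([], [], [], 0)]
  refine and_congr Iff.rfl ?_
  unfold Sys
  refine and_congr ?_ (and_congr ?_ (and_congr ?_ ?_))
  · constructor
    · intro h r hr
      obtain ⟨a, ha, rfl⟩ := List.getElem_of_mem hr
      have h1 := h a ha
      rw [sum_qL P F G k j ([], [], [], 0) (fun q => ((q.1.getD a 0 : ℤ) : ℝ)) x] at h1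
      simp only [q0, q1, qx, qs, qy, neg, zeros_getD, vsmul_getD] at h1
      simp only [getD_map' (fun r => -(rowB P r)) (k :: F) 0 0 ha,
        fun i => getD_map' (fun r => (rowA P r).getD i 0) (k :: F) 0 0 ha] at h1
      rw [List.getD_eq_getElem _ _ ha] at h1
      simp only [Finset.sum_sub_distrib, sub_mul]
      simp only [Int.cast_neg, Int.cast_zero, mul_zero, Finset.sum_const_zero, Int.cast_mul,
        Int.cast_one, neg_mul, one_mul, mul_neg, Finset.sum_neg_distrib, add_zero] at h1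
      linarith
    · intro h a ha
      have h1 := h _ (List.getElem_mem ha)
      rw [sum_qL P F G k j ([], [], [], 0) (fun q => ((q.1.getD a 0 : ℤ) : ℝ)) x]
      simp only [q0, q1, qx, qs, qy, neg, zeros_getD, vsmul_getD]
      simp only [getD_map' (fun r => -(rowB P r)) (k :: F) 0 0 ha,
        fun i => getD_map' (fun r => (rowA P r).getD i 0) (k :: F) 0 0 ha]
      rw [List.getD_eq_getElem _ _ ha]
      simp only [Finset.sum_sub_distrib, sub_mul] at h1
      simp only [Int.cast_neg, Int.cast_zero, mul_zero, Finset.sum_const_zero, Int.cast_mul,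
        Int.cast_one, neg_mul, one_mul, mul_neg, Finset.sum_neg_distrib, add_zero]
      linarith
  · refine forall_congr' fun a => forall_congr' fun ha => ?_
    rw [sum_qL P F G k j ([], [], [], 0) (fun q => ((q.2.1.getD a 0 : ℤ) : ℝ)) x]
    simp only [q0, q1, qx, qs, qy, neg, zeros_getD, vsmul_getD]
    simp only [getD_map' (fun r => -(rowB P r)) G 0 0 ha,
      fun i => getD_map' (fun r => (rowA P r).getD i 0) G 0 0 ha,
      fun r => getD_map' (fun r' => if r' = r then (1 : ℤ) else 0) G 0 0 ha]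
    have hs : ∑ i ∈ range G.length, x (2 + P.2.length + P.2.length + i) *
        (((if G.getD a 0 = G.getD i 0 then 1 else 0 : ℤ)) : ℝ) =
        x (2 + P.2.length + P.2.length + a) := by
      rw [Finset.sum_eq_single a]
      · simp
      · intro b hb hab
        rw [if_neg]
        · simp
        · rw [List.getD_eq_getElem _ _ ha, List.getD_eq_getElem _ _ (Finset.mem_range.1 hb)]
          intro e
          exact hab ((List.Nodup.getElem_inj_iff hG).1 e).symm
      · intro h
        exact absurd (Finset.mem_range.2 ha) h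
    rw [hs]
    simp only [Finset.sum_sub_distrib, sub_mul]
    simp only [Int.cast_neg, Int.cast_zero, mul_zero, Finset.sum_const_zero, Int.cast_mul,
      Int.cast_one, neg_mul, one_mul, mul_neg, Finset.sum_neg_distrib, add_zero]
    constructor <;> intro h <;> linarith
  · refine forall_congr' fun a => forall_congr' fun ha => ?_
    rw [sum_qL P F G k j ([], [], [], 0) (fun q => ((q.2.2.1.getD a 0 : ℤ) : ℝ)) x]
    simp only [q0, q1, qx, qs, qy, neg, zeros_getD, vsmul_getD]
    simp only [getD_map' (fun x : ℤ => -x) P.2 0 0 ha]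
    simp only [Finset.sum_sub_distrib, sub_mul]
    simp only [Int.cast_neg, Int.cast_zero, mul_zero, Finset.sum_const_zero, Int.cast_mul,
      Int.cast_one, neg_mul, one_mul, mul_neg, Finset.sum_neg_distrib, add_zero]
    constructor <;> intro h <;> linarith
  · rw [sum_qL P F G k j ([], [], [], 0) (fun q => ((q.2.2.2 : ℤ) : ℝ)) x]
    simp only [q0, q1, qx, qs, qy, neg]
    simp only [Finset.sum_sub_distrib, sub_mul]
    simp only [Int.cast_neg, Int.cast_zero, mul_zero, Finset.sum_const_zero, Int.cast_mul,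
      Int.cast_one, neg_mul, one_mul, mul_neg, Finset.sum_neg_distrib, add_zero, neg_neg, mul_one]
    constructor <;> intro h <;> linarith

theorem Sys.congr {t s : ℝ} {xp xm σ yp ym yg xp' xm' σ' yp' ym' yg' : ℕ → ℝ}
    (h : Sys P F G k j t s xp xm σ yp ym yg)
    (h1 : ∀ i < P.2.length, xp i = xp' i) (h2 : ∀ i < P.2.length, xm i = xm' i)
    (h3 : ∀ i < G.length, σ i = σ' i) (h4 : ∀ i < (j :: F).length, yp i = yp' i)
    (h5 : ∀ i < (j :: F).length, ym i = ym' i) (h6 : ∀ i < G.length, yg i = yg' i) :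
    Sys P F G k j t s xp' xm' σ' yp' ym' yg' := by
  have e1 : ∀ c : ℕ → ℝ, ∑ i ∈ range P.2.length, (xp' i - xm' i) * c i =
      ∑ i ∈ range P.2.length, (xp i - xm i) * c i := fun c =>
    Finset.sum_congr rfl fun i hi => by
      rw [h1 i (Finset.mem_range.1 hi), h2 i (Finset.mem_range.1 hi)]
  have e2 : ∀ c : ℕ → ℝ, ∑ i ∈ range (j :: F).length, (yp' i - ym' i) * c i =
      ∑ i ∈ range (j :: F).length, (yp i - ym i) * c i := fun c =>
    Finset.sum_congr rfl fun i hi => by
      rw [h4 i (Finset.mem_range.1 hi), h5 i (Finset.mem_range.1 hi)]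
  have e3 : ∀ c : ℕ → ℝ, ∑ i ∈ range G.length, yg' i * c i =
      ∑ i ∈ range G.length, yg i * c i := fun c =>
    Finset.sum_congr rfl fun i hi => by
      rw [h6 i (Finset.mem_range.1 hi)]
  obtain ⟨a1, a2, a3, a4⟩ := h
  refine ⟨fun r hr => ?_, fun a ha => ?_, fun i hi => ?_, ?_⟩
  · rw [e1]; exact a1 r hr
  · rw [e1, ← h3 a ha]; exact a2 a ha
  · rw [e2, e3]; exact a3 i hi
  · rw [e1, e2, e3]; exact a4

def blk (n : ℕ) (f g : ℕ → ℝ) : ℕ → ℝ := fun i => if i < n then f i else g (i - n)

theorem blk_lt {n : ℕ} {f g : ℕ → ℝ} {i : ℕ} (h : i < n) : blk n f g i = f i := if_pos h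

theorem blk_add {n : ℕ} {f g : ℕ → ℝ} {i : ℕ} : blk n f g (n + i) = g i := by
  unfold blk
  rw [if_neg (by omega), Nat.add_sub_cancel_left]

theorem blk_nonneg {n : ℕ} {f g : ℕ → ℝ} (hf : ∀ i < n, 0 ≤ f i) (hg : ∀ i, 0 ≤ g i) :
    ∀ i, 0 ≤ blk n f g i := by
  intro i
  unfold blk
  split
  · next h => exact hf i h
  · exact hg _

theorem sum_getD (l : List ℕ) (hl : l.Nodup) (f : ℕ → ℝ) :
    ∑ q ∈ range l.length, f (l.getD q 0) = ∑ r ∈ l.toFinset, f r := by
  have key : ∀ l : List ℕ, ∑ q ∈ range l.length, f (l.getD q 0) = (l.map f).sum := by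
    intro l
    induction l with
    | nil => simp
    | cons a l ih =>
      rw [List.length_cons, Finset.sum_range_succ', List.map_cons, List.sum_cons, ← ih]
      simp [add_comm]
  rw [key, List.sum_toFinset _ hl]

end

section

variable {P : LPd} {F G : List ℕ} {k j : ℕ}

theorem exists_xy (hF : (F ++ G).Nodup) (hj : j ∈ G) {t s : ℝ} (ht : 0 < t) (hs : 0 < s)
    {xp xm σ yp ym yg : ℕ → ℝ} (hσ : ∀ i, 0 ≤ σ i) (hyg : ∀ i, 0 ≤ yg i)
    (h : Sys P F G k j t s xp xm σ yp ym yg) :
    ∃ x y : ℕ → ℝ, (∀ r ∈ k :: F, ev P r x = ((rowB P r : ℤ) : ℝ)) ∧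
      (∀ r ∈ G, ev P r x ≤ ((rowB P r : ℤ) : ℝ)) ∧ (∀ r ∈ G, r ≠ j → 0 ≤ y r) ∧
      (∀ i < P.2.length, ∑ r ∈ (F ++ G).toFinset, y r * (((rowA P r).getD i 0 : ℤ) : ℝ) =
        ((P.2.getD i 0 : ℤ) : ℝ)) ∧
      ∑ r ∈ (F ++ G).toFinset, y r * ((rowB P r : ℤ) : ℝ) < cx P x := by
  obtain ⟨h1, h2, h3, h4⟩ := h
  set X : ℕ → ℝ := fun i => (xp i - xm i) / t with hX
  set Y : ℕ → ℝ := fun r => (∑ q ∈ range (j :: F).length, (yp q - ym q) *
      (if (j :: F).getD q 0 = r then 1 else 0) +
    ∑ q ∈ range G.length, yg q * (if G.getD q 0 = r then 1 else 0)) / t with hY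
  have hXs : ∀ c : ℕ → ℝ, ∑ i ∈ range P.2.length, c i * X i =
      (∑ i ∈ range P.2.length, (xp i - xm i) * c i) / t := by
    intro c
    rw [Finset.sum_div]
    exact Finset.sum_congr rfl fun i _ => by rw [hX]; ring
  have hYs : ∀ c : ℕ → ℝ, ∑ r ∈ (F ++ G).toFinset, Y r * c r =
      (∑ q ∈ range (j :: F).length, (yp q - ym q) * c ((j :: F).getD q 0) +
        ∑ q ∈ range G.length, yg q * c (G.getD q 0)) / t := by
    intro c
    have e1 : ∀ r ∈ (F ++ G).toFinset, Y r * c r =
        (∑ q ∈ range (j :: F).length, (yp q - ym q) *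
          (if (j :: F).getD q 0 = r then c r else 0) +
        ∑ q ∈ range G.length, yg q * (if G.getD q 0 = r then c r else 0)) / t := by
      intro r _
      rw [hY]
      simp only
      rw [div_mul_eq_mul_div, add_mul, Finset.sum_mul, Finset.sum_mul]
      congr 2
      · exact Finset.sum_congr rfl fun q _ => by split_ifs <;> ring
      · exact Finset.sum_congr rfl fun q _ => by split_ifs <;> ring
    rw [Finset.sum_congr rfl e1, ← Finset.sum_div, Finset.sum_add_distrib, Finset.sum_comm,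
      Finset.sum_comm (s := (F ++ G).toFinset)]
    congr 2
    · refine Finset.sum_congr rfl fun q hq => ?_
      rw [← Finset.mul_sum, Finset.sum_ite_eq, if_pos]
      rw [List.mem_toFinset, List.mem_append]
      have hq' := Finset.mem_range.1 hq
      have : (j :: F).getD q 0 ∈ j :: F := by
        rw [List.getD_eq_getElem _ _ hq']; exact List.getElem_mem hq'
      rcases List.mem_cons.1 this with e | e
      · rw [e]; exact Or.inr hj
      · exact Or.inl e
    · refine Finset.sum_congr rfl fun q hq => ?_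
      rw [← Finset.mul_sum, Finset.sum_ite_eq, if_pos]
      rw [List.mem_toFinset, List.mem_append]
      have hq' := Finset.mem_range.1 hq
      rw [List.getD_eq_getElem _ _ hq']; exact Or.inr (List.getElem_mem hq')
  refine ⟨X, Y, fun r hr => ?_, fun r hr => ?_, fun r hr hrj => ?_, fun i hi => ?_, ?_⟩
  · have := h1 r hr
    rw [ev, hXs, div_eq_iff ht.ne']
    linarith
  · obtain ⟨a, ha, rfl⟩ := List.getElem_of_mem hr
    have := h2 a ha
    rw [List.getD_eq_getElem _ _ ha] at this
    rw [ev, hXs, div_le_iff₀ ht]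
    linarith [hσ a]
  · rw [hY]
    simp only
    refine div_nonneg (add_nonneg ?_ ?_) ht.le
    · refine le_of_eq (Finset.sum_eq_zero fun q hq => ?_).symm
      rw [if_neg, mul_zero]
      have hq' := Finset.mem_range.1 hq
      have hm : (j :: F).getD q 0 ∈ j :: F := by
        rw [List.getD_eq_getElem _ _ hq']; exact List.getElem_mem hq'
      intro e
      rw [e] at hm
      rcases List.mem_cons.1 hm with e | e
      · exact hrj e
      · exact (List.nodup_append'.1 hF).2.2 e hr
    · refine Finset.sum_nonneg fun q _ => mul_nonneg (hyg q) ?_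
      split_ifs <;> norm_num
  · have := h3 i hi
    rw [hYs (fun r => (((rowA P r).getD i 0 : ℤ) : ℝ)), div_eq_iff ht.ne']
    linarith
  · rw [hYs (fun r => ((rowB P r : ℤ) : ℝ)), cx, hXs, div_lt_div_iff_of_pos_right ht]
    linarith

theorem exists_sys (hF : (F ++ G).Nodup) (hj : j ∈ G) {x y : ℕ → ℝ}
    (h1 : ∀ r ∈ k :: F, ev P r x = ((rowB P r : ℤ) : ℝ))
    (h2 : ∀ r ∈ G, ev P r x ≤ ((rowB P r : ℤ) : ℝ)) (h3 : ∀ r ∈ G, r ≠ j → 0 ≤ y r)
    (h4 : ∀ i < P.2.length, ∑ r ∈ (F ++ G).toFinset, y r * (((rowA P r).getD i 0 : ℤ) : ℝ) =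
        ((P.2.getD i 0 : ℤ) : ℝ))
    (h5 : ∑ r ∈ (F ++ G).toFinset, y r * ((rowB P r : ℤ) : ℝ) < cx P x) :
    ∃ (s : ℝ) (xp xm σ yp ym yg : ℕ → ℝ), 0 < s ∧ (∀ i, 0 ≤ xp i) ∧ (∀ i, 0 ≤ xm i) ∧
      (∀ i < G.length, 0 ≤ σ i) ∧ (∀ i, 0 ≤ yp i) ∧ (∀ i, 0 ≤ ym i) ∧
      (∀ i < G.length, 0 ≤ yg i) ∧ Sys P F G k j 1 s xp xm σ yp ym yg := by
  have hn := List.nodup_append'.1 hF
  have hjF : j ∉ F := fun h => hn.2.2 h hj
  have hG : ∀ i < G.length, G.getD i 0 ∈ G := fun i hi => by
    rw [List.getD_eq_getElem _ _ hi]; exact List.getElem_mem hi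
  have hsum : ∀ c : ℕ → ℝ, ∑ q ∈ range (j :: F).length,
      (max (y ((j :: F).getD q 0)) 0 - max (-(y ((j :: F).getD q 0))) 0) *
        c ((j :: F).getD q 0) +
      ∑ q ∈ range G.length, (if G.getD q 0 = j then 0 else y (G.getD q 0)) * c (G.getD q 0) =
      ∑ r ∈ (F ++ G).toFinset, y r * c r := by
    intro c
    simp only [max_zero_sub_max_neg_zero_eq_self]
    rw [sum_getD (j :: F) (List.nodup_cons.2 ⟨hjF, hn.1⟩) (fun r => y r * c r),
      sum_getD G hn.2.1 (fun r => (if r = j then 0 else y r) * c r), List.toFinset_cons,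
      List.toFinset_append, Finset.sum_insert (by simpa using hjF),
      Finset.sum_union (by
        rw [Finset.disjoint_left]
        intro a ha hb
        exact hn.2.2 (List.mem_toFinset.1 ha) (List.mem_toFinset.1 hb))]
    have e : ∑ r ∈ G.toFinset, y r * c r = y j * c j +
        ∑ r ∈ G.toFinset, (if r = j then 0 else y r) * c r := by
      rw [← Finset.add_sum_erase _ _ (List.mem_toFinset.2 hj),
        ← Finset.add_sum_erase G.toFinset (fun r => (if r = j then 0 else y r) * c r)
          (List.mem_toFinset.2 hj)]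
      simp only [if_true, zero_mul, zero_add]
      congr 1
      refine Finset.sum_congr rfl fun r hr => ?_
      rw [if_neg (Finset.ne_of_mem_erase hr)]
    rw [e]
    ring
  refine ⟨cx P x - ∑ r ∈ (F ++ G).toFinset, y r * ((rowB P r : ℤ) : ℝ),
    fun i => max (x i) 0, fun i => max (-(x i)) 0,
    fun a => (rowB P (G.getD a 0) : ℝ) - ev P (G.getD a 0) x,
    fun q => max (y ((j :: F).getD q 0)) 0, fun q => max (-(y ((j :: F).getD q 0))) 0,
    fun q => if G.getD q 0 = j then 0 else y (G.getD q 0), by linarith,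
    fun i => le_max_right _ _, fun i => le_max_right _ _,
    fun i hi => sub_nonneg.2 (h2 _ (hG i hi)), fun i => le_max_right _ _,
    fun i => le_max_right _ _, fun i hi => ?_, fun r hr => ?_, fun a ha => ?_,
    fun i hi => ?_, ?_⟩
  · simp only
    split_ifs with h
    · exact le_rfl
    · exact h3 _ (hG i hi) h
  · simp only [max_zero_sub_max_neg_zero_eq_self]
    have := h1 r hr
    unfold ev at this
    rw [← this, one_mul, neg_add_eq_zero]
    exact Finset.sum_congr rfl fun i _ => mul_comm _ _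
  · simp only [max_zero_sub_max_neg_zero_eq_self]
    unfold ev
    have : ∑ i ∈ range P.2.length, x i * (((rowA P (G.getD a 0)).getD i 0 : ℤ) : ℝ) =
        ∑ i ∈ range P.2.length, (((rowA P (G.getD a 0)).getD i 0 : ℤ) : ℝ) * x i :=
      Finset.sum_congr rfl fun i _ => mul_comm _ _
    rw [this]
    ring
  · have e := hsum (fun r => (((rowA P r).getD i 0 : ℤ) : ℝ))
    rw [h4 i hi] at e
    simp only at e ⊢
    linarith
  · have e := hsum (fun r => ((rowB P r : ℤ) : ℝ))
    simp only [max_zero_sub_max_neg_zero_eq_self] at e ⊢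
    have : ∑ i ∈ range P.2.length, x i * ((P.2.getD i 0 : ℤ) : ℝ) = cx P x := by
      unfold cx
      exact Finset.sum_congr rfl fun i _ => mul_comm _ _
    rw [this]
    linarith

theorem Feasible.add {cols : List (List ℤ)} {x y : ℕ → ℝ} (hx : Feasible cols x)
    (hy : Feasible cols y) : Feasible cols (fun i => x i + y i) := by
  refine ⟨fun i => add_nonneg (hx.1 i) (hy.1 i), fun i => ?_⟩
  simp only [add_mul, Finset.sum_add_distrib, hx.2 i, hy.2 i, add_zero]

end

end GtQ

open GtQ in
theorem gtQ_spec {P : LPd} (hP : WF P) {F G : List ℕ} (h : FG P.1.length F G) {k j : ℕ}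
    (hk : k ∈ G) (hj : j ∈ G) :
    gtQ P F G k j = true ↔ ∃ x y : ℕ → ℝ, (∀ r ∈ k :: F, ev P r x = ((rowB P r : ℤ) : ℝ)) ∧
      (∀ r ∈ G, ev P r x ≤ ((rowB P r : ℤ) : ℝ)) ∧ (∀ r ∈ G, r ≠ j → 0 ≤ y r) ∧
      (∀ i < P.2.length, ∑ r ∈ (F ++ G).toFinset, y r * (((rowA P r).getD i 0 : ℤ) : ℝ) =
        ((P.2.getD i 0 : ℤ) : ℝ)) ∧
      ∑ r ∈ (F ++ G).toFinset, y r * ((rowB P r : ℤ) : ℝ) < cx P x := by
  obtain ⟨hnd, hlt⟩ := h
  have hG : G.Nodup := (List.nodup_append'.1 hnd).2.1
  have hc : ∀ c ∈ gtCols P F G k j, c.length = (k :: F).length + G.length + P.2.length + 1 := by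
    intro c hc
    rw [gtCols_eq] at hc
    obtain ⟨q, hq, rfl⟩ := List.mem_map.1 hc
    exact flat_length (qL_len P F G k j hP hlt hj q hq)
  have hlen : 2 ≤ (gtCols P F G k j).length := by
    unfold gtCols
    simp
  obtain ⟨_, hspec⟩ := posMask_spec hc
  unfold gtQ
  rw [Bool.and_eq_true, hspec 0 (by omega), hspec 1 (by omega)]
  constructor
  · rintro ⟨⟨x1, hx1, h1⟩, ⟨x2, hx2, h2⟩⟩
    have hx := Feasible.add hx1 hx2
    have := (feasible_iff P F G k j hP hlt hj hG _).1 hx
    refine exists_xy hnd hj ?_ ?_ (fun i => this.1 _) (fun i => this.1 _) this.2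
    · exact add_pos_of_pos_of_nonneg h1 (hx2.1 0)
    · exact add_pos_of_nonneg_of_pos (hx1.1 1) h2
  · rintro ⟨x, y, h1, h2, h3, h4, h5⟩
    obtain ⟨s, xp, xm, σ, yp, ym, yg, hs, hxp, hxm, hσ, hyp, hym, hyg, hS⟩ :=
      exists_sys hnd hj h1 h2 h3 h4 h5
    set z : ℕ → ℝ := blk 2 (fun i => if i = 0 then 1 else s) (blk P.2.length xp
      (blk P.2.length xm (blk G.length σ (blk (j :: F).length yp (blk (j :: F).length ym
        (blk G.length yg fun _ => 0)))))) with hz
    have z0 : z 0 = 1 := by rw [hz, blk_lt (by norm_num)]; simp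
    have z1 : z 1 = s := by rw [hz, blk_lt (by norm_num)]; simp
    have hfe : Feasible (gtCols P F G k j) z := by
      rw [feasible_iff P F G k j hP hlt hj hG]
      refine ⟨?_, ?_⟩
      · refine blk_nonneg (fun i _ => ?_) (blk_nonneg (fun i _ => hxp i)
          (blk_nonneg (fun i _ => hxm i) (blk_nonneg hσ (blk_nonneg (fun i _ => hyp i)
            (blk_nonneg (fun i _ => hym i) (blk_nonneg hyg fun _ => le_rfl))))))
        split_ifs
        · norm_num
        · exact hs.le
      · rw [z0, z1]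
        refine Sys.congr P F G k j hS (fun i hi => ?_) (fun i hi => ?_) (fun i hi => ?_)
          (fun i hi => ?_) (fun i hi => ?_) (fun i hi => ?_)
        · rw [hz, blk_add, blk_lt hi]
        · rw [hz]
          simp only [Nat.add_assoc]
          rw [blk_add, blk_add, blk_lt hi]
        · rw [hz]
          simp only [Nat.add_assoc]
          rw [blk_add, blk_add, blk_add, blk_lt hi]
        · rw [hz]
          simp only [Nat.add_assoc]
          rw [blk_add, blk_add, blk_add, blk_add, blk_lt hi]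
        · rw [hz]
          simp only [Nat.add_assoc]
          rw [blk_add, blk_add, blk_add, blk_add, blk_add, blk_lt hi]
        · rw [hz]
          simp only [Nat.add_assoc]
          rw [blk_add, blk_add, blk_add, blk_add, blk_add, blk_add, blk_lt hi]
    refine ⟨⟨z, hfe, ?_⟩, ⟨z, hfe, ?_⟩⟩
    · rw [z0]; norm_num
    · rw [z1]; exact hs

end Pool.Agent.H24U
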