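import Pool.Agent.H24R2.U.Spec2

set_option autoImplicit false

/-!
# The instance and the initial basis
-/

namespace Pool.Agent.H24U

open Pool.Agent.H670R2 Pool.Agent.H24R2 Matrix Function
open Pool.Agent.NPC hiding Poly

namespace InitAux

lemma lden_pos (l : List ℚ) : 0 < lden l := by
  unfold lden
  induction l with
  | nil => simp
  | cons q l ih =>
    simp only [List.map_cons, List.foldr_cons]
    exact Nat.mul_pos q.pos ih

lemma dvd_lden {l : List ℚ} {q : ℚ} (h : q ∈ l) : q.den ∣ lden l := by
  unfold lden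
  induction l with
  | nil => simp at h
  | cons a l ih =>
    simp only [List.map_cons, List.foldr_cons]
    rcases List.mem_cons.1 h with rfl | h
    · exact dvd_mul_right _ _
    · exact dvd_mul_of_dvd_right (ih h) _

lemma cast_num (D : ℕ) (q : ℚ) (h : q.den ∣ D) :
    ((q.num * ((D / q.den : ℕ) : ℤ) : ℤ) : ℝ) = D * (q : ℝ) := by
  obtain ⟨k, rfl⟩ := h
  have hd : (q.den : ℝ) ≠ 0 := by exact_mod_cast q.den_nz
  rw [Nat.mul_div_cancel_left _ q.pos]
  have h1 : (q : ℝ) = (q.num : ℝ) / (q.den : ℝ) := Rat.cast_def q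
  rw [h1]
  push_cast
  field_simp

lemma intVec_getD (D : ℕ) (l : List ℚ) (h : ∀ q ∈ l, q.den ∣ D) (i : ℕ) :
    (((intVec D l).getD i 0 : ℤ) : ℝ) = D * ((l.getD i 0 : ℚ) : ℝ) := by
  rcases lt_or_ge i l.length with hi | hi
  · rw [List.getD_eq_getElem _ _ (by rwa [length_intVec]), List.getD_eq_getElem _ _ hi]
    simp only [intVec, List.getElem_map]
    exact cast_num D _ (h _ (List.getElem_mem hi))
  · rw [List.getD_eq_default _ _ (by rwa [length_intVec]), List.getD_eq_default _ _ hi]
    simp

section rows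

variable {m n : ℕ} (A : Fin m → Fin n → ℚ) (b : Fin m → ℚ) (c v : Fin n → ℚ)

lemma getD_lt (i : Fin m) : (toP (mkInst A b c v)).1.getD i ([], 0) =
    (intVec (lden (b i :: List.ofFn (A i))) (List.ofFn (A i)),
      (b i).num * ((lden (b i :: List.ofFn (A i)) / (b i).den : ℕ) : ℤ)) := by
  have h1 : (i : ℕ) < (toP (mkInst A b c v)).1.length := by
    rw [(toP_len A b c v).1]
    omega
  rw [List.getD_eq_getElem _ _ h1]
  simp only [toP, mkInst]
  rw [List.getElem_append_left (by simp)]
  simp

lemma getD_ge (j : Fin n) : (toP (mkInst A b c v)).1.getD (m + j) ([], 0) =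
    ((List.range n).map (fun i => if i = (j : ℕ) then (-1 : ℤ) else 0), (0 : ℤ)) := by
  have h1 : m + (j : ℕ) < (toP (mkInst A b c v)).1.length := by
    rw [(toP_len A b c v).1]
    omega
  rw [List.getD_eq_getElem _ _ h1]
  simp only [toP, mkInst]
  rw [List.getElem_append_right (by simp)]
  simp

lemma getD_out (r : ℕ) (h : m + n ≤ r) :
    (toP (mkInst A b c v)).1.getD r ([], 0) = ([], 0) :=
  List.getD_eq_default _ _ (by rwa [(toP_len A b c v).1])

end rows

end InitAux

open InitAux

theorem toP_poly {m n : ℕ} (A : Fin m → Fin n → ℚ) (b : Fin m → ℚ) (c v : Fin n → ℚ)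
    (z : Fin n → ℝ) :
    ((fun i => z (Fin.cast (toP_len A b c v).2.1 i)) ∈
        poly (aR (toP (mkInst A b c v))) (bR (toP (mkInst A b c v))) ↔
      z ∈ Poly (fun i j => (A i j : ℝ)) (fun i => (b i : ℝ))) ∧
    (∑ i, cR (toP (mkInst A b c v)) i * z (Fin.cast (toP_len A b c v).2.1 i) =
      (lden (List.ofFn c) : ℝ) * obj (fun j => (c j : ℝ)) z) ∧ 0 < lden (List.ofFn c) := by
  have hlen := (toP_len A b c v).2.1
  -- sums over the two index sets
  have hsum : ∀ (f : Fin (toP (mkInst A b c v)).2.length → ℝ) (g : Fin n → ℝ),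
      (∀ i, f i = g (Fin.cast hlen i)) → ∑ i, f i = ∑ j, g j := by
    intro f g hfg
    exact Fintype.sum_equiv (finCongr hlen) f g hfg
  -- the first `m` constraints
  have hlt : ∀ i : Fin m, (aR (toP (mkInst A b c v)) i ⬝ᵥ
      (fun i => z (Fin.cast hlen i)) ≤ bR (toP (mkInst A b c v)) i ↔
      ∑ j, (A i j : ℝ) * z j ≤ b i) := by
    intro i
    set D := lden (b i :: List.ofFn (A i)) with hD
    have hD0 : (0 : ℝ) < D := by exact_mod_cast lden_pos _
    have e1 : aR (toP (mkInst A b c v)) i ⬝ᵥ (fun i => z (Fin.cast hlen i)) =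
        D * ∑ j, (A i j : ℝ) * z j := by
      rw [Finset.mul_sum]
      apply hsum
      intro k
      simp only [aR, rowA, getD_lt A b c v i]
      rw [intVec_getD _ _ (fun q hq => dvd_lden (List.mem_cons_of_mem _ hq))]
      have hk : (k : ℕ) < n := by have := k.isLt; omega
      rw [List.getD_eq_getElem _ _ (by simpa using hk)]
      simp only [List.getElem_ofFn]
      rw [mul_assoc]
      rfl
    have e2 : bR (toP (mkInst A b c v)) i = D * (b i : ℝ) := by
      simp only [bR, rowB, getD_lt A b c v i]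
      exact cast_num D _ (dvd_lden List.mem_cons_self)
    rw [e1, e2]
    exact mul_le_mul_iff_right₀ hD0
  -- the sign constraints
  have hge : ∀ j : Fin n, (aR (toP (mkInst A b c v)) (m + j) ⬝ᵥ
      (fun i => z (Fin.cast hlen i)) ≤ bR (toP (mkInst A b c v)) (m + j) ↔ 0 ≤ z j) := by
    intro j
    have e1 : aR (toP (mkInst A b c v)) (m + j) ⬝ᵥ (fun i => z (Fin.cast hlen i)) =
        ∑ k, (if k = j then (-1 : ℝ) else 0) * z k := by
      apply hsum
      intro k
      simp only [aR, rowA, getD_ge A b c v j]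
      have hk : (k : ℕ) < n := by have := k.isLt; omega
      rw [List.getD_eq_getElem _ _ (by simpa using hk)]
      simp only [List.getElem_map, List.getElem_range, Fin.ext_iff, Fin.val_cast]
      split_ifs <;> simp
    have e2 : bR (toP (mkInst A b c v)) (m + j) = 0 := by
      simp only [bR, rowB, getD_ge A b c v j]
      simp
    rw [e1, e2]
    simp
  refine ⟨⟨fun h => ⟨fun i => (hlt i).1 (h i), fun j => (hge j).1 (h (m + j))⟩, fun h r => ?_⟩,
    ?_, lden_pos _⟩
  · rcases lt_or_ge r m with hr | hr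
    · exact (hlt ⟨r, hr⟩).2 (h.1 ⟨r, hr⟩)
    · rcases lt_or_ge r (m + n) with hr2 | hr2
      · obtain ⟨k, rfl⟩ := Nat.exists_eq_add_of_le hr
        exact (hge ⟨k, by omega⟩).2 (h.2 ⟨k, by omega⟩)
      · have e1 : aR (toP (mkInst A b c v)) r = 0 := by
          ext k
          simp only [aR, rowA, getD_out A b c v r hr2]
          simp
        have e2 : bR (toP (mkInst A b c v)) r = 0 := by
          simp only [bR, rowB, getD_out A b c v r hr2]
          simp
        rw [e1, e2, zero_dotProduct]
  · unfold obj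
    rw [Finset.mul_sum]
    apply hsum
    intro k
    have hk : (k : ℕ) < n := by have := k.isLt; omega
    have e1 : cR (toP (mkInst A b c v)) k = (lden (List.ofFn c) : ℝ) *
        (c (Fin.cast hlen k) : ℝ) := by
      simp only [cR, toP, mkInst]
      rw [intVec_getD _ _ (fun q hq => dvd_lden hq), List.getD_eq_getElem _ _ (by simpa using hk)]
      simp only [List.getElem_ofFn]
      rfl
    rw [e1]
    ring

namespace InitAux

/-- the point as a real vector -/
noncomputable def pt (P : LPd) (x : List ℚ) : Fin P.2.length → ℝ :=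
  fun i => ((x.getD i 0 : ℚ) : ℝ)

lemma cast_dotL {P : LPd} (hP : WF P) {r : ℕ} (hr : r < P.1.length) (y : List ℤ) :
    ((dotL (rowA P r) y : ℤ) : ℝ) = ∑ i : Fin P.2.length, aR P r i * ((y.getD i 0 : ℤ) : ℝ) := by
  rw [dotL_eq_sum, hP r hr]
  push_cast
  rw [Finset.sum_range]
  rfl

lemma tight_iff {P : LPd} (hP : WF P) (x : List ℚ) {r : ℕ} (hr : r < P.1.length) :
    dotL (rowA P r) (intVec (lden x) x) = (lden x : ℤ) * rowB P r ↔
      aR P r ⬝ᵥ pt P x = bR P r := by
  have hD : (0 : ℝ) < lden x := by exact_mod_cast lden_pos x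
  have h1 : ((dotL (rowA P r) (intVec (lden x) x) : ℤ) : ℝ) =
      (lden x : ℝ) * (aR P r ⬝ᵥ pt P x) := by
    rw [cast_dotL hP hr, dotProduct, Finset.mul_sum]
    refine Finset.sum_congr rfl fun i _ => ?_
    rw [intVec_getD _ _ (fun q hq => dvd_lden hq)]
    unfold pt
    ring
  constructor
  · intro h
    have h2 : ((dotL (rowA P r) (intVec (lden x) x) : ℤ) : ℝ) =
        ((((lden x : ℤ) * rowB P r : ℤ)) : ℝ) := by rw [h]
    rw [h1] at h2
    push_cast at h2
    exact mul_left_cancel₀ hD.ne' h2
  · intro h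
    rw [h] at h1
    have h2 : ((dotL (rowA P r) (intVec (lden x) x) : ℤ) : ℝ) =
        (((lden x : ℤ) * rowB P r : ℤ) : ℝ) := by
      rw [h1]
      push_cast
      rfl
    exact_mod_cast h2

/-- Gram determinants -/
lemma gdet_ne_zero_iff {P : LPd} (hP : WF P) {l : List ℕ} (hl : ∀ r ∈ l, r < P.1.length) :
    gdet (bas P l) ≠ 0 ↔ LinearIndependent ℝ (fun p : Fin l.length => aR P (l.get p)) := by
  classical
  set M : Matrix (Fin l.length) (Fin P.2.length) ℝ := Matrix.of fun p => aR P (l.get p) with hM
  have hlen : (bas P l).length = l.length := by simp [bas]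
  have h1 : (((gramM (bas P l)).det : ℤ) : ℝ) = (M * Mᵀ).det := by
    have e1 : (((gramM (bas P l)).det : ℤ) : ℝ) =
        ((gramM (bas P l)).map (Int.castRingHom ℝ)).det :=
      RingHom.map_det (Int.castRingHom ℝ) (gramM (bas P l))
    rw [e1, ← Matrix.det_submatrix_equiv_self (finCongr hlen) (M * Mᵀ)]
    congr 1
    ext i j
    rw [Matrix.submatrix_apply, Matrix.mul_apply, Matrix.map_apply]
    have hi : (i : ℕ) < l.length := by have := i.isLt; omega
    have hj : (j : ℕ) < l.length := by have := j.isLt; omega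
    have e2 : gramM (bas P l) i j = dotL (rowA P (l.get ⟨i, hi⟩)) (rowA P (l.get ⟨j, hj⟩)) := by
      simp only [gramM, bas, List.get_eq_getElem, List.getElem_map]
      rfl
    rw [e2]
    change ((dotL (rowA P (l.get ⟨i, hi⟩)) (rowA P (l.get ⟨j, hj⟩)) : ℤ) : ℝ) = _
    rw [cast_dotL hP (hl _ (List.get_mem _ _))]
    rfl
  have h2 : gdet (bas P l) ≠ 0 ↔ (M * Mᵀ).det ≠ 0 := by
    rw [gdet_eq, ← h1, Int.natAbs_ne_zero, Int.cast_ne_zero]
  rw [h2, not_iff_comm, Fintype.linearIndependent_iff, ← Matrix.exists_mulVec_eq_zero_iff]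
  have h3 : ∀ y : Fin l.length → ℝ, (M * Mᵀ) *ᵥ y = 0 ↔ ∑ p, y p • aR P (l.get p) = 0 := by
    intro y
    have h4 := Matrix.self_mul_conjTranspose_mulVec_eq_zero M y
    rw [Matrix.conjTranspose_eq_transpose_of_trivial] at h4
    rw [h4]
    have h5 : Mᵀ *ᵥ y = ∑ p, y p • aR P (l.get p) := by
      ext i
      simp only [Matrix.mulVec, dotProduct, transpose_apply, Finset.sum_apply, Pi.smul_apply,
        smul_eq_mul, hM, of_apply]
      exact Finset.sum_congr rfl fun p _ => mul_comm _ _
    rw [h5]
  constructor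
  · intro h
    by_contra hcon
    apply h
    intro g hg
    by_contra hne
    apply hcon
    refine ⟨g, ?_, (h3 g).2 hg⟩
    intro h0
    apply hne
    intro i
    rw [h0]
    rfl
  · rintro ⟨y, hy0, hy⟩ hcon
    apply hy0
    ext p
    exact hcon y ((h3 y).1 hy) p

lemma gdet_ne_zero_iff' {P : LPd} (hP : WF P) {l : List ℕ} (hl : ∀ r ∈ l, r < P.1.length)
    (hn : l.Nodup) :
    gdet (bas P l) ≠ 0 ↔ LinearIndepOn ℝ (aR P) {r | r ∈ l} := by
  classical
  rw [gdet_ne_zero_iff hP hl]
  exact linearIndependent_equiv' (List.Nodup.getEquiv l hn) rfl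

/-- the greedy algorithm -/
def greedy (P : LPd) (x : List ℚ) (k : ℕ) : List ℕ :=
  (List.range k).foldl (fun acc r =>
    if dotL (rowA P r) (intVec (lden x) x) = (lden x : ℤ) * rowB P r ∧
        gdet (bas P (acc ++ [r])) ≠ 0 then acc ++ [r] else acc) []

lemma greedy_succ (P : LPd) (x : List ℚ) (k : ℕ) : greedy P x (k + 1) =
    if dotL (rowA P k) (intVec (lden x) x) = (lden x : ℤ) * rowB P k ∧
        gdet (bas P (greedy P x k ++ [k])) ≠ 0 then greedy P x k ++ [k] else greedy P x k := by
  unfold greedy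
  rw [List.range_succ, List.foldl_append]
  rfl

lemma greedy_spec {P : LPd} (hP : WF P) (x : List ℚ) (k : ℕ) (hk : k ≤ P.1.length) :
    (greedy P x k).Nodup ∧ (∀ r ∈ greedy P x k, r < k) ∧
      (∀ r ∈ greedy P x k, aR P r ⬝ᵥ pt P x = bR P r) ∧
      LinearIndepOn ℝ (aR P) {r | r ∈ greedy P x k} ∧
      ∀ r < k, aR P r ⬝ᵥ pt P x = bR P r →
        aR P r ∈ Submodule.span ℝ (aR P '' {r | r ∈ greedy P x k}) := by
  classical
  induction k with
  | zero =>
    refine ⟨by simp [greedy], by simp [greedy], by simp [greedy], ?_, by simp⟩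
    have : {r | r ∈ greedy P x 0} = ∅ := by
      ext r
      simp [greedy]
    rw [this]
    exact linearIndepOn_empty _ _
  | succ k ih =>
    obtain ⟨h1, h2, h3, h4, h5⟩ := ih (by omega)
    have hkn : k ∉ greedy P x k := fun h => lt_irrefl _ (h2 k h)
    have hnd : (greedy P x k ++ [k]).Nodup := by
      rw [List.nodup_append]
      refine ⟨h1, List.nodup_singleton k, ?_⟩
      intro a ha b hb
      rw [List.mem_singleton] at hb
      rintro rfl
      rw [hb] at ha
      exact hkn ha
    have hlt : ∀ r ∈ greedy P x k ++ [k], r < P.1.length := by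
      intro r hr
      rw [List.mem_append, List.mem_singleton] at hr
      rcases hr with hr | rfl
      · have := h2 r hr
        omega
      · omega
    have hset : {r | r ∈ greedy P x k ++ [k]} = insert k {r | r ∈ greedy P x k} := by
      ext r
      simp only [Set.mem_ofPred_eq, List.mem_append, List.mem_singleton, Set.mem_insert_iff]
      tauto
    rw [greedy_succ]
    by_cases hc : dotL (rowA P k) (intVec (lden x) x) = (lden x : ℤ) * rowB P k ∧
        gdet (bas P (greedy P x k ++ [k])) ≠ 0
    · rw [if_pos hc]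
      refine ⟨hnd, ?_, ?_, (gdet_ne_zero_iff' hP hlt hnd).1 hc.2, ?_⟩
      · intro r hr
        rw [List.mem_append, List.mem_singleton] at hr
        rcases hr with hr | rfl
        · have := h2 r hr
          omega
        · omega
      · intro r hr
        rw [List.mem_append, List.mem_singleton] at hr
        rcases hr with hr | rfl
        · exact h3 r hr
        · exact (tight_iff hP x (by omega)).1 hc.1
      · intro r hr ht
        rw [hset]
        rcases Nat.lt_succ_iff_lt_or_eq.1 hr with h | rfl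
        · exact Submodule.span_mono (Set.image_mono (Set.subset_insert _ _)) (h5 r h ht)
        · exact Submodule.subset_span ⟨r, Set.mem_insert _ _, rfl⟩
    · rw [if_neg hc]
      refine ⟨h1, fun r hr => (h2 r hr).trans (Nat.lt_succ_self k), h3, h4, ?_⟩
      intro r hr ht
      rcases Nat.lt_succ_iff_lt_or_eq.1 hr with h | rfl
      · exact h5 r h ht
      · by_contra hcon
        apply hc
        refine ⟨(tight_iff hP x (by omega)).2 ht, ?_⟩
        rw [gdet_ne_zero_iff' hP hlt hnd, hset]
        exact (linearIndepOn_insert (by simpa using hkn)).2 ⟨h4, hcon⟩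

/-- the greedy basis at an extreme point -/
lemma basis_spec {P : LPd} (hP : WF P) (x : List ℚ)
    (hx : pt P x ∈ (poly (aR P) (bR P)).extremePoints ℝ) :
    Sel P (basis0 P x) ∧ dt (aR P) (bv P (basis0 P x)) ≠ 0 ∧
      pt P x = bpt (aR P) (bR P) (bv P (basis0 P x)) := by
  classical
  have hb : basis0 P x = greedy P x P.1.length := rfl
  obtain ⟨h1, h2, h3, h4, h5⟩ := greedy_spec hP x P.1.length le_rfl
  rw [← hb] at h1 h2 h3 h4 h5
  -- the family indexed by `Fin`
  have hind : LinearIndependent ℝ
      (fun p : Fin (basis0 P x).length => aR P ((basis0 P x).get p)) :=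
    (gdet_ne_zero_iff hP h2).1 ((gdet_ne_zero_iff' hP h2 h1).2 h4)
  have hrange : Set.range (fun p : Fin (basis0 P x).length => aR P ((basis0 P x).get p)) =
      aR P '' {r | r ∈ basis0 P x} := by
    ext a
    constructor
    · rintro ⟨p, rfl⟩
      exact ⟨_, List.get_mem _ _, rfl⟩
    · rintro ⟨r, hr, rfl⟩
      obtain ⟨p, hp⟩ := List.get_of_mem hr
      exact ⟨p, by simp only; rw [hp]⟩
  -- it spans
  have hspan : Submodule.span ℝ
      (Set.range (fun p : Fin (basis0 P x).length => aR P ((basis0 P x).get p))) = ⊤ := by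
    rw [hrange]
    by_contra hcon
    obtain ⟨f, hf0, hf⟩ := Submodule.exists_le_ker_of_lt_top _ (lt_top_iff_ne_top.2 hcon)
    set u : Fin P.2.length → ℝ := fun i => f (Pi.single i 1) with hu
    have hfu : ∀ a : Fin P.2.length → ℝ, f a = a ⬝ᵥ u := by
      intro a
      have e : a = ∑ i, a i • (Pi.single i (1 : ℝ) : Fin P.2.length → ℝ) := by
        ext j
        simp [Finset.sum_apply, Pi.single_apply]
      conv_lhs => rw [e]
      rw [map_sum]
      simp only [map_smul, smul_eq_mul]
      rfl
    have hu0 : u ≠ 0 := by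
      intro h0
      apply hf0
      ext a
      rw [LinearMap.comp_apply, hfu, h0]
      simp
    have hpoly : poly (fun r : Fin P.1.length => aR P r) (fun r : Fin P.1.length => bR P r) =
        poly (aR P) (bR P) := by
      ext z
      constructor
      · intro h r
        rcases lt_or_ge r P.1.length with hr | hr
        · exact h ⟨r, hr⟩
        · have e0 : P.1.getD r ([], 0) = ([], 0) := List.getD_eq_default _ _ hr
          have e1 : aR P r = 0 := by
            ext k
            simp only [aR, rowA, e0]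
            simp
          have e2 : bR P r = 0 := by
            simp only [bR, rowB, e0]
            simp
          rw [e1, e2, zero_dotProduct]
      · intro h r
        exact h r
    rw [← hpoly] at hx
    obtain ⟨r, hr1, hr2⟩ := exists_tight_of_extreme hx hu0
    apply hr2
    have := hf (h5 r r.isLt hr1)
    rw [LinearMap.mem_ker, hfu] at this
    exact this
  have hlen : (basis0 P x).length = P.2.length := by
    have hB := Module.finrank_eq_card_basis (Module.Basis.mk hind hspan.ge)
    rw [Module.finrank_fin_fun, Fintype.card_fin] at hB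
    exact hB.symm
  have hbv : ∀ i : Fin P.2.length, bv P (basis0 P x) i = (basis0 P x).get (Fin.cast hlen.symm i) := by
    intro i
    unfold bv
    rw [List.getD_eq_getElem _ _ (by rw [hlen]; exact i.isLt)]
    rfl
  have hdt : dt (aR P) (bv P (basis0 P x)) ≠ 0 := by
    unfold dt
    have hrows : LinearIndependent ℝ (bm (aR P) (bv P (basis0 P x))).row := by
      have := hind.comp (Fin.cast hlen.symm) (Fin.cast_injective _)
      convert this using 1
      ext i j
      simp only [bm, Matrix.row, of_apply, Function.comp_apply]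
      rw [hbv]
    have := Matrix.linearIndependent_rows_iff_isUnit.1 hrows
    rw [Matrix.isUnit_iff_isUnit_det] at this
    exact this.ne_zero
  refine ⟨⟨hlen, h1, h2⟩, hdt, ?_⟩
  apply eq_bpt_of_tight hdt
  intro i
  apply h3
  rw [hbv]
  exact List.get_mem _ _

end InitAux

theorem basis0_spec {m n : ℕ} (A : Fin m → Fin n → ℚ) (b : Fin m → ℚ) (c v : Fin n → ℚ)
    (hv : (fun j => (v j : ℝ)) ∈
      (Poly (fun i j => (A i j : ℝ)) (fun i => (b i : ℝ))).extremePoints ℝ) :
    Sel (toP (mkInst A b c v)) (basis0 (toP (mkInst A b c v)) (List.ofFn v)) ∧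
    dt (aR (toP (mkInst A b c v))) (bv (toP (mkInst A b c v))
      (basis0 (toP (mkInst A b c v)) (List.ofFn v))) ≠ 0 ∧
    (fun i => ((v (Fin.cast (toP_len A b c v).2.1 i) : ℚ) : ℝ)) =
      bpt (aR (toP (mkInst A b c v))) (bR (toP (mkInst A b c v))) (bv (toP (mkInst A b c v))
        (basis0 (toP (mkInst A b c v)) (List.ofFn v))) := by
  have hlen := (toP_len A b c v).2.1
  have hpt : pt (toP (mkInst A b c v)) (List.ofFn v) =
      fun i => ((v (Fin.cast (toP_len A b c v).2.1 i) : ℚ) : ℝ) := by
    ext i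
    have hk : (i : ℕ) < n := by have := i.isLt; omega
    simp only [pt]
    rw [List.getD_eq_getElem _ _ (by simpa using hk)]
    simp only [List.getElem_ofFn]
    rfl
  have hx : pt (toP (mkInst A b c v)) (List.ofFn v) ∈
      (poly (aR (toP (mkInst A b c v))) (bR (toP (mkInst A b c v)))).extremePoints ℝ := by
    rw [hpt]
    refine ⟨(toP_poly A b c v _).1.2 hv.1, ?_⟩
    intro z₁ h1 z₂ h2 hz
    have e1 : (fun i => (fun j => z₁ (Fin.cast hlen.symm j)) (Fin.cast (toP_len A b c v).2.1 i)) =
        z₁ := by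
      ext i
      rfl
    have e2 : (fun i => (fun j => z₂ (Fin.cast hlen.symm j)) (Fin.cast (toP_len A b c v).2.1 i)) =
        z₂ := by
      ext i
      rfl
    have h1' : (fun j => z₁ (Fin.cast hlen.symm j)) ∈
        Poly (fun i j => (A i j : ℝ)) (fun i => (b i : ℝ)) := by
      rw [← (toP_poly A b c v _).1, e1]
      exact h1
    have h2' : (fun j => z₂ (Fin.cast hlen.symm j)) ∈
        Poly (fun i j => (A i j : ℝ)) (fun i => (b i : ℝ)) := by
      rw [← (toP_poly A b c v _).1, e2]
      exact h2
    have h3 := hv.2 h1' h2' (by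
      obtain ⟨s, t, hs, ht, hst, h⟩ := hz
      refine ⟨s, t, hs, ht, hst, ?_⟩
      ext j
      have := congrFun h (Fin.cast hlen.symm j)
      simpa using this)
    rw [← e1]
    ext i
    exact congrFun h3 (Fin.cast hlen i)
  have := basis_spec (toP_len A b c v).2.2 (List.ofFn v) hx
  rw [hpt] at this
  exact this

end Pool.Agent.H24U
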