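import Pool.Agent.H24R2.U.Spec

set_option autoImplicit false

/-!
# Analysis of the simplex machine
-/

namespace Pool.Agent.H24U

open Function

section

variable {o : Orc}

/-! ### Single steps -/

lemma step_call (v : List ℕ) (F G : List ℕ) (st : ℕ × ℕ) (rest : List Frame) (x : ℕ) :
    step o (v, (((F, G), st) :: rest, (0, x))) = callStep o v F G rest := by
  simp [step]

lemma step_ret (v : List ℕ) (F G : List ℕ) (st : ℕ × ℕ) (rest : List Frame) (x : ℕ) :
    step o (v, (((F, G), st) :: rest, (1, x))) = retStep o v F G st rest := by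
  simp [step]

lemma step_enter (v : List ℕ) (F G : List ℕ) (st : ℕ × ℕ) (rest : List Frame) (x : ℕ) :
    step o (v, (((F, G), st) :: rest, (2, x))) = enterStep o v F G st rest x := by
  simp [step]

lemma step_empty (v : List ℕ) (x : ℕ) :
    step o (v, ([], (1, x))) = (v, ([], (3, 0))) := by
  simp [step]

lemma step_halt (c : Cfg) (h : c.2.2.1 = 3) : step o c = c := by
  simp [step, h]

lemma fst_call (v F G : List ℕ) (rest : List Frame) : (callStep o v F G rest).1 = v := by
  unfold callStep
  split_ifs <;> rfl

lemma fst_enter (v F G : List ℕ) (st : ℕ × ℕ) (rest : List Frame) (r : ℕ) :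
    (enterStep o v F G st rest r).1 = v := by
  unfold enterStep
  split_ifs <;> rfl

end

section

variable {n R : ℕ} {o : Orc} {f : List ℕ → ℝ} {ok : List ℕ → Prop}

lemma fst_ret (h : Sem n R o f ok) {v : List ℕ} (hv : ok v) (F G : List ℕ) (st : ℕ × ℕ)
    (rest : List Frame) :
    (retStep o v F G st rest).1 = v ∨ Pivot o v (retStep o v F G st rest).1 := by
  unfold retStep
  split_ifs with h1
  · cases he : o.en v st.2 with
    | none => left; rfl
    | some r =>
      right
      exact ⟨st.2, r, h.im_mem v _ hv h1.2, h1.2, he, rfl⟩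
  · left; rfl

lemma step_fst (h : Sem n R o f ok) (c : Cfg) (hv : ok c.1) :
    (step o c).1 = c.1 ∨ Pivot o c.1 (step o c).1 := by
  obtain ⟨v, s, m, r⟩ := c
  by_cases h3 : m = 3
  · left; rw [step_halt _ h3]
  · cases s with
    | nil => left; simp [step, h3]
    | cons t s =>
      obtain ⟨⟨F, G⟩, st⟩ := t
      by_cases h0 : m = 0
      · left
        rw [h0, step_call]
        exact fst_call _ _ _ _
      · by_cases h1 : m = 1
        · rw [h1, step_ret]
          exact fst_ret h hv _ _ _ _
        · left
          have : step o (v, (((F, G), st) :: s, (m, r))) = enterStep o v F G st s r := by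
            simp [step, h0, h1, h3]
          rw [this]
          exact fst_enter _ _ _ _ _ _

lemma pivot_ok (h : Sem n R o f ok) {v w : List ℕ} (hv : ok v) (hp : Pivot o v w) : ok w := by
  obtain ⟨j, r, hj, him, hen, rfl⟩ := hp
  exact (h.en_ok v j r hv hj him hen).1

theorem mach_inv (h : Sem n R o f ok) {v : List ℕ} (hv : ok v) (t : ℕ) :
    ok ((step o)^[t] (start R v)).1 ∧
      (((step o)^[t + 1] (start R v)).1 = ((step o)^[t] (start R v)).1 ∨
        Pivot o ((step o)^[t] (start R v)).1 ((step o)^[t + 1] (start R v)).1) := by
  have key : ∀ t, ok ((step o)^[t] (start R v)).1 := by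
    intro t
    induction t with
    | zero => exact hv
    | succ t ih =>
      rw [iterate_succ_apply']
      rcases step_fst h _ ih with h1 | h1
      · rw [h1]; exact ih
      · exact pivot_ok h ih h1
  refine ⟨key t, ?_⟩
  rw [iterate_succ_apply']
  exact step_fst h _ (key t)

/-! ### Counting -/

/-- In a finite strict order at least `h` elements have fewer than `h` elements above them. -/
lemma card_low (gt : ℕ → ℕ → Bool) : ∀ (N : ℕ) (s : Finset ℕ), s.card = N →
    (∀ a ∈ s, gt a a = false) →
    (∀ a ∈ s, ∀ b ∈ s, ∀ c ∈ s, gt a b = true → gt b c = true → gt a c = true) →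
    ∀ k ≤ N, k ≤ (s.filter fun j => (s.filter fun i => gt i j = true).card < k).card := by
  intro N
  induction N with
  | zero =>
    intro s _ _ _ k hk
    omega
  | succ N ih =>
    intro s hs hirr htr k hk
    -- a minimal element
    have hne : s.Nonempty := by
      rw [← Finset.card_pos]; omega
    obtain ⟨a, ha, hmax⟩ := Finset.exists_max_image s
      (fun j => (s.filter fun i => gt i j = true).card) hne
    -- nothing is below `a`
    have hbelow : ∀ b ∈ s, gt a b = false := by
      intro b hb
      by_contra hab
      have hab' : gt a b = true := by simpa using hab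
      have hlt : (s.filter fun i => gt i a = true).card < (s.filter fun i => gt i b = true).card := by
        apply Finset.card_lt_card
        constructor
        · intro i hi
          rw [Finset.mem_filter] at hi ⊢
          exact ⟨hi.1, htr i hi.1 a ha b hb hi.2 hab'⟩
        · intro hsub
          have : a ∈ s.filter fun i => gt i a = true :=
            hsub (Finset.mem_filter.2 ⟨ha, hab'⟩)
          rw [Finset.mem_filter, hirr a ha] at this
          exact absurd this.2 (by simp)
      exact absurd (hmax b hb) (not_le.2 hlt)
    rcases Nat.lt_or_ge N k with hk' | hk'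
    · -- `k = N + 1`: all elements
      have hk2 : k = N + 1 := by omega
      have : (s.filter fun j => (s.filter fun i => gt i j = true).card < k) = s := by
        apply Finset.filter_true_of_mem
        intro j hj
        have h1 : (s.filter fun i => gt i j = true).card < s.card := by
          apply Finset.card_lt_card
          constructor
          · exact Finset.filter_subset _ _
          · intro hsub
            have := hsub hj
            rw [Finset.mem_filter, hirr j hj] at this
            exact absurd this.2 (by simp)
        omega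
      rw [this, hs, hk2]
    · have hs' : (s.erase a).card = N := by
        rw [Finset.card_erase_of_mem ha, hs]; rfl
      have h1 := ih (s.erase a) hs' (fun b hb => hirr b (Finset.mem_of_mem_erase hb))
        (fun b hb c hc d hd => htr b (Finset.mem_of_mem_erase hb) c (Finset.mem_of_mem_erase hc) d
          (Finset.mem_of_mem_erase hd)) k hk'
      refine h1.trans (Finset.card_le_card ?_)
      intro j hj
      rw [Finset.mem_filter] at hj ⊢
      refine ⟨Finset.mem_of_mem_erase hj.1, ?_⟩
      have : (s.filter fun i => gt i j = true) ⊆ ((s.erase a).filter fun i => gt i j = true) := by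
        intro i hi
        rw [Finset.mem_filter] at hi ⊢
        refine ⟨Finset.mem_erase.2 ⟨?_, hi.1⟩, hi.2⟩
        rintro rfl
        rw [hbelow j (Finset.mem_of_mem_erase hj.1)] at hi
        exact absurd hi.2 (by simp)
      exact lt_of_le_of_lt (Finset.card_le_card this) hj.2

lemma nodup_of_FG {R : ℕ} {F G : List ℕ} (h : FG R F G) : G.Nodup := h.1.of_append_right

lemma length_filter_eq (G : List ℕ) (hG : G.Nodup) (p : ℕ → Bool) :
    (G.filter p).length = (G.toFinset.filter fun j => p j = true).card := by
  rw [← List.toFinset_card_of_nodup (hG.filter p), List.toFinset_filter]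

lemma length_high (h : Sem n R o f ok) {F G : List ℕ} (hF : FG R F G) :
    (G.filter fun j => decide ((G.length + 1) / 2 ≤ cnt o F G j)).length ≤ G.length / 2 := by
  have hG := nodup_of_FG hF
  have h1 := card_low (fun a b => o.gt F G a b) G.length G.toFinset
    (List.toFinset_card_of_nodup hG)
    (fun a ha => h.gt_irrefl F G a hF (List.mem_toFinset.1 ha))
    (fun a ha b hb c hc => h.gt_trans F G a b c hF (List.mem_toFinset.1 ha)
      (List.mem_toFinset.1 hb) (List.mem_toFinset.1 hc)) ((G.length + 1) / 2) (by omega)
  have h2 : ∀ j, (G.toFinset.filter fun i => o.gt F G i j = true).card = cnt o F G j := by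
    intro j
    rw [cnt, length_filter_eq G hG]
  simp only [h2] at h1
  rw [length_filter_eq G hG]
  have h3 := Finset.card_filter_add_card_filter_not (s := G.toFinset)
    (fun j => cnt o F G j < (G.length + 1) / 2)
  rw [List.toFinset_card_of_nodup hG] at h3
  have h4 : (G.toFinset.filter fun j => ¬ cnt o F G j < (G.length + 1) / 2) =
      (G.toFinset.filter fun j => decide ((G.length + 1) / 2 ≤ cnt o F G j) = true) := by
    apply Finset.filter_congr
    intro j _
    simp
  rw [h4] at h3
  omega

/-! ### The main lemma -/

/-- The three possible results of a call. -/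
def Res (R : ℕ) (o : Orc) (f : List ℕ → ℝ) (ok : List ℕ → Prop) (F G : List ℕ) (v : List ℕ)
    (rest : List Frame) (c : Cfg) : Prop :=
  (∃ w, c = (w, (rest, (1, 0))) ∧ ok w ∧ (∀ x ∈ F, x ∈ w) ∧ (∀ x ∈ w, x ∈ F ∨ x ∈ G) ∧
      f v ≤ f w ∧ ∀ x ∈ w, x ∉ F → o.im w x = false) ∨
    (∃ w r, c = (w, (rest, (2, r))) ∧ ok w ∧ (∀ x ∈ F, x ∈ w) ∧ r ∈ w ∧ r ∉ F ∧ r ∉ G ∧ r < R ∧
      (∀ x ∈ w, x ∈ F ∨ x ∈ G ∨ x = r) ∧ f v ≤ f w) ∨
    (c.2.2 = (3, 1) ∧ ∃ j ∈ c.1, o.im c.1 j = true ∧ o.en c.1 j = none)

lemma Res.trans {F G v w : List ℕ} {rest : List Frame} {c : Cfg}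
    (h : Res R o f ok F G w rest c) (hvw : f v ≤ f w) : Res R o f ok F G v rest c := by
  rcases h with ⟨w', h1, h2, h3, h4, h5, h6⟩ | ⟨w', r, h1, h2, h3, h4, h5, h6, h7, h8, h9⟩ | h
  · exact Or.inl ⟨w', h1, h2, h3, h4, hvw.trans h5, h6⟩
  · exact Or.inr (Or.inl ⟨w', r, h1, h2, h3, h4, h5, h6, h7, h8, hvw.trans h9⟩)
  · exact Or.inr (Or.inr h)

lemma mem_repl {v : List ℕ} {j r x : ℕ} (hx : x ∈ v) (hxj : x ≠ j) : x ∈ repl v j r := by
  unfold repl
  rw [List.mem_map]
  exact ⟨x, hx, by simp [hxj]⟩

lemma mem_repl_new {v : List ℕ} {j r : ℕ} (hj : j ∈ v) : r ∈ repl v j r := by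
  unfold repl
  rw [List.mem_map]
  exact ⟨j, hj, by simp⟩

lemma of_mem_repl {v : List ℕ} {j r x : ℕ} (hx : x ∈ repl v j r) : x = r ∨ (x ∈ v ∧ x ≠ j) := by
  unfold repl at hx
  rw [List.mem_map] at hx
  obtain ⟨y, hy, rfl⟩ := hx
  by_cases h : y = j
  · left; simp [h]
  · right; simp [h, hy]

lemma numericW (d k : ℕ) : 5 + 2 * (6 * (2 * (d + 1) + 1) ^ k - 5) +
    (6 * (2 * d + 1) ^ (k + 1) - 5) ≤ 6 * (2 * (d + 1) + 1) ^ (k + 1) - 5 := by
  have h1 : (2 * d + 1) ^ k ≤ (2 * (d + 1) + 1) ^ k := Nat.pow_le_pow_left (by omega) k
  have h2 : 1 ≤ (2 * d + 1) ^ k := Nat.one_le_pow _ _ (by omega)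
  have h3 : 1 ≤ (2 * (d + 1) + 1) ^ k := Nat.one_le_pow _ _ (by omega)
  have e1 : (2 * d + 1) ^ (k + 1) = (2 * d + 1) * (2 * d + 1) ^ k := by ring
  have e2 : (2 * (d + 1) + 1) ^ (k + 1) = (2 * d + 1) * (2 * (d + 1) + 1) ^ k +
    2 * (2 * (d + 1) + 1) ^ k := by ring
  have h4 : (2 * d + 1) * (2 * d + 1) ^ k ≤ (2 * d + 1) * (2 * (d + 1) + 1) ^ k :=
    Nat.mul_le_mul_left _ h1
  have h5 : 1 ≤ (2 * d + 1) * (2 * d + 1) ^ k := by nlinarith
  rw [e1, e2]
  omega

/-- A call and its continuation after the facet `j` (stage one). -/
lemma facet_part (h : Sem n R o f ok) (k d : ℕ)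
    (ih1 : ∀ (F G v : List ℕ) (rest : List Frame), FG R F G → F.length + (d + 1) = n →
      G.length < 2 ^ k → ok v → (∀ x ∈ F, x ∈ v) → (∀ x ∈ v, x ∈ F ∨ x ∈ G) →
      ∃ t, t ≤ 6 * (2 * (d + 1) + 1) ^ k - 5 ∧
        Res R o f ok F G v rest ((step o)^[t] (v, (((F, G), (0, 0)) :: rest, (0, 0)))))
    (ih2 : ∀ (F G v : List ℕ) (rest : List Frame), FG R F G → F.length + d = n →
      G.length < 2 ^ (k + 1) → ok v → (∀ x ∈ F, x ∈ v) → (∀ x ∈ v, x ∈ F ∨ x ∈ G) →
      ∃ t, t ≤ 6 * (2 * d + 1) ^ (k + 1) - 5 ∧
        Res R o f ok F G v rest ((step o)^[t] (v, (((F, G), (0, 0)) :: rest, (0, 0)))))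
    (F G v : List ℕ) (rest : List Frame) (hF : FG R F G) (hd : F.length + (d + 1) = n)
    (hk : G.length < 2 ^ (k + 1)) (hv : ok v) (hFv : ∀ x ∈ F, x ∈ v)
    (hvG : ∀ x ∈ v, x ∈ F ∨ x ∈ G) (j : ℕ) (hjv : j ∈ v) (hjG : j ∈ G)
    (hj : cnt o F G j < (G.length + 1) / 2) :
    ∃ t, t ≤ (6 * (2 * d + 1) ^ (k + 1) - 5) + 3 + (6 * (2 * (d + 1) + 1) ^ k - 5) ∧
      Res R o f ok F G v rest ((step o)^[t]
        (v, (((j :: F, G.erase j), (0, 0)) :: ((F, G), (1, j)) :: rest, (0, 0)))) := by
  have hG := nodup_of_FG hF
  have hjF : j ∉ F := fun hm => (List.nodup_append.1 hF.1).2.2 j hm j hjG rfl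
  have hF' : FG R (j :: F) (G.erase j) := by
    have hp : (j :: F ++ G.erase j).Perm (F ++ G) := by
      have h1 : (j :: G.erase j).Perm G := (List.perm_cons_erase hjG).symm
      calc (j :: F ++ G.erase j).Perm (F ++ j :: G.erase j) := by
            simpa using List.perm_middle.symm
        _ |>.Perm (F ++ G) := List.Perm.append_left F h1
    exact ⟨hp.nodup_iff.2 hF.1, fun r hr => hF.2 r (hp.mem_iff.1 hr)⟩
  obtain ⟨t1, ht1, hr1⟩ := ih2 (j :: F) (G.erase j) v (((F, G), (1, j)) :: rest) hF'
    (by simp only [List.length_cons]; omega)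
    (by rw [List.length_erase_of_mem hjG]; omega) hv
    (by
      intro x hx
      rcases List.mem_cons.1 hx with rfl | hx
      · exact hjv
      · exact hFv x hx)
    (by
      intro x hx
      by_cases hxj : x = j
      · left; rw [hxj]; exact List.mem_cons_self
      · rcases hvG x hx with h1 | h1
        · left; exact List.mem_cons_of_mem _ h1
        · right; exact (List.mem_erase_of_ne hxj).2 h1)
  rcases hr1 with ⟨w, hc, hw, hFw, hwG, hvw, him⟩ | ⟨w, r, hc, hw, hFw, hrw, hrF, hrG, hrR, hwG, hvw⟩ | hfin
  · -- the facet is optimal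
    have hjw : j ∈ w := hFw j List.mem_cons_self
    have hFw' : ∀ x ∈ F, x ∈ w := fun x hx => hFw x (List.mem_cons_of_mem _ hx)
    have hwG' : ∀ x ∈ w, x ∈ F ∨ x ∈ G := by
      intro x hx
      rcases hwG x hx with h1 | h1
      · rcases List.mem_cons.1 h1 with rfl | h1
        · right; exact hjG
        · left; exact h1
      · right; exact List.mem_of_mem_erase h1
    by_cases himj : o.im w j = true
    · cases hen : o.en w j with
      | none =>
        refine ⟨t1 + 1, by omega, Or.inr (Or.inr ?_)⟩
        rw [iterate_succ_apply', hc, step_ret]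
        simp only [retStep, himj, hen, and_self, if_true, Option.elim_none]
        exact ⟨trivial, j, hjw, himj, hen⟩
      | some r =>
        obtain ⟨hw2, hrw, hrR, hlt⟩ := h.en_ok w j r hw hjw himj hen
        have hc2 : (step o)^[t1 + 1] (v, (((j :: F, G.erase j), (0, 0)) ::
            ((F, G), (1, j)) :: rest, (0, 0))) =
            (repl w j r, (((F, G), (1, j)) :: rest, (2, r))) := by
          rw [iterate_succ_apply', hc, step_ret]
          simp only [retStep, himj, hen, and_self, if_true, Option.elim_some]
        have hrF : r ∉ F := fun hm => hrw (hFw' r hm)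
        have hFw2 : ∀ x ∈ F, x ∈ repl w j r := fun x hx =>
          mem_repl (hFw' x hx) (fun hxj => hjF (hxj ▸ hx))
        by_cases hrG : r ∈ G
        · -- stage two
          set G2 := G.filter fun k => o.gt F G k j with hG2
          have hc3 : (step o)^[t1 + 2] (v, (((j :: F, G.erase j), (0, 0)) ::
              ((F, G), (1, j)) :: rest, (0, 0))) =
              (repl w j r, (((F, G2), (0, 0)) :: ((F, G), (2, 0)) :: rest, (0, 0))) := by
            rw [iterate_succ_apply', hc2, step_enter]
            simp only [enterStep, hrG, not_true_eq_false, if_false]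
            rfl
          have htop : ∀ (w' : List ℕ), ok w' → (∀ x ∈ F, x ∈ w') → f w < f w' → ∀ x ∈ w', x ∈ G →
              o.gt F G x j = true := by
            intro w' hw' hFw'' hff x hx hxG
            refine h.gt_top F G w w' j x hF hw hw' hFw' hjw hjG hwG' ?_ hFw'' hx hxG hff
            intro y hy hyj hyF
            exact him y hy (by
              intro hm
              rcases List.mem_cons.1 hm with h1 | h1
              · exact hyj h1
              · exact hyF h1)
          have hG2len : G2.length < 2 ^ k := by
            have : G2.length = cnt o F G j := rfl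
            rw [this]
            have : 2 ^ (k + 1) = 2 * 2 ^ k := by ring
            omega
          have hF2 : FG R F G2 := by
            refine ⟨?_, ?_⟩
            · have hF1 := List.nodup_append.1 hF.1
              exact List.nodup_append.2 ⟨hF1.1, hG.filter _, fun a ha b hb =>
                hF1.2.2 a ha b (List.mem_filter.1 hb).1⟩
            · intro x hx
              rcases List.mem_append.1 hx with hx | hx
              · exact hF.2 x (List.mem_append_left _ hx)
              · exact hF.2 x (List.mem_append_right _ (List.mem_filter.1 hx).1)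
          obtain ⟨t2, ht2, hr2⟩ := ih1 F G2 (repl w j r) (((F, G), (2, 0)) :: rest) hF2 hd hG2len
            hw2 hFw2 (by
              intro x hx
              rcases of_mem_repl hx with rfl | ⟨hxw, hxj⟩
              · right
                exact List.mem_filter.2 ⟨hrG, htop _ hw2 hFw2 hlt _ hx hrG⟩
              · rcases hwG' x hxw with h1 | h1
                · left; exact h1
                · right
                  exact List.mem_filter.2 ⟨h1, htop _ hw2 hFw2 hlt _ hx h1⟩)
          rcases hr2 with ⟨w', hc', hw', hFw'', hwG'', hvw', him'⟩ |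
            ⟨w', r', hc', hw', hFw'', hrw', hrF', hrG', hrR', hwG'', hvw'⟩ | hfin
          · refine ⟨t2 + 1 + (t1 + 2), by omega, Or.inl ⟨w', ?_, hw', hFw'', ?_, ?_, him'⟩⟩
            · rw [iterate_add_apply, hc3, iterate_succ_apply', hc', step_ret]
              simp [retStep]
            · intro x hx
              rcases hwG'' x hx with h1 | h1
              · left; exact h1
              · right; exact (List.mem_filter.1 h1).1
            · linarith
          · have hrG2 : r' ∉ G := by
              intro hm
              exact hrG' (List.mem_filter.2 ⟨hm, htop _ hw' hFw'' (by linarith) _ hrw' hm⟩)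
            refine ⟨t2 + 1 + (t1 + 2), by omega, Or.inr (Or.inl ⟨w', r', ?_, hw', hFw'', hrw',
              hrF', hrG2, hrR', ?_, ?_⟩)⟩
            · rw [iterate_add_apply, hc3, iterate_succ_apply', hc', step_enter]
              simp [enterStep, hrG2]
            · intro x hx
              rcases hwG'' x hx with h1 | h1 | h1
              · left; exact h1
              · right; left; exact (List.mem_filter.1 h1).1
              · right; right; exact h1
            · linarith
          · refine ⟨t2 + (t1 + 2), by omega, Or.inr (Or.inr ?_)⟩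
            rw [iterate_add_apply, hc3]
            exact hfin
        · -- exit
          refine ⟨t1 + 2, by omega, Or.inr (Or.inl ⟨repl w j r, r, ?_, hw2, hFw2,
            mem_repl_new hjw, hrF, hrG, hrR, ?_, ?_⟩)⟩
          · rw [iterate_succ_apply', hc2, step_enter]
            simp [enterStep, hrG]
          · intro x hx
            rcases of_mem_repl hx with rfl | ⟨hxw, hxj⟩
            · right; right; rfl
            · rcases hwG' x hxw with h1 | h1
              · left; exact h1
              · right; left; exact h1
          · linarith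
    · -- no improving edge at all
      have himj' : o.im w j = false := by simpa using himj
      refine ⟨t1 + 1, by omega, Or.inl ⟨w, ?_, hw, hFw', hwG', hvw, ?_⟩⟩
      · rw [iterate_succ_apply', hc, step_ret]
        simp [retStep, himj']
      · intro x hx hxF
        by_cases hxj : x = j
        · rw [hxj]; exact himj'
        · exact him x hx (by
            intro hm
            rcases List.mem_cons.1 hm with h1 | h1
            · exact hxj h1
            · exact hxF h1)
  · -- the facet call is left by an entering constraint outside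
    have hFw' : ∀ x ∈ F, x ∈ w := fun x hx => hFw x (List.mem_cons_of_mem _ hx)
    have hrj : r ≠ j := fun hrj => hrF (hrj ▸ List.mem_cons_self)
    have hrG2 : r ∉ G := fun hm => hrG ((List.mem_erase_of_ne hrj).2 hm)
    refine ⟨t1 + 1, by omega, Or.inr (Or.inl ⟨w, r, ?_, hw, hFw', hrw,
      fun hm => hrF (List.mem_cons_of_mem _ hm), hrG2, hrR, ?_, hvw⟩)⟩
    · rw [iterate_succ_apply', hc, step_enter]
      simp [enterStep, hrG2]
    · intro x hx
      rcases hwG x hx with h1 | h1 | h1
      · rcases List.mem_cons.1 h1 with rfl | h1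
        · right; left; exact hjG
        · left; exact h1
      · right; left; exact List.mem_of_mem_erase h1
      · right; right; exact h1
  · exact ⟨t1, by omega, Or.inr (Or.inr hfin)⟩

theorem call_spec (h : Sem n R o f ok) : ∀ (k d : ℕ) (F G v : List ℕ) (rest : List Frame),
    FG R F G → F.length + d = n → G.length < 2 ^ k → ok v → (∀ x ∈ F, x ∈ v) →
    (∀ x ∈ v, x ∈ F ∨ x ∈ G) → ∃ t, t ≤ 6 * (2 * d + 1) ^ k - 5 ∧
      Res R o f ok F G v rest ((step o)^[t] (v, (((F, G), (0, 0)) :: rest, (0, 0)))) := by
  -- calls without improving edge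
  have base : ∀ (F G v : List ℕ) (rest : List Frame), ok v → (∀ x ∈ F, x ∈ v) →
      (∀ x ∈ v, x ∈ F ∨ x ∈ G) →
      (v.filter fun j => decide (j ∉ F) && o.im v j) = [] →
      Res R o f ok F G v rest ((step o)^[1] (v, (((F, G), (0, 0)) :: rest, (0, 0)))) := by
    intro F G v rest hv hFv hvG hem
    refine Or.inl ⟨v, ?_, hv, hFv, hvG, le_rfl, ?_⟩
    · rw [iterate_one, step_call]
      unfold callStep
      rw [if_pos hem]
    · intro x hx hxF
      rw [List.filter_eq_nil_iff] at hem
      have := hem x hx
      simpa [hxF] using this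
  intro k
  induction k with
  | zero =>
    intro d F G v rest hF hd hk hv hFv hvG
    have hG0 : G = [] := by
      rw [← List.length_eq_zero_iff]; simpa using hk
    refine ⟨1, by simp, base F G v rest hv hFv hvG ?_⟩
    rw [List.filter_eq_nil_iff]
    intro x hx
    rcases hvG x hx with h1 | h1
    · simp [h1]
    · rw [hG0] at h1; simp at h1
  | succ k ihk =>
    intro d
    induction d with
    | zero =>
      intro F G v rest hF hd hk hv hFv hvG
      refine ⟨1, by simp, base F G v rest hv hFv hvG ?_⟩
      rw [List.filter_eq_nil_iff]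
      intro x hx
      have hsub : F.toFinset ⊆ v.toFinset := by
        intro y hy
        exact List.mem_toFinset.2 (hFv y (List.mem_toFinset.1 hy))
      have hcard : v.toFinset.card ≤ F.toFinset.card := by
        rw [List.toFinset_card_of_nodup (h.len v hv).2.1,
          List.toFinset_card_of_nodup hF.1.of_append_left, (h.len v hv).1]
        omega
      have heq := Finset.eq_of_subset_of_card_le hsub hcard
      have : x ∈ F := by
        rw [← List.mem_toFinset, heq, List.mem_toFinset]
        exact hx
      simp [this]
    | succ d ihd =>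
      intro F G v rest hF hd hk hv hFv hvG
      by_cases hem : (v.filter fun j => decide (j ∉ F) && o.im v j) = []
      · refine ⟨1, ?_, base F G v rest hv hFv hvG hem⟩
        have : 1 ≤ (2 * (d + 1) + 1) ^ (k + 1) := Nat.one_le_pow _ _ (by omega)
        omega
      have hnum := numericW d k
      have hfp := facet_part h k d (ihk (d + 1)) ihd F G
      by_cases hem2 : (v.filter fun j => decide (j ∈ G) &&
          decide (cnt o F G j < (G.length + 1) / 2)) = []
      · -- relaxation
        set G' := G.filter fun j => decide ((G.length + 1) / 2 ≤ cnt o F G j) with hG'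
        have hc1 : (step o)^[1] (v, (((F, G), (0, 0)) :: rest, (0, 0))) =
            (v, (((F, G'), (0, 0)) :: ((F, G), (0, 0)) :: rest, (0, 0))) := by
          rw [iterate_one, step_call]
          unfold callStep
          rw [if_neg hem, if_pos hem2]
        have hF2 : FG R F G' := by
          refine ⟨?_, ?_⟩
          · have hG := nodup_of_FG hF
            have hF1 := List.nodup_append.1 hF.1
            exact List.nodup_append.2 ⟨hF1.1, hG.filter _, fun a ha b hb =>
              hF1.2.2 a ha b (List.mem_filter.1 hb).1⟩
          · intro x hx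
            rcases List.mem_append.1 hx with hx | hx
            · exact hF.2 x (List.mem_append_left _ hx)
            · exact hF.2 x (List.mem_append_right _ (List.mem_filter.1 hx).1)
        have hlen : G'.length < 2 ^ k := by
          have h1 : G'.length ≤ G.length / 2 := length_high h hF
          have : 2 ^ (k + 1) = 2 * 2 ^ k := by ring
          omega
        obtain ⟨t1, ht1, hr1⟩ := ihk (d + 1) F G' v (((F, G), (0, 0)) :: rest) hF2 hd hlen hv hFv
          (by
            intro x hx
            rcases hvG x hx with h1 | h1
            · left; exact h1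
            · right
              rw [List.filter_eq_nil_iff] at hem2
              have h2 := hem2 x hx
              refine List.mem_filter.2 ⟨h1, ?_⟩
              rw [decide_eq_true_eq]
              by_contra h3
              apply h2
              simp only [Bool.and_eq_true, decide_eq_true_eq]
              exact ⟨h1, not_le.1 h3⟩)
        rcases hr1 with ⟨w, hc, hw, hFw, hwG, hvw, him⟩ |
          ⟨w, r, hc, hw, hFw, hrw, hrF, hrG, hrR, hwG, hvw⟩ | hfin
        · refine ⟨t1 + 1 + 1, by omega, Or.inl ⟨w, ?_, hw, hFw, ?_, hvw, him⟩⟩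
          · rw [iterate_add_apply, hc1, iterate_succ_apply', hc, step_ret]
            simp [retStep]
          · intro x hx
            rcases hwG x hx with h1 | h1
            · left; exact h1
            · right; exact (List.mem_filter.1 h1).1
        · by_cases hrG2 : r ∈ G
          · -- go to the facet
            have hcr : cnt o F G r < (G.length + 1) / 2 := by
              by_contra hcon
              exact hrG (List.mem_filter.2 ⟨hrG2, by simpa using hcon⟩)
            obtain ⟨t2, ht2, hr2⟩ := hfp w rest hF hd hk hw hFw
              (by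
                intro x hx
                rcases hwG x hx with h1 | h1 | h1
                · left; exact h1
                · right; exact (List.mem_filter.1 h1).1
                · right; rw [h1]; exact hrG2) r hrw hrG2 hcr
            refine ⟨t2 + (1 + (t1 + 1)), by omega, ?_⟩
            rw [iterate_add_apply]
            have : (step o)^[1 + (t1 + 1)] (v, (((F, G), (0, 0)) :: rest, (0, 0))) =
                (w, (((r :: F, G.erase r), (0, 0)) :: ((F, G), (1, r)) :: rest, (0, 0))) := by
              rw [iterate_add_apply _ 1 (t1 + 1), iterate_add_apply _ t1 1, hc1, hc, iterate_one, step_enter]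
              simp [enterStep, hrG2]
            rw [this]
            exact hr2.trans hvw
          · refine ⟨1 + (t1 + 1), by omega, Or.inr (Or.inl ⟨w, r, ?_, hw, hFw, hrw, hrF, hrG2,
              hrR, ?_, hvw⟩)⟩
            · rw [iterate_add_apply _ 1 (t1 + 1), iterate_add_apply _ t1 1, hc1, hc, iterate_one, step_enter]
              simp [enterStep, hrG2]
            · intro x hx
              rcases hwG x hx with h1 | h1 | h1
              · left; exact h1
              · right; left; exact (List.mem_filter.1 h1).1
              · right; right; exact h1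
        · refine ⟨t1 + 1, by omega, Or.inr (Or.inr ?_)⟩
          rw [iterate_add_apply, hc1]
          exact hfin
      · -- a facet of the basis
        set J := (v.filter fun j => decide (j ∈ G) &&
          decide (cnt o F G j < (G.length + 1) / 2)) with hJ
        have hjJ : J.headD 0 ∈ J := by
          cases hJ' : J with
          | nil => exact absurd hJ' hem2
          | cons a l => simp
        have hj := List.mem_filter.1 (hJ ▸ hjJ : J.headD 0 ∈ (v.filter fun j => decide (j ∈ G) &&
          decide (cnt o F G j < (G.length + 1) / 2)))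
        simp only [Bool.and_eq_true, decide_eq_true_eq] at hj
        obtain ⟨t2, ht2, hr2⟩ := hfp v rest hF hd hk hv hFv hvG (J.headD 0) hj.1 hj.2.1 hj.2.2
        refine ⟨t2 + 1, by omega, ?_⟩
        rw [iterate_add_apply]
        have : (step o)^[1] (v, (((F, G), (0, 0)) :: rest, (0, 0))) =
            (v, (((J.headD 0 :: F, G.erase (J.headD 0)), (0, 0)) ::
              ((F, G), (1, J.headD 0)) :: rest, (0, 0))) := by
          rw [iterate_one, step_call]
          unfold callStep
          rw [if_neg hem, if_neg hem2]
        rw [this]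
        exact hr2

theorem mach_main (h : Sem n R o f ok) {v : List ℕ} (hv : ok v) :
    ∃ t ≤ 6 * (2 * n + 1) ^ (Nat.log 2 R + 1), Final o ((step o)^[t] (start R v)) := by
  have hFG : FG R [] (List.range R) :=
    ⟨by simpa using List.nodup_range, by simp⟩
  obtain ⟨t, ht, hr⟩ := call_spec h (Nat.log 2 R + 1) n [] (List.range R) v [] hFG (by simp)
    (by
      rw [List.length_range]
      exact Nat.lt_pow_succ_log_self (by norm_num) R) hv (by simp)
    (by
      intro x hx
      right
      exact List.mem_range.2 ((h.len v hv).2.2 x hx))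
  have hpos : 1 ≤ (2 * n + 1) ^ (Nat.log 2 R + 1) := Nat.one_le_pow _ _ (by omega)
  rcases hr with ⟨w, hc, hw, _, _, _, him⟩ | ⟨w, r, _, _, _, _, _, hrG, hrR, _⟩ | hfin
  · refine ⟨t + 1, by omega, Or.inl ?_⟩
    have : (step o)^[t + 1] (start R v) = (w, ([], (3, 0))) := by
      rw [iterate_succ_apply']
      unfold start
      rw [hc, step_empty]
    rw [this]
    exact ⟨rfl, fun j hj => him j hj (by simp)⟩
  · exact absurd (List.mem_range.2 hrR) hrG
  · exact ⟨t, by omega, Or.inr hfin⟩

end

end Pool.Agent.H24U
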