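import Pool.Agent.H24R2.U.Spec2
import Pool.Agent.H583R2.Expo
import Pool.Agent.NPC.Defs

set_option autoImplicit false

/-!
# Padding: quasi-polynomial time
-/

namespace Pool.Agent.H24U

open Computability Turing
open Pool.Agent.H583R2
open Pool.Agent.NPC (PolyTime)

theorem pf_size : PF (fun x : List Bool => Nat.size x.length) := by
  have h := (PF.length (PF.id (α := List Bool))).natCase (g := fun _ => 0)
    (h := fun _ n => blk n + 1) (PF.const 0) (PF.succ (pf_blk PF.snd))
  refine h.congr ?_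
  intro x
  cases hx : x.length with
  | zero => simp
  | succ n =>
    simp only [blk]
    symm
    have h1 : n + 1 < 2 ^ (Nat.log 2 (n + 1) + 1) := Nat.lt_pow_succ_log_self (by norm_num) _
    have h2 : 2 ^ Nat.log 2 (n + 1) ≤ n + 1 := Nat.pow_log_le_self 2 (by omega)
    apply le_antisymm
    · exact Nat.size_le.2 h1
    · exact Nat.lt_size.2 h2

/-- Functions computed by Turing machines in polynomial time are in the class `PF`. -/
theorem pf_of_polyTime {g : List Bool → List Bool} (hg : PolyTime g) : PF g := by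
  obtain ⟨M⟩ := hg
  obtain ⟨c, m, hc⟩ := code_of_tm M.toTM2ComputableInTime
  -- a polynomial bound for the time
  have hP : ∃ k, ∀ n, m * M.toTM2ComputableInTime.time n ≤ n ^ k + k := by
    have h1 : ∀ P : Polynomial ℕ, ∃ k, ∀ n, P.eval n ≤ k * (n + 2) ^ k + k := by
      intro P
      induction P using Polynomial.induction_on' with
      | add p q hp hq =>
        obtain ⟨a, ha⟩ := hp
        obtain ⟨b, hb⟩ := hq
        refine ⟨a + b, fun n => ?_⟩
        rw [Polynomial.eval_add]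
        have e1 : (n + 2) ^ a ≤ (n + 2) ^ (a + b) := Nat.pow_le_pow_right (by omega) (by omega)
        have e2 : (n + 2) ^ b ≤ (n + 2) ^ (a + b) := Nat.pow_le_pow_right (by omega) (by omega)
        have e3 := ha n
        have e4 := hb n
        nlinarith
      | monomial k a =>
        refine ⟨a + k, fun n => ?_⟩
        rw [Polynomial.eval_monomial]
        have e1 : n ^ k ≤ (n + 2) ^ k := Nat.pow_le_pow_left (by omega) _
        have e2 : (n + 2) ^ k ≤ (n + 2) ^ (a + k) := Nat.pow_le_pow_right (by omega) (by omega)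
        have e3 : a * n ^ k ≤ a * (n + 2) ^ (a + k) := Nat.mul_le_mul_left _ (e1.trans e2)
        nlinarith [Nat.zero_le (k * (n + 2) ^ (a + k))]
    obtain ⟨k, hk⟩ := h1 (Polynomial.C m * M.time)
    obtain ⟨k', hk'⟩ := poly_norm k k
    refine ⟨k', fun n => le_trans ?_ (hk' n)⟩
    have := hk n
    rw [Polynomial.eval_mul, Polynomial.eval_C] at this
    exact this
  obtain ⟨k, hk⟩ := hP
  have hlen : PF (fun x : List Bool => x.length) := PF.length PF.id
  have h2 : PF (fun x : List Bool => x.length ^ k + k) :=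
    PF.add (pf_powConst hlen k) (PF.const k)
  have h3 : PF (fun x : List Bool => (U c x (x.length ^ k + k)).getD []) :=
    PF.getD (PF.U.comp ((PF.const c).pair (PF.id.pair h2))) (PF.const [])
  refine h3.congr ?_
  intro x
  rw [hc x _ (hk x.length)]
  rfl

theorem quasi_tm (g : List Bool → List Bool) (hg : PolyTime g) (K : ℕ) :
    ∃ (C : ℕ) (M : Turing.TM2ComputableInTime (id : List Bool → List Bool)
      (id : List Bool → List Bool) (fun x => g (pad K x))),
      ∀ n, M.time n ≤ 2 ^ (C * (Nat.size n + 1) ^ 2) := by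
  have hpf := pf_of_polyTime hg
  have hm : PF (fun x : List Bool => (fun n => K * (Nat.size n + 1) ^ 2) x.length) :=
    PF.mul (PF.const K) (pf_powConst (PF.succ pf_size) 2)
  have hG : PF (fun p : List Bool × ℕ => g (List.replicate p.2 true ++ false :: p.1)) :=
    hpf.comp (PF.append (PF.replicate PF.snd (PF.const true)) (PF.cons (PF.const false) PF.fst))
  obtain ⟨k, M, hM⟩ := tm_exp (f := fun x => g (pad K x)) (id : List Bool → List Bool)
    (fun n => K * (Nat.size n + 1) ^ 2) hm hG (fun x => rfl)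
  refine ⟨k + (K + 2) * k + 1, M, fun n => (hM n).trans ?_⟩
  have hn : n < 2 ^ Nat.size n := Nat.lt_size_self n
  set s := Nat.size n + 1 with hs
  have hs1 : 1 ≤ s := by omega
  have hs2 : s ≤ s ^ 2 := by nlinarith
  have h1 : n + 2 ≤ 2 ^ (s ^ 2) := by
    have e1 : 2 ^ Nat.size n + 2 ^ Nat.size n = 2 ^ s := by rw [hs, pow_succ]; ring
    have e2 : 2 ^ s ≤ 2 ^ (s ^ 2) := Nat.pow_le_pow_right (by norm_num) hs2
    have e3 : 1 ≤ 2 ^ Nat.size n := Nat.one_le_two_pow
    omega
  have h2 : n + 2 ^ (K * s ^ 2) + 2 ≤ 2 ^ ((K + 2) * s ^ 2) := by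
    have e1 : 2 ^ (s ^ 2) ≤ 2 ^ ((K + 1) * s ^ 2) :=
      Nat.pow_le_pow_right (by norm_num) (by nlinarith [Nat.zero_le (K * s ^ 2)])
    have e2 : 2 ^ (K * s ^ 2) ≤ 2 ^ ((K + 1) * s ^ 2) :=
      Nat.pow_le_pow_right (by norm_num) (by nlinarith [Nat.zero_le (s ^ 2)])
    have e3 : 2 ^ ((K + 1) * s ^ 2) + 2 ^ ((K + 1) * s ^ 2) ≤ 2 ^ ((K + 2) * s ^ 2) := by
      rw [← two_mul, ← pow_succ']
      refine Nat.pow_le_pow_right (by norm_num) ?_
      nlinarith
    omega
  have h3 : (n + 2 ^ (K * s ^ 2) + 2) ^ k ≤ 2 ^ ((K + 2) * k * s ^ 2) := by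
    calc (n + 2 ^ (K * s ^ 2) + 2) ^ k ≤ (2 ^ ((K + 2) * s ^ 2)) ^ k := Nat.pow_le_pow_left h2 _
      _ = 2 ^ ((K + 2) * k * s ^ 2) := by rw [← pow_mul]; congr 1; ring
  have h4 : k ≤ 2 ^ k := Nat.lt_two_pow_self.le
  have h5 : k * (n + 2 ^ (K * s ^ 2) + 2) ^ k ≤ 2 ^ (k + (K + 2) * k * s ^ 2) := by
    rw [pow_add]
    exact Nat.mul_le_mul h4 h3
  have h6 : k ≤ 2 ^ (k + (K + 2) * k * s ^ 2) :=
    h4.trans (Nat.pow_le_pow_right (by norm_num) (by omega))
  have h7 : 2 ^ (k + (K + 2) * k * s ^ 2) + 2 ^ (k + (K + 2) * k * s ^ 2) ≤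
      2 ^ ((k + (K + 2) * k + 1) * s ^ 2) := by
    rw [← two_mul, ← pow_succ']
    refine Nat.pow_le_pow_right (by norm_num) ?_
    have e1 : k * 1 ≤ k * s ^ 2 := Nat.mul_le_mul_left _ (by omega)
    have e2 : (k + (K + 2) * k + 1) * s ^ 2 = k * s ^ 2 + (K + 2) * k * s ^ 2 + s ^ 2 := by ring
    omega
  omega

end Pool.Agent.H24U
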