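import Pool.Agent.H24R2.U.Out
import Pool.Agent.H24R2.U.GPoly
import Pool.Agent.H24R2.U.Pad

set_option autoImplicit false

/-!
# A deterministic simplex method with quasi-polynomial running time
-/

namespace Pool.Agent.H24U

open Pool.Agent.H24R2
open Pool.Agent.NPC hiding Poly

lemma splitPad_replicate (T : ℕ) (x : List Bool) :
    splitPad (List.replicate T true ++ false :: x) = (List.replicate T (), x) := by
  induction T with
  | zero => rfl
  | succ T ih => simp [List.replicate_succ, splitPad, ih]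

lemma gfun_pad (K : ℕ) (I : Inst) :
    gfun (pad K (bits I)) = bits (outF I (2 ^ (K * (Nat.size (bits I).length + 1) ^ 2))) := by
  unfold gfun pad
  rw [splitPad_replicate]
  simp only [unbits_bits, Option.elim_some, List.length_replicate]

lemma len_bits {m n : ℕ} (A : Fin m → Fin n → ℚ) (b : Fin m → ℚ) (c v : Fin n → ℚ) :
    m ≤ (bits (mkInst A b c v)).length ∧ n ≤ (bits (mkInst A b c v)).length := by
  rw [bits_length]
  unfold mkInst
  simp only [sz_pair]
  have h1 := length_lt_sz (List.ofFn fun i => List.ofFn (A i))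
  have h2 := length_lt_sz (List.ofFn c)
  simp only [List.length_ofFn] at h1 h2
  omega

lemma bound_le {m n N : ℕ} (hm : m ≤ N) (hn : n ≤ N) :
    6 * (2 * n + 1) ^ (Nat.log 2 (m + n) + 1) ≤ 2 ^ (7 * (Nat.size N + 1) ^ 2) := by
  have h1 : 2 * n + 1 ≤ 2 ^ (Nat.size N + 1) := by
    have := Nat.lt_size_self N
    rw [pow_succ]
    omega
  have h2 : Nat.log 2 (m + n) + 1 ≤ Nat.size N + 1 := by
    have h3 : m + n < 2 ^ (Nat.size N + 1) := by
      have := Nat.lt_size_self N
      rw [pow_succ]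
      omega
    have := Nat.log_lt_of_lt_pow' (by omega) h3
    omega
  calc 6 * (2 * n + 1) ^ (Nat.log 2 (m + n) + 1)
      ≤ 6 * (2 ^ (Nat.size N + 1)) ^ (Nat.log 2 (m + n) + 1) :=
        Nat.mul_le_mul_left _ (Nat.pow_le_pow_left h1 _)
    _ ≤ 6 * (2 ^ (Nat.size N + 1)) ^ (Nat.size N + 1) :=
        Nat.mul_le_mul_left _ (Nat.pow_le_pow_right (by positivity) h2)
    _ = 6 * 2 ^ ((Nat.size N + 1) ^ 2) := by
        rw [← pow_mul, sq]
    _ ≤ 2 ^ 6 * 2 ^ ((Nat.size N + 1) ^ 2) := Nat.mul_le_mul_right _ (by norm_num)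
    _ = 2 ^ (6 + (Nat.size N + 1) ^ 2) := by rw [pow_add]
    _ ≤ 2 ^ (7 * (Nat.size N + 1) ^ 2) := by
        apply Nat.pow_le_pow_right (by norm_num)
        have : 1 ≤ (Nat.size N + 1) ^ 2 := Nat.one_le_pow _ _ (by omega)
        omega

/-- lists of length `n` as vectors -/
lemma exists_vectors {n : ℕ} : ∀ L : List (List ℚ), (∀ l ∈ L, l.length = n) →
    ∃ run : List (Fin n → ℚ), L = run.map List.ofFn ∧
      run.map (fun w j => ((w j : ℚ) : ℝ)) = L.map fun l (i : Fin n) => ((l.getD i 0 : ℚ) : ℝ) := by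
  intro L hL
  refine ⟨L.map fun l i => l.getD i 0, ?_, ?_⟩
  · rw [List.map_map]
    conv_lhs => rw [← List.map_id L]
    apply List.map_congr_left
    intro l hl
    have h1 := hL l hl
    subst h1
    apply List.ext_getElem
    · simp
    · intro i h2 h3
      simp
  · rw [List.map_map]
    rfl

theorem main : ∃ (F : List Bool → List Bool) (C : ℕ) (M : Turing.TM2ComputableInTime
      (id : List Bool → List Bool) (id : List Bool → List Bool) F),
    (∀ N, M.time N ≤ 2 ^ (C * (Nat.size N + 1) ^ 2)) ∧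
    ∀ (m n : ℕ) (A : Fin m → Fin n → ℚ) (b : Fin m → ℚ) (c v : Fin n → ℚ),
      (fun j => (v j : ℝ)) ∈
        (Poly (fun i j => (A i j : ℝ)) (fun i => (b i : ℝ))).extremePoints ℝ →
      ∃ run : List (Fin n → ℚ), F (bits (mkInst A b c v)) = bits (run.map List.ofFn) ∧
        run.length ≤ 6 * (2 * n + 1) ^ (Nat.log 2 (m + n) + 1) ∧
        SimplexRun (Poly (fun i j => (A i j : ℝ)) (fun i => (b i : ℝ))) (fun j => (c j : ℝ))
          (fun j => (v j : ℝ)) (run.map fun w j => (w j : ℝ)) := by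
  obtain ⟨C, M, hM⟩ := quasi_tm gfun gfun_polyTime 7
  refine ⟨fun x => gfun (pad 7 x), C, M, hM, ?_⟩
  intro m n A b c v hv
  obtain ⟨h1, h2⟩ := len_bits A b c v
  have hb := bound_le h1 h2
  have hg := gfun_pad 7 (mkInst A b c v)
  generalize 2 ^ (7 * (Nat.size (bits (mkInst A b c v)).length + 1) ^ 2) = T at hb hg
  obtain ⟨hrun, hlen, hall⟩ := outF_run A b c v hv hb
  obtain ⟨run, e1, e2⟩ := exists_vectors (n := n) (outF (mkInst A b c v) T) hall
  refine ⟨run, ?_, ?_, ?_⟩
  · rw [← e1]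
    exact hg
  · rw [e1, List.length_map] at hlen
    exact hlen
  · rw [e2]
    exact hrun

end Pool.Agent.H24U
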