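import Pool.Agent.H24R2.U.Proj

set_option autoImplicit false

/-!
# Bases, multipliers and pivots: numerical specifications
-/

namespace Pool.Agent.H24U

open Pool.Agent.H670R2 Pool.Agent.H24R2 Matrix Function

/-- the integer matrix of a basis -/
def Bz (P : LPd) (v : List ℕ) : Matrix (Fin P.2.length) (Fin P.2.length) ℤ :=
  Matrix.of fun i j => (rowA P (v.getD i 0)).getD j 0

lemma bm_eq_map (P : LPd) (v : List ℕ) :
    bm (aR P) (bv P v) = (Bz P v).map (Int.castRingHom ℝ) := by
  ext i j
  simp [bm, aR, bv, Bz]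

lemma dt_eq_det (P : LPd) (v : List ℕ) :
    dt (aR P) (bv P v) = (((Bz P v).det : ℤ) : ℝ) := by
  unfold dt
  rw [bm_eq_map]
  exact (RingHom.map_det (Int.castRingHom ℝ) (Bz P v)).symm

lemma sel_lt {P : LPd} {v : List ℕ} (hv : Sel P v) {k : ℕ} (hk : k < P.2.length) :
    v.getD k 0 < P.1.length := by
  have h1 : k < v.length := by rw [hv.1]; exact hk
  rw [List.getD_eq_getElem _ _ h1]
  exact hv.2.2 _ (List.getElem_mem h1)

lemma bas_length (P : LPd) (v : List ℕ) : (bas P v).length = v.length := by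
  simp [bas]

lemma bas_getD {P : LPd} {v : List ℕ} {k : ℕ} (hk : k < v.length) :
    (bas P v).getD k [] = rowA P (v.getD k 0) := by
  have h1 : k < (bas P v).length := by rw [bas_length]; exact hk
  rw [List.getD_eq_getElem _ _ h1, List.getD_eq_getElem _ _ hk]
  simp [bas]

lemma dotL_row {P : LPd} (hP : WF P) {r : ℕ} (hr : r < P.1.length) (u : List ℤ) :
    dotL (rowA P r) u = ∑ i : Fin P.2.length, (rowA P r).getD i 0 * u.getD i 0 := by
  rw [dotL_eq_sum, hP r hr, Finset.sum_range]

lemma gram_eq {P : LPd} (hP : WF P) {v : List ℕ} (hv : Sel P v)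
    (h : P.2.length = (bas P v).length) :
    (gramM (bas P v)).submatrix (finCongr h) (finCongr h) = Bz P v * (Bz P v)ᵀ := by
  ext i j
  have hi : (i : ℕ) < v.length := by rw [hv.1]; exact i.2
  have hj : (j : ℕ) < v.length := by rw [hv.1]; exact j.2
  have e1 : (bas P v).get (finCongr h i) = rowA P (v.getD i 0) := by
    rw [List.getD_eq_getElem _ _ hi]
    simp only [bas, List.get_eq_getElem, List.getElem_map]
    rfl
  have e2 : (bas P v).get (finCongr h j) = rowA P (v.getD j 0) := by
    rw [List.getD_eq_getElem _ _ hj]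
    simp only [bas, List.get_eq_getElem, List.getElem_map]
    rfl
  rw [submatrix_apply]
  simp only [gramM, Matrix.of_apply]
  rw [e1, e2, dotL_row hP (sel_lt hv i.2), Matrix.mul_apply]
  rfl

lemma gramM_det {P : LPd} (hP : WF P) {v : List ℕ} (hv : Sel P v) :
    (gramM (bas P v)).det = (Bz P v).det ^ 2 := by
  have h : P.2.length = (bas P v).length := by rw [bas_length, hv.1]
  have h1 := Matrix.det_submatrix_equiv_self (finCongr h) (gramM (bas P v))
  rw [← h1, gram_eq hP hv h, Matrix.det_mul, Matrix.det_transpose, sq]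

lemma solveG_ne {P : LPd} (hP : WF P) {v : List ℕ} (hv : Sel P v) {w : List ℤ}
    (hw : w.length = (bas P v).length) :
    (solveG (gramL (bas P v)) w).1 ≠ 0 ↔ dt (aR P) (bv P v) ≠ 0 := by
  rw [Ne, (solveG_spec (bas P v) w hw).2.1, gramM_det hP hv, dt_eq_det]
  rw [sq_eq_zero_iff, Ne, Int.cast_eq_zero]

/-- `∑ y_p L_p`, as a real vector -/
lemma solveG_dot {P : LPd} (hP : WF P) {v : List ℕ} (hv : Sel P v) {w : List ℤ}
    (hw : w.length = (bas P v).length) (k : Fin P.2.length) :
    aR P (bv P v k) ⬝ᵥ (fun i => ∑ j : Fin P.2.length,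
      (((solveG (gramL (bas P v)) w).2.getD j 0 : ℤ) : ℝ) * aR P (bv P v j) i) =
      (((solveG (gramL (bas P v)) w).1 : ℤ) : ℝ) * ((w.getD k 0 : ℤ) : ℝ) := by
  have hk : (k : ℕ) < v.length := by rw [hv.1]; exact k.2
  have hk' : (k : ℕ) < (bas P v).length := by rw [bas_length]; exact hk
  have h1 := (solveG_spec (bas P v) w hw).2.2 k hk'
  have e1 : (gramL (bas P v)).getD k [] =
      (bas P v).map fun u => dotL (rowA P (v.getD k 0)) u := by
    have h3 : (k : ℕ) < (gramL (bas P v)).length := by simpa [gramL] using hk'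
    rw [List.getD_eq_getElem _ _ h3, List.getD_eq_getElem _ _ hk]
    simp [gramL, bas]
  have h2 : dotL ((gramL (bas P v)).getD k []) (solveG (gramL (bas P v)) w).2 =
      ∑ j : Fin P.2.length, (∑ i : Fin P.2.length, (rowA P (v.getD k 0)).getD i 0 *
        (rowA P (v.getD j 0)).getD i 0) * (solveG (gramL (bas P v)) w).2.getD j 0 := by
    rw [e1, dotL_eq_sum, List.length_map, bas_length, hv.1, Finset.sum_range]
    refine Finset.sum_congr rfl fun j _ => ?_
    have hj : (j : ℕ) < v.length := by rw [hv.1]; exact j.2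
    have hj' : (j : ℕ) < (bas P v).length := by rw [bas_length]; exact hj
    have hj'' : (j : ℕ) < ((bas P v).map fun u => dotL (rowA P (v.getD k 0)) u).length := by
      rw [List.length_map]; exact hj'
    have e2 : ((bas P v).map fun u => dotL (rowA P (v.getD k 0)) u).getD j 0 =
        dotL (rowA P (v.getD k 0)) (rowA P (v.getD j 0)) := by
      rw [List.getD_eq_getElem _ _ hj'', List.getD_eq_getElem _ _ hj]
      simp [bas]
    rw [e2, dotL_row hP (sel_lt hv k.2)]
  rw [h1] at h2
  have h3 := congrArg (fun z : ℤ => (z : ℝ)) h2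
  push_cast at h3
  rw [h3]
  simp only [dotProduct, aR, bv]
  simp only [Finset.mul_sum, Finset.sum_mul]
  rw [Finset.sum_comm]
  refine Finset.sum_congr rfl fun j _ => Finset.sum_congr rfl fun i _ => ?_
  ring

theorem basic_ne {P : LPd} (hP : WF P) {v : List ℕ} (hv : Sel P v) :
    (basic P v).1 ≠ 0 ↔ dt (aR P) (bv P v) ≠ 0 :=
  solveG_ne hP hv (w := v.map (rowB P)) (by simp [bas])

lemma basic_snd {P : LPd} (v : List ℕ) (hv : Sel P v) (i : Fin P.2.length) :
    (((basic P v).2.getD i 0 : ℤ) : ℝ) = ∑ j : Fin P.2.length,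
      (((solveG (gramL (bas P v)) (v.map (rowB P))).2.getD j 0 : ℤ) : ℝ) *
        aR P (bv P v j) i := by
  have e1 : (basic P v).2.getD i 0 = dotL ((bas P v).map fun r => r.getD i 0)
      (solveG (gramL (bas P v)) (v.map (rowB P))).2 := by
    unfold basic tmul
    have h1 : (i : ℕ) < ((List.range P.2.length).map fun i =>
        dotL ((bas P v).map fun r => r.getD i 0)
          (solveG (gramL (bas P v)) (v.map (rowB P))).2).length := by simp
    rw [List.getD_eq_getElem _ _ h1]
    simp
  rw [e1, dotL_eq_sum, List.length_map, bas_length, hv.1, Finset.sum_range]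
  push_cast
  refine Finset.sum_congr rfl fun j _ => ?_
  have hj : (j : ℕ) < v.length := by rw [hv.1]; exact j.2
  have hj' : (j : ℕ) < ((bas P v).map fun r => r.getD i 0).length := by
    rw [List.length_map, bas_length]; exact hj
  have e2 : ((bas P v).map fun r => r.getD i 0).getD j 0 = (rowA P (v.getD j 0)).getD i 0 := by
    rw [List.getD_eq_getElem _ _ hj', List.getD_eq_getElem _ _ hj]
    simp [bas]
  rw [e2]
  simp only [aR, bv]
  ring

theorem basic_eq {P : LPd} (hP : WF P) {v : List ℕ} (hv : Sel P v)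
    (h : dt (aR P) (bv P v) ≠ 0) (i : Fin P.2.length) :
    bpt (aR P) (bR P) (bv P v) i =
      (((basic P v).2.getD i 0 : ℤ) : ℝ) / (((basic P v).1 : ℤ) : ℝ) := by
  have hd : (((basic P v).1 : ℤ) : ℝ) ≠ 0 := by
    rw [Ne, Int.cast_eq_zero]
    exact (basic_ne hP hv).2 h
  have key : bpt (aR P) (bR P) (bv P v) = (((basic P v).1 : ℤ) : ℝ)⁻¹ •
      (fun i : Fin P.2.length => (((basic P v).2.getD i 0 : ℤ) : ℝ)) := by
    apply eq_of_dot h
    intro k
    rw [dot_bpt h, dotProduct_smul, smul_eq_mul]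
    have h1 := solveG_dot hP hv (w := v.map (rowB P)) (by simp [bas]) k
    have h2 : (fun i : Fin P.2.length => (((basic P v).2.getD i 0 : ℤ) : ℝ)) =
        fun i => ∑ j : Fin P.2.length,
      (((solveG (gramL (bas P v)) (v.map (rowB P))).2.getD j 0 : ℤ) : ℝ) *
        aR P (bv P v j) i := funext fun i => basic_snd v hv i
    rw [h2, h1]
    have hk : (k : ℕ) < v.length := by rw [hv.1]; exact k.2
    have hk' : (k : ℕ) < (v.map (rowB P)).length := by rw [List.length_map]; exact hk
    have e3 : (v.map (rowB P)).getD k 0 = rowB P (v.getD k 0) := by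
      rw [List.getD_eq_getElem _ _ hk', List.getD_eq_getElem _ _ hk]
      simp
    rw [e3]
    change bR P (bv P v k) = _
    change _ = (((basic P v).1 : ℤ) : ℝ)⁻¹ * ((((basic P v).1 : ℤ) : ℝ) * bR P (bv P v k))
    rw [← mul_assoc, inv_mul_cancel₀ hd, one_mul]
  rw [key, Pi.smul_apply, smul_eq_mul]
  rw [div_eq_inv_mul]

lemma sk_basic {P : LPd} (hP : WF P) {v : List ℕ} (hv : Sel P v)
    (h : dt (aR P) (bv P v) ≠ 0) {r : ℕ} (hr : r < P.1.length) :
    ((((basic P v).1 * ((basic P v).1 * rowB P r - dotL (rowA P r) (basic P v).2)) : ℤ) : ℝ) =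
      (((basic P v).1 : ℤ) : ℝ) ^ 2 * sk (aR P) (bR P) (bv P v) r := by
  have hd : (((basic P v).1 : ℤ) : ℝ) ≠ 0 := by
    rw [Ne, Int.cast_eq_zero]
    exact (basic_ne hP hv).2 h
  have h1 : aR P r ⬝ᵥ bpt (aR P) (bR P) (bv P v) =
      ((dotL (rowA P r) (basic P v).2 : ℤ) : ℝ) / (((basic P v).1 : ℤ) : ℝ) := by
    rw [dotL_row hP hr]
    push_cast
    rw [Finset.sum_div]
    simp only [dotProduct]
    refine Finset.sum_congr rfl fun i _ => ?_
    rw [basic_eq hP hv h i]
    simp only [aR]
    ring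
  unfold sk
  rw [h1]
  simp only [bR]
  push_cast
  field_simp

theorem feas_iff {P : LPd} (hP : WF P) {v : List ℕ} (hv : Sel P v) :
    feas P v = true ↔ dt (aR P) (bv P v) ≠ 0 ∧
      ∀ r < P.1.length, 0 ≤ sk (aR P) (bR P) (bv P v) r := by
  unfold feas
  rw [Bool.and_eq_true, decide_eq_true_eq, List.all_eq_true, basic_ne hP hv]
  constructor
  · rintro ⟨h, h2⟩
    refine ⟨h, fun r hr => ?_⟩
    have h3 := h2 r (List.mem_range.2 hr)
    rw [decide_eq_true_eq] at h3
    have h4 : (0 : ℝ) ≤ ((((basic P v).1 * ((basic P v).1 * rowB P r -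
        dotL (rowA P r) (basic P v).2)) : ℤ) : ℝ) := by exact_mod_cast h3
    rw [sk_basic hP hv h hr] at h4
    have hd : (((basic P v).1 : ℤ) : ℝ) ≠ 0 := by
      rw [Ne, Int.cast_eq_zero]
      exact (basic_ne hP hv).2 h
    have h5 : 0 < (((basic P v).1 : ℤ) : ℝ) ^ 2 := by positivity
    exact nonneg_of_mul_nonneg_right h4 h5
  · rintro ⟨h, h2⟩
    refine ⟨h, fun r hr => ?_⟩
    rw [List.mem_range] at hr
    rw [decide_eq_true_eq]
    have h4 : (0 : ℝ) ≤ ((((basic P v).1 * ((basic P v).1 * rowB P r -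
        dotL (rowA P r) (basic P v).2)) : ℤ) : ℝ) := by
      rw [sk_basic hP hv h hr]
      exact mul_nonneg (by positivity) (h2 r hr)
    exact_mod_cast h4

lemma mults_eq {P : LPd} (hP : WF P) {v : List ℕ} (hv : Sel P v)
    (h : dt (aR P) (bv P v) ≠ 0) (p : Fin P.2.length) :
    (((mults P v).2.getD p 0 : ℤ) : ℝ) =
      (((mults P v).1 : ℤ) : ℝ) * lm (aR P) (bv P v) p (cR P) := by
  have h1 : (fun i => ∑ j : Fin P.2.length,
      (((mults P v).2.getD j 0 : ℤ) : ℝ) * aR P (bv P v j) i) =
      (((mults P v).1 : ℤ) : ℝ) • cR P := by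
    apply eq_of_dot h
    intro k
    have hw : ((bas P v).map fun r => dotL r P.2).length = (bas P v).length := by simp
    have h2 := solveG_dot hP hv hw k
    change aR P (bv P v k) ⬝ᵥ (fun i => ∑ j : Fin P.2.length,
      (((mults P v).2.getD j 0 : ℤ) : ℝ) * aR P (bv P v j) i) =
      (((mults P v).1 : ℤ) : ℝ) * _ at h2
    rw [h2, dotProduct_smul, smul_eq_mul]
    congr 1
    have hk : (k : ℕ) < v.length := by rw [hv.1]; exact k.2
    have hk' : (k : ℕ) < ((bas P v).map fun r => dotL r P.2).length := by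
      rw [List.length_map, bas_length]; exact hk
    have e3 : ((bas P v).map fun r => dotL r P.2).getD k 0 = dotL (rowA P (v.getD k 0)) P.2 := by
      rw [List.getD_eq_getElem _ _ hk', List.getD_eq_getElem _ _ hk]
      simp [bas]
    rw [e3, dotL_row hP (sel_lt hv k.2)]
    push_cast
    rfl
  have h3 : (fun j : Fin P.2.length => (((mults P v).2.getD j 0 : ℤ) : ℝ) -
      (((mults P v).1 : ℤ) : ℝ) * lm (aR P) (bv P v) j (cR P)) ᵥ* bm (aR P) (bv P v) = 0 := by
    ext l
    have h4 := congrFun h1 l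
    simp only [Pi.smul_apply, smul_eq_mul] at h4
    simp only [vecMul, dotProduct, bm, Matrix.of_apply, Pi.zero_apply]
    simp only [sub_mul, Finset.sum_sub_distrib]
    rw [h4, ← sum_lm h (cR P) l, Finset.mul_sum, sub_eq_zero]
    refine Finset.sum_congr rfl fun j _ => ?_
    ring
  have h5 := eq_zero_of_vecMul_eq_zero h h3
  have h6 := congrFun h5 p
  simp only [Pi.zero_apply] at h6
  linarith

theorem impr_iff {P : LPd} (hP : WF P) {v : List ℕ} (hv : Sel P v)
    (h : dt (aR P) (bv P v) ≠ 0) (p : Fin P.2.length) :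
    impr P v (bv P v p) = true ↔ lm (aR P) (bv P v) p (cR P) < 0 := by
  have hp : (p : ℕ) < v.length := by rw [hv.1]; exact p.2
  have hw : ((bas P v).map fun r => dotL r P.2).length = (bas P v).length := by simp
  have hd : (mults P v).1 ≠ 0 := (solveG_ne hP hv hw).2 h
  have hlen : (mults P v).2.length = v.length := by
    have h1 := (solveG_spec (bas P v) _ hw).1
    rw [bas_length] at h1
    exact h1
  have hp' : (p : ℕ) < (mults P v).2.length := by rw [hlen]; exact hp
  have key : impr P v (bv P v p) = true ↔ (mults P v).1 * (mults P v).2.getD p 0 < 0 := by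
    unfold impr
    rw [List.any_eq_true]
    constructor
    · rintro ⟨q, hq, h1⟩
      rw [Bool.and_eq_true, decide_eq_true_eq, decide_eq_true_eq] at h1
      obtain ⟨i, hi, rfl⟩ := List.mem_iff_getElem.1 hq
      rw [List.getElem_zip] at h1
      have hi' : i < v.length := by
        rw [List.length_zip] at hi
        exact lt_of_lt_of_le hi (min_le_left _ _)
      have e1 : v[i] = v[(p : ℕ)] := by
        have := h1.1
        simp only [bv] at this
        rw [List.getD_eq_getElem _ _ hp] at this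
        exact this
      have e2 : i = p := (List.Nodup.getElem_inj_iff hv.2.1).1 e1
      subst e2
      have h2 := h1.2
      simp only at h2
      rw [List.getD_eq_getElem _ _ hp']
      exact h2
    · intro h1
      have hi : (p : ℕ) < (List.zip v (mults P v).2).length := by
        rw [List.length_zip]
        exact lt_min hp hp'
      refine ⟨(List.zip v (mults P v).2)[(p : ℕ)], List.getElem_mem hi, ?_⟩
      rw [Bool.and_eq_true, decide_eq_true_eq, decide_eq_true_eq, List.getElem_zip]
      rw [List.getD_eq_getElem _ _ hp'] at h1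
      refine ⟨?_, h1⟩
      simp only [bv]
      rw [List.getD_eq_getElem _ _ hp]
  rw [key]
  have h1 : (((mults P v).1 * (mults P v).2.getD p 0 : ℤ) : ℝ) =
      (((mults P v).1 : ℤ) : ℝ) ^ 2 * lm (aR P) (bv P v) p (cR P) := by
    push_cast
    rw [mults_eq hP hv h p]
    ring
  have hd' : (((mults P v).1 : ℤ) : ℝ) ≠ 0 := by
    rw [Ne, Int.cast_eq_zero]
    exact hd
  have h5 : 0 < (((mults P v).1 : ℤ) : ℝ) ^ 2 := by positivity
  rw [← Int.cast_lt_zero (R := ℝ), h1]
  constructor
  · intro h6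
    by_contra h7
    push Not at h7
    have := mul_nonneg h5.le h7
    linarith
  · intro h6
    exact mul_neg_of_pos_of_neg h5 h6

theorem impr_mem {P : LPd} {v : List ℕ} {j : ℕ} (h : impr P v j = true) : j ∈ v := by
  unfold impr at h
  rw [List.any_eq_true] at h
  obtain ⟨q, hq, h1⟩ := h
  rw [Bool.and_eq_true, decide_eq_true_eq] at h1
  rw [← h1.1]
  exact (List.of_mem_zip (a := q.1) (b := q.2) hq).1

theorem enter_some {P : LPd} {v : List ℕ} {j r : ℕ} (h : enter P v j = some r) :
    r < P.1.length ∧ r ∉ v ∧ feas P (repl v j r) = true := by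
  unfold enter at h
  have h1 := List.mem_of_mem_head? (by rw [h]; exact rfl)
  rw [List.mem_filter, List.mem_range, Bool.and_eq_true, decide_eq_true_eq] at h1
  exact ⟨h1.1, h1.2.1, h1.2.2⟩

theorem enter_none {P : LPd} {v : List ℕ} {j : ℕ} (h : enter P v j = none) :
    ∀ r < P.1.length, r ∉ v → feas P (repl v j r) = false := by
  intro r hr hrv
  unfold enter at h
  rw [List.head?_eq_none_iff, List.filter_eq_nil_iff] at h
  have h1 := h r (List.mem_range.2 hr)
  rw [Bool.and_eq_true, decide_eq_true_eq] at h1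
  by_contra h2
  exact h1 ⟨hrv, by simpa using h2⟩

theorem bv_repl {P : LPd} {v : List ℕ} (hv : Sel P v) (p : Fin P.2.length) (r : ℕ) :
    bv P (repl v (bv P v p) r) = update (bv P v) p r := by
  have hp : (p : ℕ) < v.length := by rw [hv.1]; exact p.2
  ext i
  have hi : (i : ℕ) < v.length := by rw [hv.1]; exact i.2
  have hi' : (i : ℕ) < (repl v (bv P v p) r).length := by
    unfold repl
    rw [List.length_map]
    exact hi
  simp only [bv]
  change (repl v (bv P v p) r).getD i 0 = _
  rw [List.getD_eq_getElem _ _ hi']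
  have e1 : (repl v (bv P v p) r)[(i : ℕ)] = if v[(i : ℕ)] = bv P v p then r else v[(i : ℕ)] := by
    simp [repl]
  rw [e1]
  have e2 : bv P v p = v[(p : ℕ)] := by
    simp only [bv]
    rw [List.getD_eq_getElem _ _ hp]
  by_cases hip : i = p
  · subst hip
    rw [if_pos e2.symm, update_self]
  · have e3 : bv P v i = v[(i : ℕ)] := by
      simp only [bv]
      rw [List.getD_eq_getElem _ _ hi]
    rw [update_of_ne hip, if_neg, e3]
    rw [e2]
    intro h
    apply hip
    exact Fin.ext ((List.Nodup.getElem_inj_iff hv.2.1).1 h)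

theorem sel_repl {P : LPd} {v : List ℕ} (hv : Sel P v) {j r : ℕ} (hj : j ∈ v)
    (hr : r < P.1.length) (hrv : r ∉ v) : Sel P (repl v j r) := by
  refine ⟨?_, ?_, ?_⟩
  · unfold repl
    rw [List.length_map]
    exact hv.1
  · unfold repl
    apply List.Nodup.map_on ?_ hv.2.1
    intro x hx y hy hxy
    split_ifs at hxy with h1 h2 h2
    · rw [h1, h2]
    · exact absurd (hxy ▸ hy) hrv
    · exact absurd (hxy ▸ hx) hrv
    · exact hxy
  · intro x hx
    unfold repl at hx
    rw [List.mem_map] at hx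
    obtain ⟨y, hy, rfl⟩ := hx
    split_ifs
    · exact hr
    · exact hv.2.2 _ hy

theorem exists_pos {P : LPd} {v : List ℕ} (hv : Sel P v) {j : ℕ} (hj : j ∈ v) :
    ∃ p : Fin P.2.length, bv P v p = j := by
  obtain ⟨i, hi, rfl⟩ := List.mem_iff_getElem.1 hj
  refine ⟨⟨i, by rw [← hv.1]; exact hi⟩, ?_⟩
  simp only [bv]
  rw [List.getD_eq_getElem _ _ hi]

end Pool.Agent.H24U
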