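import Pool.Agent.H24R2.U.Num

set_option autoImplicit false

/-!
# The perturbed linear program
-/

namespace Pool.Agent.H24U

open Pool.Agent.H670R2 Pool.Agent.H24R2 Matrix Function

/-! ### Digits -/

lemma pertDigits {Q : ℤ} (hQ : 0 < Q) (c : ℕ → ℤ) : ∀ (R : ℕ) (I0 : ℤ), (∀ s < R, |c s| < Q) →
    Q ^ R * I0 + ∑ s ∈ Finset.range R, c s * Q ^ (R - 1 - s) = 0 → ∀ s < R, c s = 0 := by
  intro R
  induction R with
  | zero => intro I0 _ _ s hs; omega
  | succ R ih =>
    intro I0 hc h
    rw [Finset.sum_range_succ] at h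
    have h1 : ∑ s ∈ Finset.range R, c s * Q ^ (R + 1 - 1 - s) =
        Q * ∑ s ∈ Finset.range R, c s * Q ^ (R - 1 - s) := by
      rw [Finset.mul_sum]
      refine Finset.sum_congr rfl fun s hs => ?_
      have hs' : s < R := Finset.mem_range.1 hs
      have : R + 1 - 1 - s = (R - 1 - s) + 1 := by omega
      rw [this, pow_succ]
      ring
    have h2 : c R * Q ^ (R + 1 - 1 - R) = c R := by
      have : R + 1 - 1 - R = 0 := by omega
      rw [this, pow_zero, mul_one]
    rw [h1, h2] at h
    have h3 : Q * (Q ^ R * I0 + ∑ s ∈ Finset.range R, c s * Q ^ (R - 1 - s)) + c R = 0 := by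
      rw [← h, pow_succ]
      ring
    have h4 : Q ∣ c R := by
      refine ⟨-(Q ^ R * I0 + ∑ s ∈ Finset.range R, c s * Q ^ (R - 1 - s)), ?_⟩
      linarith
    have h5 : c R = 0 := Int.eq_zero_of_abs_lt_dvd h4 (hc R (by omega))
    have h6 : Q ^ R * I0 + ∑ s ∈ Finset.range R, c s * Q ^ (R - 1 - s) = 0 := by
      rw [h5, add_zero] at h3
      exact (mul_eq_zero.1 h3).resolve_left hQ.ne'
    intro s hs
    rcases Nat.lt_succ_iff_lt_or_eq.1 hs with hs | rfl
    · exact ih I0 (fun s hs => hc s (by omega)) h6 s hs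
    · exact h5

lemma pertSmall {Q : ℤ} (hQ : 1 < Q) (c : ℕ → ℤ) : ∀ R : ℕ, (∀ s < R, |c s| < Q) →
    |∑ s ∈ Finset.range R, c s * Q ^ (R - 1 - s)| < Q ^ R := by
  intro R
  induction R with
  | zero => intro _; simp
  | succ R ih =>
    intro hc
    rw [Finset.sum_range_succ]
    have h1 : ∑ s ∈ Finset.range R, c s * Q ^ (R + 1 - 1 - s) =
        Q * ∑ s ∈ Finset.range R, c s * Q ^ (R - 1 - s) := by
      rw [Finset.mul_sum]
      refine Finset.sum_congr rfl fun s hs => ?_
      have hs' : s < R := Finset.mem_range.1 hs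
      have : R + 1 - 1 - s = (R - 1 - s) + 1 := by omega
      rw [this, pow_succ]
      ring
    have h2 : c R * Q ^ (R + 1 - 1 - R) = c R := by
      have : R + 1 - 1 - R = 0 := by omega
      rw [this, pow_zero, mul_one]
    rw [h1, h2]
    have h3 := ih (fun s hs => hc s (by omega))
    have h4 := hc R (by omega)
    set T := ∑ s ∈ Finset.range R, c s * Q ^ (R - 1 - s)
    rw [abs_lt] at h3 h4 ⊢
    rw [pow_succ]
    constructor
    · nlinarith [h3.1, h3.2, h4.1, h4.2]
    · nlinarith [h3.1, h3.2, h4.1, h4.2]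

/-! ### Determinants -/

lemma pertAbsDet {n : ℕ} (M : Matrix (Fin n) (Fin n) ℤ) : |M.det| ≤ ∏ i, ∑ j, |M i j| := by
  classical
  rw [← det_transpose, det_apply]
  calc |∑ σ : Equiv.Perm (Fin n), Equiv.Perm.sign σ • ∏ i, Mᵀ (σ i) i|
      ≤ ∑ σ : Equiv.Perm (Fin n), |Equiv.Perm.sign σ • ∏ i, Mᵀ (σ i) i| :=
        Finset.abs_sum_le_sum_abs _ _
    _ = ∑ σ : Equiv.Perm (Fin n), ∏ i, |M i (σ i)| := by
        refine Finset.sum_congr rfl fun σ _ => ?_
        rw [← Finset.abs_prod]
        rcases Int.units_eq_one_or (Equiv.Perm.sign σ) with h | h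
        · rw [h, one_smul]
          rfl
        · rw [h]
          simp [Units.smul_def]
    _ = ∑ f ∈ Finset.image (fun σ : Equiv.Perm (Fin n) => (fun i => σ i : Fin n → Fin n))
          Finset.univ, ∏ i, |M i (f i)| := by
        rw [Finset.sum_image]
        intro σ _ τ _ h
        exact Equiv.ext fun i => congrFun h i
    _ ≤ ∑ f : Fin n → Fin n, ∏ i, |M i (f i)| := by
        apply Finset.sum_le_sum_of_subset_of_nonneg (Finset.subset_univ _)
        intro f _ _
        exact Finset.prod_nonneg fun i _ => abs_nonneg _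
    _ = ∏ i, ∑ j, |M i j| := by
        rw [Finset.prod_univ_sum]
        simp

/-- integer version of `bm` -/
def pertBm (P : LPd) (v : List ℕ) : Matrix (Fin P.2.length) (Fin P.2.length) ℤ :=
  Matrix.of fun i j => (rowA P (bv P v i)).getD j 0

def pertD (P : LPd) (v : List ℕ) : ℤ := (pertBm P v).det

def pertDp (P : LPd) (v : List ℕ) (p : Fin P.2.length) (r : ℕ) : ℤ :=
  ((pertBm P v).updateRow p fun j => (rowA P r).getD j 0).det

lemma pert_dt_eq (P : LPd) (v : List ℕ) : dt (aR P) (bv P v) = ((pertD P v : ℤ) : ℝ) := by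
  unfold dt pertD
  rw [show ((pertBm P v).det : ℝ) = (Int.castRingHom ℝ) (pertBm P v).det from rfl, RingHom.map_det]
  rfl

lemma pert_lm_eq (P : LPd) {v : List ℕ} (h : dt (aR P) (bv P v) ≠ 0) (p : Fin P.2.length) (r : ℕ) :
    dt (aR P) (bv P v) * lm (aR P) (bv P v) p (aR P r) = ((pertDp P v p r : ℤ) : ℝ) := by
  unfold lm
  rw [mul_div_cancel₀ _ h]
  unfold pertDp
  rw [show ((((pertBm P v).updateRow p fun j => (rowA P r).getD j 0).det : ℤ) : ℝ) =
    (Int.castRingHom ℝ) ((pertBm P v).updateRow p fun j => (rowA P r).getD j 0).det from rfl,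
    RingHom.map_det]
  congr 1
  ext i j
  by_cases hi : i = p
  · subst hi
    simp [aR]
  · simp [updateRow_ne hi, bm, pertBm, aR]

/-! ### Sizes -/

lemma pertRow (P : LPd) (r : ℕ) :
    ∑ j : Fin P.2.length, |(rowA P r).getD j 0| ≤ (bigS P : ℤ) := by
  have h1 : ∀ (l : List ℤ) (n : ℕ), ∑ j : Fin n, |l.getD j 0| ≤ (((l.map Int.natAbs).sum : ℕ) : ℤ) := by
    intro l
    induction l with
    | nil => intro n; simp
    | cons a l ih =>
      intro n
      cases n with
      | zero =>
        rw [Finset.univ_eq_empty, Finset.sum_empty]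
        exact Int.natCast_nonneg _
      | succ n =>
        rw [Fin.sum_univ_succ]
        have := ih n
        simp only [Fin.val_zero, List.getD_cons_zero, Fin.val_succ, List.getD_cons_succ,
          List.map_cons, List.sum_cons, Nat.cast_add, Int.natCast_natAbs]
        linarith
  refine (h1 _ _).trans ?_
  unfold bigS rowA
  by_cases hr : r < P.1.length
  · rw [List.getD_eq_getElem _ _ hr]
    have h2 : ((P.1[r]).1.map Int.natAbs).sum + (P.1[r]).2.natAbs ∈
        P.1.map fun q => (q.1.map Int.natAbs).sum + q.2.natAbs := by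
      apply List.mem_map.2
      exact ⟨P.1[r], List.getElem_mem hr, rfl⟩
    have h3 := List.single_le_sum (fun _ _ => Nat.zero_le _) _ h2
    have h4 : ((P.1[r]).1.map Int.natAbs).sum ≤
        1 + (P.1.map fun q => (q.1.map Int.natAbs).sum + q.2.natAbs).sum := by omega
    exact_mod_cast h4
  · rw [List.getD_eq_default _ _ (by omega)]
    exact_mod_cast Nat.zero_le _

lemma pertQ_gt (P : LPd) : (bigS P : ℤ) ^ P.2.length < pertQ P := by
  have h1 : bigS P < 2 ^ (bigS P).bits.length := by
    rw [Nat.size_eq_bits_len]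
    exact Nat.lt_size_self _
  have h2 : bigS P ^ P.2.length ≤ (2 ^ (bigS P).bits.length) ^ P.2.length :=
    Nat.pow_le_pow_left h1.le _
  have h3 : (2 ^ (bigS P).bits.length) ^ P.2.length < 2 ^ qexp P := by
    rw [← pow_mul]
    apply Nat.pow_lt_pow_right (by norm_num)
    unfold qexp
    nlinarith [Nat.zero_le (bigS P).bits.length]
  have h4 : bigS P ^ P.2.length < 2 ^ qexp P := lt_of_le_of_lt h2 h3
  unfold pertQ
  exact_mod_cast h4

lemma pertQ_gt_one (P : LPd) : 1 < pertQ P := by
  have h1 : 1 < 2 ^ qexp P := by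
    apply Nat.one_lt_two_pow
    unfold qexp
    omega
  unfold pertQ
  exact_mod_cast h1

lemma pert_absD_lt (P : LPd) (v : List ℕ) : |pertD P v| < pertQ P := by
  refine lt_of_le_of_lt ((pertAbsDet _).trans ?_) (pertQ_gt P)
  have h : ∏ i : Fin P.2.length, ∑ j, |pertBm P v i j| ≤ ∏ _i : Fin P.2.length, (bigS P : ℤ) := by
    apply Finset.prod_le_prod
    · intro i _
      exact Finset.sum_nonneg fun j _ => abs_nonneg _
    · intro i _
      exact pertRow P _
  simpa using h

lemma pert_absDp_lt (P : LPd) (v : List ℕ) (p : Fin P.2.length) (r : ℕ) :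
    |pertDp P v p r| < pertQ P := by
  refine lt_of_le_of_lt ((pertAbsDet _).trans ?_) (pertQ_gt P)
  have h : ∏ i : Fin P.2.length,
      ∑ j, |((pertBm P v).updateRow p fun j => (rowA P r).getD j 0) i j| ≤
      ∏ _i : Fin P.2.length, (bigS P : ℤ) := by
    apply Finset.prod_le_prod
    · intro i _
      exact Finset.sum_nonneg fun j _ => abs_nonneg _
    · intro i _
      by_cases hi : i = p
      · subst hi
        simp only [updateRow_self]
        exact pertRow P _
      · simp only [updateRow_ne hi]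
        exact pertRow P _
  simpa using h

/-! ### The perturbed program -/

lemma pert_length (P : LPd) (v0 : List ℕ) : (pert P v0).1.length = P.1.length := by
  simp [pert]

theorem pert_rowA (P : LPd) (v0 : List ℕ) (r : ℕ) : rowA (pert P v0) r = rowA P r := by
  by_cases hr : r < P.1.length
  · have h : r < (pert P v0).1.length := by rw [pert_length]; exact hr
    have e : rowA (pert P v0) r = ((pert P v0).1[r]).1 := by
      unfold rowA
      rw [List.getD_eq_getElem _ _ h]
    rw [e]
    simp [pert]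
  · unfold rowA
    rw [List.getD_eq_default _ _ (by rw [pert_length]; omega),
      List.getD_eq_default _ _ (by omega)]

lemma pert_rowB (P : LPd) (v0 : List ℕ) {r : ℕ} (hr : r < P.1.length) :
    rowB (pert P v0) r = pertQ P ^ P.1.length * rowB P r +
      (if r ∈ v0 then 0 else pertQ P ^ (P.1.length - 1 - r)) := by
  have h : r < (pert P v0).1.length := by rw [pert_length]; exact hr
  have e : rowB (pert P v0) r = ((pert P v0).1[r]).2 := by
    unfold rowB
    rw [List.getD_eq_getElem _ _ h]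
  rw [e]
  simp [pert]

theorem pert_wf {P : LPd} (hP : WF P) (v0 : List ℕ) : WF (pert P v0) := by
  intro r hr
  rw [pert_rowA]
  rw [pert_length] at hr
  exact hP r hr

lemma pert_aR (P : LPd) (v0 : List ℕ) : aR (pert P v0) = aR P := by
  funext r i
  unfold aR
  rw [pert_rowA]

lemma pert_sel {P : LPd} {v0 v : List ℕ} : Sel (pert P v0) v ↔ Sel P v := by
  unfold Sel
  rw [pert_length]
  rfl

lemma pert_dt (P : LPd) (v0 v : List ℕ) :
    dt (aR (pert P v0)) (bv (pert P v0) v) = dt (aR P) (bv P v) := by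
  change dt (n := P.2.length) (aR (pert P v0)) (bv P v) = _
  rw [pert_aR]

lemma pert_sk (P : LPd) (v0 v : List ℕ) (r : ℕ) :
    sk (aR (pert P v0)) (bR (pert P v0)) (bv (pert P v0) v) r =
      sk (aR P) (bR (pert P v0)) (bv P v) r := by
  change sk (n := P.2.length) (aR (pert P v0)) (bR (pert P v0)) (bv P v) r = _
  rw [pert_aR]

lemma pert_bv_mem {P : LPd} {v : List ℕ} (hv : Sel P v) (p : Fin P.2.length) : bv P v p ∈ v := by
  unfold bv
  have h : (p : ℕ) < v.length := by rw [hv.1]; exact p.2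
  rw [List.getD_eq_getElem _ _ h]
  exact List.getElem_mem h

lemma pert_bv_lt {P : LPd} {v : List ℕ} (hv : Sel P v) (p : Fin P.2.length) :
    bv P v p < P.1.length := hv.2.2 _ (pert_bv_mem hv p)

lemma pert_bv_inj {P : LPd} {v : List ℕ} (hv : Sel P v) : Injective (bv P v) := by
  intro p q hpq
  have hp : (p : ℕ) < v.length := by rw [hv.1]; exact p.2
  have hq : (q : ℕ) < v.length := by rw [hv.1]; exact q.2
  unfold bv at hpq
  rw [List.getD_eq_getElem _ _ hp, List.getD_eq_getElem _ _ hq] at hpq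
  exact Fin.ext ((List.Nodup.getElem_inj_iff hv.2.1).1 hpq)

lemma pert_exists {P : LPd} {v : List ℕ} (hv : Sel P v) {j : ℕ} (hj : j ∈ v) :
    ∃ p : Fin P.2.length, bv P v p = j := by
  obtain ⟨i, hi, rfl⟩ := List.mem_iff_getElem.1 hj
  refine ⟨⟨i, by rw [← hv.1]; exact hi⟩, ?_⟩
  unfold bv
  rw [List.getD_eq_getElem _ _ hi]

/-- the unperturbed part of the slack -/
def pertS (P : LPd) (v : List ℕ) (r : ℕ) : ℤ :=
  pertD P v * rowB P r - ∑ p : Fin P.2.length, pertDp P v p r * rowB P (bv P v p)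

/-- the digits of the perturbation of the slack -/
def pertDig (P : LPd) (v0 v : List ℕ) (r s : ℕ) : ℤ :=
  (if s = r ∧ r ∉ v0 then pertD P v else 0) -
    ∑ p : Fin P.2.length, (if s = bv P v p ∧ bv P v p ∉ v0 then pertDp P v p r else 0)

lemma pert_dt_sk0 (P : LPd) {v : List ℕ} (h : dt (aR P) (bv P v) ≠ 0) (B : ℕ → ℝ) (r : ℕ) :
    dt (aR P) (bv P v) * sk (aR P) B (bv P v) r =
      ((pertD P v : ℤ) : ℝ) * B r - ∑ p, ((pertDp P v p r : ℤ) : ℝ) * B (bv P v p) := by
  have h1 : ∀ p, dt (aR P) (bv P v) * (lm (aR P) (bv P v) p (aR P r) *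
      (aR P (bv P v p) ⬝ᵥ bpt (aR P) B (bv P v))) = ((pertDp P v p r : ℤ) : ℝ) * B (bv P v p) := by
    intro p
    rw [dot_bpt h, ← mul_assoc, pert_lm_eq P h]
  unfold sk
  rw [dot_eq h (aR P r), mul_sub, Finset.mul_sum, Finset.sum_congr rfl fun p _ => h1 p,
    pert_dt_eq]

lemma pert_dt_sk_orig (P : LPd) {v : List ℕ} (h : dt (aR P) (bv P v) ≠ 0) (r : ℕ) :
    dt (aR P) (bv P v) * sk (aR P) (bR P) (bv P v) r = ((pertS P v r : ℤ) : ℝ) := by
  rw [pert_dt_sk0 P h]
  unfold pertS bR
  push_cast
  rfl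

lemma pertSum {Q : ℤ} {R r : ℕ} (hr : r < R) (c : Prop) [Decidable c] (d : ℤ) :
    ∑ s ∈ Finset.range R, (if s = r ∧ c then d else 0) * Q ^ (R - 1 - s) =
      if c then d * Q ^ (R - 1 - r) else 0 := by
  rw [Finset.sum_eq_single r]
  · by_cases hc : c
    · rw [if_pos ⟨rfl, hc⟩, if_pos hc]
    · rw [if_neg (fun h => hc h.2), if_neg hc, zero_mul]
  · intro s _ hs
    rw [if_neg (fun h => hs h.1), zero_mul]
  · intro h
    exact absurd (Finset.mem_range.2 hr) h

lemma pert_dt_sk {P : LPd} (v0 : List ℕ) {v : List ℕ} (hv : Sel P v)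
    (h : dt (aR P) (bv P v) ≠ 0) {r : ℕ} (hr : r < P.1.length) :
    dt (aR P) (bv P v) * sk (aR P) (bR (pert P v0)) (bv P v) r =
      ((pertQ P ^ P.1.length * pertS P v r + ∑ s ∈ Finset.range P.1.length,
        pertDig P v0 v r s * pertQ P ^ (P.1.length - 1 - s) : ℤ) : ℝ) := by
  rw [pert_dt_sk0 P h]
  have key : pertD P v * rowB (pert P v0) r -
      ∑ p : Fin P.2.length, pertDp P v p r * rowB (pert P v0) (bv P v p) =
      pertQ P ^ P.1.length * pertS P v r + ∑ s ∈ Finset.range P.1.length,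
        pertDig P v0 v r s * pertQ P ^ (P.1.length - 1 - s) := by
    have e1 : ∑ s ∈ Finset.range P.1.length,
        pertDig P v0 v r s * pertQ P ^ (P.1.length - 1 - s) =
        (if r ∉ v0 then pertD P v * pertQ P ^ (P.1.length - 1 - r) else 0) -
        ∑ p : Fin P.2.length, (if bv P v p ∉ v0 then
          pertDp P v p r * pertQ P ^ (P.1.length - 1 - bv P v p) else 0) := by
      unfold pertDig
      simp only [sub_mul, Finset.sum_sub_distrib]
      rw [pertSum hr]
      congr 1
      simp only [Finset.sum_mul]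
      rw [Finset.sum_comm]
      refine Finset.sum_congr rfl fun p _ => ?_
      rw [pertSum (pert_bv_lt hv p)]
    rw [e1, pert_rowB P v0 hr]
    have e2 : ∀ p : Fin P.2.length, pertDp P v p r * rowB (pert P v0) (bv P v p) =
        pertQ P ^ P.1.length * (pertDp P v p r * rowB P (bv P v p)) +
        (if bv P v p ∉ v0 then
          pertDp P v p r * pertQ P ^ (P.1.length - 1 - bv P v p) else 0) := by
      intro p
      rw [pert_rowB P v0 (pert_bv_lt hv p)]
      by_cases hp : bv P v p ∈ v0
      · simp only [hp, if_true, not_true_eq_false, if_false]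
        ring
      · simp only [hp, if_false, not_false_eq_true, if_true]
        ring
    rw [Finset.sum_congr rfl fun p _ => e2 p, Finset.sum_add_distrib, ← Finset.mul_sum]
    unfold pertS
    by_cases hrv : r ∈ v0
    · simp only [hrv, if_true, not_true_eq_false, if_false]
      ring
    · simp only [hrv, if_false, not_false_eq_true, if_true]
      ring
  rw [← key]
  unfold bR
  push_cast
  rfl

lemma pertDig_self {P : LPd} {v0 v : List ℕ} (hv : Sel P v) {r : ℕ} (hrv : r ∉ v) :
    pertDig P v0 v r r = if r ∉ v0 then pertD P v else 0 := by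
  unfold pertDig
  rw [Finset.sum_eq_zero, sub_zero]
  · by_cases hr : r ∈ v0
    · simp [hr]
    · simp [hr]
  · intro p _
    rw [if_neg]
    rintro ⟨h, -⟩
    exact hrv (h ▸ pert_bv_mem hv p)

lemma pertDig_bv {P : LPd} {v0 v : List ℕ} (hv : Sel P v) {r : ℕ} (hrv : r ∉ v)
    (p : Fin P.2.length) :
    pertDig P v0 v r (bv P v p) = -(if bv P v p ∉ v0 then pertDp P v p r else 0) := by
  have hne : ¬(bv P v p = r ∧ r ∉ v0) := fun h => hrv (h.1 ▸ pert_bv_mem hv p)
  unfold pertDig
  rw [if_neg hne, zero_sub, Finset.sum_eq_single p]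
  · simp only [true_and]
  · intro q _ hq
    rw [if_neg]
    rintro ⟨h, -⟩
    exact hq (pert_bv_inj hv h.symm)
  · intro h
    exact absurd (Finset.mem_univ p) h

lemma pertDig_other {P : LPd} {v0 v : List ℕ} {r s : ℕ} (hs : s ≠ r)
    (h : ∀ p : Fin P.2.length, bv P v p ≠ s) : pertDig P v0 v r s = 0 := by
  unfold pertDig
  rw [if_neg (fun h => hs h.1), zero_sub, Finset.sum_eq_zero, neg_zero]
  intro p _
  rw [if_neg (fun h' => h p h'.1.symm)]

lemma pert_absDig_lt {P : LPd} {v0 v : List ℕ} (hv : Sel P v) {r : ℕ} (hrv : r ∉ v) (s : ℕ) :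
    |pertDig P v0 v r s| < pertQ P := by
  have hQ : 0 < pertQ P := by linarith [pertQ_gt_one P]
  by_cases hs : s = r
  · subst hs
    rw [pertDig_self hv hrv]
    by_cases h0 : s ∉ v0
    · rw [if_pos h0]
      exact pert_absD_lt P v
    · rw [if_neg h0]
      simpa using hQ
  · by_cases h : ∃ p : Fin P.2.length, bv P v p = s
    · obtain ⟨p, rfl⟩ := h
      rw [pertDig_bv hv hrv, abs_neg]
      by_cases h0 : bv P v p ∉ v0
      · rw [if_pos h0]
        exact pert_absDp_lt P v p r
      · rw [if_neg h0]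
        simpa using hQ
    · push Not at h
      rw [pertDig_other hs h]
      simpa using hQ

set_option linter.unusedVariables false in
theorem pert_nd {P : LPd} (hP : WF P) {v0 : List ℕ} (h0 : Sel P v0)
    (hd : dt (aR P) (bv P v0) ≠ 0) : ND (pert P v0) := by
  intro v hv h r hr hrv hsk
  rw [pert_sel] at hv
  rw [pert_dt] at h
  rw [pert_length] at hr
  rw [pert_sk] at hsk
  have h1 := pert_dt_sk v0 hv h hr
  rw [hsk, mul_zero] at h1
  have h2 : pertQ P ^ P.1.length * pertS P v r + ∑ s ∈ Finset.range P.1.length,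
        pertDig P v0 v r s * pertQ P ^ (P.1.length - 1 - s) = 0 := by exact_mod_cast h1.symm
  have h3 := pertDigits (by linarith [pertQ_gt_one P]) (pertDig P v0 v r) P.1.length (pertS P v r)
    (fun s _ => pert_absDig_lt hv hrv s) h2
  by_cases hr0 : r ∈ v0
  · obtain ⟨i, hi⟩ := pert_exists h0 hr0
    have h4 : aR P r ⬝ᵥ dir (aR P) (bv P v0) i = -1 := by
      rw [← hi, dot_dir_self hd, if_pos rfl]
    have h5 : aR P r ⬝ᵥ dir (aR P) (bv P v0) i = 0 := by
      rw [dot_eq h (aR P r)]
      apply Finset.sum_eq_zero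
      intro p _
      by_cases hp : bv P v p ∈ v0
      · obtain ⟨k, hk⟩ := pert_exists h0 hp
        have : aR P (bv P v p) ⬝ᵥ dir (aR P) (bv P v0) i = 0 := by
          rw [← hk, dot_dir_self hd, if_neg]
          rintro rfl
          apply hrv
          rw [← hi, hk]
          exact pert_bv_mem hv p
        rw [this, mul_zero]
      · have h6 := h3 _ (pert_bv_lt hv p)
        rw [pertDig_bv hv hrv, if_pos hp] at h6
        have h7 : pertDp P v p r = 0 := by linarith
        have h8 := pert_lm_eq P h p r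
        rw [h7, Int.cast_zero] at h8
        rw [(mul_eq_zero.1 h8).resolve_left h, zero_mul]
    rw [h4] at h5
    norm_num at h5
  · have h4 := h3 r hr
    rw [pertDig_self hv hrv, if_pos hr0] at h4
    apply h
    rw [pert_dt_eq, h4, Int.cast_zero]

theorem pert_feas {P : LPd} (hP : WF P) {v0 v : List ℕ} (hv : Sel P v)
    (h : feas (pert P v0) v = true) : ∀ r, 0 ≤ sk (aR P) (bR P) (bv P v) r := by
  rw [feas_iff (pert_wf hP v0) (pert_sel.2 hv), pert_dt, pert_length] at h
  obtain ⟨h, h'⟩ := h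
  intro r
  by_cases hr : r < P.1.length
  · by_cases hrv : r ∈ v
    · obtain ⟨p, rfl⟩ := pert_exists hv hrv
      rw [sk_self h]
    · have h1 := h' r hr
      rw [pert_sk] at h1
      have h2 := pert_dt_sk v0 hv h hr
      have h3 := pert_dt_sk_orig P h r
      have h4 := pertSmall (pertQ_gt_one P) (pertDig P v0 v r) P.1.length
        (fun s _ => pert_absDig_lt hv hrv s)
      have hQ : 0 < pertQ P ^ P.1.length := by
        have := pertQ_gt_one P
        positivity
      set T := ∑ s ∈ Finset.range P.1.length,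
        pertDig P v0 v r s * pertQ P ^ (P.1.length - 1 - s) with hT
      rw [abs_lt] at h4
      by_contra hcon
      push Not at hcon
      rcases lt_or_gt_of_ne h with hneg | hpos
      · have h5 : 0 < ((pertS P v r : ℤ) : ℝ) := by
          rw [← h3]
          exact mul_pos_of_neg_of_neg hneg hcon
        have h6 : 0 < pertS P v r := by exact_mod_cast h5
        have h7 : ((pertQ P ^ P.1.length * pertS P v r + T : ℤ) : ℝ) ≤ 0 := by
          rw [← h2]
          exact mul_nonpos_of_nonpos_of_nonneg hneg.le h1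
        have h8 : pertQ P ^ P.1.length * pertS P v r + T ≤ 0 := by exact_mod_cast h7
        nlinarith [h4.1, h4.2]
      · have h5 : ((pertS P v r : ℤ) : ℝ) < 0 := by
          rw [← h3]
          exact mul_neg_of_pos_of_neg hpos hcon
        have h6 : pertS P v r < 0 := by exact_mod_cast h5
        have h7 : 0 ≤ ((pertQ P ^ P.1.length * pertS P v r + T : ℤ) : ℝ) := by
          rw [← h2]
          exact mul_nonneg hpos.le h1
        have h8 : 0 ≤ pertQ P ^ P.1.length * pertS P v r + T := by exact_mod_cast h7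
        nlinarith [h4.1, h4.2]
  · have h1 : aR P r = 0 := by
      funext i
      unfold aR rowA
      rw [List.getD_eq_default P.1 _ (by omega)]
      simp
    have h2 : bR P r = 0 := by
      unfold bR rowB
      rw [List.getD_eq_default P.1 _ (by omega)]
      simp
    unfold sk
    rw [h1, h2, zero_dotProduct, sub_zero]

theorem pert_start {P : LPd} (hP : WF P) {v0 : List ℕ} (h0 : Sel P v0)
    (hd : dt (aR P) (bv P v0) ≠ 0) (hx : ∀ r < P.1.length, 0 ≤ sk (aR P) (bR P) (bv P v0) r) :
    feas (pert P v0) v0 = true := by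
  rw [feas_iff (pert_wf hP v0) (pert_sel.2 h0), pert_dt, pert_length]
  refine ⟨hd, ?_⟩
  intro r hr
  rw [pert_sk]
  have e1 : ∀ p, bR (pert P v0) (bv P v0 p) = ((pertQ P : ℤ) : ℝ) ^ P.1.length * bR P (bv P v0 p) := by
    intro p
    unfold bR
    rw [pert_rowB P v0 (pert_bv_lt h0 p), if_pos (pert_bv_mem h0 p), add_zero]
    push_cast
    rfl
  have hQ : (0 : ℝ) < ((pertQ P : ℤ) : ℝ) := by
    have := pertQ_gt_one P
    exact_mod_cast (by linarith : 0 < pertQ P)
  have e2 : ((pertQ P : ℤ) : ℝ) ^ P.1.length * bR P r ≤ bR (pert P v0) r := by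
    unfold bR
    rw [pert_rowB P v0 hr]
    push_cast
    have : (0 : ℝ) ≤ if r ∈ v0 then (0 : ℝ) else ((pertQ P : ℤ) : ℝ) ^ (P.1.length - 1 - r) := by
      split_ifs
      · exact le_rfl
      · positivity
    linarith
  have e3 : sk (aR P) (bR (pert P v0)) (bv P v0) r =
      bR (pert P v0) r - ((pertQ P : ℤ) : ℝ) ^ P.1.length *
        (aR P r ⬝ᵥ bpt (aR P) (bR P) (bv P v0)) := by
    unfold sk
    congr 1
    rw [dot_eq hd (aR P r), dot_eq hd (aR P r) (bpt (aR P) (bR P) (bv P v0)), Finset.mul_sum]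
    refine Finset.sum_congr rfl fun p _ => ?_
    rw [dot_bpt hd, dot_bpt hd, e1]
    ring
  rw [e3]
  have h1 := hx r hr
  unfold sk at h1
  have h2 := mul_nonneg (pow_pos hQ P.1.length).le h1
  rw [mul_sub] at h2
  linarith

end Pool.Agent.H24U
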