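import Pool.Agent.H24R2.U.Geo
import Pool.Agent.H24R2.U.Pert
import Pool.Agent.H24R2.U.Spec2

set_option autoImplicit false

/-!
# The original linear program: steps and final configurations
-/

namespace Pool.Agent.H24U

open Pool.Agent.H670R2 Pool.Agent.H24R2 Matrix Function
open Pool.Agent.NPC hiding Poly


lemma pert_len (P : LPd) (v0 : List ℕ) : (pert P v0).1.length = P.1.length := by
  simp [pert]

lemma orig_aR (P : LPd) (v0 : List ℕ) :
    (aR (pert P v0) : ℕ → Fin P.2.length → ℝ) = aR P := by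
  funext r i
  change (((rowA (pert P v0) r).getD i 0 : ℤ) : ℝ) = (((rowA P r).getD i 0 : ℤ) : ℝ)
  rw [pert_rowA]

lemma orig_sel {P : LPd} {v0 v : List ℕ} (h : Sel (pert P v0) v) : Sel P v := by
  refine ⟨h.1, h.2.1, fun x hx => ?_⟩
  have := h.2.2 x hx
  rwa [pert_len] at this

theorem orig_step {P : LPd} (hP : WF P) {v0 : List ℕ} (h0 : Sel P v0)
    (hd : dt (aR P) (bv P v0) ≠ 0) {v w : List ℕ} (hv : Ok (pert P v0) v)
    (h : Pivot (orc (pert P v0)) v w) :
    bpt (aR P) (bR P) (bv P w) = bpt (aR P) (bR P) (bv P v) ∨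
      Step (poly (aR P) (bR P)) (cR P) (bpt (aR P) (bR P) (bv P v))
        (bpt (aR P) (bR P) (bv P w)) := by
  obtain ⟨j, r, hj, him, hen, rfl⟩ := h
  have hW := pert_wf hP v0
  have hN := pert_nd hP h0 hd
  have hA := orig_aR P v0
  obtain ⟨hs, hf⟩ := hv
  have hf1 := (feas_iff hW hs).1 hf
  obtain ⟨p, hp⟩ := exists_pos hs hj
  subst hp
  have him' := (impr_iff hW hs hf1.1 p).1 him
  have hlam := lam_neg_of_enter hW hN ⟨hs, hf⟩ p hen
  obtain ⟨hr1, hr2, hr3⟩ := enter_some hen
  have hs' := sel_repl hs hj hr1 hr2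
  have hf0 := pert_feas hP (orig_sel hs) hf
  have hf' := pert_feas hP (orig_sel hs') hr3
  have hup : bv P (repl v (bv (pert P v0) v p) r) = update (bv P v) p r := bv_repl hs p r
  rw [hup] at hf' ⊢
  by_cases hne : bpt (aR P) (bR P) (update (bv P v) p r) = bpt (aR P) (bR P) (bv P v)
  · exact Or.inl hne
  · right
    have hd1 : dt (aR P) (bv P v) ≠ 0 := by
      have := hf1.1
      change dt (aR (pert P v0) : ℕ → Fin P.2.length → ℝ) (bv P v) ≠ 0 at this
      rwa [hA] at this
    have h1 : lm (aR P) (bv P v) p (cR P) < 0 := by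
      have := him'
      change lm (aR (pert P v0) : ℕ → Fin P.2.length → ℝ) (bv P v) p (cR P) < 0 at this
      rwa [hA] at this
    have h2 : lm (aR P) (bv P v) p (aR P r) < 0 := by
      have := hlam
      change lm (aR (pert P v0) : ℕ → Fin P.2.length → ℝ) (bv P v) p
        ((aR (pert P v0) : ℕ → Fin P.2.length → ℝ) r) < 0 at this
      rwa [hA] at this
    exact step_of_pivot hd1 (cR P) p r (mem_poly_iff hf0) (mem_poly_iff hf') h1 h2
      (fun e => hne e.symm)

theorem orig_final {P : LPd} (hP : WF P) {v0 : List ℕ} (h0 : Sel P v0)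
    (hd : dt (aR P) (bv P v0) ≠ 0) {c : Cfg} (hv : Ok (pert P v0) c.1)
    (h : Final (orc (pert P v0)) c) :
    Terminal (poly (aR P) (bR P)) (cR P) (bpt (aR P) (bR P) (bv P c.1)) := by
  have hW := pert_wf hP v0
  have hN := pert_nd hP h0 hd
  have hA := orig_aR P v0
  have hok := hv
  obtain ⟨hs, hf⟩ := hv
  have hf1 := (feas_iff hW hs).1 hf
  have hf0 := pert_feas hP (orig_sel hs) hf
  have hd1 : dt (aR P) (bv P c.1) ≠ 0 := by
    have := hf1.1
    change dt (aR (pert P v0) : ℕ → Fin P.2.length → ℝ) (bv P c.1) ≠ 0 at this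
    rwa [hA] at this
  have hmem : ∀ p : Fin P.2.length, bv P c.1 p ∈ c.1 := by
    intro p
    have hl : (p : ℕ) < c.1.length := by
      have := (orig_sel hs).1
      omega
    change c.1.getD p 0 ∈ c.1
    rw [List.getD_eq_getElem _ _ hl]
    exact List.getElem_mem hl
  rcases h with ⟨_, h⟩ | ⟨_, j, hj, him, hen⟩
  · apply terminal_of_opt hd1
    intro p
    by_contra hcon
    push Not at hcon
    have h1 : lm (aR (pert P v0)) (bv (pert P v0) c.1) p (cR (pert P v0)) < 0 := by
      change lm (aR (pert P v0) : ℕ → Fin P.2.length → ℝ) (bv P c.1) p (cR P) < 0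
      rw [hA]
      exact hcon
    have h2 := (impr_iff hW hs hf1.1 p).2 h1
    have h3 := h _ (hmem p)
    change impr (pert P v0) c.1 (bv P c.1 p) = false at h3
    change impr (pert P v0) c.1 (bv P c.1 p) = true at h2
    rw [h2] at h3
    exact absurd h3 (by decide)
  · obtain ⟨p, hp⟩ := exists_pos hs hj
    subst hp
    have h1 : lm (aR P) (bv P c.1) p (cR P) < 0 := by
      have := (impr_iff hW hs hf1.1 p).1 him
      change lm (aR (pert P v0) : ℕ → Fin P.2.length → ℝ) (bv P c.1) p (cR P) < 0 at this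
      rwa [hA] at this
    have h2 : ∀ r, 0 ≤ lm (aR P) (bv P c.1) p (aR P r) := by
      have := lam_nonneg_of_none hW hN hok p hen
      change ∀ r, 0 ≤ lm (aR (pert P v0) : ℕ → Fin P.2.length → ℝ) (bv P c.1) p
        ((aR (pert P v0) : ℕ → Fin P.2.length → ℝ) r) at this
      rwa [hA] at this
    exact terminal_of_ray hd1 (cR P) p (mem_poly_iff hf0) h1 h2

end Pool.Agent.H24U
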