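import Pool.Agent.H24R2.U.Geo
import Pool.Agent.H24R2.U.GtQ
import Pool.Agent.H24R2.U.Spec2

set_option autoImplicit false

/-!
# The oracles of a nondegenerate linear program satisfy the axioms of the machine
-/

namespace Pool.Agent.H24U

open Pool.Agent.H670R2 Pool.Agent.H24R2 Matrix Function


/-- Weak duality. -/
theorem weak_dual {P : LPd} {F G : List ℕ} {j : ℕ} {x y : ℕ → ℝ}
    (h1 : ∀ r ∈ j :: F, ev P r x = ((rowB P r : ℤ) : ℝ))
    (h2 : ∀ r ∈ G, ev P r x ≤ ((rowB P r : ℤ) : ℝ)) (h3 : ∀ r ∈ G, r ≠ j → 0 ≤ y r)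
    (h4 : ∀ i < P.2.length, ∑ r ∈ (F ++ G).toFinset, y r * (((rowA P r).getD i 0 : ℤ) : ℝ) =
        ((P.2.getD i 0 : ℤ) : ℝ)) :
    cx P x ≤ ∑ r ∈ (F ++ G).toFinset, y r * ((rowB P r : ℤ) : ℝ) := by
  have e1 : cx P x = ∑ r ∈ (F ++ G).toFinset, y r * ev P r x := by
    unfold cx ev
    have e2 : ∀ i ∈ Finset.range P.2.length, ((P.2.getD i 0 : ℤ) : ℝ) * x i =
        ∑ r ∈ (F ++ G).toFinset, y r * (((rowA P r).getD i 0 : ℤ) : ℝ) * x i := by
      intro i hi
      rw [← h4 i (Finset.mem_range.1 hi), Finset.sum_mul]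
    rw [Finset.sum_congr rfl e2, Finset.sum_comm]
    apply Finset.sum_congr rfl
    intro r _
    rw [Finset.mul_sum]
    apply Finset.sum_congr rfl
    intro i _
    ring
  rw [e1]
  apply Finset.sum_le_sum
  intro r hr
  rw [List.mem_toFinset, List.mem_append] at hr
  by_cases hrj : r ∈ j :: F
  · rw [h1 r hrj]
  · have hrG : r ∈ G := by
      rcases hr with hr | hr
      · exact absurd (List.mem_cons_of_mem _ hr) hrj
      · exact hr
    have hne : r ≠ j := by
      rintro rfl
      exact hrj List.mem_cons_self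
    exact mul_le_mul_of_nonneg_left (h2 r hrG) (h3 r hrG hne)

/-- the basic solution as a function on the naturals -/
noncomputable def bx (P : LPd) (v : List ℕ) (i : ℕ) : ℝ :=
  if h : i < P.2.length then bpt (aR P) (bR P) (bv P v) ⟨i, h⟩ else 0

theorem ev_bx (P : LPd) (v : List ℕ) (r : ℕ) :
    ev P r (bx P v) = aR P r ⬝ᵥ bpt (aR P) (bR P) (bv P v) := by
  unfold ev
  rw [Finset.sum_range]
  apply Finset.sum_congr rfl
  intro i _
  unfold bx
  rw [dif_pos i.2]
  rfl

theorem cx_bx (P : LPd) (v : List ℕ) : cx P (bx P v) = val P v := by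
  unfold cx val
  rw [Finset.sum_range]
  apply Finset.sum_congr rfl
  intro i _
  unfold bx
  rw [dif_pos i.2]
  rfl

/-- the multipliers as a function on the constraints -/
noncomputable def yv (P : LPd) (v : List ℕ) (r : ℕ) : ℝ :=
  ∑ p : Fin P.2.length, if bv P v p = r then lm (aR P) (bv P v) p (cR P) else 0

theorem sum_yv {P : LPd} {v : List ℕ} {S : Finset ℕ} (hS : ∀ p, bv P v p ∈ S) (f : ℕ → ℝ) :
    ∑ r ∈ S, yv P v r * f r =
      ∑ p : Fin P.2.length, lm (aR P) (bv P v) p (cR P) * f (bv P v p) := by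
  unfold yv
  have h1 : ∀ r ∈ S, (∑ p : Fin P.2.length,
      if bv P v p = r then lm (aR P) (bv P v) p (cR P) else 0) * f r =
      ∑ p : Fin P.2.length,
        if bv P v p = r then lm (aR P) (bv P v) p (cR P) * f (bv P v p) else 0 := by
    intro r _
    rw [Finset.sum_mul]
    apply Finset.sum_congr rfl
    intro p _
    split_ifs with h
    · rw [h]
    · rw [zero_mul]
  rw [Finset.sum_congr rfl h1, Finset.sum_comm]
  apply Finset.sum_congr rfl
  intro p _
  rw [Finset.sum_ite_eq, if_pos (hS p)]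

theorem sem_orc {P : LPd} (hP : WF P) (hN : ND P) :
    Sem P.2.length P.1.length (orc P) (val P) (Ok P) := by
  refine ⟨?_, ?_, ?_, ?_, ?_, ?_⟩
  · intro v hv
    exact hv.1
  · intro v j _ h
    exact impr_mem h
  · intro v j r hv hj him hen
    have him' : impr P v j = true := him
    have hen' : enter P v j = some r := hen
    obtain ⟨hr, hrv, hf'⟩ := enter_some hen'
    obtain ⟨p, rfl⟩ := exists_pos hv.1 hj
    obtain ⟨hd, hs⟩ := (feas_iff hP hv.1).1 hv.2
    refine ⟨⟨sel_repl hv.1 hj hr hrv, hf'⟩, hrv, hr, ?_⟩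
    have h1 := (impr_iff hP hv.1 hd p).1 him'
    have h2 := lam_neg_of_enter hP hN hv p hen'
    have h3 := obj_update (B := bR P) hd (cR P) p r h2.ne
    have h4 : 0 < sk (aR P) (bR P) (bv P v) r :=
      lt_of_le_of_ne (hs r hr) (Ne.symm (hN v hv.1 hd r hr hrv))
    have h5 : 0 < sk (aR P) (bR P) (bv P v) r *
        (lm (aR P) (bv P v) p (cR P) / lm (aR P) (bv P v) p (aR P r)) :=
      mul_pos h4 (div_pos_of_neg_of_neg h1 h2)
    have h6 : val P (repl v (bv P v p) r) =
        cR P ⬝ᵥ bpt (aR P) (bR P) (update (bv P v) p r) := by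
      rw [← bv_repl hv.1 p r]
      rfl
    have h7 : val P v = cR P ⬝ᵥ bpt (aR P) (bR P) (bv P v) := rfl
    rw [h6, h7, h3]
    linarith
  · intro F G k hFG hk
    by_contra hcon
    rw [Bool.not_eq_false] at hcon
    have h1 : gtQ P F G k k = true := hcon
    obtain ⟨x, y, h2, h3, h4, h5, h6⟩ := (gtQ_spec hP hFG hk hk).1 h1
    have h7 := weak_dual h2 h3 h4 h5
    linarith
  · intro F G k j i hFG hk hj hi h1 h2
    have h1' : gtQ P F G k j = true := h1
    have h2' : gtQ P F G j i = true := h2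
    obtain ⟨x1, y1, a1, a2, a3, a4, a5⟩ := (gtQ_spec hP hFG hk hj).1 h1'
    obtain ⟨x2, y2, b1, b2, b3, b4, b5⟩ := (gtQ_spec hP hFG hj hi).1 h2'
    have h3 := weak_dual b1 b2 a3 a4
    change gtQ P F G k i = true
    exact (gtQ_spec hP hFG hk hi).2 ⟨x1, y2, a1, a2, b3, b4, by linarith⟩
  · intro F G v w j k hFG hv hw hFv hjv hjG hvFG him hFw hkw hkG hlt
    change gtQ P F G k j = true
    rw [gtQ_spec hP hFG hkG hjG]
    obtain ⟨hdv, hsv⟩ := (feas_iff hP hv.1).1 hv.2
    obtain ⟨hdw, hsw⟩ := (feas_iff hP hw.1).1 hw.2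
    have hmem : ∀ p, bv P v p ∈ (F ++ G).toFinset := by
      intro p
      rw [List.mem_toFinset, List.mem_append]
      exact hvFG _ (bv_mem hv.1 p)
    refine ⟨bx P w, yv P v, ?_, ?_, ?_, ?_, ?_⟩
    · intro r hr
      have hrw : r ∈ w := by
        rcases List.mem_cons.1 hr with rfl | hr
        · exact hkw
        · exact hFw r hr
      obtain ⟨q, rfl⟩ := exists_pos hw.1 hrw
      rw [ev_bx, dot_bpt hdw]
      rfl
    · intro r hr
      have h1 := hsw r (hFG.2 r (List.mem_append_right _ hr))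
      rw [ev_bx]
      unfold sk at h1
      change _ ≤ bR P r
      linarith
    · intro r hr hrj
      unfold yv
      apply Finset.sum_nonneg
      intro p _
      split_ifs with h
      · have hrv : r ∈ v := h ▸ bv_mem hv.1 p
        have hrF : r ∉ F := by
          intro hF
          have h2 := (List.nodup_append.1 hFG.1).2.2
          exact h2 r hF r hr rfl
        have h3 := him r hrv hrj hrF
        have h4 : impr P v (bv P v p) = false := by
          rw [h]
          exact h3
        by_contra hneg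
        push Not at hneg
        have h5 := (impr_iff hP hv.1 hdv p).2 hneg
        rw [h4] at h5
        exact Bool.false_ne_true h5
      · exact le_rfl
    · intro i hi
      rw [sum_yv hmem (fun r => (((rowA P r).getD i 0 : ℤ) : ℝ))]
      have h1 := sum_lm hdv (cR P) ⟨i, hi⟩
      exact h1
    · rw [sum_yv hmem (fun r => ((rowB P r : ℤ) : ℝ)), cx_bx]
      have h1 := dot_eq hdv (cR P) (bpt (aR P) (bR P) (bv P v))
      have h2 : val P v = cR P ⬝ᵥ bpt (aR P) (bR P) (bv P v) := rfl
      have h3 : ∑ p : Fin P.2.length, lm (aR P) (bv P v) p (cR P) *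
          ((rowB P (bv P v p) : ℤ) : ℝ) = val P v := by
        rw [h2, h1]
        apply Finset.sum_congr rfl
        intro p _
        rw [dot_bpt hdv]
        rfl
      rw [h3]
      exact hlt

end Pool.Agent.H24U
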