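import Pool.Agent.H24R2.U.Init
import Pool.Agent.H24R2.U.Orig
import Pool.Agent.H24R2.U.Sem
import Pool.Agent.H24R2.U.Mach
import Pool.Agent.H24R2.U.Spec2
import Pool.Agent.H24R2.KK
import Pool.Agent.H670R2.RatDec
import Pool.Agent.H687R2.PolyOn
import Pool.Agent.H671R2.PolyAuto
import Pool.Agent.NPC.Dec

set_option autoImplicit false

/-!
# The output of the machine is a run of the simplex method
-/

namespace Pool.Agent.H24U

open Pool.Agent.H670R2 Pool.Agent.H24R2 Matrix Function
open Pool.Agent.NPC hiding Poly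


/-! ### Chains -/

/-- A chain of `S` from `v` to `w` through the list. -/
def Chn {X : Type} (S : X → X → Prop) : X → List X → X → Prop
  | v, [], w => v = w
  | v, u :: l, w => S v u ∧ Chn S u l w

lemma chn_append {X : Type} {S : X → X → Prop} {v w u : X} {l : List X} (h : Chn S v l w)
    (hu : S w u) : Chn S v (l ++ [u]) u := by
  induction l generalizing v with
  | nil =>
    change v = w at h
    subst h
    exact ⟨hu, rfl⟩
  | cons x l ih => exact ⟨h.1, ih h.2⟩

lemma simplexRun_of_chn {n : ℕ} {Q : Set (Fin n → ℝ)} {c v w : Fin n → ℝ}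
    {l : List (Fin n → ℝ)} (h : Chn (Step Q c) v l w) (hw : Terminal Q c w) :
    SimplexRun Q c v l := by
  induction l generalizing v with
  | nil =>
    change v = w at h
    subst h
    exact hw
  | cons x l ih => exact ⟨h.1, ih h.2⟩

/-! ### Change of the objective function by a positive factor, and of the index set -/

lemma terminal_scale {n : ℕ} {Q : Set (Fin n → ℝ)} {c c' : Fin n → ℝ} {κ : ℝ} (hκ : 0 < κ)
    (h2 : ∀ z, obj c' z = κ * obj c z) {v : Fin n → ℝ} (h : Terminal Q c' v) :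
    Terminal Q c v := by
  rcases h with h | ⟨u, hu, hu'⟩
  · left
    intro x hx
    have := h x hx
    rw [h2, h2] at this
    exact le_of_mul_le_mul_left this hκ
  · right
    refine ⟨u, hu, ?_⟩
    rw [h2] at hu'
    exact pos_of_mul_pos_right hu' hκ.le

lemma step_scale {n : ℕ} {Q : Set (Fin n → ℝ)} {c c' : Fin n → ℝ} {κ : ℝ} (hκ : 0 < κ)
    (h2 : ∀ z, obj c' z = κ * obj c z) {v w : Fin n → ℝ} (h : Step Q c' v w) :
    Step Q c v w := by
  refine ⟨h.1, h.2.1, ?_⟩
  have := h.2.2
  rw [h2, h2] at this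
  exact lt_of_mul_lt_mul_left this hκ.le

lemma simplexRun_scale {n : ℕ} {Q : Set (Fin n → ℝ)} {c c' : Fin n → ℝ} {κ : ℝ} (hκ : 0 < κ)
    (h2 : ∀ z, obj c' z = κ * obj c z) {v : Fin n → ℝ} {l : List (Fin n → ℝ)}
    (h : SimplexRun Q c' v l) : SimplexRun Q c v l := by
  induction l generalizing v with
  | nil => exact terminal_scale hκ h2 h
  | cons x l ih => exact ⟨step_scale hκ h2 h.1, ih h.2⟩

lemma simplexRun_transport {n' n : ℕ} (h : n' = n) {Q : Set (Fin n' → ℝ)} {c' : Fin n' → ℝ}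
    {Q2 : Set (Fin n → ℝ)} {c2 : Fin n → ℝ} {κ : ℝ} (hκ : 0 < κ)
    (h1 : ∀ z : Fin n → ℝ, (fun i => z (Fin.cast h i)) ∈ Q ↔ z ∈ Q2)
    (h2 : ∀ z : Fin n → ℝ, ∑ i, c' i * z (Fin.cast h i) = κ * obj c2 z)
    {v : Fin n → ℝ} {l : List (Fin n → ℝ)}
    (hrun : SimplexRun Q c' (fun i => v (Fin.cast h i))
      (l.map fun z i => z (Fin.cast h i))) : SimplexRun Q2 c2 v l := by
  subst h
  have hQ : Q = Q2 := Set.ext fun z => h1 z
  subst hQ
  have hrun' : SimplexRun Q c' v l := by
    have e : (l.map fun (z : Fin n' → ℝ) i => z (Fin.cast rfl i)) = l := by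
      conv_rhs => rw [← List.map_id l]
      rfl
    rw [e] at hrun
    exact hrun
  exact simplexRun_scale hκ h2 hrun'

/-! ### The rational points -/

theorem ratPt_eq (P : LPd) (v : List ℕ) :
    ratPt P v = List.map (fun x : ℤ => (x : ℚ) / (((basic P v).1 : ℤ) : ℚ)) (basic P v).2 := by
  have h : ∀ l : List ℤ, (do let a ← l; pure (a : ℚ) : List ℚ) =
      List.map (fun a : ℤ => (a : ℚ)) l := by
    intro l
    induction l with
    | nil => rfl
    | cons x l ih =>
      simp only [List.map_cons, ← ih]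
      rfl
  unfold ratPt
  rw [h, List.map_map]
  rfl

lemma length_ratPt (P : LPd) (w : List ℕ) : (ratPt P w).length = P.2.length := by
  rw [ratPt_eq]
  simp [basic, tmul]

/-- the real point of a list of rational coordinates -/
noncomputable def rpt (P : LPd) (l : List ℚ) : Fin P.2.length → ℝ :=
  fun i => ((l.getD i 0 : ℚ) : ℝ)

lemma rpt_inj {P : LPd} {l l' : List ℚ} (hl : l.length = P.2.length)
    (hl' : l'.length = P.2.length) (h : rpt P l = rpt P l') : l = l' := by
  apply List.ext_getElem (hl.trans hl'.symm)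
  intro i h1 h2
  have h3 := congrFun h ⟨i, hl ▸ h1⟩
  simp only [rpt] at h3
  have h4 : l.getD i 0 = l'.getD i 0 := by exact_mod_cast h3
  rwa [List.getD_eq_getElem _ _ h1, List.getD_eq_getElem _ _ h2] at h4

lemma rpt_ratPt {P : LPd} (hP : WF P) {w : List ℕ} (hw : Sel P w)
    (hd : dt (aR P) (bv P w) ≠ 0) : rpt P (ratPt P w) = bpt (aR P) (bR P) (bv P w) := by
  ext i
  rw [basic_eq hP hw hd i]
  have h1 : (basic P w).2.length = P.2.length := by simp [basic, tmul]
  have h2 : (i : ℕ) < (basic P w).2.length := by rw [h1]; exact i.2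
  simp only [rpt, ratPt_eq]
  rw [List.getD_eq_getElem _ _ (by simpa using h2), List.getElem_map,
    List.getD_eq_getElem _ _ h2]
  push_cast
  rfl

/-! ### The perturbed program -/

lemma pert_snd (P : LPd) (v0 : List ℕ) : (pert P v0).2 = P.2 := rfl

lemma out_len (P : LPd) (v0 : List ℕ) : (pert P v0).1.length = P.1.length := by
  simp [pert]

lemma out_sel {P : LPd} {v0 w : List ℕ} : Sel (pert P v0) w ↔ Sel P w := by
  unfold Sel
  rw [pert_snd, out_len]

lemma out_dt {P : LPd} {v0 w : List ℕ} :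
    dt (aR (pert P v0)) (bv (pert P v0) w) = dt (aR P) (bv P w) := by
  have h : aR (pert P v0) = aR P := by
    funext r i
    unfold aR
    rw [pert_rowA]
  have h' : bv (pert P v0) w = bv P w := rfl
  rw [h, h']
  rfl

lemma dt_of_ok {P : LPd} (hP : WF P) {v0 w : List ℕ} (hw : Ok (pert P v0) w) :
    Sel P w ∧ dt (aR P) (bv P w) ≠ 0 := by
  refine ⟨out_sel.1 hw.1, ?_⟩
  have := ((feas_iff (pert_wf hP v0) hw.1).1 hw.2).1
  rwa [out_dt] at this

/-! ### The iteration -/

lemma tstep_fst (P : LPd) (o : Orc) (s : Cfg × (List ℚ × List (List ℚ))) (t : ℕ) :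
    ((tstep P o)^[t] s).1 = (step o)^[t] s.1 := by
  induction t with
  | zero => rfl
  | succ t ih =>
    rw [iterate_succ_apply', iterate_succ_apply']
    simp only [tstep]
    rw [ih]

lemma tstep_cur (P : LPd) (o : Orc) (s : Cfg × (List ℚ × List (List ℚ)))
    (h : s.2.1 = ratPt P s.1.1) (t : ℕ) :
    ((tstep P o)^[t] s).2.1 = ratPt P ((tstep P o)^[t] s).1.1 := by
  induction t with
  | zero => exact h
  | succ t ih =>
    rw [iterate_succ_apply']
    simp only [tstep]
    split_ifs with h1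
    · exact h1.symm
    · rfl

lemma tstep_list (P : LPd) (o : Orc) (s : Cfg × (List ℚ × List (List ℚ)))
    (h : s.2.2 = []) (t : ℕ) :
    ((tstep P o)^[t] s).2.2.length ≤ t ∧ ∀ l ∈ ((tstep P o)^[t] s).2.2, l.length = P.2.length := by
  induction t with
  | zero => simp [h]
  | succ t ih =>
    rw [iterate_succ_apply']
    simp only [tstep]
    split_ifs with h1
    · exact ⟨ih.1.trans (Nat.le_succ t), ih.2⟩
    · refine ⟨by simpa using ih.1, ?_⟩
      intro l hl
      rcases List.mem_cons.1 hl with rfl | hl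
      · exact length_ratPt P _
      · exact ih.2 l hl

lemma out_halt {o : Orc} {c : Cfg} (h : c.2.2.1 = 3) : step o c = c := by
  unfold step
  rw [if_pos h]

lemma tstep_halt {P : LPd} {o : Orc} {s : Cfg × (List ℚ × List (List ℚ))}
    (hs : s.2.1 = ratPt P s.1.1) (h : s.1.2.2.1 = 3) : tstep P o s = s := by
  unfold tstep
  rw [out_halt h, if_pos hs.symm]

lemma tstep_halt_iter {P : LPd} {o : Orc} {s : Cfg × (List ℚ × List (List ℚ))}
    (hs : s.2.1 = ratPt P s.1.1) (h : s.1.2.2.1 = 3) (t : ℕ) : (tstep P o)^[t] s = s := by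
  induction t with
  | zero => rfl
  | succ t ih => rw [iterate_succ_apply', ih, tstep_halt hs h]

lemma final_mode {o : Orc} {c : Cfg} (h : Final o c) : c.2.2.1 = 3 := by
  rcases h with h | h
  · rw [h.1]
  · rw [h.1]

section Main

variable {P : LPd} {v0 : List ℕ}

/-- the states of the computation -/
def st (P : LPd) (v0 : List ℕ) (t : ℕ) : Cfg × (List ℚ × List (List ℚ)) :=
  (tstep P (orc (pert P v0)))^[t] (start P.1.length v0, (ratPt P v0, []))

lemma st_fst (t : ℕ) : (st P v0 t).1 = (step (orc (pert P v0)))^[t] (start P.1.length v0) :=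
  tstep_fst _ _ _ _

lemma st_cur (t : ℕ) : (st P v0 t).2.1 = ratPt P (st P v0 t).1.1 := tstep_cur _ _ _ rfl _

lemma st_succ (t : ℕ) : st P v0 (t + 1) = tstep P (orc (pert P v0)) (st P v0 t) :=
  iterate_succ_apply' _ _ _

lemma ok_start (hP : WF P) (h0 : Sel P v0) (hd : dt (aR P) (bv P v0) ≠ 0)
    (hx : ∀ r < P.1.length, 0 ≤ sk (aR P) (bR P) (bv P v0) r) : Ok (pert P v0) v0 :=
  ⟨out_sel.2 h0, pert_start hP h0 hd hx⟩

lemma sem_pert (hP : WF P) (h0 : Sel P v0) (hd : dt (aR P) (bv P v0) ≠ 0) :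
    Sem P.2.length P.1.length (orc (pert P v0)) (val (pert P v0)) (Ok (pert P v0)) := by
  have h := sem_orc (pert_wf hP v0) (pert_nd hP h0 hd)
  rwa [out_len, pert_snd] at h

lemma st_chn (hP : WF P) (h0 : Sel P v0) (hd : dt (aR P) (bv P v0) ≠ 0)
    (hx : ∀ r < P.1.length, 0 ≤ sk (aR P) (bR P) (bv P v0) r) (t : ℕ) :
    Ok (pert P v0) (st P v0 t).1.1 ∧
      Chn (Step (poly (aR P) (bR P)) (cR P)) (bpt (aR P) (bR P) (bv P v0))
        ((st P v0 t).2.2.reverse.map (rpt P)) (bpt (aR P) (bR P) (bv P (st P v0 t).1.1)) := by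
  have hm := fun t => mach_inv (sem_pert hP h0 hd) (ok_start hP h0 hd hx) t
  have hok : ∀ t, Ok (pert P v0) (st P v0 t).1.1 := fun t => by
    rw [st_fst]
    exact (hm t).1
  refine ⟨hok t, ?_⟩
  induction t with
  | zero => exact rfl
  | succ t ih =>
    have hok1 := dt_of_ok hP (hok t)
    have hok2 := dt_of_ok hP (hok (t + 1))
    have e1 := rpt_ratPt hP hok1.1 hok1.2
    have e2 := rpt_ratPt hP hok2.1 hok2.2
    have hstep : (st P v0 (t + 1)).1.1 = (step (orc (pert P v0)) (st P v0 t).1).1 := by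
      rw [st_succ]
      rfl
    by_cases hc : ratPt P (step (orc (pert P v0)) (st P v0 t).1).1 = (st P v0 t).2.1
    · have hl : (st P v0 (t + 1)).2.2 = (st P v0 t).2.2 := by
        rw [st_succ]
        simp only [tstep]
        rw [if_pos hc]
      rw [hl]
      have e3 : bpt (aR P) (bR P) (bv P (st P v0 (t + 1)).1.1) =
          bpt (aR P) (bR P) (bv P (st P v0 t).1.1) := by
        rw [← e1, ← e2, hstep, hc, st_cur]
      rw [e3]
      exact ih
    · have hl : (st P v0 (t + 1)).2.2 =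
          ratPt P (step (orc (pert P v0)) (st P v0 t).1).1 :: (st P v0 t).2.2 := by
        rw [st_succ]
        simp only [tstep]
        rw [if_neg hc]
      rw [hl, List.reverse_cons, List.map_append, List.map_singleton, ← hstep, e2]
      apply chn_append ih
      rw [st_cur, ← hstep] at hc
      have hmt := (hm t).2
      rw [← st_fst, ← st_fst] at hmt
      rcases hmt with hmt | hmt
      · exact absurd (by rw [hmt]) hc
      · rcases orig_step hP h0 hd (hok t) hmt with h1 | h1
        · exfalso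
          apply hc
          apply rpt_inj (length_ratPt P _) (length_ratPt P _)
          rw [e1, e2, h1]
        · exact h1

theorem st_main (hP : WF P) (h0 : Sel P v0) (hd : dt (aR P) (bv P v0) ≠ 0)
    (hx : ∀ r < P.1.length, 0 ≤ sk (aR P) (bR P) (bv P v0) r) {T : ℕ}
    (hT : 6 * (2 * P.2.length + 1) ^ (Nat.log 2 P.1.length + 1) ≤ T) :
    SimplexRun (poly (aR P) (bR P)) (cR P) (bpt (aR P) (bR P) (bv P v0))
      ((st P v0 T).2.2.reverse.map (rpt P)) ∧
    (st P v0 T).2.2.length ≤ 6 * (2 * P.2.length + 1) ^ (Nat.log 2 P.1.length + 1) ∧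
    ∀ l ∈ (st P v0 T).2.2, l.length = P.2.length := by
  obtain ⟨t, ht, hfin⟩ := mach_main (sem_pert hP h0 hd) (ok_start hP h0 hd hx)
  rw [← st_fst] at hfin
  have hTt : st P v0 T = st P v0 t := by
    have e : T = (T - t) + t := by omega
    rw [e]
    unfold st
    rw [iterate_add_apply]
    exact tstep_halt_iter (st_cur t) (final_mode hfin) _
  rw [hTt]
  have hc := st_chn hP h0 hd hx t
  have hl := tstep_list P (orc (pert P v0)) (start P.1.length v0, (ratPt P v0, [])) rfl t
  exact ⟨simplexRun_of_chn hc.2 (orig_final hP h0 hd hc.1 hfin), hl.1.trans ht, hl.2⟩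

end Main

theorem outF_run {m n : ℕ} (A : Fin m → Fin n → ℚ) (b : Fin m → ℚ) (c v : Fin n → ℚ)
    (hv : (fun j => (v j : ℝ)) ∈
      (Poly (fun i j => (A i j : ℝ)) (fun i => (b i : ℝ))).extremePoints ℝ) {T : ℕ}
    (hT : 6 * (2 * n + 1) ^ (Nat.log 2 (m + n) + 1) ≤ T) :
    SimplexRun (Poly (fun i j => (A i j : ℝ)) (fun i => (b i : ℝ))) (fun j => (c j : ℝ))
      (fun j => (v j : ℝ))
      ((outF (mkInst A b c v) T).map fun l i => (((l.getD i 0 : ℚ)) : ℝ)) ∧
    (outF (mkInst A b c v) T).length ≤ 6 * (2 * n + 1) ^ (Nat.log 2 (m + n) + 1) ∧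
    ∀ l ∈ outF (mkInst A b c v) T, l.length = n := by
  obtain ⟨hR, hn, hP⟩ := toP_len A b c v
  obtain ⟨h0, hd, hpt⟩ := basis0_spec A b c v hv
  have hmem : bpt (aR (toP (mkInst A b c v))) (bR (toP (mkInst A b c v)))
      (bv (toP (mkInst A b c v)) (basis0 (toP (mkInst A b c v)) (List.ofFn v))) ∈
      poly (aR (toP (mkInst A b c v))) (bR (toP (mkInst A b c v))) := by
    rw [← hpt]
    exact (toP_poly A b c v (fun j => (v j : ℝ))).1.2 hv.1
  have hx : ∀ r < (toP (mkInst A b c v)).1.length, 0 ≤ sk (aR (toP (mkInst A b c v)))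
      (bR (toP (mkInst A b c v))) (bv (toP (mkInst A b c v))
        (basis0 (toP (mkInst A b c v)) (List.ofFn v))) r := by
    intro r _
    have := hmem r
    unfold sk
    linarith
  have hT' : 6 * (2 * (toP (mkInst A b c v)).2.length + 1) ^
      (Nat.log 2 (toP (mkInst A b c v)).1.length + 1) ≤ T := by
    rw [hR, hn]
    exact hT
  obtain ⟨r1, r2, r3⟩ := st_main hP h0 hd hx hT'
  have hout : outF (mkInst A b c v) T = (st (toP (mkInst A b c v))
      (basis0 (toP (mkInst A b c v)) (List.ofFn v)) T).2.2.reverse := rfl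
  rw [hR, hn] at r2
  refine ⟨?_, ?_, ?_⟩
  · have hκ : (0 : ℝ) < (lden (List.ofFn c) : ℝ) := by
      exact_mod_cast (toP_poly A b c v (fun _ => 0)).2.2
    apply simplexRun_transport hn hκ (fun z => (toP_poly A b c v z).1)
      (fun z => (toP_poly A b c v z).2.1)
    rw [hpt, List.map_map, hout]
    exact r1
  · rw [hout, List.length_reverse]
    exact r2
  · intro l hl
    rw [hout, List.mem_reverse] at hl
    rw [r3 l hl, hn]

end Pool.Agent.H24U
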