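import Pool.Agent.H24R2.U.Spec2

set_option autoImplicit false

/-!
# Task PROJ: the projection on the kernel of a Gram matrix, and linear systems with a Gram matrix,
by the Cayley-Hamilton theorem
-/

namespace Pool.Agent.H24U

open Pool.Agent.H670R2 Pool.Agent.H24R2 Matrix Function
open Pool.Agent.NPC hiding Poly

namespace Proj

open Polynomial

/-- the polynomial with a given list of coefficients, lowest first -/
noncomputable def pol : List ℤ → ℤ[X]
  | [] => 0
  | c :: cs => C c + X * pol cs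

theorem coeff_pol (cs : List ℤ) (i : ℕ) : (pol cs).coeff i = cs.getD i 0 := by
  induction cs generalizing i with
  | nil => simp [pol]
  | cons c cs ih =>
    cases i with
    | zero => simp [pol]
    | succ i =>
      rw [pol, Polynomial.coeff_add, Polynomial.coeff_X_mul, ih, Polynomial.coeff_C_succ, zero_add]
      rfl

section Lists

variable {n : ℕ}

theorem vadd_ofFn (a b : Fin n → ℤ) : vadd (List.ofFn a) (List.ofFn b) = List.ofFn (a + b) := by
  unfold vadd
  refine List.ext_getElem (by simp) fun i h1 h2 => ?_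
  simp

theorem vsmul_ofFn (c : ℤ) (a : Fin n → ℤ) : vsmul c (List.ofFn a) = List.ofFn (c • a) := by
  unfold vsmul
  refine List.ext_getElem (by simp) fun i h1 h2 => ?_
  simp

theorem mulVec_ofFn (A : Matrix (Fin n) (Fin n) ℤ) (a : Fin n → ℤ) :
    H24U.mulVec (toL A) (List.ofFn a) = List.ofFn (A *ᵥ a) := by
  unfold H24U.mulVec toL
  refine List.ext_getElem (by simp) fun i h1 h2 => ?_
  simp only [List.getElem_map, List.getElem_ofFn]
  rw [dotL_ofFn]
  rfl

theorem horner_ofFn (A : Matrix (Fin n) (Fin n) ℤ) (u : Fin n → ℤ) (cs : List ℤ) :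
    horner (toL A) (List.ofFn u) cs = List.ofFn ((aeval A (pol cs)) *ᵥ u) := by
  induction cs with
  | nil =>
    show vsmul 0 (List.ofFn u) = _
    rw [vsmul_ofFn]
    simp [pol]
  | cons c cs ih =>
    show vadd (vsmul c (List.ofFn u)) (H24U.mulVec (toL A) (horner (toL A) (List.ofFn u) cs)) = _
    rw [ih, vsmul_ofFn, mulVec_ofFn, vadd_ofFn]
    congr 1
    rw [pol, map_add, map_mul, aeval_C, aeval_X, Matrix.add_mulVec, Matrix.mulVec_mulVec]
    congr 1
    rw [Algebra.algebraMap_eq_smul_one, Matrix.smul_mulVec, Matrix.one_mulVec]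

end Lists

theorem coefs_toL {n : ℕ} {A : Matrix (Fin n) (Fin n) ℤ} (hA : Aᵀ = A) :
    coefs (toL A) = (List.range (n + 1)).map fun i => A.charpoly.coeff i := by
  have hl : (toL A).length = n := by simp [toL]
  unfold coefs
  rw [hl, newton_iter hA n le_rfl]
  refine List.map_congr_left fun i hi => ?_
  have := List.mem_range.1 hi
  congr 1
  omega

theorem pol_coefs {n : ℕ} {A : Matrix (Fin n) (Fin n) ℤ} (hA : Aᵀ = A) :
    pol (coefs (toL A)) = A.charpoly := by
  ext i
  rw [coeff_pol, coefs_toL hA]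
  by_cases hi : i < n + 1
  · rw [List.getD_eq_getElem _ _ (by simpa using hi)]
    simp
  · rw [List.getD_eq_default _ _ (by simpa using hi)]
    symm
    apply Polynomial.coeff_eq_zero_of_natDegree_lt
    rw [Matrix.charpoly_natDegree_eq_dim, Fintype.card_fin]
    omega

theorem foldl_trim (cs acc : List ℤ) (h : acc ≠ []) :
    cs.foldl (fun acc c => if acc = [] ∧ c = 0 then acc else acc ++ [c]) acc = acc ++ cs := by
  induction cs generalizing acc with
  | nil => simp
  | cons c cs ih =>
    rw [List.foldl_cons, if_neg (fun hh => h hh.1), ih _ (by simp)]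
    simp

theorem trim_cons (c : ℤ) (cs : List ℤ) : trim (c :: cs) = if c = 0 then trim cs else c :: cs := by
  unfold trim
  rw [List.foldl_cons]
  split_ifs with h1 h2 h2
  · rfl
  · exact absurd h1.2 h2
  · exact absurd ⟨rfl, h2⟩ h1
  · rw [List.nil_append, foldl_trim _ _ (by simp)]
    rfl

theorem pol_trim (cs : List ℤ) : ∃ k, pol cs = X ^ k * pol (trim cs) := by
  induction cs with
  | nil => exact ⟨0, by simp [trim]⟩
  | cons c cs ih =>
    rw [trim_cons]
    split_ifs with h
    · obtain ⟨k, hk⟩ := ih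
      refine ⟨k + 1, ?_⟩
      rw [pol, h, hk]
      simp only [map_zero, zero_add]
      ring
    · exact ⟨0, by simp⟩

theorem trim_head (cs : List ℤ) : trim cs = [] ∨ ∃ c t, trim cs = c :: t ∧ c ≠ 0 := by
  induction cs with
  | nil => exact Or.inl rfl
  | cons c cs ih =>
    rw [trim_cons]
    split_ifs with h
    · exact ih
    · exact Or.inr ⟨c, cs, rfl, h⟩

theorem ker_pow {n : ℕ} {A : Matrix (Fin n) (Fin n) ℤ} (hA : Aᵀ = A) (k : ℕ) (y : Fin n → ℤ)
    (h : (A ^ k) *ᵥ y = 0) : A *ᵥ y = 0 := by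
  induction k with
  | zero => rw [pow_zero, Matrix.one_mulVec] at h; rw [h, Matrix.mulVec_zero]
  | succ k ih =>
    cases k with
    | zero => simpa using h
    | succ k =>
      apply ih
      rw [← dotProduct_self_eq_zero]
      have h1 : (A ^ (k + 1)) *ᵥ y = A *ᵥ ((A ^ k) *ᵥ y) := by
        rw [Matrix.mulVec_mulVec, ← pow_succ']
      have h2 : A *ᵥ ((A ^ (k + 1)) *ᵥ y) = 0 := by
        rw [Matrix.mulVec_mulVec, ← pow_succ']; exact h
      calc ((A ^ (k + 1)) *ᵥ y) ⬝ᵥ ((A ^ (k + 1)) *ᵥ y)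
          = ((A ^ (k + 1)) *ᵥ y) ⬝ᵥ (A *ᵥ ((A ^ k) *ᵥ y)) := by rw [← h1]
        _ = (A *ᵥ ((A ^ (k + 1)) *ᵥ y)) ⬝ᵥ ((A ^ k) *ᵥ y) := by
            rw [Matrix.dotProduct_mulVec, ← Matrix.mulVec_transpose, hA]
        _ = 0 := by rw [h2, zero_dotProduct]

/-- the matrix of rows -/
def rowsM (m : ℕ) (L : List (List ℤ)) : Matrix (Fin L.length) (Fin m) ℤ :=
  Matrix.of fun k c => (L.get k).getD c 0

theorem gramM_eq {m : ℕ} (L : List (List ℤ)) (hL : ∀ c ∈ L, c.length = m) :
    gramM L = rowsM m L * (rowsM m L)ᵀ := by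
  ext i j
  rw [Matrix.mul_apply]
  show dotL (L.get i) (L.get j) = _
  rw [dotL_eq_sum, hL _ (List.get_mem _ _), Finset.sum_range]
  rfl

theorem list_eq_ofFn {n : ℕ} {u : List ℤ} (hu : u.length = n) :
    u = List.ofFn fun i : Fin n => u.getD i 0 := by
  refine List.ext_getElem (by simp [hu]) fun i h1 h2 => ?_
  rw [List.getElem_ofFn, List.getD_eq_getElem _ _ h1]

theorem getD_ofFn {n : ℕ} (f : Fin n → ℤ) (i : Fin n) : (List.ofFn f).getD i 0 = f i := by
  rw [List.getD_eq_getElem _ _ (by simp)]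
  simp

end Proj

open Proj

theorem proj_spec {m : ℕ} (L : List (List ℤ)) (hL : ∀ c ∈ L, c.length = m) :
    pden (gramL L) ≠ 0 ∧ ∀ u : List ℤ, u.length = L.length →
      (proj (gramL L) u).length = L.length ∧
      (∀ i, ∑ k ∈ Finset.range L.length,
        (proj (gramL L) u).getD k 0 * (L.getD k []).getD i 0 = 0) ∧
      ∃ w : List ℤ, w.length = m ∧ ∀ k < L.length,
        |pden (gramL L)| * u.getD k 0 - (proj (gramL L) u).getD k 0 = dotL (L.getD k []) w := by
  set A := gramM L with hAdef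
  have hG : gramL L = toL A := gramL_eq L
  have hA : Aᵀ = A := gramM_symm L
  rw [hG]
  have hpol := pol_coefs hA
  obtain ⟨k, hk⟩ := pol_trim (coefs (toL A))
  have hne : trim (coefs (toL A)) ≠ [] := by
    intro h
    rw [h, hpol] at hk
    have := A.charpoly_monic.ne_zero
    rw [hk] at this
    simp [pol] at this
  obtain ⟨c, t, hct, hc⟩ := (trim_head (coefs (toL A))).resolve_left hne
  have hpden : pden (toL A) = c := by unfold pden; rw [hct]; rfl
  refine ⟨by rw [hpden]; exact hc, fun u hu => ?_⟩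
  set s : ℤ := if pden (toL A) < 0 then -1 else 1 with hs
  have hsabs : |pden (toL A)| = s * c := by
    rw [hs, hpden]
    split_ifs with h
    · rw [abs_of_neg h]; ring
    · rw [abs_of_nonneg (not_lt.1 h)]; ring
  set u' : Fin L.length → ℤ := fun i => u.getD i 0 with hu'
  have huu : u = List.ofFn u' := list_eq_ofFn hu
  set y : Fin L.length → ℤ := (Polynomial.aeval A (pol (c :: t))) *ᵥ u' with hy
  have hproj : proj (toL A) u = List.ofFn (s • y) := by
    unfold proj
    rw [huu, horner_ofFn, vsmul_ofFn, hct]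
  have hAy : A *ᵥ y = 0 := by
    apply ker_pow hA k
    rw [hy, ← hct, Matrix.mulVec_mulVec]
    have : A ^ k * Polynomial.aeval A (pol (trim (coefs (toL A)))) = 0 := by
      have h1 : Polynomial.aeval A (pol (coefs (toL A))) = 0 := by
        rw [hpol]; exact Matrix.aeval_self_charpoly A
      rw [hk, map_mul, map_pow, Polynomial.aeval_X] at h1
      exact h1
    rw [this, Matrix.zero_mulVec]
  set M := rowsM m L with hM
  have hAM : A = M * Mᵀ := gramM_eq L hL
  have hMy : Mᵀ *ᵥ y = 0 := by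
    rw [← dotProduct_self_eq_zero]
    calc (Mᵀ *ᵥ y) ⬝ᵥ (Mᵀ *ᵥ y) = y ⬝ᵥ (M *ᵥ (Mᵀ *ᵥ y)) := by
          rw [Matrix.dotProduct_mulVec y M, ← Matrix.mulVec_transpose]
      _ = 0 := by rw [Matrix.mulVec_mulVec, ← hAM, hAy, dotProduct_zero]
  refine ⟨by rw [hproj, List.length_ofFn], fun i => ?_, ?_⟩
  · rw [hproj, Finset.sum_range]
    by_cases hi : i < m
    · have h1 := congrFun hMy ⟨i, hi⟩
      have h2 : ∑ k : Fin L.length, (List.ofFn (s • y)).getD (k : ℕ) 0 *
          (L.getD (k : ℕ) []).getD i 0 = s * (Mᵀ *ᵥ y) ⟨i, hi⟩ := by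
        rw [Matrix.mulVec, dotProduct, Finset.mul_sum]
        refine Finset.sum_congr rfl fun k _ => ?_
        rw [getD_ofFn, List.getD_eq_getElem L _ k.2]
        show s * y k * _ = s * ((L.get k).getD i 0 * y k)
        rw [List.get_eq_getElem]
        ring
      rw [h2, h1]
      simp
    · refine Finset.sum_eq_zero fun k _ => ?_
      rw [List.getD_eq_getElem L _ k.2, List.getD_eq_default (L[(k : ℕ)]) _
        (by rw [hL _ (List.getElem_mem _)]; omega), mul_zero]
  · refine ⟨List.ofFn ((-s) • (Mᵀ *ᵥ ((Polynomial.aeval A (pol t)) *ᵥ u'))), by simp, ?_⟩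
    intro j hj
    have h1 : y = c • u' + A *ᵥ ((Polynomial.aeval A (pol t)) *ᵥ u') := by
      rw [hy, pol, map_add, map_mul, Polynomial.aeval_C, Polynomial.aeval_X, Matrix.add_mulVec,
        Matrix.mulVec_mulVec]
      congr 1
      rw [Algebra.algebraMap_eq_smul_one, Matrix.smul_mulVec, Matrix.one_mulVec]
    have h2 := congrFun h1 ⟨j, hj⟩
    rw [hAM, ← Matrix.mulVec_mulVec, ← hAM] at h2
    set z := Mᵀ *ᵥ ((Polynomial.aeval A (pol t)) *ᵥ u') with hz
    have h3 : dotL (L.getD j []) (List.ofFn (-s • z)) = -s * (M *ᵥ z) ⟨j, hj⟩ := by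
      rw [List.getD_eq_getElem _ _ hj]
      rw [list_eq_ofFn (hL _ (List.getElem_mem hj)), dotL_ofFn, Matrix.mulVec, dotProduct,
        Finset.mul_sum]
      refine Finset.sum_congr rfl fun i _ => ?_
      show _ * (-s * z i) = -s * ((L.get ⟨j, hj⟩).getD i 0 * z i)
      rw [List.get_eq_getElem]
      ring
    rw [h3, hproj, hsabs]
    have h4 : (List.ofFn (s • y)).getD j 0 = s * y ⟨j, hj⟩ := getD_ofFn (s • y) ⟨j, hj⟩
    rw [h4, h2]
    show s * c * u.getD j 0 - s * (c * u' ⟨j, hj⟩ + _) = _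
    show s * c * u.getD j 0 - s * (c * u.getD j 0 + _) = _
    ring

theorem solveG_spec (L : List (List ℤ)) (w : List ℤ) (hw : w.length = L.length) :
    (solveG (gramL L) w).2.length = L.length ∧
    ((solveG (gramL L) w).1 = 0 ↔ (gramM L).det = 0) ∧
    ∀ k < L.length, dotL ((gramL L).getD k []) (solveG (gramL L) w).2 =
      (solveG (gramL L) w).1 * w.getD k 0 := by
  set A := gramM L with hAdef
  have hG : gramL L = toL A := gramL_eq L
  have hA : Aᵀ = A := gramM_symm L
  rw [hG]
  have hpol := pol_coefs hA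
  have hco := coefs_toL hA
  rw [List.range_succ_eq_map, List.map_cons] at hco
  set t := ((List.range L.length).map Nat.succ).map fun i => A.charpoly.coeff i with ht
  have hco' : coefs (toL A) = A.charpoly.coeff 0 :: t := hco
  set w' : Fin L.length → ℤ := fun i => w.getD i 0 with hw'
  have hww : w = List.ofFn w' := list_eq_ofFn hw
  set z : Fin L.length → ℤ := (Polynomial.aeval A (pol t)) *ᵥ w' with hz
  have h1 : (solveG (toL A) w).1 = A.charpoly.coeff 0 := by
    unfold solveG
    rw [hco']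
    rfl
  have h2 : (solveG (toL A) w).2 = List.ofFn (-z) := by
    unfold solveG
    rw [hco']
    show vsmul (-1) (horner (toL A) w t) = _
    rw [hww, horner_ofFn, vsmul_ofFn]
    congr 1
    rw [neg_one_smul]
  have h3 : A.charpoly.coeff 0 • w' + A *ᵥ z = 0 := by
    have h4 : Polynomial.aeval A (pol (coefs (toL A))) = 0 := by
      rw [hpol]; exact Matrix.aeval_self_charpoly A
    rw [hco', pol, map_add, map_mul, Polynomial.aeval_C, Polynomial.aeval_X] at h4
    have h5 := congrArg (fun B => B *ᵥ w') h4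
    simp only [Matrix.add_mulVec, Matrix.zero_mulVec, ← Matrix.mulVec_mulVec] at h5
    rw [Algebra.algebraMap_eq_smul_one, Matrix.smul_mulVec, Matrix.one_mulVec] at h5
    exact h5
  refine ⟨by rw [h2, List.length_ofFn], ?_, ?_⟩
  · rw [h1, Matrix.det_eq_sign_charpoly_coeff]
    constructor
    · intro h; rw [h, mul_zero]
    · intro h
      rcases mul_eq_zero.1 h with h | h
      · exact absurd h (pow_ne_zero _ (by norm_num))
      · exact h
  · intro k hk
    rw [h1, h2]
    have h6 : (toL A).getD k [] = List.ofFn (A ⟨k, hk⟩) := by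
      rw [List.getD_eq_getElem _ _ (by simpa [toL] using hk)]
      simp [toL]
    rw [h6, dotL_ofFn]
    have h7 := congrFun h3 ⟨k, hk⟩
    simp only [Pi.add_apply, Pi.smul_apply, smul_eq_mul, Pi.zero_apply] at h7
    have h8 : ∑ i, A ⟨k, hk⟩ i * (-z) i = -(A *ᵥ z) ⟨k, hk⟩ := by
      rw [Matrix.mulVec, dotProduct, ← Finset.sum_neg_distrib]
      refine Finset.sum_congr rfl fun i _ => ?_
      simp
    rw [h8]
    show _ = A.charpoly.coeff 0 * w' ⟨k, hk⟩
    linarith

end Pool.Agent.H24U
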