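import Pool.Agent.H24R2.U.Spec2

set_option autoImplicit false

/-!
# A feasible vector with a coordinate which is not too small
-/

namespace Pool.Agent.H24U

open Pool.Agent.H670R2 Pool.Agent.H24R2 Matrix

lemma abs_det_le_prod {ι : Type*} [Fintype ι] [DecidableEq ι] (B : Matrix ι ι ℝ) :
    |B.det| ≤ ∏ i, ∑ j, |B i j| := by
  rw [← det_transpose, det_apply']
  calc |∑ σ : Equiv.Perm ι, ((Equiv.Perm.sign σ : ℤ) : ℝ) * ∏ i, Bᵀ (σ i) i|
      ≤ ∑ σ : Equiv.Perm ι, |((Equiv.Perm.sign σ : ℤ) : ℝ) * ∏ i, Bᵀ (σ i) i| :=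
        Finset.abs_sum_le_sum_abs _ _
    _ = ∑ σ : Equiv.Perm ι, ∏ i, |B i (σ i)| := by
        refine Finset.sum_congr rfl fun σ _ => ?_
        rw [abs_mul, Finset.abs_prod]
        have : |((Equiv.Perm.sign σ : ℤ) : ℝ)| = 1 := by
          rcases Int.units_eq_one_or (Equiv.Perm.sign σ) with h | h <;> simp [h]
        rw [this, one_mul]
        rfl
    _ = ∑ p ∈ Finset.univ.map (⟨fun σ : Equiv.Perm ι => (σ : ι → ι), DFunLike.coe_injective⟩ :
          Equiv.Perm ι ↪ (ι → ι)), ∏ i, |B i (p i)| := by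
        rw [Finset.sum_map]; rfl
    _ ≤ ∑ p : ι → ι, ∏ i, |B i (p i)| :=
        Finset.sum_le_univ_sum_of_nonneg fun p => Finset.prod_nonneg fun i _ => abs_nonneg _
    _ = ∏ i, ∑ j, |B i j| := by
        rw [Finset.prod_univ_sum]
        simp

/-- kernel of the minimal support -/
lemma small_core {m : ℕ} (N : ℕ) (C : ℕ → Fin m → ℤ) {x : ℕ → ℝ} (hx0 : ∀ j, 0 ≤ x j)
    (hx : ∀ i, ∑ j ∈ Finset.range N, x j * (C j i : ℝ) = 0) {k : ℕ} (hk : k < N) (hxk : 0 < x k) :
    ∃ y : ℕ → ℝ, (∀ j, 0 ≤ y j) ∧ (∀ i, ∑ j ∈ Finset.range N, y j * (C j i : ℝ) = 0) ∧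
      0 < y k ∧ (∀ j, N ≤ j → y j = 0) ∧
      ∀ z : ℕ → ℝ, (∀ j, j ∉ (Finset.range N).filter (fun j => j ≠ k ∧ 0 < y j) → z j = 0) →
        (∀ i, ∑ j ∈ Finset.range N, z j * (C j i : ℝ) = 0) → ∀ j, z j = 0 := by
  classical
  let P : ℕ → Prop := fun n => ∃ y : ℕ → ℝ, (∀ j, 0 ≤ y j) ∧
    (∀ i, ∑ j ∈ Finset.range N, y j * (C j i : ℝ) = 0) ∧ 0 < y k ∧ (∀ j, N ≤ j → y j = 0) ∧
    ((Finset.range N).filter (fun j => j ≠ k ∧ 0 < y j)).card = n
  have hP : ∃ n, P n := by
    refine ⟨_, fun j => if j < N then x j else 0, ?_, ?_, ?_, ?_, rfl⟩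
    · intro j
      dsimp only
      split_ifs
      · exact hx0 j
      · exact le_rfl
    · intro i
      refine Eq.trans (Finset.sum_congr rfl fun j hj => ?_) (hx i)
      dsimp only
      rw [if_pos (Finset.mem_range.1 hj)]
    · simp only [if_pos hk]; exact hxk
    · intro j hj
      simp [not_lt.2 hj]
  obtain ⟨y, hy0, hy, hyk, hyN, hcard⟩ := Nat.find_spec hP
  have hmin : ∀ n, P n → Nat.find hP ≤ n := fun n hn => Nat.find_min' hP hn
  refine ⟨y, hy0, hy, hyk, hyN, ?_⟩
  set S := (Finset.range N).filter (fun j => j ≠ k ∧ 0 < y j) with hS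
  have key : ∀ z : ℕ → ℝ, (∀ j, j ∉ S → z j = 0) →
        (∀ i, ∑ j ∈ Finset.range N, z j * (C j i : ℝ) = 0) → ∀ j, z j ≤ 0 := by
    intro z hz1 hz2 j0
    by_contra hj0
    push Not at hj0
    have hT : (S.filter (fun j => 0 < z j)).Nonempty := by
      refine ⟨j0, Finset.mem_filter.2 ⟨?_, hj0⟩⟩
      by_contra h
      rw [hz1 j0 h] at hj0
      exact lt_irrefl _ hj0
    obtain ⟨j1, hj1, hmin1⟩ := Finset.exists_min_image _ (fun j => y j / z j) hT
    have hj1' := Finset.mem_filter.1 hj1
    have hj1S := (Finset.mem_filter.1 hj1'.1)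
    set t := y j1 / z j1 with ht
    have ht0 : 0 < t := div_pos hj1S.2.2 hj1'.2
    have hkS : k ∉ S := by simp [hS]
    have hP' : P ((Finset.range N).filter (fun j => j ≠ k ∧ 0 < y j - t * z j)).card := by
      refine ⟨fun j => y j - t * z j, ?_, ?_, ?_, ?_, rfl⟩
      · intro j
        dsimp only
        by_cases hzj : 0 < z j
        · have hjS : j ∈ S := by
            by_contra h
            rw [hz1 j h] at hzj
            exact lt_irrefl _ hzj
          have := hmin1 j (Finset.mem_filter.2 ⟨hjS, hzj⟩)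
          rw [le_div_iff₀ hzj] at this
          linarith
        · have h1 : t * z j ≤ 0 := mul_nonpos_of_nonneg_of_nonpos ht0.le (not_lt.1 hzj)
          have h2 := hy0 j
          linarith
      · intro i
        have : ∑ j ∈ Finset.range N, (y j - t * z j) * (C j i : ℝ) =
            ∑ j ∈ Finset.range N, y j * (C j i : ℝ) - t * ∑ j ∈ Finset.range N, z j * (C j i : ℝ) := by
          rw [Finset.mul_sum, ← Finset.sum_sub_distrib]
          refine Finset.sum_congr rfl fun j _ => ?_
          ring
        rw [this, hy i, hz2 i]; simp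
      · dsimp only
        rw [hz1 k hkS]; simpa using hyk
      · intro j hj
        dsimp only
        rw [hz1 j (by simp [hS, hj]), hyN j hj]; simp
    have h1 := hmin _ hP'
    have h2 : (Finset.range N).filter (fun j => j ≠ k ∧ 0 < y j - t * z j) ⊆ S.erase j1 := by
      intro j hj
      rw [Finset.mem_filter] at hj
      rw [Finset.mem_erase]
      refine ⟨?_, ?_⟩
      · rintro rfl
        have : y j - t * z j = 0 := by
          rw [ht, div_mul_cancel₀ _ hj1'.2.ne', sub_self]
        rw [this] at hj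
        exact lt_irrefl _ hj.2.2
      · by_contra h
        rw [hz1 j h] at hj
        apply h
        rw [hS, Finset.mem_filter]
        refine ⟨hj.1, hj.2.1, ?_⟩
        have := hj.2.2
        simpa using this
    have h3 := Finset.card_le_card h2
    rw [Finset.card_erase_of_mem hj1'.1] at h3
    have h4 : 0 < S.card := Finset.card_pos.2 ⟨j1, hj1'.1⟩
    omega
  intro z hz1 hz2 j
  refine le_antisymm (key z hz1 hz2 j) ?_
  have := key (fun j => - z j) (fun j hj => by simp [hz1 j hj]) (fun i => by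
    have h := hz2 i
    have h' : ∑ j ∈ Finset.range N, (- z j) * (C j i : ℝ) =
        - ∑ j ∈ Finset.range N, z j * (C j i : ℝ) := by
      rw [← Finset.sum_neg_distrib]
      exact Finset.sum_congr rfl fun j _ => by ring
    rw [h', h, neg_zero]) j
  simpa using this

lemma small_det {m : ℕ} (N : ℕ) (C : ℕ → Fin m → ℤ) {x : ℕ → ℝ} (hx0 : ∀ j, 0 ≤ x j)
    (hx : ∀ i, ∑ j ∈ Finset.range N, x j * (C j i : ℝ) = 0) {k : ℕ} (hk : k < N) (hxk : 0 < x k)
    (L : ℝ) (hL : ∑ j ∈ Finset.range N, ∑ i, |(C j i : ℝ)| ≤ L) :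
    ∃ y : ℕ → ℝ, (∀ j, 0 ≤ y j) ∧ (∀ i, ∑ j ∈ Finset.range N, y j * (C j i : ℝ) = 0) ∧
      (∀ j, y j ≤ 1) ∧ 1 ≤ y k * (1 + L) ^ (2 * N) := by
  classical
  obtain ⟨y, hy0, hy, hyk, hyN, hker⟩ := small_core N C hx0 hx hk hxk
  set S := (Finset.range N).filter (fun j => j ≠ k ∧ 0 < y j) with hS
  have hkS : k ∉ S := by simp [hS]
  have hSN : S ⊆ Finset.range N := Finset.filter_subset _ _
  have hinsert : insert k S ⊆ Finset.range N := by
    intro j hj
    rcases Finset.mem_insert.1 hj with rfl | h
    · exact Finset.mem_range.2 hk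
    · exact hSN h
  have hy_out : ∀ j, j ∉ insert k S → y j = 0 := by
    intro j hj
    by_cases h : N ≤ j
    · exact hyN j h
    · by_contra h'
      apply hj
      rw [Finset.mem_insert]
      by_cases hjk : j = k
      · exact Or.inl hjk
      · right
        rw [hS, Finset.mem_filter]
        exact ⟨Finset.mem_range.2 (not_le.1 h), hjk, lt_of_le_of_ne (hy0 j) (Ne.symm h')⟩
  -- n1
  set n1 : ℕ → ℝ := fun j => ∑ i, |(C j i : ℝ)| with hn1
  have hn1_0 : ∀ j, 0 ≤ n1 j := fun j => Finset.sum_nonneg fun i _ => abs_nonneg _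
  have hL0 : 0 ≤ L := le_trans (Finset.sum_nonneg fun j _ => hn1_0 j) hL
  have hn1L : ∀ j, j ∈ Finset.range N → n1 j ≤ L := fun j hj =>
    le_trans (Finset.single_le_sum (fun j _ => hn1_0 j) hj) hL
  have hinner : ∀ a b, |∑ i, (C a i : ℝ) * (C b i : ℝ)| ≤ n1 a * n1 b := by
    intro a b
    refine le_trans (Finset.abs_sum_le_sum_abs _ _) ?_
    rw [hn1]
    simp only
    rw [Finset.sum_mul]
    refine Finset.sum_le_sum fun i hi => ?_
    rw [abs_mul]
    exact mul_le_mul_of_nonneg_left
      (Finset.single_le_sum (f := fun i => |(C b i : ℝ)|) (fun i _ => abs_nonneg _) hi)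
      (abs_nonneg _)
  -- Gram matrix
  set M : Matrix S S ℝ := fun a b => ∑ i, (C a i : ℝ) * (C b i : ℝ) with hM
  set g : S → ℝ := fun a => ∑ i, (C a i : ℝ) * (C k i : ℝ) with hg
  have hdet0 : M.det ≠ 0 := by
    intro h0
    obtain ⟨v, hv0, hv⟩ := Matrix.exists_mulVec_eq_zero_iff.2 h0
    set z : ℕ → ℝ := fun j => if h : j ∈ S then v ⟨j, h⟩ else 0 with hz
    have hw : ∀ i, ∑ j ∈ Finset.range N, z j * (C j i : ℝ) = ∑ a : S, v a * (C a i : ℝ) := by
      intro i
      rw [← Finset.sum_subset hSN]
      · rw [← Finset.sum_coe_sort S (fun j => z j * (C j i : ℝ))]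
        refine Finset.sum_congr rfl fun a _ => ?_
        simp [hz]
      · intro j _ hj
        simp [hz, hj]
    have hw0 : ∀ i, ∑ a : S, v a * (C a i : ℝ) = 0 := by
      have hsq : ∑ i, (∑ a : S, v a * (C a i : ℝ)) ^ 2 = 0 := by
        have e1 : ∑ i, (∑ a : S, v a * (C a i : ℝ)) ^ 2 = ∑ a : S, v a * (M *ᵥ v) a := by
          calc ∑ i, (∑ a : S, v a * (C a i : ℝ)) ^ 2
              = ∑ i, ∑ a : S, ∑ b : S, v a * ((C a i : ℝ) * (C b i : ℝ) * v b) := by
                refine Finset.sum_congr rfl fun i _ => ?_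
                rw [sq, Finset.sum_mul_sum]
                refine Finset.sum_congr rfl fun a _ => Finset.sum_congr rfl fun b _ => ?_
                ring
            _ = ∑ a : S, ∑ b : S, ∑ i, v a * ((C a i : ℝ) * (C b i : ℝ) * v b) := by
                rw [Finset.sum_comm]
                refine Finset.sum_congr rfl fun a _ => ?_
                rw [Finset.sum_comm]
            _ = ∑ a : S, v a * (M *ᵥ v) a := by
                refine Finset.sum_congr rfl fun a _ => ?_
                change _ = v a * ∑ b, M a b * v b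
                rw [Finset.mul_sum]
                refine Finset.sum_congr rfl fun b _ => ?_
                rw [hM]
                simp only
                rw [Finset.sum_mul, Finset.mul_sum]
        rw [e1, hv]
        simp
      intro i
      have := (Finset.sum_eq_zero_iff_of_nonneg (fun i _ => sq_nonneg _)).1 hsq i (Finset.mem_univ i)
      exact pow_eq_zero_iff (two_ne_zero) |>.1 this
    have hz0 := hker z (fun j hj => by simp [hz, hj]) (fun i => by rw [hw i, hw0 i])
    apply hv0
    funext a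
    have := hz0 a
    simpa [hz] using this
  have hdet1 : 1 ≤ |M.det| := by
    set Mi : Matrix S S ℤ := fun a b => ∑ i, C a i * C b i with hMi
    have e : M = Mi.map (Int.castRingHom ℝ) := by
      ext a b
      rw [Matrix.map_apply]
      simp only [hM, hMi]
      simp
    have e2 : M.det = ((Mi.det : ℤ) : ℝ) := by
      rw [e, ← RingHom.mapMatrix_apply, ← RingHom.map_det]
      rfl
    rw [e2] at hdet0 ⊢
    have h3 : Mi.det ≠ 0 := by exact_mod_cast hdet0
    have h4 := Int.one_le_abs h3
    exact_mod_cast h4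
  -- Cramer
  have hMy : M *ᵥ (fun a : S => y a) = (- y k) • g := by
    funext a
    have hfeas : ∀ i, ∑ b : S, y b * (C b i : ℝ) = - (y k * (C k i : ℝ)) := by
      intro i
      have h1 := hy i
      rw [← Finset.sum_subset hinsert, Finset.sum_insert hkS] at h1
      · rw [Finset.sum_coe_sort S (fun j => y j * (C j i : ℝ))]
        linarith
      · intro j _ hj
        rw [hy_out j hj, zero_mul]
    calc (M *ᵥ (fun a : S => y a)) a = ∑ b : S, ∑ i, (C a i : ℝ) * (y b * (C b i : ℝ)) := by
          change ∑ b, M a b * y b = _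
          refine Finset.sum_congr rfl fun b _ => ?_
          rw [hM]
          simp only
          rw [Finset.sum_mul]
          exact Finset.sum_congr rfl fun i _ => by ring
      _ = ∑ i, (C a i : ℝ) * ∑ b : S, (y b * (C b i : ℝ)) := by
          rw [Finset.sum_comm]
          refine Finset.sum_congr rfl fun i _ => ?_
          rw [Finset.mul_sum]
      _ = ((- y k) • g) a := by
          rw [Pi.smul_apply, hg, smul_eq_mul, Finset.mul_sum]
          refine Finset.sum_congr rfl fun i _ => ?_
          rw [hfeas i]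
          ring
  have hcr : ∀ a : S, M.det * y a = - y k * (M.updateCol a g).det := by
    intro a
    have h1 : M.cramer (M *ᵥ (fun a : S => y a)) = M.det • (fun a : S => y a) := by
      rw [Matrix.cramer_eq_adjugate_mulVec, Matrix.mulVec_mulVec, Matrix.adjugate_mul,
        Matrix.smul_mulVec, Matrix.one_mulVec]
    rw [hMy, map_smul] at h1
    have h2 := congrFun h1 a
    rw [Pi.smul_apply, Pi.smul_apply, Matrix.cramer_apply, smul_eq_mul, smul_eq_mul] at h2
    exact h2.symm
  -- bounds
  have hcardS : Fintype.card S ≤ N := by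
    rw [Fintype.card_coe]
    have := Finset.card_le_card hSN
    rwa [Finset.card_range] at this
  have hbound : ∀ B : Matrix S S ℝ, (∀ a : S, ∑ b, |B a b| ≤ n1 a * L) →
      |B.det| ≤ (1 + L) ^ (2 * N) := by
    intro B hB
    calc |B.det| ≤ ∏ a, ∑ b, |B a b| := abs_det_le_prod B
      _ ≤ ∏ _a : S, ((1 + L) ^ 2) := by
          refine Finset.prod_le_prod (fun a _ => Finset.sum_nonneg fun b _ => abs_nonneg _)
            fun a _ => ?_
          refine le_trans (hB a) ?_
          have := hn1L a (hSN a.2)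
          nlinarith [hn1_0 a]
      _ = ((1 + L) ^ 2) ^ Fintype.card S := by
          rw [Finset.prod_const, Finset.card_univ]
      _ ≤ ((1 + L) ^ 2) ^ N := by
          refine pow_le_pow_right₀ ?_ hcardS
          nlinarith
      _ = (1 + L) ^ (2 * N) := by rw [← pow_mul]
  have hsumS : ∑ b : S, n1 b + n1 k ≤ L := by
    refine le_trans ?_ hL
    rw [Finset.sum_coe_sort S n1, add_comm, ← Finset.sum_insert hkS]
    exact Finset.sum_le_sum_of_subset_of_nonneg hinsert fun j _ _ => hn1_0 j
  have hMb : |M.det| ≤ (1 + L) ^ (2 * N) := by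
    refine hbound M fun a => ?_
    calc ∑ b, |M a b| ≤ ∑ b : S, n1 a * n1 b := Finset.sum_le_sum fun b _ => hinner a b
      _ = n1 a * ∑ b : S, n1 b := by rw [Finset.mul_sum]
      _ ≤ n1 a * L := mul_le_mul_of_nonneg_left (by linarith [hn1_0 k]) (hn1_0 a)
  have hUb : ∀ c : S, |(M.updateCol c g).det| ≤ (1 + L) ^ (2 * N) := by
    intro c
    refine hbound _ fun a => ?_
    calc ∑ b, |M.updateCol c g a b| ≤ ∑ b : S, (n1 a * n1 b + if b = c then n1 a * n1 k else 0) := by
          refine Finset.sum_le_sum fun b _ => ?_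
          rw [Matrix.updateCol_apply]
          split_ifs with h
          · have h1 := hinner a k
            have h2 := mul_nonneg (hn1_0 a) (hn1_0 b)
            change |∑ i, (C a i : ℝ) * (C k i : ℝ)| ≤ _
            linarith
          · have h1 := hinner a b
            change |∑ i, (C a i : ℝ) * (C b i : ℝ)| ≤ _
            linarith
      _ = n1 a * (∑ b : S, n1 b + n1 k) := by
          rw [Finset.sum_add_distrib, ← Finset.mul_sum, Finset.sum_ite_eq' Finset.univ c]
          simp
          ring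
      _ ≤ n1 a * L := mul_le_mul_of_nonneg_left hsumS (hn1_0 a)
  set Z : ℝ := (1 + L) ^ (2 * N) with hZ
  have hZ1 : 1 ≤ Z := one_le_pow₀ (by linarith)
  have hZ0 : 0 < Z := by linarith
  refine ⟨fun j => y j * (|M.det| / (y k * Z)), ?_, ?_, ?_, ?_⟩
  · intro j
    exact mul_nonneg (hy0 j) (div_nonneg (abs_nonneg _) (mul_pos hyk hZ0).le)
  · intro i
    have : ∑ j ∈ Finset.range N, (y j * (|M.det| / (y k * Z))) * (C j i : ℝ) =
        (|M.det| / (y k * Z)) * ∑ j ∈ Finset.range N, y j * (C j i : ℝ) := by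
      rw [Finset.mul_sum]
      exact Finset.sum_congr rfl fun j _ => by ring
    rw [this, hy i, mul_zero]
  · intro j
    dsimp only
    by_cases hj : j ∈ insert k S
    · rcases Finset.mem_insert.1 hj with rfl | hjS
      · rw [← mul_div_assoc, div_le_one (mul_pos hyk hZ0)]
        exact mul_le_mul_of_nonneg_left hMb hyk.le
      · have h1 := hcr ⟨j, hjS⟩
        simp only at h1
        have h2 : |M.det| * y j = y k * |(M.updateCol ⟨j, hjS⟩ g).det| := by
          have := congrArg abs h1
          rw [abs_mul, abs_mul, abs_neg, abs_of_pos hyk, abs_of_nonneg (hy0 j)] at this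
          exact this
        rw [← mul_div_assoc, div_le_one (mul_pos hyk hZ0), mul_comm, h2]
        exact mul_le_mul_of_nonneg_left (hUb _) hyk.le
    · rw [hy_out j hj, zero_mul]
      exact zero_le_one
  · dsimp only
    have : y k * (|M.det| / (y k * Z)) * Z = |M.det| := by
      field_simp
    rw [this]
    exact hdet1

theorem exists_small {m : ℕ} {cols : List (List ℤ)} (hc : ∀ c ∈ cols, c.length = m)
    {x : ℕ → ℝ} (hx : Feasible cols x) {k : ℕ} (hk : k < cols.length) (hxk : 0 < x k) :
    ∃ y : ℕ → ℝ, Feasible cols y ∧ (∀ j, y j ≤ 1) ∧ 1 ≤ y k * 2 ^ expB cols := by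
  set C : ℕ → Fin m → ℤ := fun j i => (cols.getD j []).getD i 0 with hC
  have hlist : ∀ (l : List ℤ), l.length = m →
      ((l.map Int.natAbs).sum : ℝ) = ∑ i : Fin m, |((l.getD i 0 : ℤ) : ℝ)| := by
    intro l hl
    subst hl
    have h1 : (l.map Int.natAbs).sum = ∑ i : Fin l.length, (l.getD i 0).natAbs := by
      rw [← List.sum_ofFn]
      congr 1
      apply List.ext_getElem
      · simp
      · intro n h1 h2
        simp at h1 ⊢
    rw [h1]
    push_cast
    refine Finset.sum_congr rfl fun i _ => ?_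
    rw [Nat.cast_natAbs]
    simp
  have hl1 : ∑ j ∈ Finset.range cols.length, ∑ i, |(C j i : ℝ)| = (l1s cols : ℝ) := by
    unfold l1s
    have h1 : (cols.map fun c => (c.map Int.natAbs).sum).sum =
        ∑ j ∈ Finset.range cols.length, ((cols.getD j []).map Int.natAbs).sum := by
      rw [Finset.sum_range, ← List.sum_ofFn]
      congr 1
      apply List.ext_getElem
      · simp
      · intro n h1 h2
        simp at h1 ⊢
    rw [h1]
    push_cast
    refine Finset.sum_congr rfl fun j hj => ?_
    have hj' := Finset.mem_range.1 hj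
    have hm : (cols.getD j []).length = m := by
      rw [List.getD_eq_getElem _ _ hj']
      exact hc _ (List.getElem_mem hj')
    rw [← hlist _ hm]
    push_cast
    rfl
  obtain ⟨y, hy0, hy, hy1, hyk⟩ := small_det cols.length C hx.1 (fun i => hx.2 i) hk hxk
    (l1s cols) hl1.le
  refine ⟨y, ⟨hy0, ?_⟩, hy1, ?_⟩
  · intro i
    by_cases hi : i < m
    · exact hy ⟨i, hi⟩
    · refine Finset.sum_eq_zero fun j hj => ?_
      have hj' := Finset.mem_range.1 hj
      have hm : (cols.getD j []).length = m := by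
        rw [List.getD_eq_getElem _ _ hj']
        exact hc _ (List.getElem_mem hj')
      have h0 : (cols.getD j []).getD i 0 = 0 := List.getD_eq_default _ _ (by omega)
      rw [h0]
      simp
  · refine le_trans hyk (mul_le_mul_of_nonneg_left ?_ (hy0 k))
    have h1 : 1 + l1s cols < 2 ^ (1 + l1s cols).bits.length := by
      rw [Nat.size_eq_bits_len]
      exact Nat.lt_size_self _
    have h2 : (1 + l1s cols) ^ (2 * cols.length) ≤ 2 ^ expB cols := by
      unfold expB
      rw [mul_comm (2 * cols.length) (List.length _), pow_mul 2]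
      exact Nat.pow_le_pow_left h1.le _
    exact_mod_cast h2

end Pool.Agent.H24U

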