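import Pool.Agent.H24R2.U.Spec2
import Pool.Agent.H24R2.U.Proj
import Pool.Agent.H24R2.U.Vbd

set_option autoImplicit false

namespace Pool.Agent.H24U

open Pool.Agent.H670R2 Pool.Agent.H24R2 Matrix Function
open Pool.Agent.NPC hiding Poly

namespace PA

/-- kernel vectors of a list of vectors -/
def Ker (L : List (List ℤ)) (y : ℕ → ℝ) : Prop :=
  ∀ i, ∑ k ∈ Finset.range L.length, y k * (((L.getD k []).getD i 0 : ℤ) : ℝ) = 0

/-- the projection as a real vector -/
noncomputable def zr (L : List (List ℤ)) (u : List ℤ) (k : ℕ) : ℝ :=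
  (((proj (gramL L) u).getD k 0 : ℤ) : ℝ)

noncomputable def den (L : List (List ℤ)) : ℝ := ((|pden (gramL L)| : ℤ) : ℝ)

theorem den_pos {m : ℕ} {L : List (List ℤ)} (hL : ∀ c ∈ L, c.length = m) : 0 < den L := by
  unfold den
  have h := (proj_spec L hL).1
  exact_mod_cast abs_pos.2 h

theorem zr_ker {m : ℕ} {L : List (List ℤ)} (hL : ∀ c ∈ L, c.length = m) {u : List ℤ}
    (hu : u.length = L.length) : Ker L (zr L u) := by
  intro i
  have h := ((proj_spec L hL).2 u hu).2.1 i
  unfold zr
  exact_mod_cast h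

/-- inner product with a kernel vector -/
theorem inner_ker {m : ℕ} {L : List (List ℤ)} (hL : ∀ c ∈ L, c.length = m) {u : List ℤ}
    (hu : u.length = L.length) {y : ℕ → ℝ} (hy : Ker L y) :
    ∑ k ∈ Finset.range L.length, zr L u k * y k =
      den L * ∑ k ∈ Finset.range L.length, ((u.getD k 0 : ℤ) : ℝ) * y k := by
  obtain ⟨w, hw, h⟩ := ((proj_spec L hL).2 u hu).2.2
  have h1 : ∑ k ∈ Finset.range L.length,
      (den L * ((u.getD k 0 : ℤ) : ℝ) - zr L u k) * y k = 0 := by
    have h2 : ∀ k ∈ Finset.range L.length, (den L * ((u.getD k 0 : ℤ) : ℝ) - zr L u k) * y k =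
        ∑ i ∈ Finset.range m, y k * (((L.getD k []).getD i 0 : ℤ) : ℝ) * ((w.getD i 0 : ℤ) : ℝ) := by
      intro k hk
      rw [Finset.mem_range] at hk
      have h3 := h k hk
      rw [dotL_eq_sum] at h3
      have hlen : (L.getD k []).length = m := by
        rw [List.getD_eq_getElem _ _ hk]
        exact hL _ (List.getElem_mem hk)
      rw [hlen] at h3
      have h4 : den L * ((u.getD k 0 : ℤ) : ℝ) - zr L u k =
          ∑ i ∈ Finset.range m, (((L.getD k []).getD i 0 : ℤ) : ℝ) * ((w.getD i 0 : ℤ) : ℝ) := by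
        unfold den zr
        exact_mod_cast h3
      rw [h4, Finset.sum_mul]
      refine Finset.sum_congr rfl fun i _ => ?_
      ring
    rw [Finset.sum_congr rfl h2, Finset.sum_comm]
    refine Finset.sum_eq_zero fun i _ => ?_
    rw [← Finset.sum_mul, hy i, zero_mul]
  simp only [sub_mul] at h1
  rw [Finset.sum_sub_distrib, sub_eq_zero] at h1
  rw [← h1, Finset.mul_sum]
  refine Finset.sum_congr rfl fun k _ => ?_
  ring

theorem sq_eq {m : ℕ} {L : List (List ℤ)} (hL : ∀ c ∈ L, c.length = m) {u : List ℤ}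
    (hu : u.length = L.length) :
    ∑ k ∈ Finset.range L.length, zr L u k ^ 2 =
      den L * ∑ k ∈ Finset.range L.length, ((u.getD k 0 : ℤ) : ℝ) * zr L u k := by
  rw [← inner_ker hL hu (zr_ker hL hu)]
  refine Finset.sum_congr rfl fun k _ => ?_
  ring

/-- `|P u|² ≤ |u|²` -/
theorem sq_le {m : ℕ} {L : List (List ℤ)} (hL : ∀ c ∈ L, c.length = m) {u : List ℤ}
    (hu : u.length = L.length) :
    ∑ k ∈ Finset.range L.length, zr L u k ^ 2 ≤
      den L ^ 2 * ∑ k ∈ Finset.range L.length, ((u.getD k 0 : ℤ) : ℝ) ^ 2 := by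
  have h1 := sq_eq hL hu
  have hd := den_pos hL
  have h2 : 0 ≤ ∑ k ∈ Finset.range L.length, (zr L u k - den L * ((u.getD k 0 : ℤ) : ℝ)) ^ 2 :=
    Finset.sum_nonneg fun _ _ => sq_nonneg _
  have h3 : ∑ k ∈ Finset.range L.length, (zr L u k - den L * ((u.getD k 0 : ℤ) : ℝ)) ^ 2 =
      ∑ k ∈ Finset.range L.length, zr L u k ^ 2 - 2 * (den L *
        ∑ k ∈ Finset.range L.length, ((u.getD k 0 : ℤ) : ℝ) * zr L u k) +
      den L ^ 2 * ∑ k ∈ Finset.range L.length, ((u.getD k 0 : ℤ) : ℝ) ^ 2 := by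
    rw [Finset.mul_sum, Finset.mul_sum, Finset.mul_sum, ← Finset.sum_sub_distrib,
      ← Finset.sum_add_distrib]
    refine Finset.sum_congr rfl fun k _ => ?_
    ring
  rw [← h1] at h3
  linarith

/-- the potential after one step -/
theorem pot_step {m : ℕ} {L : List (List ℤ)} (hL : ∀ c ∈ L, c.length = m) {u w u1 : List ℤ}
    (hu : u.length = L.length) (hw : w.length = L.length) (hu1 : u1.length = L.length)
    (hadd : ∀ k < L.length, u1.getD k 0 = u.getD k 0 + w.getD k 0)
    (hw01 : ∀ k < L.length, w.getD k 0 = 0 ∨ (w.getD k 0 = 1 ∧ zr L u k ≤ 0))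
    (hpot : ∑ k ∈ Finset.range L.length, zr L u k ^ 2 ≤
      den L ^ 2 * ∑ k ∈ Finset.range L.length, ((u.getD k 0 : ℤ) : ℝ)) :
    ∑ k ∈ Finset.range L.length, zr L u1 k ^ 2 ≤
      den L ^ 2 * ∑ k ∈ Finset.range L.length, ((u1.getD k 0 : ℤ) : ℝ) := by
  have hd := den_pos hL
  set S := Finset.range L.length with hS
  have hsum : ∀ y : ℕ → ℝ, ∑ k ∈ S, ((u1.getD k 0 : ℤ) : ℝ) * y k =
      ∑ k ∈ S, ((u.getD k 0 : ℤ) : ℝ) * y k + ∑ k ∈ S, ((w.getD k 0 : ℤ) : ℝ) * y k := by
    intro y
    rw [← Finset.sum_add_distrib]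
    refine Finset.sum_congr rfl fun k hk => ?_
    rw [hadd k (Finset.mem_range.1 hk)]
    push_cast
    ring
  have k0 := zr_ker hL hu
  have k1 := zr_ker hL hu1
  have kw := zr_ker hL hw
  -- inner products
  have a1 := sq_eq hL hu1
  have a2 := inner_ker hL hu k1
  have a3 := inner_ker hL hu1 k0
  have a4 := sq_eq hL hu
  have a5 := inner_ker hL hw k1
  have a6 := inner_ker hL hu1 kw
  have a7 := inner_ker hL hu kw
  have a8 := sq_eq hL hw
  have a9 := inner_ker hL hw k0
  rw [hsum] at a1 a3 a6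
  have c1 : ∑ k ∈ S, zr L u k * zr L u1 k = ∑ k ∈ S, zr L u1 k * zr L u k :=
    Finset.sum_congr rfl fun k _ => mul_comm _ _
  have c2 : ∑ k ∈ S, zr L w k * zr L u1 k = ∑ k ∈ S, zr L u1 k * zr L w k :=
    Finset.sum_congr rfl fun k _ => mul_comm _ _
  have c3 : ∑ k ∈ S, zr L w k * zr L u k = ∑ k ∈ S, zr L u k * zr L w k :=
    Finset.sum_congr rfl fun k _ => mul_comm _ _
  have e1 : ∑ k ∈ S, zr L u1 k ^ 2 = ∑ k ∈ S, zr L u k ^ 2 +
      2 * (den L * ∑ k ∈ S, ((w.getD k 0 : ℤ) : ℝ) * zr L u k) + ∑ k ∈ S, zr L w k ^ 2 := by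
    linarith
  -- the middle term
  have e2 : ∑ k ∈ S, ((w.getD k 0 : ℤ) : ℝ) * zr L u k ≤ 0 := by
    refine Finset.sum_nonpos fun k hk => ?_
    rcases hw01 k (Finset.mem_range.1 hk) with h | ⟨h, h'⟩
    · rw [h]
      simp
    · rw [h]
      simpa using h'
  -- the last term
  have e3 := sq_le hL hw
  have e4 : ∑ k ∈ S, ((w.getD k 0 : ℤ) : ℝ) ^ 2 = ∑ k ∈ S, ((w.getD k 0 : ℤ) : ℝ) := by
    refine Finset.sum_congr rfl fun k hk => ?_
    rcases hw01 k (Finset.mem_range.1 hk) with h | ⟨h, h'⟩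
    · rw [h]
      simp
    · rw [h]
      simp
  have e5 : ∑ k ∈ S, ((u1.getD k 0 : ℤ) : ℝ) = ∑ k ∈ S, ((u.getD k 0 : ℤ) : ℝ) +
      ∑ k ∈ S, ((w.getD k 0 : ℤ) : ℝ) := by
    have := hsum (fun _ => 1)
    simpa using this
  rw [e4] at e3
  rw [e5, e1]
  have e6 : 2 * (den L * ∑ k ∈ S, ((w.getD k 0 : ℤ) : ℝ) * zr L u k) ≤ 0 := by
    have := mul_nonneg hd.le (neg_nonneg.2 e2)
    linarith
  have e7 : den L ^ 2 * (∑ k ∈ S, ((u.getD k 0 : ℤ) : ℝ) + ∑ k ∈ S, ((w.getD k 0 : ℤ) : ℝ)) =
      den L ^ 2 * ∑ k ∈ S, ((u.getD k 0 : ℤ) : ℝ) + den L ^ 2 * ∑ k ∈ S, ((w.getD k 0 : ℤ) : ℝ) := by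
    ring
  linarith

/-! ### lists -/

theorem length_vsmul (c : ℤ) (u : List ℤ) : (vsmul c u).length = u.length := by
  simp [vsmul]

theorem getD_vsmul (c : ℤ) (u : List ℤ) (i : ℕ) : (vsmul c u).getD i 0 = c * u.getD i 0 := by
  unfold vsmul
  rcases lt_or_ge i u.length with h | h
  · rw [List.getD_eq_getElem _ _ (by simpa using h), List.getD_eq_getElem _ _ h, List.getElem_map]
  · rw [List.getD_eq_default _ _ (by simpa using h), List.getD_eq_default _ _ h, mul_zero]

theorem length_scale {D : List ℤ} {cols : List (List ℤ)} (h : D.length = cols.length) :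
    (scale D cols).length = cols.length := by
  simp [scale, h]

theorem getD_scale {D : List ℤ} {cols : List (List ℤ)} (h : D.length = cols.length) (k i : ℕ) :
    ((scale D cols).getD k []).getD i 0 = D.getD k 0 * (cols.getD k []).getD i 0 := by
  unfold scale
  have hlen : (List.zipWith (fun d c => vsmul d c) D cols).length = cols.length := by
    simp [h]
  rcases lt_or_ge k cols.length with hk | hk
  · have e1 : (List.zipWith (fun d c => vsmul d c) D cols).getD k [] =
        vsmul (D.getD k 0) (cols.getD k []) := by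
      rw [List.getD_eq_getElem _ _ (by omega), List.getElem_zipWith,
        List.getD_eq_getElem _ _ (by omega), List.getD_eq_getElem _ _ hk]
    rw [e1, getD_vsmul]
  · have e1 : (List.zipWith (fun d c => vsmul d c) D cols).getD k [] = [] :=
      List.getD_eq_default _ _ (by omega)
    have e2 : cols.getD k [] = [] := List.getD_eq_default _ _ hk
    rw [e1, e2]
    simp

theorem scale_len {m : ℕ} {D : List ℤ} {cols : List (List ℤ)} (_h : D.length = cols.length)
    (hc : ∀ c ∈ cols, c.length = m) : ∀ c ∈ scale D cols, c.length = m := by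
  intro c hcm
  unfold scale at hcm
  obtain ⟨i, hi, rfl⟩ := List.mem_iff_getElem.1 hcm
  rw [List.getElem_zipWith, length_vsmul]
  exact hc _ (List.getElem_mem _)

/-- the increments -/
def inc (D z : List ℤ) : List ℤ :=
  List.zipWith (fun d x => if d ≠ 0 ∧ x ≤ 0 then 1 else 0) D z

/-- the new counters before the reset -/
def un (s : List ℤ × List ℤ) (z : List ℤ) : List ℤ :=
  List.zipWith (fun (x : ℤ) (b : ℤ × ℤ) => if b.1 ≠ 0 ∧ b.2 ≤ 0 then x + 1 else x)
    s.2 (List.zip s.1 z)

theorem pstep_eq (τ : ℤ) (cols : List (List ℤ)) (s : List ℤ × List ℤ) :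
    pstep τ cols s = (List.zipWith (fun d x => if τ ≤ x then d / 2 else d) s.1
      (un s (proj (gramL (scale s.1 cols)) s.2)),
      if (un s (proj (gramL (scale s.1 cols)) s.2)).any (fun x => decide (τ ≤ x)) = true then
        vsmul 0 (un s (proj (gramL (scale s.1 cols)) s.2))
      else un s (proj (gramL (scale s.1 cols)) s.2)) := rfl

theorem length_un {s : List ℤ × List ℤ} {z : List ℤ} {N : ℕ} (h1 : s.1.length = N)
    (h2 : s.2.length = N) (hz : z.length = N) : (un s z).length = N := by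
  simp [un, h1, h2, hz]

theorem length_inc {D z : List ℤ} {N : ℕ} (h1 : D.length = N) (hz : z.length = N) :
    (inc D z).length = N := by
  simp [inc, h1, hz]

theorem getD_un {s : List ℤ × List ℤ} {z : List ℤ} {N : ℕ} (h1 : s.1.length = N)
    (h2 : s.2.length = N) (hz : z.length = N) {k : ℕ} (hk : k < N) :
    (un s z).getD k 0 = if s.1.getD k 0 ≠ 0 ∧ z.getD k 0 ≤ 0 then s.2.getD k 0 + 1
      else s.2.getD k 0 := by
  rw [List.getD_eq_getElem _ _ (by rw [length_un h1 h2 hz]; exact hk)]
  unfold un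
  rw [List.getElem_zipWith, List.getElem_zip, List.getD_eq_getElem _ _ (by omega),
    List.getD_eq_getElem _ _ (by omega), List.getD_eq_getElem _ _ (by omega)]

theorem getD_inc {D z : List ℤ} {N : ℕ} (h1 : D.length = N) (hz : z.length = N) {k : ℕ}
    (hk : k < N) : (inc D z).getD k 0 = if D.getD k 0 ≠ 0 ∧ z.getD k 0 ≤ 0 then 1 else 0 := by
  rw [List.getD_eq_getElem _ _ (by rw [length_inc h1 hz]; exact hk)]
  unfold inc
  rw [List.getElem_zipWith, List.getD_eq_getElem _ _ (by omega),
    List.getD_eq_getElem _ _ (by omega)]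

theorem getD_halve {D u : List ℤ} {N : ℕ} (τ : ℤ) (h1 : D.length = N) (h2 : u.length = N) {k : ℕ}
    (hk : k < N) : (List.zipWith (fun (d x : ℤ) => if τ ≤ x then d / 2 else d) D u).getD k 0 =
      if τ ≤ u.getD k 0 then D.getD k 0 / 2 else D.getD k 0 := by
  rw [List.getD_eq_getElem _ _ (by simp [h1, h2, hk]), List.getElem_zipWith,
    List.getD_eq_getElem _ _ (by omega), List.getD_eq_getElem _ _ (by omega)]

/-- the main estimate: `x_k 2^B ≤ D_k / 2` -/
theorem half {m : ℕ} {cols : List (List ℤ)} (hc : ∀ c ∈ cols, c.length = m) {D u1 : List ℤ}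
    (hD : D.length = cols.length) (hu1 : u1.length = cols.length) (hN : 0 < cols.length)
    (hpow : ∀ k < cols.length, D.getD k 0 = 0 ∨ ∃ e : ℕ, D.getD k 0 = 2 ^ e)
    (hnn : ∀ k < cols.length, 0 ≤ u1.getD k 0) (hle : ∀ k < cols.length, u1.getD k 0 ≤ thr cols)
    (hbox : ∀ x, Feasible cols x → (∀ j, x j ≤ 1) → ∀ k < cols.length,
      x k * 2 ^ expB cols ≤ ((D.getD k 0 : ℤ) : ℝ))
    (hpot : ∑ k ∈ Finset.range (scale D cols).length, zr (scale D cols) u1 k ^ 2 ≤
      den (scale D cols) ^ 2 * ∑ k ∈ Finset.range (scale D cols).length, ((u1.getD k 0 : ℤ) : ℝ))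
    {x : ℕ → ℝ} (hx : Feasible cols x) (hx1 : ∀ j, x j ≤ 1) {k : ℕ} (hk : k < cols.length)
    (hDk : D.getD k 0 ≠ 0) (huk : thr cols ≤ u1.getD k 0) :
    2 * (x k * 2 ^ expB cols) ≤ ((D.getD k 0 : ℤ) : ℝ) := by
  set L := scale D cols with hLd
  have hLlen : L.length = cols.length := length_scale hD
  have hL := scale_len hD hc
  have hd := den_pos hL
  rw [hLlen] at hpot
  set S := Finset.range cols.length with hS
  have hDpos : ∀ j < cols.length, D.getD j 0 ≠ 0 → (0 : ℝ) < ((D.getD j 0 : ℤ) : ℝ) := by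
    intro j hj hne
    rcases hpow j hj with h | ⟨e, h⟩
    · exact absurd h hne
    · rw [h]
      push_cast
      positivity
  -- the vector `y`
  set y : ℕ → ℝ := fun j => x j * 2 ^ expB cols / ((D.getD j 0 : ℤ) : ℝ) with hy
  have hDy : ∀ j < cols.length, ((D.getD j 0 : ℤ) : ℝ) * y j = x j * 2 ^ expB cols := by
    intro j hj
    by_cases h0 : D.getD j 0 = 0
    · have h1 := hbox x hx hx1 j hj
      rw [h0] at h1
      have h2 : 0 ≤ x j * 2 ^ expB cols := mul_nonneg (hx.1 j) (by positivity)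
      rw [h0]
      push_cast at h1 ⊢
      linarith
    · have := hDpos j hj h0
      simp only [hy]
      field_simp
  have hy0 : ∀ j < cols.length, 0 ≤ y j := by
    intro j hj
    simp only [hy]
    by_cases h0 : D.getD j 0 = 0
    · rw [h0]
      simp
    · have := hDpos j hj h0
      have h2 : 0 ≤ x j * 2 ^ expB cols := mul_nonneg (hx.1 j) (by positivity)
      positivity
  have hy1 : ∀ j < cols.length, y j ≤ 1 := by
    intro j hj
    simp only [hy]
    by_cases h0 : D.getD j 0 = 0
    · rw [h0]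
      simp
    · have := hDpos j hj h0
      rw [div_le_one this]
      exact hbox x hx hx1 j hj
  have hker : Ker L y := by
    intro i
    rw [hLlen]
    have h1 := hx.2 i
    have h2 : ∀ j ∈ S, y j * (((L.getD j []).getD i 0 : ℤ) : ℝ) =
        2 ^ expB cols * (x j * (((cols.getD j []).getD i 0 : ℤ) : ℝ)) := by
      intro j hj
      rw [hLd, getD_scale hD]
      push_cast
      have := hDy j (Finset.mem_range.1 hj)
      linear_combination (((cols.getD j []).getD i 0 : ℤ) : ℝ) * this
    rw [Finset.sum_congr rfl h2, ← Finset.mul_sum, h1, mul_zero]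
  have hin := inner_ker hL (u := u1) (by rw [hLlen]; exact hu1) hker
  rw [hLlen] at hin
  -- lower bound
  have hN' : (1 : ℝ) ≤ cols.length := by exact_mod_cast hN
  have hthr : ((thr cols : ℤ) : ℝ) = 4 * (cols.length : ℝ) ^ 2 := by
    unfold thr
    push_cast
    ring
  have hlow : 4 * (cols.length : ℝ) ^ 2 * y k ≤ ∑ j ∈ S, ((u1.getD j 0 : ℤ) : ℝ) * y j := by
    have h1 : ((u1.getD k 0 : ℤ) : ℝ) * y k ≤ ∑ j ∈ S, ((u1.getD j 0 : ℤ) : ℝ) * y j := by
      apply Finset.single_le_sum (f := fun j => ((u1.getD j 0 : ℤ) : ℝ) * y j) _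
        (Finset.mem_range.2 hk)
      intro j hj
      rw [Finset.mem_range] at hj
      exact mul_nonneg (by exact_mod_cast hnn j hj) (hy0 j hj)
    have h2 : 4 * (cols.length : ℝ) ^ 2 ≤ ((u1.getD k 0 : ℤ) : ℝ) := by
      rw [← hthr]
      exact_mod_cast huk
    exact (mul_le_mul_of_nonneg_right h2 (hy0 k hk)).trans h1
  -- upper bound by Cauchy-Schwarz
  have hcs := Finset.sum_mul_sq_le_sq_mul_sq S (zr L u1) y
  have hys : ∑ j ∈ S, y j ^ 2 ≤ cols.length := by
    calc ∑ j ∈ S, y j ^ 2 ≤ ∑ j ∈ S, (1 : ℝ) := by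
          refine Finset.sum_le_sum fun j hj => ?_
          rw [Finset.mem_range] at hj
          have := hy0 j hj
          have := hy1 j hj
          nlinarith
      _ = cols.length := by simp [hS]
  have hus : ∑ j ∈ S, ((u1.getD j 0 : ℤ) : ℝ) ≤ cols.length * (4 * (cols.length : ℝ) ^ 2) := by
    calc ∑ j ∈ S, ((u1.getD j 0 : ℤ) : ℝ) ≤ ∑ j ∈ S, (4 * (cols.length : ℝ) ^ 2) := by
          refine Finset.sum_le_sum fun j hj => ?_
          rw [Finset.mem_range] at hj
          rw [← hthr]
          exact_mod_cast hle j hj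
      _ = _ := by simp [hS]
  have hzs : ∑ j ∈ S, zr L u1 j ^ 2 ≤ den L ^ 2 * (4 * (cols.length : ℝ) ^ 3) := by
    refine hpot.trans ?_
    apply mul_le_mul_of_nonneg_left _ (by positivity)
    calc _ ≤ _ := hus
      _ = _ := by ring
  have hsq : (∑ j ∈ S, zr L u1 j * y j) ^ 2 ≤ (den L * (2 * (cols.length : ℝ) ^ 2)) ^ 2 := by
    have hy2 : 0 ≤ ∑ j ∈ S, y j ^ 2 := Finset.sum_nonneg fun _ _ => sq_nonneg _
    calc (∑ j ∈ S, zr L u1 j * y j) ^ 2 ≤ (∑ j ∈ S, zr L u1 j ^ 2) * ∑ j ∈ S, y j ^ 2 := hcs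
      _ ≤ (den L ^ 2 * (4 * (cols.length : ℝ) ^ 3)) * cols.length := by
          apply mul_le_mul hzs hys hy2 (by positivity)
      _ = (den L * (2 * (cols.length : ℝ) ^ 2)) ^ 2 := by ring
  have habs : ∑ j ∈ S, zr L u1 j * y j ≤ den L * (2 * (cols.length : ℝ) ^ 2) :=
    (abs_le_of_sq_le_sq' hsq (by positivity)).2
  rw [hin] at habs
  have hfin := le_of_mul_le_mul_left habs hd
  have hyk : 2 * y k ≤ 1 := by
    have h1 : 4 * (cols.length : ℝ) ^ 2 * y k ≤ 2 * (cols.length : ℝ) ^ 2 := hlow.trans hfin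
    have h2 : (0 : ℝ) < 2 * (cols.length : ℝ) ^ 2 := by positivity
    have h3 : 2 * (cols.length : ℝ) ^ 2 * (2 * y k) ≤ 2 * (cols.length : ℝ) ^ 2 * 1 := by linarith
    exact le_of_mul_le_mul_left h3 h2
  have h1 := hDy k hk
  have h2 := hDpos k hk hDk
  rw [← h1]
  nlinarith

end PA

open PA

theorem pinv_step {m : ℕ} {cols : List (List ℤ)} (hc : ∀ c ∈ cols, c.length = m)
    {s : List ℤ × List ℤ} (h : PInv cols s) : PInv cols (pstep (thr cols) cols s) := by
  set L := scale s.1 cols with hLd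
  have hLlen : L.length = cols.length := length_scale h.lenD
  have hL := scale_len h.lenD hc
  set z := proj (gramL L) s.2 with hz
  have hzlen : z.length = cols.length := by
    rw [← hLlen]
    exact ((proj_spec L hL).2 s.2 (by rw [hLlen]; exact h.lenU)).1
  set u1 := un s z with hu1d
  have hu1 : u1.length = cols.length := length_un h.lenD h.lenU hzlen
  rw [pstep_eq, ← hLd, ← hz, ← hu1d]
  have hg : ∀ k < cols.length, u1.getD k 0 = if s.1.getD k 0 ≠ 0 ∧ z.getD k 0 ≤ 0 then
      s.2.getD k 0 + 1 else s.2.getD k 0 := fun k hk => getD_un h.lenD h.lenU hzlen hk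
  have hnn : ∀ k < cols.length, 0 ≤ u1.getD k 0 := by
    intro k hk
    rw [hg k hk]
    have := h.nonneg k
    split_ifs <;> omega
  have hle : ∀ k < cols.length, u1.getD k 0 ≤ thr cols := by
    intro k hk
    rw [hg k hk]
    have := h.lt k hk
    split_ifs <;> omega
  have hdead : ∀ k < cols.length, s.1.getD k 0 = 0 → u1.getD k 0 = 0 := by
    intro k hk h0
    rw [hg k hk, if_neg (fun hh => hh.1 h0)]
    exact h.dead k hk h0
  -- potential
  have hdenI : ((pden (gramL L) ^ 2 : ℤ) : ℝ) = den L ^ 2 := by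
    unfold den
    have : pden (gramL L) ^ 2 = |pden (gramL L)| ^ 2 := (sq_abs _).symm
    rw [this]
    push_cast
    ring
  have hpot0 : ∑ k ∈ Finset.range L.length, zr L s.2 k ^ 2 ≤
      den L ^ 2 * ∑ k ∈ Finset.range L.length, ((s.2.getD k 0 : ℤ) : ℝ) := by
    have h1 := h.pot
    rw [← hLd] at h1
    rw [hLlen, ← hdenI]
    unfold zr
    exact_mod_cast h1
  have hpot : ∑ k ∈ Finset.range L.length, zr L u1 k ^ 2 ≤
      den L ^ 2 * ∑ k ∈ Finset.range L.length, ((u1.getD k 0 : ℤ) : ℝ) := by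
    apply pot_step hL (u := s.2) (w := inc s.1 z) (by rw [hLlen]; exact h.lenU)
      (by rw [hLlen]; exact length_inc h.lenD hzlen) (by rw [hLlen]; exact hu1) _ _ hpot0
    · intro k hk
      rw [hLlen] at hk
      rw [hg k hk, getD_inc h.lenD hzlen hk]
      split_ifs <;> simp
    · intro k hk
      rw [hLlen] at hk
      rw [getD_inc h.lenD hzlen hk]
      split_ifs with h1
      · right
        refine ⟨rfl, ?_⟩
        unfold zr
        exact_mod_cast h1.2
      · left
        rfl
  by_cases hany : u1.any (fun x => decide (thr cols ≤ x)) = true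
  · rw [if_pos hany]
    -- some counter has reached the threshold
    have hN : 0 < cols.length := by
      rw [← hu1]
      rcases Nat.eq_zero_or_pos u1.length with h0 | h0
      · rw [List.length_eq_zero_iff.1 h0] at hany
        simp at hany
      · exact h0
    have hthr0 : 0 < thr cols := by
      unfold thr
      have : (1 : ℤ) ≤ cols.length := by exact_mod_cast hN
      positivity
    have hpow' : ∀ k < cols.length, s.1.getD k 0 = 0 ∨ ∃ e : ℕ, s.1.getD k 0 = 2 ^ e := by
      intro k hk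
      rcases h.pow k hk with h1 | ⟨e, _, h1⟩
      · exact Or.inl h1
      · exact Or.inr ⟨e, h1⟩
    have hhalf : ∀ x, Feasible cols x → (∀ j, x j ≤ 1) → ∀ k < cols.length,
        s.1.getD k 0 ≠ 0 → thr cols ≤ u1.getD k 0 →
        2 * (x k * 2 ^ expB cols) ≤ ((s.1.getD k 0 : ℤ) : ℝ) := fun x hx hx1 k hk hDk huk =>
      half hc h.lenD hu1 hN hpow' hnn hle h.box hpot hx hx1 hk hDk huk
    have hz0 : ∀ k, (vsmul 0 u1).getD k 0 = 0 := by
      intro k
      rw [getD_vsmul, zero_mul]
    have hD' : ∀ k < cols.length, (List.zipWith (fun (d x : ℤ) => if thr cols ≤ x then d / 2 else d)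
        s.1 u1).getD k 0 = if thr cols ≤ u1.getD k 0 then s.1.getD k 0 / 2 else s.1.getD k 0 :=
      fun k hk => getD_halve _ h.lenD hu1 hk
    have hD'len : (List.zipWith (fun (d x : ℤ) => if thr cols ≤ x then d / 2 else d)
        s.1 u1).length = cols.length := by
      simp [h.lenD, hu1]
    refine ⟨hD'len, by simp only; rw [length_vsmul]; exact hu1, ?_, ?_, ?_, ?_, ?_, ?_⟩
    · intro k hk
      simp only
      rw [hD' k hk]
      split_ifs with h1
      · rcases h.pow k hk with h2 | ⟨e, he, h2⟩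
        · left
          rw [h2]
          rfl
        · rcases Nat.eq_zero_or_pos e with h3 | h3
          · left
            rw [h2, h3]
            rfl
          · right
            refine ⟨e - 1, by omega, ?_⟩
            rw [h2]
            obtain ⟨f, rfl⟩ : ∃ f, e = f + 1 := ⟨e - 1, by omega⟩
            rw [pow_succ]
            simp
      · exact h.pow k hk
    · intro k
      simp only
      rw [hz0]
    · intro k _
      simp only
      rw [hz0]
      exact hthr0
    · intro k _ _
      simp only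
      exact hz0 k
    · intro x hx hx1 k hk
      simp only
      rw [hD' k hk]
      split_ifs with h1
      · have hne : s.1.getD k 0 ≠ 0 := by
          intro h0
          have := hdead k hk h0
          omega
        rcases h.pow k hk with h2 | ⟨e, he, h2⟩
        · exact absurd h2 hne
        · have h3 := hhalf x hx hx1 k hk hne h1
          rcases Nat.eq_zero_or_pos e with h4 | h4
          · -- `D_k = 1`: then `x_k = 0`
            have h5 : x k = 0 := by
              by_contra h6
              have h7 : 0 < x k := lt_of_le_of_ne (hx.1 k) (Ne.symm h6)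
              obtain ⟨y, hy, hy1, hyk⟩ := exists_small hc hx hk h7
              have h8 := hhalf y hy hy1 k hk hne h1
              rw [h2, h4] at h8
              push_cast at h8
              linarith
            rw [h5, h2, h4]
            simp
          · obtain ⟨f, rfl⟩ : ∃ f, e = f + 1 := ⟨e - 1, by omega⟩
            rw [h2] at h3 ⊢
            rw [pow_succ] at h3 ⊢
            have h9 : (2 : ℤ) ^ f * 2 / 2 = 2 ^ f := by simp
            rw [h9]
            push_cast at h3 ⊢
            linarith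
      · exact h.box x hx hx1 k hk
    · -- potential of the zero vector
      simp only
      set L' := scale (List.zipWith (fun (d x : ℤ) => if thr cols ≤ x then d / 2 else d) s.1 u1) cols
        with hL'd
      have hL'len : L'.length = cols.length := length_scale hD'len
      have hL' := scale_len hD'len hc
      have h1 := sq_eq hL' (u := vsmul 0 u1) (by rw [hL'len, length_vsmul]; exact hu1)
      have h2 : ∑ k ∈ Finset.range L'.length, (((vsmul 0 u1).getD k 0 : ℤ) : ℝ) *
          zr L' (vsmul 0 u1) k = 0 := by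
        refine Finset.sum_eq_zero fun k _ => ?_
        rw [hz0]
        simp
      rw [h2, mul_zero, hL'len] at h1
      have h3 : ((∑ k ∈ Finset.range cols.length,
          (proj (gramL L') (vsmul 0 u1)).getD k 0 ^ 2 : ℤ) : ℝ) = 0 := by
        push_cast
        exact h1
      have h4 : ∑ k ∈ Finset.range cols.length,
          (proj (gramL L') (vsmul 0 u1)).getD k 0 ^ 2 = 0 := by exact_mod_cast h3
      rw [h4]
      have h5 : ∑ k ∈ Finset.range cols.length, (vsmul 0 u1).getD k 0 = 0 :=
        Finset.sum_eq_zero fun k _ => hz0 k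
      rw [h5, mul_zero]
  · rw [if_neg hany]
    have hlt : ∀ k < cols.length, u1.getD k 0 < thr cols := by
      intro k hk
      by_contra h1
      apply hany
      rw [List.any_eq_true]
      refine ⟨u1.getD k 0, ?_, by simpa using h1⟩
      rw [List.getD_eq_getElem _ _ (by omega)]
      exact List.getElem_mem _
    have hDD : List.zipWith (fun (d x : ℤ) => if thr cols ≤ x then d / 2 else d) s.1 u1 = s.1 := by
      refine List.ext_getElem (by simp [h.lenD, hu1]) fun k h1 h2 => ?_
      rw [List.getElem_zipWith, if_neg]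
      have h3 := hlt k (by rw [← h.lenD]; exact h2)
      rw [List.getD_eq_getElem _ _ (by rw [hu1, ← h.lenD]; exact h2)] at h3
      omega
    rw [hDD]
    refine ⟨h.lenD, hu1, h.pow, ?_, hlt, hdead, h.box, ?_⟩
    · intro k
      simp only
      rcases lt_or_ge k cols.length with hk | hk
      · exact hnn k hk
      · rw [List.getD_eq_default _ _ (by omega)]
    · simp only
      rw [← hLd]
      rw [hLlen, ← hdenI] at hpot
      unfold zr at hpot
      exact_mod_cast hpot

end Pool.Agent.H24U
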