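import Pool.Agent.H24R2.U.Proj
import Pool.Agent.H24R2.U.Vbd
import Pool.Agent.H24R2.U.PercA
import Pool.Agent.H24R2.U.Spec2

set_option autoImplicit false

namespace Pool.Agent.H24U

open Pool.Agent.H670R2 Pool.Agent.H24R2 Matrix Function
open Pool.Agent.NPC hiding Poly


namespace PercB

theorem getD_zipWith' {α β γ : Type} (f : α → β → γ) (l1 : List α) (l2 : List β) (a : α) (b : β)
    (c : γ) {k : ℕ} (h1 : k < l1.length) (h2 : k < l2.length) :
    (List.zipWith f l1 l2).getD k c = f (l1.getD k a) (l2.getD k b) := by
  rw [List.getD_eq_getElem _ _ (by rw [List.length_zipWith]; omega),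
    List.getD_eq_getElem _ _ h1, List.getD_eq_getElem _ _ h2, List.getElem_zipWith]

theorem getD_map' {α β : Type} (f : α → β) (l : List α) (a : α) (b : β) {k : ℕ}
    (h : k < l.length) : (l.map f).getD k b = f (l.getD k a) := by
  rw [List.getD_eq_getElem _ _ (by rw [List.length_map]; exact h),
    List.getD_eq_getElem _ _ h, List.getElem_map]

theorem scale_length {D : List ℤ} {cols : List (List ℤ)} (h : D.length = cols.length) :
    (scale D cols).length = cols.length := by
  unfold scale
  rw [List.length_zipWith, h, min_self]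

theorem scale_len {m : ℕ} {cols : List (List ℤ)} (hc : ∀ c ∈ cols, c.length = m) (D : List ℤ) :
    ∀ c ∈ scale D cols, c.length = m := by
  intro c hcm
  unfold scale at hcm
  obtain ⟨k, hk, rfl⟩ := List.mem_iff_getElem.1 hcm
  rw [List.getElem_zipWith]
  unfold vsmul
  rw [List.length_map]
  exact hc _ (List.getElem_mem _)

theorem scale_getD {D : List ℤ} {cols : List (List ℤ)} (h : D.length = cols.length) {k : ℕ}
    (hk : k < cols.length) (i : ℕ) :
    ((scale D cols).getD k []).getD i 0 = D.getD k 0 * (cols.getD k []).getD i 0 := by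
  unfold scale
  rw [getD_zipWith' _ D cols 0 [] [] (by omega) hk]
  unfold vsmul
  by_cases hi : i < (cols.getD k []).length
  · rw [getD_map' _ _ 0 0 hi]
  · rw [List.getD_eq_default ((cols.getD k []).map _) _ (by rw [List.length_map]; omega),
      List.getD_eq_default (cols.getD k []) _ (by omega), mul_zero]

/-- the vector computed in a step -/
def zz (cols : List (List ℤ)) (s : List ℤ × List ℤ) : List ℤ :=
  proj (gramL (scale s.1 cols)) s.2

/-- the new counters before the reset -/
def uu (cols : List (List ℤ)) (s : List ℤ × List ℤ) : List ℤ :=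
  List.zipWith (fun (x : ℤ) (b : ℤ × ℤ) => if b.1 ≠ 0 ∧ b.2 ≤ 0 then x + 1 else x)
    s.2 (List.zip s.1 (zz cols s))

theorem pstep_eq (τ : ℤ) (cols : List (List ℤ)) (s : List ℤ × List ℤ) :
    pstep τ cols s = (List.zipWith (fun d x => if τ ≤ x then d / 2 else d) s.1 (uu cols s),
      if (uu cols s).any (fun x => decide (τ ≤ x)) = true then vsmul 0 (uu cols s)
      else uu cols s) := rfl

section

variable {m : ℕ} {cols : List (List ℤ)} {s : List ℤ × List ℤ}

theorem zz_len (hc : ∀ c ∈ cols, c.length = m) (h : PInv cols s) :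
    (zz cols s).length = cols.length := by
  have h1 := ((proj_spec (scale s.1 cols) (scale_len hc s.1)).2 s.2
    (by rw [scale_length h.lenD, h.lenU])).1
  rw [scale_length h.lenD] at h1
  exact h1

theorem uu_len (hc : ∀ c ∈ cols, c.length = m) (h : PInv cols s) :
    (uu cols s).length = cols.length := by
  unfold uu
  rw [List.length_zipWith, List.length_zip, zz_len hc h, h.lenD, h.lenU]
  simp

theorem uu_getD (hc : ∀ c ∈ cols, c.length = m) (h : PInv cols s) {k : ℕ}
    (hk : k < cols.length) :
    (uu cols s).getD k 0 = if s.1.getD k 0 ≠ 0 ∧ (zz cols s).getD k 0 ≤ 0 then s.2.getD k 0 + 1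
      else s.2.getD k 0 := by
  unfold uu
  have h1 := h.lenD
  have h2 := h.lenU
  have h3 := zz_len hc h
  rw [getD_zipWith' _ s.2 (List.zip s.1 (zz cols s)) 0 (0, 0) 0 (by omega)
    (by rw [List.length_zip]; omega)]
  have h4 : (List.zip s.1 (zz cols s)).getD k (0, 0) = (s.1.getD k 0, (zz cols s).getD k 0) := by
    unfold List.zip
    rw [getD_zipWith' _ s.1 (zz cols s) 0 0 (0, 0) (by omega) (by omega)]
  rw [h4]

/-- the state is final -/
def Done (cols : List (List ℤ)) (s : List ℤ × List ℤ) : Prop :=
  ∀ k < cols.length, s.1.getD k 0 ≠ 0 → 0 < (zz cols s).getD k 0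

theorem ext_getD {l1 l2 : List ℤ} (hl : l1.length = l2.length)
    (h : ∀ k < l1.length, l1.getD k 0 = l2.getD k 0) : l1 = l2 := by
  apply List.ext_getElem hl
  intro k h1 h2
  have := h k h1
  rwa [List.getD_eq_getElem _ _ h1, List.getD_eq_getElem _ _ h2] at this

theorem any_iff {τ : ℤ} (l : List ℤ) :
    l.any (fun x => decide (τ ≤ x)) = true ↔ ∃ k < l.length, τ ≤ l.getD k 0 := by
  rw [List.any_eq_true]
  constructor
  · rintro ⟨x, hx, h⟩
    obtain ⟨k, hk, rfl⟩ := List.mem_iff_getElem.1 hx
    exact ⟨k, hk, by rw [List.getD_eq_getElem _ _ hk]; simpa using h⟩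
  · rintro ⟨k, hk, h⟩
    rw [List.getD_eq_getElem _ _ hk] at h
    exact ⟨l[k], List.getElem_mem hk, by simpa using h⟩

theorem fixed (hc : ∀ c ∈ cols, c.length = m) (h : PInv cols s) (hd : Done cols s) :
    pstep (thr cols) cols s = s := by
  have hu : uu cols s = s.2 := by
    apply ext_getD
    · rw [uu_len hc h, h.lenU]
    · intro k hk
      rw [uu_len hc h] at hk
      rw [uu_getD hc h hk, if_neg]
      rintro ⟨h1, h2⟩
      exact absurd (hd k hk h1) (not_lt.2 h2)
  rw [pstep_eq, hu]
  have hlt : ∀ k < s.2.length, ¬ thr cols ≤ s.2.getD k 0 := fun k hk => by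
    rw [h.lenU] at hk
    exact not_le.2 (h.lt k hk)
  have hany : ¬ (s.2.any (fun x => decide (thr cols ≤ x)) = true) := by
    rw [any_iff]
    rintro ⟨k, hk, h1⟩
    exact hlt k hk h1
  rw [if_neg hany]
  apply Prod.ext
  · show List.zipWith _ s.1 s.2 = s.1
    apply ext_getD
    · rw [List.length_zipWith, h.lenD, h.lenU, min_self]
    · intro k hk
      rw [List.length_zipWith, h.lenD, h.lenU, min_self] at hk
      rw [getD_zipWith' _ s.1 s.2 0 0 0 (by rw [h.lenD]; exact hk) (by rw [h.lenU]; exact hk),
        if_neg (hlt k (by rw [h.lenU]; exact hk))]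
  · rfl

/-- potential -/
def Phi (cols : List (List ℤ)) (D : List ℤ) : ℕ :=
  ∑ k ∈ Finset.range cols.length, Nat.size (D.getD k 0).toNat

/-- sum of the counters -/
def Su (cols : List (List ℤ)) (u : List ℤ) : ℕ :=
  ∑ k ∈ Finset.range cols.length, (u.getD k 0).toNat

def VV (cols : List (List ℤ)) (s : List ℤ × List ℤ) : ℕ :=
  (4 * cols.length ^ 3 + 1) * Phi cols s.1 + (4 * cols.length ^ 3 - Su cols s.2)

theorem half_size {d : ℤ} (h : ∃ e : ℕ, d = 2 ^ e) :
    Nat.size (d / 2).toNat + 1 = Nat.size d.toNat := by
  obtain ⟨e, rfl⟩ := h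
  have h2 : ((2 : ℤ) ^ e).toNat = 2 ^ e := by
    have : ((2 : ℤ) ^ e) = ((2 ^ e : ℕ) : ℤ) := by push_cast; rfl
    rw [this, Int.toNat_natCast]
  rw [h2, Nat.size_pow]
  cases e with
  | zero => norm_num
  | succ e =>
    have h3 : ((2 : ℤ) ^ (e + 1) / 2) = 2 ^ e := by
      rw [pow_succ]; exact Int.mul_ediv_cancel _ (by norm_num)
    have h4 : ((2 : ℤ) ^ e).toNat = 2 ^ e := by
      have : ((2 : ℤ) ^ e) = ((2 ^ e : ℕ) : ℤ) := by push_cast; rfl
      rw [this, Int.toNat_natCast]
    rw [h3, h4, Nat.size_pow]

theorem half_size_le {d : ℤ} (h : d = 0 ∨ ∃ e : ℕ, d = 2 ^ e) :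
    Nat.size (d / 2).toNat ≤ Nat.size d.toNat := by
  rcases h with rfl | h
  · simp
  · have := half_size h; omega

theorem Su_le (h : PInv cols s) : Su cols s.2 ≤ 4 * cols.length ^ 3 := by
  unfold Su
  have h1 : ∀ k ∈ Finset.range cols.length, (s.2.getD k 0).toNat ≤ 4 * cols.length ^ 2 := by
    intro k hk
    have h2 := h.lt k (Finset.mem_range.1 hk)
    unfold thr at h2
    have h3 : (s.2.getD k 0) < ((4 * cols.length ^ 2 : ℕ) : ℤ) := by push_cast; exact h2
    omega
  have h2 := Finset.sum_le_card_nsmul _ _ _ h1
  rw [Finset.card_range, smul_eq_mul] at h2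
  refine h2.trans (le_of_eq (by ring))

theorem V_dec (hc : ∀ c ∈ cols, c.length = m) (h : PInv cols s) (hd : ¬ Done cols s) :
    VV cols (pstep (thr cols) cols s) < VV cols s := by
  have h' := pinv_step hc h
  unfold Done at hd
  push Not at hd
  obtain ⟨k0, hk0, hk1, hk2⟩ := hd
  have hSu := Su_le h
  have hSu' := Su_le h'
  have hpow : ∀ k < cols.length, s.1.getD k 0 = 0 ∨ ∃ e : ℕ, s.1.getD k 0 = 2 ^ e := fun k hk => by
    rcases h.pow k hk with h1 | ⟨e, _, h1⟩
    · exact Or.inl h1
    · exact Or.inr ⟨e, h1⟩
  have hD' : ∀ k < cols.length, (pstep (thr cols) cols s).1.getD k 0 =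
      if thr cols ≤ (uu cols s).getD k 0 then s.1.getD k 0 / 2 else s.1.getD k 0 := by
    intro k hk
    rw [pstep_eq]
    exact getD_zipWith' _ s.1 (uu cols s) 0 0 0 (by rw [h.lenD]; exact hk)
      (by rw [uu_len hc h]; exact hk)
  by_cases hany : ((uu cols s).any (fun x => decide (thr cols ≤ x)) = true)
  · -- reset
    obtain ⟨k, hk, hk'⟩ := (any_iff _).1 hany
    rw [uu_len hc h] at hk
    have hDk : s.1.getD k 0 ≠ 0 := by
      intro h0
      rw [uu_getD hc h hk, if_neg (by rintro ⟨h1, _⟩; exact h1 h0)] at hk'
      exact absurd (h.lt k hk) (not_lt.2 hk')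
    have hphi : Phi cols (pstep (thr cols) cols s).1 < Phi cols s.1 := by
      unfold Phi
      apply Finset.sum_lt_sum
      · intro j hj
        rw [hD' j (Finset.mem_range.1 hj)]
        split_ifs
        · exact half_size_le (hpow j (Finset.mem_range.1 hj))
        · exact le_rfl
      · refine ⟨k, Finset.mem_range.2 hk, ?_⟩
        rw [hD' k hk, if_pos hk']
        rcases hpow k hk with h1 | h1
        · exact absurd h1 hDk
        · have := half_size h1; omega
    unfold VV
    have h5 : (4 * cols.length ^ 3 + 1) * (Phi cols (pstep (thr cols) cols s).1 + 1) ≤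
        (4 * cols.length ^ 3 + 1) * Phi cols s.1 := Nat.mul_le_mul_left _ hphi
    rw [mul_add, mul_one] at h5
    omega
  · -- no reset
    have hlt : ∀ k < cols.length, ¬ thr cols ≤ (uu cols s).getD k 0 := by
      intro k hk hcon
      exact hany ((any_iff _).2 ⟨k, by rw [uu_len hc h]; exact hk, hcon⟩)
    have hphi : Phi cols (pstep (thr cols) cols s).1 = Phi cols s.1 := by
      unfold Phi
      apply Finset.sum_congr rfl
      intro j hj
      rw [hD' j (Finset.mem_range.1 hj), if_neg (hlt j (Finset.mem_range.1 hj))]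
    have hu2 : (pstep (thr cols) cols s).2 = uu cols s := by
      rw [pstep_eq]
      exact if_neg hany
    have hsum : Su cols s.2 < Su cols (pstep (thr cols) cols s).2 := by
      rw [hu2]
      unfold Su
      apply Finset.sum_lt_sum
      · intro j hj
        rw [uu_getD hc h (Finset.mem_range.1 hj)]
        split_ifs
        · exact Int.toNat_le_toNat (by omega)
        · exact le_rfl
      · refine ⟨k0, Finset.mem_range.2 hk0, ?_⟩
        rw [uu_getD hc h hk0, if_pos ⟨hk1, hk2⟩]
        have := h.nonneg k0
        omega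
    unfold VV
    rw [hphi]
    omega

theorem replicate_getD (N : ℕ) (a : ℤ) {k : ℕ} (hk : k < N) :
    (List.replicate N a).getD k 0 = a := by
  rw [List.getD_eq_getElem _ _ (by simpa using hk), List.getElem_replicate]

theorem dotL_zero (r : List ℤ) (N : ℕ) : dotL r (List.replicate N 0) = 0 := by
  unfold dotL
  induction r generalizing N with
  | nil => simp
  | cons a r ih =>
    cases N with
    | zero => simp
    | succ N =>
      rw [List.replicate_succ, List.zipWith_cons_cons, List.sum_cons, ih N]
      simp

theorem horner_zero (G : List (List ℤ)) (cs : List ℤ) :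
    horner G (List.replicate G.length 0) cs = List.replicate G.length 0 := by
  unfold horner
  induction cs with
  | nil => simp [vsmul]
  | cons c cs ih =>
    rw [List.foldr_cons, ih]
    have h1 : vsmul c (List.replicate G.length 0) = List.replicate G.length 0 := by
      simp [vsmul]
    have h2 : mulVec G (List.replicate G.length 0) = List.replicate G.length 0 := by
      unfold mulVec
      rw [List.eq_replicate_iff]
      refine ⟨by simp, ?_⟩
      intro b hb
      obtain ⟨r, _, rfl⟩ := List.mem_map.1 hb
      exact dotL_zero r _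
    rw [h1, h2]
    unfold vadd
    simp

theorem proj_zero (G : List (List ℤ)) :
    proj G (List.replicate G.length 0) = List.replicate G.length 0 := by
  unfold proj
  rw [horner_zero]
  simp [vsmul]

theorem pinit_inv : PInv cols (pinit cols) := by
  refine ⟨by simp [pinit], by simp [pinit], ?_, ?_, ?_, ?_, ?_, ?_⟩
  · intro k hk
    right
    exact ⟨expB cols, le_rfl, replicate_getD _ _ hk⟩
  · intro k
    by_cases hk : k < cols.length
    · rw [show (pinit cols).2 = List.replicate cols.length 0 from rfl, replicate_getD _ _ hk]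
    · rw [List.getD_eq_default _ _ (by simp [pinit]; omega)]
  · intro k hk
    rw [show (pinit cols).2 = List.replicate cols.length 0 from rfl, replicate_getD _ _ hk]
    unfold thr
    have : 0 < cols.length := by omega
    positivity
  · intro k hk _
    rw [show (pinit cols).2 = List.replicate cols.length 0 from rfl, replicate_getD _ _ hk]
  · intro x _ hx1 k hk
    rw [show (pinit cols).1 = List.replicate cols.length ((2 : ℤ) ^ expB cols) from rfl,
      replicate_getD _ _ hk]
    push_cast
    have h2 : (0 : ℝ) < 2 ^ expB cols := by positivity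
    nlinarith [hx1 k]
  · have hl : (gramL (scale (pinit cols).1 cols)).length = cols.length := by
      unfold gramL
      rw [List.length_map, scale_length (by simp [pinit])]
    have h1 : proj (gramL (scale (pinit cols).1 cols)) (pinit cols).2 =
        List.replicate cols.length 0 := by
      rw [show (pinit cols).2 = List.replicate cols.length 0 from rfl, ← hl]
      exact proj_zero _
    rw [h1]
    have h2 : ∀ k ∈ Finset.range cols.length,
        (List.replicate cols.length (0 : ℤ)).getD k 0 ^ 2 = 0 := by
      intro k hk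
      rw [replicate_getD _ _ (Finset.mem_range.1 hk)]; norm_num
    rw [Finset.sum_eq_zero h2]
    apply mul_nonneg (sq_nonneg _)
    apply Finset.sum_nonneg
    intro k hk
    rw [show (pinit cols).2 = List.replicate cols.length 0 from rfl,
      replicate_getD _ _ (Finset.mem_range.1 hk)]

theorem iter_inv (hc : ∀ c ∈ cols, c.length = m) (h : PInv cols s) (n : ℕ) :
    PInv cols ((pstep (thr cols) cols)^[n] s) := by
  induction n with
  | zero => exact h
  | succ n ih => rw [iterate_succ_apply']; exact pinv_step hc ih

theorem iter_done (hc : ∀ c ∈ cols, c.length = m) (n : ℕ) :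
    ∀ s, PInv cols s → VV cols s ≤ n → Done cols ((pstep (thr cols) cols)^[n] s) := by
  induction n with
  | zero =>
    intro s h hV
    by_contra hd
    have := V_dec hc h hd
    omega
  | succ n ih =>
    intro s h hV
    by_cases hd : Done cols s
    · rw [iterate_fixed (fixed hc h hd)]
      exact hd
    · rw [iterate_succ_apply]
      have := V_dec hc h hd
      exact ih _ (pinv_step hc h) (by omega)

theorem V_init : VV cols (pinit cols) ≤ stepsN cols := by
  unfold VV stepsN
  have h1 : Phi cols (pinit cols).1 ≤ cols.length * (expB cols + 1) := by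
    unfold Phi
    have h2 : ∀ k ∈ Finset.range cols.length,
        Nat.size ((pinit cols).1.getD k 0).toNat ≤ expB cols + 1 := by
      intro k hk
      rw [show (pinit cols).1 = List.replicate cols.length ((2 : ℤ) ^ expB cols) from rfl,
        replicate_getD _ _ (Finset.mem_range.1 hk)]
      have h2 : ((2 : ℤ) ^ expB cols).toNat = 2 ^ expB cols := by
        have : ((2 : ℤ) ^ expB cols) = ((2 ^ expB cols : ℕ) : ℤ) := by push_cast; rfl
        rw [this, Int.toNat_natCast]
      rw [h2, Nat.size_pow]
    have h3 := Finset.sum_le_card_nsmul _ _ _ h2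
    rwa [Finset.card_range, smul_eq_mul] at h3
  calc (4 * cols.length ^ 3 + 1) * Phi cols (pinit cols).1 +
        (4 * cols.length ^ 3 - Su cols (pinit cols).2)
      ≤ (4 * cols.length ^ 3 + 1) * (cols.length * (expB cols + 1)) + (4 * cols.length ^ 3 + 1) := by
        apply Nat.add_le_add (Nat.mul_le_mul_left _ h1)
        omega
    _ = (cols.length * (expB cols + 1) + 1) * (4 * cols.length ^ 3 + 1) := by ring

end

end PercB

open PercB in
theorem posMask_spec {m : ℕ} {cols : List (List ℤ)} (hc : ∀ c ∈ cols, c.length = m) :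
    (posMask cols).length = cols.length ∧
    ∀ k < cols.length, (posMask cols).getD k false = true ↔ ∃ x, Feasible cols x ∧ 0 < x k := by
  set s := (pstep (thr cols) cols)^[stepsN cols] (pinit cols) with hs
  have hinv : PInv cols s := iter_inv hc pinit_inv _
  have hdone : Done cols s := iter_done hc _ _ pinit_inv V_init
  have hmask : posMask cols = s.1.map fun d => decide (d ≠ 0) := rfl
  refine ⟨by rw [hmask, List.length_map, hinv.lenD], fun k hk => ?_⟩
  rw [hmask, getD_map' _ s.1 0 false (by rw [hinv.lenD]; exact hk), decide_eq_true_iff]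
  constructor
  · intro hDk
    refine ⟨fun j => ((s.1.getD j 0 * (zz cols s).getD j 0 : ℤ) : ℝ), ⟨?_, ?_⟩, ?_⟩
    · intro j
      by_cases hj : j < cols.length
      · have h1 : 0 ≤ s.1.getD j 0 := by
          rcases hinv.pow j hj with h1 | ⟨e, _, h1⟩
          · rw [h1]
          · rw [h1]; positivity
        by_cases h0 : s.1.getD j 0 = 0
        · simp only [h0]; simp
        · have := hdone j hj h0
          have h2 : 0 ≤ s.1.getD j 0 * (zz cols s).getD j 0 := mul_nonneg h1 this.le
          show (0 : ℝ) ≤ ((s.1.getD j 0 * (zz cols s).getD j 0 : ℤ) : ℝ)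
          exact_mod_cast h2
      · have h1 : s.1.getD j 0 = 0 := List.getD_eq_default _ _ (by rw [hinv.lenD]; omega)
        simp only [h1]; simp
    · intro i
      have h1 := ((proj_spec (scale s.1 cols) (scale_len hc s.1)).2 s.2
        (by rw [scale_length hinv.lenD, hinv.lenU])).2.1 i
      rw [scale_length hinv.lenD] at h1
      have h2 : ∑ j ∈ Finset.range cols.length,
          (s.1.getD j 0 * (zz cols s).getD j 0) * (cols.getD j []).getD i 0 = 0 := by
        refine Eq.trans ?_ h1
        apply Finset.sum_congr rfl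
        intro j hj
        rw [scale_getD hinv.lenD (Finset.mem_range.1 hj)]
        show _ = (zz cols s).getD j 0 * _
        ring
      have h3 := congrArg (fun x : ℤ => (x : ℝ)) h2
      push_cast at h3 ⊢
      exact h3
    · have h1 : 0 < s.1.getD k 0 := by
        rcases hinv.pow k hk with h1 | ⟨e, _, h1⟩
        · exact absurd h1 hDk
        · rw [h1]; positivity
      have h2 : 0 < s.1.getD k 0 * (zz cols s).getD k 0 := mul_pos h1 (hdone k hk hDk)
      show (0 : ℝ) < ((s.1.getD k 0 * (zz cols s).getD k 0 : ℤ) : ℝ)
      exact_mod_cast h2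
  · rintro ⟨x, hx, hxk⟩ hDk
    have hS : 0 ≤ ∑ j ∈ Finset.range cols.length, x j := Finset.sum_nonneg fun j _ => hx.1 j
    set M : ℝ := 1 + ∑ j ∈ Finset.range cols.length, x j with hM
    have hM0 : 0 < M := by linarith
    have hle : ∀ j < cols.length, x j ≤ M := fun j hj => by
      have := Finset.single_le_sum (fun i _ => hx.1 i) (Finset.mem_range.2 hj)
      linarith
    have hy : Feasible cols (fun j => if j < cols.length then x j / M else 0) := by
      refine ⟨fun j => ?_, fun i => ?_⟩
      · dsimp only
        split_ifs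
        · exact div_nonneg (hx.1 j) hM0.le
        · exact le_rfl
      · have h1 := hx.2 i
        have h2 : ∑ j ∈ Finset.range cols.length,
            (if j < cols.length then x j / M else 0) * (((cols.getD j []).getD i 0 : ℤ) : ℝ) =
            (∑ j ∈ Finset.range cols.length,
              x j * (((cols.getD j []).getD i 0 : ℤ) : ℝ)) / M := by
          rw [Finset.sum_div]
          apply Finset.sum_congr rfl
          intro j hj
          rw [if_pos (Finset.mem_range.1 hj)]
          ring
        rw [h2, h1, zero_div]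
    have hbox := hinv.box _ hy (fun j => by
      split_ifs with hj
      · rw [div_le_one hM0]; exact hle j hj
      · norm_num) k hk
    rw [hDk] at hbox
    simp only [if_pos hk] at hbox
    have h1 : 0 < x k / M * 2 ^ expB cols := by positivity
    push_cast at hbox
    linarith

end Pool.Agent.H24U
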