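import Pool.Agent.H24R2.U.Spec2
import Pool.Agent.H670R2.RatDec
import Pool.Agent.H687R2.PolyOn
import Pool.Agent.H671R2.PolyAuto
import Pool.Agent.NPC.Dec

set_option autoImplicit false

/-!
# The projection on the kernel is computable in polynomial time
-/

namespace Pool.Agent.H24U

open Pool.Agent.H670R2 Pool.Agent.H24R2 Matrix Function
open Pool.Agent.NPC hiding Poly

namespace PolyA

open Pool.Agent.NPC.H670R2

theorem l1_vadd_le (u v : List ℤ) : l1 (vadd u v) ≤ l1 u + l1 v := by
  induction u generalizing v with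
  | nil => simp [vadd, l1]
  | cons a u ih =>
    cases v with
    | nil => simp [vadd, l1]
    | cons b v =>
      have h := ih v
      have h1 : vadd (a :: u) (b :: v) = (a + b) :: vadd u v := rfl
      rw [h1, l1_cons, l1_cons, l1_cons]
      have := Int.natAbs_add_le a b
      omega

theorem l1_vsmul (c : ℤ) (u : List ℤ) : l1 (vsmul c u) = c.natAbs * l1 u := by
  induction u with
  | nil => simp [vsmul, l1]
  | cons a u ih =>
    have h1 : vsmul c (a :: u) = (c * a) :: vsmul c u := rfl
    rw [h1, l1_cons, l1_cons, ih, Int.natAbs_mul, mul_add]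

theorem l1_mulVec_le (G : List (List ℤ)) (u : List ℤ) : l1 (mulVec G u) ≤ l1M G * l1 u := by
  induction G with
  | nil => simp [mulVec, l1, l1M]
  | cons r G ih =>
    have h1 : mulVec (r :: G) u = dotL r u :: mulVec G u := rfl
    rw [h1, l1_cons, l1M_cons, add_mul]
    have := natAbs_dotL_le r u
    omega

theorem horner_cons (G : List (List ℤ)) (u cs : List ℤ) (c : ℤ) :
    horner G u (c :: cs) = vadd (vsmul c u) (mulVec G (horner G u cs)) := rfl

theorem length_horner (G : List (List ℤ)) (u cs : List ℤ) :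
    (horner G u cs).length ≤ u.length := by
  cases cs with
  | nil => simp [horner, vsmul]
  | cons c cs =>
    rw [horner_cons]
    simp [vadd, vsmul]

theorem l1_horner_le (G : List (List ℤ)) (u cs : List ℤ) :
    l1 (horner G u cs) ≤ l1 cs * l1 u * (1 + l1M G) ^ cs.length := by
  induction cs with
  | nil =>
    have : horner G u [] = vsmul 0 u := rfl
    rw [this, l1_vsmul]; simp
  | cons c cs ih =>
    rw [horner_cons, l1_cons, List.length_cons]
    refine (l1_vadd_le _ _).trans ?_
    rw [l1_vsmul, add_mul, add_mul]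
    refine Nat.add_le_add ?_ ((l1_mulVec_le _ _).trans ?_)
    · exact Nat.le_mul_of_pos_right _ (by positivity)
    · calc l1M G * l1 (horner G u cs) ≤ (1 + l1M G) * (l1 cs * l1 u * (1 + l1M G) ^ cs.length) :=
            Nat.mul_le_mul (by omega) ih
        _ = l1 cs * l1 u * (1 + l1M G) ^ (cs.length + 1) := by ring

theorem sz_horner_le (G : List (List ℤ)) (u cs : List ℤ) :
    sz (horner G u cs) ≤ sz u * (4 * (sz cs + sz u + sz G * sz cs) + 6) + 1 := by
  have h1 := l1_lt cs
  have h2 := l1_lt u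
  have h3 := l1M_lt G
  have h4 := length_lt_sz cs
  have h5 := length_lt_sz u
  have h6 : ∀ x ∈ horner G u cs, x.natAbs < 2 ^ (sz cs + sz u + sz G * sz cs) := by
    intro x hx
    refine lt_of_le_of_lt ((natAbs_le_l1 hx).trans (l1_horner_le G u cs)) ?_
    have h7 : (1 + l1M G) ^ cs.length ≤ 2 ^ (sz G * sz cs) := by
      calc (1 + l1M G) ^ cs.length ≤ (2 ^ sz G) ^ cs.length :=
            Nat.pow_le_pow_left (by omega) _
        _ = 2 ^ (sz G * cs.length) := by rw [← pow_mul]
        _ ≤ 2 ^ (sz G * sz cs) :=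
            Nat.pow_le_pow_right (by norm_num) (Nat.mul_le_mul_left _ h4.le)
    rw [pow_add, pow_add]
    refine Nat.mul_lt_mul_of_lt_of_le (Nat.mul_lt_mul'' h1 h2) h7 (by positivity)
  have h8 := sz_vec_le (b := u.length) (length_horner G u cs) h6
  have h9 : u.length * (4 * (sz cs + sz u + sz G * sz cs) + 6) ≤
      sz u * (4 * (sz cs + sz u + sz G * sz cs) + 6) := Nat.mul_le_mul_right _ h5.le
  omega

/-- one step of `trim` -/
def tst (acc : List ℤ) (c : ℤ) : List ℤ := if acc = [] ∧ c = 0 then acc else acc ++ [c]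

theorem sz_tst (cs acc : List ℤ) : sz (cs.foldl tst acc) + 1 ≤ sz acc + sz cs := by
  induction cs generalizing acc with
  | nil => simp
  | cons c cs ih =>
    rw [List.foldl_cons]
    refine (ih _).trans ?_
    rw [sz_list_cons]
    unfold tst
    split_ifs with h
    · omega
    · have := sz_append acc [c]
      rw [sz_list_cons, sz_list_nil] at this
      omega

end PolyA

open PolyA Pool.Agent.NPC.H670R2

section
variable {α : Type} [TEnc α]

theorem poly_vsmul {c : α → ℤ} {u : α → List ℤ} (hc : NPC.Poly c) (hu : NPC.Poly u) :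
    NPC.Poly (fun a => vsmul (c a) (u a)) := by
  unfold vsmul
  exact NPC.Poly.map (F := fun a x => c a * x) hu
    (NPC.Poly.imul (hc.comp (NPC.Poly.fst NPC.Poly.id)) (NPC.Poly.snd NPC.Poly.id))

theorem poly_vadd {u v : α → List ℤ} (hu : NPC.Poly u) (hv : NPC.Poly v) :
    NPC.Poly (fun a => vadd (u a) (v a)) := by
  unfold vadd
  exact NPC.Poly.zipWith (F := fun _ x y => x + y) hu hv
    (NPC.Poly.iadd (NPC.Poly.fst (NPC.Poly.snd NPC.Poly.id))
      (NPC.Poly.snd (NPC.Poly.snd NPC.Poly.id)))

theorem poly_mulVec {G : α → List (List ℤ)} {u : α → List ℤ} (hG : NPC.Poly G)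
    (hu : NPC.Poly u) : NPC.Poly (fun a => mulVec (G a) (u a)) := by
  unfold mulVec
  exact NPC.Poly.map (F := fun a r => dotL r (u a)) hG
    (poly_dotL (NPC.Poly.snd NPC.Poly.id) (hu.comp (NPC.Poly.fst NPC.Poly.id)))

theorem poly_coefs {G : α → List (List ℤ)} (hG : NPC.Poly G) :
    NPC.Poly (fun a => coefs (G a)) := by
  unfold coefs
  exact poly_newt (poly_psL.comp hG) hG

theorem poly_trim {cs : α → List ℤ} (hcs : NPC.Poly cs) : NPC.Poly (fun a => trim (cs a)) := by
  obtain ⟨q, hq⟩ := hcs.sz_le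
  have h : NPC.Poly (fun a => (cs a).foldl ((fun (_ : α) acc c => tst acc c) a) ([] : List ℤ)) := by
    refine NPC.Poly.foldl (s := fun _ => ([] : List ℤ)) (F := fun _ acc c => tst acc c) hcs
      (NPC.Poly.const _) ?_ q ?_
    · unfold tst
      exact NPC.Poly.ite (p := fun p : α × List ℤ × ℤ => p.2.1 = [] ∧ p.2.2 = 0)
        (NPC.Poly.decide_and (NPC.Poly.decide_eq (NPC.Poly.fst (NPC.Poly.snd NPC.Poly.id))
          (NPC.Poly.const _)) (NPC.Poly.decide_eq (NPC.Poly.snd (NPC.Poly.snd NPC.Poly.id))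
          (NPC.Poly.const _))) (NPC.Poly.fst (NPC.Poly.snd NPC.Poly.id))
        (NPC.Poly.append (NPC.Poly.fst (NPC.Poly.snd NPC.Poly.id))
          (NPC.Poly.cons (NPC.Poly.snd (NPC.Poly.snd NPC.Poly.id)) (NPC.Poly.const _)))
    · intro a k _
      have h1 := sz_tst ((cs a).take k) []
      have h2 := NPC.Poly.sz_take_le (cs a) k
      have h3 := hq a
      rw [sz_list_nil] at h1
      have h4 : sz (((cs a).take k).foldl ((fun (_ : α) acc c => tst acc c) a) ([] : List ℤ)) =
        sz (((cs a).take k).foldl tst []) := rfl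
      rw [h4]
      omega
  exact h

theorem poly_horner {G : α → List (List ℤ)} {u cs : α → List ℤ} (hG : NPC.Poly G)
    (hu : NPC.Poly u) (hcs : NPC.Poly cs) : NPC.Poly (fun a => horner (G a) (u a) (cs a)) := by
  obtain ⟨p, hp⟩ := hG.sz_le
  obtain ⟨q, hq⟩ := hu.sz_le
  obtain ⟨r, hr⟩ := hcs.sz_le
  have h : NPC.Poly (fun a => (cs a).foldr ((fun (a : α) c w =>
      vadd (vsmul c (u a)) (mulVec (G a) w)) a) (vsmul 0 (u a))) := by
    refine NPC.Poly.foldr (s := fun a => vsmul 0 (u a))
      (F := fun a c w => vadd (vsmul c (u a)) (mulVec (G a) w)) hcs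
      (poly_vsmul (NPC.Poly.const _) hu) ?_
      (q * (Polynomial.C 4 * (r + q + p * r) + Polynomial.C 6) + Polynomial.C 1) ?_
    · exact poly_vadd (poly_vsmul (NPC.Poly.fst (NPC.Poly.snd NPC.Poly.id))
        (hu.comp (NPC.Poly.fst NPC.Poly.id))) (poly_mulVec (hG.comp (NPC.Poly.fst NPC.Poly.id))
          (NPC.Poly.snd (NPC.Poly.snd NPC.Poly.id)))
    · intro a k _
      have h1 := sz_horner_le (G a) (u a) ((cs a).drop k)
      have h2 := NPC.Poly.sz_drop_le (cs a) k
      refine h1.trans ?_
      simp only [Polynomial.eval_add, Polynomial.eval_mul, Polynomial.eval_C]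
      have h3 := hp a
      have h4 := hq a
      have h5 := (h2.trans (hr a))
      gcongr
  exact h

theorem poly_pden {G : α → List (List ℤ)} (hG : NPC.Poly G) :
    NPC.Poly (fun a => pden (G a)) := by
  unfold pden
  refine (NPC.Poly.head?_getD (poly_trim (poly_coefs hG)) 1).congr fun a => ?_
  cases trim (coefs (G a)) <;> rfl

theorem poly_proj {G : α → List (List ℤ)} {u : α → List ℤ} (hG : NPC.Poly G) (hu : NPC.Poly u) :
    NPC.Poly (fun a => proj (G a) (u a)) := by
  unfold proj
  refine poly_vsmul (c := fun a => if pden (G a) < 0 then -1 else 1) ?_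
    (poly_horner hG hu (poly_trim (poly_coefs hG)))
  exact NPC.Poly.ite (p := fun a => pden (G a) < 0) (NPC.Poly.isNeg (poly_pden hG))
    (NPC.Poly.const _) (NPC.Poly.const _)

theorem poly_solveG {G : α → List (List ℤ)} {u : α → List ℤ} (hG : NPC.Poly G) (hu : NPC.Poly u) :
    NPC.Poly (fun a => solveG (G a) (u a)) := by
  unfold solveG
  refine NPC.Poly.pair ?_ (poly_vsmul (NPC.Poly.const _)
    (poly_horner hG hu (NPC.Poly.tail (poly_coefs hG))))
  refine (NPC.Poly.head?_getD (poly_coefs hG) 0).congr fun a => ?_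
  cases coefs (G a) <;> rfl

end

end Pool.Agent.H24U
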