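import Pool.Agent.H24R2.U.PolyA
import Pool.Agent.H24R2.U.Spec2
import Pool.Agent.H670R2.RatDec
import Pool.Agent.H687R2.PolyOn
import Pool.Agent.H671R2.PolyAuto
import Pool.Agent.NPC.Dec

set_option autoImplicit false

/-!
# The decision procedure `posMask` runs in polynomial time
-/

namespace Pool.Agent.H24U

open Pool.Agent.H670R2 Pool.Agent.H24R2 Matrix Function
open Pool.Agent.NPC hiding Poly

section
variable {α : Type} [TEnc α]


/-! ### Polynomial time of one step -/

theorem polyB_vsmul {c : α → ℤ} {u : α → List ℤ} (hc : NPC.Poly c) (hu : NPC.Poly u) :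
    NPC.Poly (fun a => vsmul (c a) (u a)) := by
  unfold vsmul
  exact NPC.Poly.map (F := fun a x => c a * x) hu
    (NPC.Poly.imul (hc.comp (NPC.Poly.fst NPC.Poly.id)) (NPC.Poly.snd NPC.Poly.id))

theorem polyB_scale {D : α → List ℤ} {cols : α → List (List ℤ)} (hD : NPC.Poly D)
    (hc : NPC.Poly cols) : NPC.Poly (fun a => scale (D a) (cols a)) := by
  unfold scale
  exact NPC.Poly.zipWith (F := fun _ d c => vsmul d c) hD hc
    (polyB_vsmul (NPC.Poly.fst (NPC.Poly.snd NPC.Poly.id)) (NPC.Poly.snd (NPC.Poly.snd NPC.Poly.id)))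

theorem polyB_pstep {τ : α → ℤ} {cols : α → List (List ℤ)} {s : α → List ℤ × List ℤ}
    (hτ : NPC.Poly τ) (hc : NPC.Poly cols) (hs : NPC.Poly s) :
    NPC.Poly (fun a => pstep (τ a) (cols a) (s a)) := by
  have hz : NPC.Poly (fun a => proj (gramL (scale (s a).1 (cols a))) (s a).2) :=
    poly_proj (NPC.H670R2.poly_gramL (polyB_scale (NPC.Poly.fst hs) hc)) (NPC.Poly.snd hs)
  have hu : NPC.Poly (fun a => List.zipWith
      (fun (x : ℤ) (b : ℤ × ℤ) => if b.1 ≠ 0 ∧ b.2 ≤ 0 then x + 1 else x)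
      (s a).2 (List.zip (s a).1 (proj (gramL (scale (s a).1 (cols a))) (s a).2))) := by
    refine NPC.Poly.zipWith
      (F := fun _ (x : ℤ) (b : ℤ × ℤ) => if b.1 ≠ 0 ∧ b.2 ≤ 0 then x + 1 else x)
      (NPC.Poly.snd hs) (NPC.Poly.zip (NPC.Poly.fst hs) hz) ?_
    refine NPC.Poly.ite (p := fun q : α × (ℤ × (ℤ × ℤ)) => q.2.2.1 ≠ 0 ∧ q.2.2.2 ≤ 0) ?_ ?_ ?_
    · have h1 : NPC.Poly (fun q : α × (ℤ × (ℤ × ℤ)) => !decide (q.2.2.1 = 0)) :=
        NPC.Poly.not (NPC.Poly.decide_eq
          (NPC.Poly.fst (NPC.Poly.snd (NPC.Poly.snd NPC.Poly.id))) (NPC.Poly.const _))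
      have h2 : NPC.Poly (fun q : α × (ℤ × (ℤ × ℤ)) => decide (q.2.2.2 ≤ 0)) :=
        NPC.Poly.ile (NPC.Poly.snd (NPC.Poly.snd (NPC.Poly.snd NPC.Poly.id))) (NPC.Poly.const _)
      exact (NPC.Poly.and h1 h2).congr fun q => by simp
    · exact NPC.Poly.iadd (NPC.Poly.fst (NPC.Poly.snd NPC.Poly.id)) (NPC.Poly.const _)
    · exact NPC.Poly.fst (NPC.Poly.snd NPC.Poly.id)
  unfold pstep
  refine NPC.Poly.pair ?_ ?_
  · refine NPC.Poly.zipWith (F := fun a (d x : ℤ) => if τ a ≤ x then d / 2 else d)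
      (NPC.Poly.fst hs) hu ?_
    refine NPC.Poly.ite (p := fun q : α × (ℤ × ℤ) => τ q.1 ≤ q.2.2)
      (NPC.Poly.ile (hτ.comp (NPC.Poly.fst NPC.Poly.id))
        (NPC.Poly.snd (NPC.Poly.snd NPC.Poly.id))) ?_ (NPC.Poly.fst (NPC.Poly.snd NPC.Poly.id))
    exact (NPC.Poly.idiv (NPC.Poly.fst (NPC.Poly.snd NPC.Poly.id)) (NPC.Poly.const 2)).congr
      fun q => by norm_num
  · refine NPC.Poly.ite (p := fun a => (List.zipWith
      (fun (x : ℤ) (b : ℤ × ℤ) => if b.1 ≠ 0 ∧ b.2 ≤ 0 then x + 1 else x)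
      (s a).2 (List.zip (s a).1 (proj (gramL (scale (s a).1 (cols a))) (s a).2))).any
        (fun x => decide (τ a ≤ x)) = true) ?_ (polyB_vsmul (NPC.Poly.const _) hu) hu
    have h1 := NPC.Poly.any (p := fun (a : α) (x : ℤ) => decide (τ a ≤ x)) hu
      (NPC.Poly.ile (hτ.comp (NPC.Poly.fst NPC.Poly.id)) (NPC.Poly.snd NPC.Poly.id))
    exact h1.congr fun a => by rw [Bool.decide_eq_true]

theorem polyB_thr {cols : α → List (List ℤ)} (hc : NPC.Poly cols) :
    NPC.Poly (fun a => thr (cols a)) := by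
  have h1 : NPC.Poly (fun a => (((cols a).length : ℕ) : ℤ)) :=
    NPC.Poly.natCast (NPC.Poly.length hc)
  exact (NPC.Poly.imul (NPC.Poly.const 4) (NPC.Poly.imul h1 h1)).congr fun a => by
    unfold thr; ring

theorem polyB_l1s {cols : α → List (List ℤ)} (hc : NPC.Poly cols) :
    NPC.Poly (fun a => l1s (cols a)) := by
  unfold l1s
  refine NPC.Poly.sum (NPC.Poly.map (F := fun _ (c : List ℤ) => (c.map Int.natAbs).sum) hc ?_)
  exact NPC.Poly.sum (NPC.Poly.map (F := fun _ (x : ℤ) => x.natAbs)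
    (NPC.Poly.snd NPC.Poly.id) (NPC.Poly.natAbs (NPC.Poly.snd NPC.Poly.id)))

theorem upoly_expB {cols : α → List (List ℤ)} (hc : NPC.Poly cols) :
    UPoly (fun a => expB (cols a)) := by
  unfold expB
  exact ((UPoly.const 2).mul (UPoly.length hc)).mul
    (UPoly.length (NPC.Poly.natBits (NPC.Poly.add (NPC.Poly.const 1) (polyB_l1s hc))))

theorem upoly_stepsN {cols : α → List (List ℤ)} (hc : NPC.Poly cols) :
    UPoly (fun a => stepsN (cols a)) := by
  have hl : UPoly (fun a => (cols a).length) := UPoly.length hc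
  have h3 : UPoly (fun a => (cols a).length ^ 3) := by
    refine ((hl.mul hl).mul hl : NPC.Poly _).congr fun a => ?_
    congr 1
    ring
  unfold stepsN
  exact ((hl.mul ((upoly_expB hc).add (UPoly.const 1))).add (UPoly.const 1)).mul
    (((UPoly.const 4).mul h3).add (UPoly.const 1))

theorem poly_replicate_len {β : Type} [TEnc β] {γ : Type} [TEnc γ] {l : α → List β} {x : α → γ}
    (hl : NPC.Poly l) (hx : NPC.Poly x) :
    NPC.Poly (fun a => List.replicate (l a).length (x a)) :=
  (NPC.Poly.map (F := fun a _ => x a) hl (hx.comp (NPC.Poly.fst NPC.Poly.id))).congr fun a => by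
    simp [List.map_const']

theorem polyB_pinit {cols : α → List (List ℤ)} (hc : NPC.Poly cols) :
    NPC.Poly (fun a => pinit (cols a)) := by
  unfold pinit
  exact NPC.Poly.pair (poly_replicate_len hc (NPC.Poly.ipow (NPC.Poly.const 2) (upoly_expB hc)))
    (poly_replicate_len hc (NPC.Poly.const 0))

/-! ### The sizes -/

theorem pstep_bound (cols : List (List ℤ)) (k : ℕ) :
    ((pstep (thr cols) cols)^[k] (pinit cols)).1.length ≤ cols.length ∧
    ((pstep (thr cols) cols)^[k] (pinit cols)).2.length ≤ cols.length ∧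
    (∀ d ∈ ((pstep (thr cols) cols)^[k] (pinit cols)).1, d.natAbs ≤ 2 ^ expB cols) ∧
    ∀ x ∈ ((pstep (thr cols) cols)^[k] (pinit cols)).2, x.natAbs ≤ k := by
  induction k with
  | zero =>
    refine ⟨by simp [pinit], by simp [pinit], ?_, ?_⟩
    · intro d hd
      simp only [iterate_zero, id_eq, pinit, List.mem_replicate] at hd
      rw [hd.2, Int.natAbs_pow]
      exact le_rfl
    · intro x hx
      simp only [iterate_zero, id_eq, pinit, List.mem_replicate] at hx
      rw [hx.2]
      exact le_rfl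
  | succ k ih =>
    rw [iterate_succ_apply']
    generalize (pstep (thr cols) cols)^[k] (pinit cols) = s at ih
    obtain ⟨h1, h2, h3, h4⟩ := ih
    have hu : ∀ x ∈ List.zipWith
        (fun (x : ℤ) (b : ℤ × ℤ) => if b.1 ≠ 0 ∧ b.2 ≤ 0 then x + 1 else x)
        s.2 (List.zip s.1 (proj (gramL (scale s.1 cols)) s.2)), x.natAbs ≤ k + 1 := by
      intro x hx
      obtain ⟨i, hi, rfl⟩ := List.mem_iff_getElem.1 hx
      rw [List.getElem_zipWith]
      rw [List.length_zipWith] at hi
      have h5 := h4 (s.2[i]'(by omega)) (List.getElem_mem _)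
      split_ifs
      · refine (Int.natAbs_add_le _ _).trans ?_
        simp only [Int.natAbs_one]
        omega
      · omega
    refine ⟨?_, ?_, ?_, ?_⟩
    · simp only [pstep, List.length_zipWith]
      omega
    · have h6 : (if (List.zipWith
          (fun (x : ℤ) (b : ℤ × ℤ) => if b.1 ≠ 0 ∧ b.2 ≤ 0 then x + 1 else x)
          s.2 (List.zip s.1 (proj (gramL (scale s.1 cols)) s.2))).any
            (fun x => decide (thr cols ≤ x)) = true then vsmul 0 (List.zipWith
          (fun (x : ℤ) (b : ℤ × ℤ) => if b.1 ≠ 0 ∧ b.2 ≤ 0 then x + 1 else x)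
          s.2 (List.zip s.1 (proj (gramL (scale s.1 cols)) s.2))) else List.zipWith
          (fun (x : ℤ) (b : ℤ × ℤ) => if b.1 ≠ 0 ∧ b.2 ≤ 0 then x + 1 else x)
          s.2 (List.zip s.1 (proj (gramL (scale s.1 cols)) s.2))).length ≤ cols.length := by
        split_ifs
        · simp only [vsmul, List.length_map, List.length_zipWith]
          omega
        · simp only [List.length_zipWith]
          omega
      exact h6
    · intro d hd
      simp only [pstep] at hd
      obtain ⟨i, hi, rfl⟩ := List.mem_iff_getElem.1 hd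
      rw [List.getElem_zipWith]
      rw [List.length_zipWith] at hi
      have h5 := h3 (s.1[i]'(by omega)) (List.getElem_mem _)
      split_ifs
      · exact (Int.natAbs_ediv_le_natAbs _ _).trans h5
      · exact h5
    · intro x hx
      simp only [pstep] at hx
      split_ifs at hx
      · simp only [vsmul, zero_mul, List.mem_map] at hx
        obtain ⟨_, _, rfl⟩ := hx
        simp
      · exact hu x hx

/-! ### Task POLYB -/

theorem poly_posMask {f : α → List (List ℤ)} (hf : NPC.Poly f) :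
    NPC.Poly (fun a => posMask (f a)) := by
  obtain ⟨q, hq⟩ := hf.sz_le
  have hE := upoly_expB hf
  obtain ⟨e, he⟩ := NPC.Poly.sz_le hE
  have hS := upoly_stepsN hf
  obtain ⟨r, hr⟩ := NPC.Poly.sz_le hS
  have key : NPC.Poly (fun a => (pstep (thr (f a)) (f a))^[(List.replicate (stepsN (f a)) ()).length]
      (pinit (f a))) := by
    refine NPC.Poly.iterLen (l := fun a => List.replicate (stepsN (f a)) ())
      (s := fun a => pinit (f a)) (F := fun a s => pstep (thr (f a)) (f a) s) hS
      (polyB_pinit hf)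
      (polyB_pstep (polyB_thr (hf.comp (NPC.Poly.fst NPC.Poly.id)))
        (hf.comp (NPC.Poly.fst NPC.Poly.id)) (NPC.Poly.snd NPC.Poly.id))
      ((q * (Polynomial.C 4 * (e + Polynomial.C 1) + Polynomial.C 6) + Polynomial.C 1) +
        (q * (Polynomial.C 4 * r + Polynomial.C 6) + Polynomial.C 1) + Polynomial.C 1) ?_
    intro a k hk
    rw [List.length_replicate] at hk
    obtain ⟨h1, h2, h3, h4⟩ := pstep_bound (f a) k
    have h5 : (f a).length ≤ q.eval (sz a) := (length_lt_sz (f a)).le.trans (hq a)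
    have h6 : expB (f a) ≤ e.eval (sz a) := by
      have := (length_lt_sz (List.replicate (expB (f a)) ())).le.trans (he a)
      rwa [List.length_replicate] at this
    have h7 : k ≤ r.eval (sz a) := by
      have := (length_lt_sz (List.replicate (stepsN (f a)) ())).le.trans (hr a)
      rw [List.length_replicate] at this
      omega
    have h8 := NPC.H670R2.sz_vec_le (b := q.eval (sz a)) (e := e.eval (sz a) + 1) (h1.trans h5)
      (fun x hx => lt_of_le_of_lt (h3 x hx) (Nat.pow_lt_pow_right (by norm_num) (by omega)))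
    have h9 := NPC.H670R2.sz_vec_le (b := q.eval (sz a)) (e := r.eval (sz a)) (h2.trans h5)
      (fun x hx => lt_of_le_of_lt ((h4 x hx).trans h7) Nat.lt_two_pow_self)
    rw [show (pstep (thr (f a)) (f a))^[k] (pinit (f a)) =
      (((pstep (thr (f a)) (f a))^[k] (pinit (f a))).1,
        ((pstep (thr (f a)) (f a))^[k] (pinit (f a))).2) from rfl, sz_pair]
    simp only [Polynomial.eval_add, Polynomial.eval_mul, Polynomial.eval_C]
    omega
  unfold posMask
  refine NPC.Poly.map (F := fun _ (d : ℤ) => decide (d ≠ 0)) (NPC.Poly.fst (key.congr fun a => by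
    rw [List.length_replicate])) ?_
  have h2 : NPC.Poly (fun q : α × ℤ => !decide (q.2 = 0)) :=
    NPC.Poly.not (NPC.Poly.decide_eq (NPC.Poly.snd NPC.Poly.id) (NPC.Poly.const _))
  exact h2.congr fun q => by simp

end

end Pool.Agent.H24U
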