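import Pool.Agent.H24R2.U.Defs
import Pool.Agent.H24R2.RealLP

set_option autoImplicit false

/-!
# Specifications used between the modules
-/

namespace Pool.Agent.H24U

open Pool.Agent.H670R2 Pool.Agent.H24R2

/-- Solutions of `∑ x_j cols_j = 0`, `x ≥ 0`. -/
def Feasible (cols : List (List ℤ)) (x : ℕ → ℝ) : Prop :=
  (∀ j, 0 ≤ x j) ∧
    ∀ i, ∑ j ∈ Finset.range cols.length, x j * (((cols.getD j []).getD i 0 : ℤ) : ℝ) = 0

/-- `a_r · x` -/
noncomputable def ev (P : LPd) (r : ℕ) (x : ℕ → ℝ) : ℝ :=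
  ∑ i ∈ Finset.range P.2.length, (((rowA P r).getD i 0 : ℤ) : ℝ) * x i

/-- `c · x` -/
noncomputable def cx (P : LPd) (x : ℕ → ℝ) : ℝ :=
  ∑ i ∈ Finset.range P.2.length, ((P.2.getD i 0 : ℤ) : ℝ) * x i

/-- all rows have the right length -/
def WF (P : LPd) : Prop := ∀ r < P.1.length, (rowA P r).length = P.2.length

/-- the rows as real vectors (zero for `r` out of range) -/
noncomputable def aR (P : LPd) : ℕ → Fin P.2.length → ℝ := fun r i => (((rowA P r).getD i 0 : ℤ) : ℝ)

noncomputable def bR (P : LPd) : ℕ → ℝ := fun r => ((rowB P r : ℤ) : ℝ)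

noncomputable def cR (P : LPd) : Fin P.2.length → ℝ := fun i => ((P.2.getD i 0 : ℤ) : ℝ)

/-- a list as a basis -/
def bv (P : LPd) (v : List ℕ) : Fin P.2.length → ℕ := fun i => v.getD i 0

/-- `n` different constraints -/
def Sel (P : LPd) (v : List ℕ) : Prop :=
  v.length = P.2.length ∧ v.Nodup ∧ ∀ x ∈ v, x < P.1.length

/-- nondegeneracy -/
def ND (P : LPd) : Prop := ∀ v : List ℕ, Sel P v → dt (aR P) (bv P v) ≠ 0 →
  ∀ r < P.1.length, r ∉ v → sk (aR P) (bR P) (bv P v) r ≠ 0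

/-- feasible bases -/
def Ok (P : LPd) (v : List ℕ) : Prop := Sel P v ∧ feas P v = true

/-- the value of a basis -/
noncomputable def val (P : LPd) (v : List ℕ) : ℝ := ∑ i, cR P i * bpt (aR P) (bR P) (bv P v) i

/-- faces and constraints -/
def FG (R : ℕ) (F G : List ℕ) : Prop := (F ++ G).Nodup ∧ ∀ r ∈ F ++ G, r < R

/-- What the analysis of the machine needs: `n` = dimension, `R` = number of constraints. -/
structure Sem (n R : ℕ) (o : Orc) (f : List ℕ → ℝ) (ok : List ℕ → Prop) : Prop where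
  len : ∀ v, ok v → v.length = n ∧ v.Nodup ∧ ∀ x ∈ v, x < R
  im_mem : ∀ v j, ok v → o.im v j = true → j ∈ v
  en_ok : ∀ v j r, ok v → j ∈ v → o.im v j = true → o.en v j = some r →
    ok (repl v j r) ∧ r ∉ v ∧ r < R ∧ f v < f (repl v j r)
  gt_irrefl : ∀ F G k, FG R F G → k ∈ G → o.gt F G k k = false
  gt_trans : ∀ F G k j i, FG R F G → k ∈ G → j ∈ G → i ∈ G → o.gt F G k j = true →
    o.gt F G j i = true → o.gt F G k i = true
  gt_top : ∀ F G v w j k, FG R F G → ok v → ok w → (∀ x ∈ F, x ∈ v) → j ∈ v → j ∈ G →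
    (∀ x ∈ v, x ∈ F ∨ x ∈ G) → (∀ x ∈ v, x ≠ j → x ∉ F → o.im v x = false) →
    (∀ x ∈ F, x ∈ w) → k ∈ w → k ∈ G → f v < f w → o.gt F G k j = true

/-- The machine has stopped at an optimal basis or at an unbounded improving edge. -/
def Final (o : Orc) (c : Cfg) : Prop :=
  (c.2.2 = (3, 0) ∧ ∀ j ∈ c.1, o.im c.1 j = false) ∨
    (c.2.2 = (3, 1) ∧ ∃ j ∈ c.1, o.im c.1 j = true ∧ o.en c.1 j = none)

/-- One change of the basis. -/
def Pivot (o : Orc) (v w : List ℕ) : Prop :=
  ∃ j r, j ∈ v ∧ o.im v j = true ∧ o.en v j = some r ∧ w = repl v j r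

/-! ### The perturbed linear program -/

/-- the sum of all absolute values of the rows and right-hand sides, plus one -/
def bigS (P : LPd) : ℕ := 1 + (P.1.map fun q => (q.1.map Int.natAbs).sum + q.2.natAbs).sum

/-- the exponent of the perturbation -/
def qexp (P : LPd) : ℕ := (P.2.length + 1) * (bigS P).bits.length + 2

def pertQ (P : LPd) : ℤ := 2 ^ qexp P

/-- perturbation of all right-hand sides outside the initial basis, scaled by `Q^R` -/
def pert (P : LPd) (v0 : List ℕ) : LPd :=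
  ((List.range P.1.length).map fun r => (rowA P r, pertQ P ^ P.1.length * rowB P r +
    (if r ∈ v0 then 0 else pertQ P ^ (P.1.length - 1 - r))), P.2)

end Pool.Agent.H24U
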