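import Pool.Agent.H24R2.U.PolyB
import Pool.Agent.H24R2.U.Spec
import Pool.Agent.H671R2.PolyAuto

set_option autoImplicit false

/-!
# One step of the machine, basic solutions and the perturbation are polynomial-time computable
-/

namespace Pool.Agent.H24U

open Pool.Agent.H670R2 Pool.Agent.NPC.H670R2
open Pool.Agent.NPC hiding Poly

section
variable {α β : Type} [TEnc α] [TEnc β]

attribute [local fun_prop] NPC.Poly.iadd NPC.Poly.isub NPC.Poly.imul NPC.Poly.ineg NPC.Poly.ilt
  NPC.Poly.ile NPC.Poly.natAbs NPC.Poly.isum NPC.Poly.range_length poly_dotL poly_gramL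
  poly_solveG poly_posMask poly_vsmul

@[local fun_prop]
theorem poly_rowA {P : α → LPd} {r : α → ℕ} (hP : NPC.Poly P) (hr : NPC.Poly r) :
    NPC.Poly (fun a => rowA (P a) (r a)) := by
  unfold rowA
  fun_prop

@[local fun_prop]
theorem poly_rowB {P : α → LPd} {r : α → ℕ} (hP : NPC.Poly P) (hr : NPC.Poly r) :
    NPC.Poly (fun a => rowB (P a) (r a)) := by
  unfold rowB
  fun_prop

@[local fun_prop]
theorem poly_zeros {l : α → List β} (hl : NPC.Poly l) :
    NPC.Poly (fun a => zeros (l a).length) :=
  (NPC.Poly.map (F := fun _ _ => (0 : ℤ)) hl (NPC.Poly.const 0)).congr fun a => by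
    simp [zeros, List.map_const']

@[local fun_prop]
theorem poly_gtCols {P : α → LPd} {F G : α → List ℕ} {k j : α → ℕ} (hP : NPC.Poly P)
    (hF : NPC.Poly F) (hG : NPC.Poly G) (hk : NPC.Poly k) (hj : NPC.Poly j) :
    NPC.Poly (fun a => gtCols (P a) (F a) (G a) (k a) (j a)) := by
  have e : ∀ l : List (List ℤ), l.map (vsmul (-1)) = l.map (fun u => vsmul (-1) u) := fun l => rfl
  simp only [gtCols, e]
  fun_prop

@[local fun_prop]
theorem poly_gtQ {P : α → LPd} {F G : α → List ℕ} {k j : α → ℕ} (hP : NPC.Poly P)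
    (hF : NPC.Poly F) (hG : NPC.Poly G) (hk : NPC.Poly k) (hj : NPC.Poly j) :
    NPC.Poly (fun a => gtQ (P a) (F a) (G a) (k a) (j a)) := by
  unfold gtQ
  fun_prop

@[local fun_prop]
theorem poly_bas {P : α → LPd} {v : α → List ℕ} (hP : NPC.Poly P) (hv : NPC.Poly v) :
    NPC.Poly (fun a => bas (P a) (v a)) := by
  have e : ∀ (P : LPd) (v : List ℕ), bas P v = v.map (fun r => rowA P r) := fun _ _ => rfl
  simp only [e]
  fun_prop

theorem poly_tmul {l : α → List β} {L : α → List (List ℤ)} {y : α → List ℤ} (hl : NPC.Poly l)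
    (hL : NPC.Poly L) (hy : NPC.Poly y) :
    NPC.Poly (fun a => tmul (l a).length (L a) (y a)) := by
  unfold tmul
  fun_prop

@[local fun_prop]
theorem poly_basic {P : α → LPd} {v : α → List ℕ} (hP : NPC.Poly P) (hv : NPC.Poly v) :
    NPC.Poly (fun a => basic (P a) (v a)) := by
  have e : ∀ (P : LPd) (v : List ℕ), v.map (rowB P) = v.map (fun r => rowB P r) := fun _ _ => rfl
  simp only [basic, e]
  have h : NPC.Poly (fun a => solveG (gramL (bas (P a) (v a))) ((v a).map fun r => rowB (P a) r)) := by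
    fun_prop
  exact NPC.Poly.pair (NPC.Poly.fst h)
    (poly_tmul (NPC.Poly.snd hP) (poly_bas hP hv) (NPC.Poly.snd h))

@[local fun_prop]
theorem poly_mults {P : α → LPd} {v : α → List ℕ} (hP : NPC.Poly P) (hv : NPC.Poly v) :
    NPC.Poly (fun a => mults (P a) (v a)) := by
  unfold mults
  fun_prop

attribute [local irreducible] basic mults

@[local fun_prop]
theorem poly_dne [DecidableEq β] {f g : α → β} (hf : NPC.Poly f) (hg : NPC.Poly g) :
    NPC.Poly (fun a => decide (f a ≠ g a)) := NPC.Poly.decide_not (NPC.Poly.decide_eq hf hg)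

@[local fun_prop]
theorem poly_feas {P : α → LPd} {v : α → List ℕ} (hP : NPC.Poly P) (hv : NPC.Poly v) :
    NPC.Poly (fun a => feas (P a) (v a)) := by
  unfold feas
  fun_prop

@[local fun_prop]
theorem poly_impr {P : α → LPd} {v : α → List ℕ} {j : α → ℕ} (hP : NPC.Poly P) (hv : NPC.Poly v)
    (hj : NPC.Poly j) : NPC.Poly (fun a => impr (P a) (v a) (j a)) := by
  unfold impr
  fun_prop

@[local fun_prop]
theorem poly_repl {v : α → List ℕ} {j r : α → ℕ} (hv : NPC.Poly v)
    (hj : NPC.Poly j) (hr : NPC.Poly r) : NPC.Poly (fun a => repl (v a) (j a) (r a)) := by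
  unfold repl
  fun_prop

@[local fun_prop]
theorem poly_enter {P : α → LPd} {v : α → List ℕ} {j : α → ℕ} (hP : NPC.Poly P) (hv : NPC.Poly v)
    (hj : NPC.Poly j) : NPC.Poly (fun a => enter (P a) (v a) (j a)) := by
  unfold enter
  fun_prop

@[local fun_prop]
theorem poly_cnt {P : α → LPd} {F G : α → List ℕ} {j : α → ℕ} (hP : NPC.Poly P)
    (hF : NPC.Poly F) (hG : NPC.Poly G) (hj : NPC.Poly j) :
    NPC.Poly (fun a => cnt (orc (P a)) (F a) (G a) (j a)) := by
  simp only [cnt, orc]
  fun_prop

@[local fun_prop]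
theorem poly_headD {l : α → List β} {d : β} (hl : NPC.Poly l) :
    NPC.Poly (fun a => (l a).headD d) :=
  (NPC.Poly.head?_getD hl d).congr fun a => by cases l a <;> rfl

omit [TEnc β] in
theorem erase_key [DecidableEq β] (l : List β) (x : β) (acc : List β) (b : Bool) :
    (l.foldl (fun (s : List β × Bool) y => if s.2 = false ∧ y = x then (s.1, true)
      else (s.1 ++ [y], s.2)) (acc, b)).1 = acc ++ (if b = true then l else l.erase x) := by
  induction l generalizing acc b with
  | nil => cases b <;> simp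
  | cons y l ih =>
      rw [List.foldl_cons]
      cases b with
      | true => simp [ih]
      | false =>
          by_cases h : y = x
          · subst h; simp [ih]
          · simp [ih, h]

theorem erase_sz [DecidableEq β] (l : List β) (x : β) (acc : List β) (b : Bool) :
    sz (l.foldl (fun (s : List β × Bool) y => if s.2 = false ∧ y = x then (s.1, true)
      else (s.1 ++ [y], s.2)) (acc, b)) ≤ sz acc + sz l + 4 := by
  induction l generalizing acc b with
  | nil =>
      have := sz_bool_le b
      simp only [List.foldl_nil, sz_pair, sz_list_nil]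
      omega
  | cons y l ih =>
      rw [List.foldl_cons, sz_list_cons]
      split_ifs
      · have := ih acc true
        dsimp only
        omega
      · have h1 := ih (acc ++ [y]) b
        have h2 := sz_append acc [y]
        rw [sz_list_cons, sz_list_nil] at h2
        dsimp only
        omega

@[local fun_prop]
theorem poly_erase [DecidableEq β] {l : α → List β} {x : α → β} (hl : NPC.Poly l)
    (hx : NPC.Poly x) : NPC.Poly (fun a => (l a).erase (x a)) := by
  obtain ⟨r, hr⟩ := hl.sz_le
  have h := NPC.Poly.foldl (l := l) (s := fun _ => (([] : List β), false))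
    (F := fun a (s : List β × Bool) y => if s.2 = false ∧ y = x a then (s.1, true)
      else (s.1 ++ [y], s.2)) hl (NPC.Poly.const _) ?_ (r + Polynomial.C 5) ?_
  · refine (NPC.Poly.fst h).congr fun a => ?_
    rw [erase_key]
    simp
  · fun_prop
  · intro a k _
    refine (erase_sz _ _ _ _).trans ?_
    have h1 := NPC.Poly.sz_take_le (l a) k
    have h2 := hr a
    rw [sz_list_nil]
    simp only [Polynomial.eval_add, Polynomial.eval_C]
    omega

@[local fun_prop]
theorem poly_callStep {P : α → LPd} {v F G : α → List ℕ} {rest : α → List Frame}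
    (hP : NPC.Poly P) (hv : NPC.Poly v) (hF : NPC.Poly F) (hG : NPC.Poly G)
    (hr : NPC.Poly rest) :
    NPC.Poly (fun a => callStep (orc (P a)) (v a) (F a) (G a) (rest a)) := by
  have e : ∀ P : LPd, (orc P).im = impr P := fun _ => rfl
  simp only [callStep, e]
  fun_prop

@[local fun_prop]
theorem poly_retStep {P : α → LPd} {v F G : α → List ℕ} {st : α → ℕ × ℕ} {rest : α → List Frame}
    (hP : NPC.Poly P) (hv : NPC.Poly v) (hF : NPC.Poly F) (hG : NPC.Poly G)
    (hst : NPC.Poly st) (hr : NPC.Poly rest) :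
    NPC.Poly (fun a => retStep (orc (P a)) (v a) (F a) (G a) (st a) (rest a)) := by
  have e : ∀ P : LPd, (orc P).im = impr P := fun _ => rfl
  have e' : ∀ P : LPd, (orc P).en = enter P := fun _ => rfl
  simp only [retStep, e, e']
  fun_prop

@[local fun_prop]
theorem poly_enterStep {P : α → LPd} {v F G : α → List ℕ} {st : α → ℕ × ℕ}
    {rest : α → List Frame} {r : α → ℕ}
    (hP : NPC.Poly P) (hv : NPC.Poly v) (hF : NPC.Poly F) (hG : NPC.Poly G)
    (hst : NPC.Poly st) (hr : NPC.Poly rest) (hr' : NPC.Poly r) :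
    NPC.Poly (fun a => enterStep (orc (P a)) (v a) (F a) (G a) (st a) (rest a) (r a)) := by
  have e : ∀ P : LPd, (orc P).gt = gtQ P := fun _ => rfl
  simp only [enterStep, e]
  fun_prop

theorem poly_step {P : α → LPd} {c : α → Cfg} (hP : NPC.Poly P) (hc : NPC.Poly c) :
    NPC.Poly (fun a => step (orc (P a)) (c a)) := by
  unfold step
  fun_prop

theorem poly_bits_length {n : α → ℕ} (hn : NPC.Poly n) : UPoly (fun a => (n a).bits.length) :=
  UPoly.length hn.natBits

@[local fun_prop]
theorem poly_bigS {P : α → LPd} (hP : NPC.Poly P) : NPC.Poly (fun a => bigS (P a)) := by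
  unfold bigS
  fun_prop

theorem upoly_qexp {P : α → LPd} (hP : NPC.Poly P) : UPoly (fun a => qexp (P a)) := by
  unfold qexp
  exact UPoly.add (UPoly.mul (UPoly.add (UPoly.length (NPC.Poly.snd hP)) (UPoly.const 1))
    (poly_bits_length (poly_bigS hP))) (UPoly.const 2)

@[local fun_prop]
theorem poly_pertQ {P : α → LPd} (hP : NPC.Poly P) : NPC.Poly (fun a => pertQ (P a)) := by
  unfold pertQ
  exact NPC.Poly.ipow (NPC.Poly.const 2) (upoly_qexp hP)

theorem poly_pert {P : α → LPd} {v : α → List ℕ} (hP : NPC.Poly P) (hv : NPC.Poly v) :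
    NPC.Poly (fun a => pert (P a) (v a)) := by
  have h1 : NPC.Poly (fun a => pertQ (P a) ^ (P a).1.length) :=
    NPC.Poly.ipow (poly_pertQ hP) (UPoly.length (NPC.Poly.fst hP))
  have h2 : NPC.Poly (fun p : α × ℕ => pertQ (P p.1) ^ ((P p.1).1.length - 1 - p.2)) :=
    NPC.Poly.ipow (poly_pertQ (hP.comp (NPC.Poly.fst NPC.Poly.id)))
      (UPoly.of_le (by fun_prop) (UPoly.length (NPC.Poly.fst (hP.comp (NPC.Poly.fst NPC.Poly.id))))
        fun p => by omega)
  unfold pert
  refine NPC.Poly.pair (NPC.Poly.map (l := fun a => List.range (P a).1.length)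
    (F := fun a r => (rowA (P a) r, pertQ (P a) ^ (P a).1.length * rowB (P a) r +
      (if r ∈ v a then 0 else pertQ (P a) ^ ((P a).1.length - 1 - r)))) (by fun_prop) ?_)
    (NPC.Poly.snd hP)
  refine NPC.Poly.pair (by fun_prop) (NPC.Poly.iadd (NPC.Poly.imul
    (h1.comp (NPC.Poly.fst NPC.Poly.id)) (by fun_prop)) ?_)
  exact NPC.Poly.ite (p := fun p : α × ℕ => p.2 ∈ v p.1) (by fun_prop) (NPC.Poly.const 0) h2

end

end Pool.Agent.H24U
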