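import Pool.Agent.H24R2.U.PolyC
import Pool.Agent.H24R2.U.Spec2
import Pool.Agent.H670R2.RatDec
import Pool.Agent.H687R2.PolyOn
import Pool.Agent.NPC.Dec

set_option autoImplicit false

/-!
# Task POLYD: the output function is computable in polynomial time
-/

namespace Pool.Agent.H24U

open Pool.Agent.H670R2 Pool.Agent.H24R2 Function
open Pool.Agent.NPC hiding Poly


section pd
variable {α : Type} [TEnc α]

/-! ### rational numbers -/

theorem pd_sign {y : α → ℤ} (hy : NPC.Poly y) : NPC.Poly (fun a => (y a).sign) := by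
  refine (NPC.Poly.ite (p := fun a => y a = 0) (NPC.Poly.decide_eq hy (NPC.Poly.const 0))
    (NPC.Poly.const (0 : ℤ)) (NPC.Poly.ite (p := fun a => y a < 0) (NPC.Poly.isNeg hy)
      (NPC.Poly.const (-1 : ℤ)) (NPC.Poly.const (1 : ℤ)))).congr fun a => ?_
  rcases lt_trichotomy (y a) 0 with h | h | h
  · rw [Int.sign_eq_neg_one_of_neg h]
    simp [h, h.ne]
  · simp [h]
  · rw [Int.sign_eq_one_of_pos h]
    simp [h.ne', h.le.not_gt]

theorem pd_ratDiv {x y : α → ℤ} (hx : NPC.Poly x) (hy : NPC.Poly y) :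
    NPC.Poly (fun a => ((x a : ℚ) / (y a : ℚ))) := by
  have hg : NPC.Poly (fun a => (y a).gcd (x a)) :=
    NPC.H670R2.poly_gcd (NPC.Poly.natAbs hy) (NPC.Poly.natAbs hx)
  have h1 : NPC.Poly (fun a => (y a).sign * x a / (((y a).gcd (x a) : ℕ) : ℤ)) :=
    NPC.Poly.idiv (NPC.Poly.imul (pd_sign hy) hx) hg
  have h2 : NPC.Poly (fun a => if y a = 0 then 1 else (y a).natAbs / (y a).gcd (x a)) :=
    NPC.Poly.ite (p := fun a => y a = 0) (NPC.Poly.decide_eq hy (NPC.Poly.const 0))
      (NPC.Poly.const 1) (NPC.Poly.div (NPC.Poly.natAbs hy) hg)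
  have h3 : NPC.Poly (fun a => ((((x a : ℚ) / (y a : ℚ)).num, ((x a : ℚ) / (y a : ℚ)).den) :
      ℤ × ℕ)) := by
    refine (NPC.Poly.pair h1 h2).congr fun a => ?_
    rw [← Rat.divInt_eq_div, Rat.num_divInt, Rat.den_divInt]
  exact h3

theorem pd_ratPt_eq (P : LPd) (v : List ℕ) : ratPt P v =
    (basic P v).2.map fun (x : ℤ) => (x : ℚ) / (((basic P v).1 : ℤ) : ℚ) := by
  unfold ratPt
  generalize (basic P v).2 = l
  generalize (basic P v).1 = d
  induction l with
  | nil => rfl
  | cons x l ih => simp_all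

theorem pd_ratPt {P : α → LPd} {v : α → List ℕ} (hP : NPC.Poly P) (hv : NPC.Poly v) :
    NPC.Poly (fun a => ratPt (P a) (v a)) := by
  have hb := poly_basic hP hv
  refine (NPC.Poly.map (F := fun a (x : ℤ) => (x : ℚ) / (((basic (P a) (v a)).1 : ℤ) : ℚ))
    (NPC.Poly.snd hb)
    (pd_ratDiv (NPC.Poly.snd NPC.Poly.id)
      ((NPC.Poly.fst hb).comp (NPC.Poly.fst NPC.Poly.id)))).congr fun a => ?_
  exact (pd_ratPt_eq _ _).symm

/-! ### the linear program -/

theorem pd_size_mul (a b : ℕ) : (a * b).size ≤ a.size + b.size := by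
  rw [Nat.size_le, pow_add]
  exact Nat.mul_lt_mul'' (Nat.lt_size_self a) (Nat.lt_size_self b)

theorem pd_prod_size : ∀ l : List ℕ, (l.foldr (fun a b => a * b) 1).size ≤ sz l := by
  intro l
  induction l with
  | nil => simp
  | cons x l ih =>
      rw [List.foldr_cons, sz_list_cons]
      have h1 := pd_size_mul x (l.foldr (fun a b => a * b) 1)
      have h2 := size_le_sz x
      omega

theorem pd_lden {l : α → List ℚ} (hl : NPC.Poly l) : NPC.Poly (fun a => lden (l a)) := by
  unfold lden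
  have hm : NPC.Poly (fun a => (l a).map fun q => q.den) :=
    NPC.Poly.map (F := fun _ (q : ℚ) => q.den) hl (NPC.H670R2.poly_den (NPC.Poly.snd NPC.Poly.id))
  obtain ⟨r, hr⟩ := hm.sz_le
  refine NPC.Poly.foldr (s := fun _ => 1) (F := fun _ x s => x * s) hm (NPC.Poly.const 1)
    (NPC.Poly.mul (NPC.Poly.fst (NPC.Poly.snd NPC.Poly.id))
      (NPC.Poly.snd (NPC.Poly.snd NPC.Poly.id))) (Polynomial.C 4 * r + Polynomial.C 1) ?_
  intro a k hk
  have h1 := sz_nat_le ((((l a).map fun q => q.den).drop k).foldr (fun x s => x * s) 1)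
  have h2 := pd_prod_size (((l a).map fun q => q.den).drop k)
  have h3 := NPC.Poly.sz_drop_le ((l a).map fun q => q.den) k
  have h4 := hr a
  simp only [Polynomial.eval_add, Polynomial.eval_mul, Polynomial.eval_C]
  omega

theorem pd_intVec {D : α → ℕ} {l : α → List ℚ} (hD : NPC.Poly D) (hl : NPC.Poly l) :
    NPC.Poly (fun a => intVec (D a) (l a)) := by
  unfold intVec
  exact NPC.Poly.map (F := fun a (q : ℚ) => q.num * ((D a / q.den : ℕ) : ℤ)) hl
    (NPC.Poly.imul (NPC.H670R2.poly_num (NPC.Poly.snd NPC.Poly.id))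
      (NPC.Poly.natCast (NPC.Poly.div (hD.comp (NPC.Poly.fst NPC.Poly.id))
        (NPC.H670R2.poly_den (NPC.Poly.snd NPC.Poly.id)))))

theorem pd_toP : NPC.Poly toP := by
  have e1 : NPC.Poly (fun I : Inst => I.1) := NPC.Poly.fst NPC.Poly.id
  have e2 : NPC.Poly (fun I : Inst => I.2.1) := NPC.Poly.fst (NPC.Poly.snd NPC.Poly.id)
  have e3 : NPC.Poly (fun I : Inst => I.2.2.1) :=
    NPC.Poly.fst (NPC.Poly.snd (NPC.Poly.snd NPC.Poly.id))
  have hF : NPC.Poly (fun p : Inst × List ℚ × ℚ =>
      ((intVec (lden (p.2.2 :: p.2.1)) p.2.1,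
        p.2.2.num * ((lden (p.2.2 :: p.2.1) / p.2.2.den : ℕ) : ℤ)) : List ℤ × ℤ)) := by
    have f1 : NPC.Poly (fun p : Inst × List ℚ × ℚ => p.2.1) :=
      NPC.Poly.fst (NPC.Poly.snd NPC.Poly.id)
    have f2 : NPC.Poly (fun p : Inst × List ℚ × ℚ => p.2.2) :=
      NPC.Poly.snd (NPC.Poly.snd NPC.Poly.id)
    have f3 : NPC.Poly (fun p : Inst × List ℚ × ℚ => lden (p.2.2 :: p.2.1)) :=
      pd_lden (NPC.Poly.cons f2 f1)
    exact NPC.Poly.pair (pd_intVec f3 f1) (NPC.Poly.imul (NPC.H670R2.poly_num f2)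
      (NPC.Poly.natCast (NPC.Poly.div f3 (NPC.H670R2.poly_den f2))))
  have h1 : NPC.Poly (fun I : Inst => List.zipWith (fun (a : List ℚ) (b : ℚ) =>
      ((intVec (lden (b :: a)) a, b.num * ((lden (b :: a) / b.den : ℕ) : ℤ)) : List ℤ × ℤ))
      I.1 I.2.1) :=
    NPC.Poly.zipWith (F := fun _ (a : List ℚ) (b : ℚ) =>
      ((intVec (lden (b :: a)) a, b.num * ((lden (b :: a) / b.den : ℕ) : ℤ)) : List ℤ × ℤ))
      e1 e2 hF
  have hr : NPC.Poly (fun I : Inst => List.range I.2.2.1.length) := NPC.Poly.range_length e3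
  have h2 : NPC.Poly (fun I : Inst => (List.range I.2.2.1.length).map (fun j =>
      (((List.range I.2.2.1.length).map (fun i => if i = j then (-1 : ℤ) else 0), (0 : ℤ)) :
        List ℤ × ℤ))) := by
    refine NPC.Poly.map (F := fun (I : Inst) j =>
      (((List.range I.2.2.1.length).map (fun i => if i = j then (-1 : ℤ) else 0), (0 : ℤ)) :
        List ℤ × ℤ)) hr (NPC.Poly.pair ?_ (NPC.Poly.const _))
    refine NPC.Poly.map (l := fun p : Inst × ℕ => List.range p.1.2.2.1.length)
      (F := fun (p : Inst × ℕ) i => if i = p.2 then (-1 : ℤ) else 0)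
      (hr.comp (NPC.Poly.fst NPC.Poly.id)) ?_
    exact NPC.Poly.ite (p := fun q : (Inst × ℕ) × ℕ => q.2 = q.1.2)
      (NPC.Poly.decide_eq (NPC.Poly.snd NPC.Poly.id) (NPC.Poly.snd (NPC.Poly.fst NPC.Poly.id)))
      (NPC.Poly.const _) (NPC.Poly.const _)
  exact NPC.Poly.pair (NPC.Poly.append h1 h2) (pd_intVec (pd_lden e3) e3)

theorem pd_rowA {P : α → LPd} {r : α → ℕ} (hP : NPC.Poly P) (hr : NPC.Poly r) :
    NPC.Poly (fun a => rowA (P a) (r a)) := by
  unfold rowA
  exact NPC.Poly.fst (NPC.Poly.getD (NPC.Poly.fst hP) hr (NPC.Poly.const _))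

theorem pd_rowB {P : α → LPd} {r : α → ℕ} (hP : NPC.Poly P) (hr : NPC.Poly r) :
    NPC.Poly (fun a => rowB (P a) (r a)) := by
  unfold rowB
  exact NPC.Poly.snd (NPC.Poly.getD (NPC.Poly.fst hP) hr (NPC.Poly.const _))

theorem pd_bas {P : α → LPd} {v : α → List ℕ} (hP : NPC.Poly P) (hv : NPC.Poly v) :
    NPC.Poly (fun a => bas (P a) (v a)) := by
  unfold bas
  exact NPC.Poly.map (F := fun a r => rowA (P a) r) hv
    (pd_rowA (hP.comp (NPC.Poly.fst NPC.Poly.id)) (NPC.Poly.snd NPC.Poly.id))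

/-! ### the initial basis -/

theorem pd_basis0_step {P : LPd} {x : List ℚ} : ∀ (l acc : List ℕ) (R : ℕ),
    (∀ r ∈ l, r < R) → (∀ r ∈ acc, r < R) →
    (l.foldl (fun acc r =>
      if dotL (rowA P r) (intVec (lden x) x) = (lden x : ℤ) * rowB P r ∧
        gdet (bas P (acc ++ [r])) ≠ 0 then acc ++ [r] else acc) acc).length ≤
      acc.length + l.length ∧
    ∀ r ∈ l.foldl (fun acc r =>
      if dotL (rowA P r) (intVec (lden x) x) = (lden x : ℤ) * rowB P r ∧
        gdet (bas P (acc ++ [r])) ≠ 0 then acc ++ [r] else acc) acc, r < R := by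
  intro l
  induction l with
  | nil => intro acc R h1 h2; simpa using h2
  | cons b l ih =>
      intro acc R h1 h2
      rw [List.foldl_cons]
      split_ifs with h
      · obtain ⟨i1, i2⟩ := ih (acc ++ [b]) R (fun r hr => h1 r (List.mem_cons_of_mem _ hr))
          (by
            intro r hr
            rcases List.mem_append.1 hr with hr | hr
            · exact h2 r hr
            · rw [List.mem_singleton] at hr
              rw [hr]
              exact h1 b (by simp))
        refine ⟨i1.trans ?_, i2⟩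
        simp only [List.length_append, List.length_cons, List.length_nil]
        omega
      · obtain ⟨i1, i2⟩ := ih acc R (fun r hr => h1 r (List.mem_cons_of_mem _ hr)) h2
        refine ⟨i1.trans ?_, i2⟩
        simp only [List.length_cons]
        omega

theorem pd_sz_nats {l : List ℕ} {n M : ℕ} (h1 : l.length ≤ n) (h2 : ∀ x ∈ l, x ≤ M) :
    sz l ≤ n * (4 * M + 2) + 1 := by
  have h3 := sz_le_length_mul l (4 * M + 1) (by
    intro x hx
    have h4 := sz_nat_le x
    have h5 := NPC.Poly.size_le_self x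
    have h6 := h2 x hx
    omega)
  have h4 : l.length * (4 * M + 1 + 1) ≤ n * (4 * M + 2) := Nat.mul_le_mul_right _ h1
  omega

theorem pd_basis0_mem (P : LPd) (x : List ℚ) :
    (basis0 P x).length ≤ P.1.length ∧ ∀ r ∈ basis0 P x, r < P.1.length := by
  have h := pd_basis0_step (P := P) (x := x) (List.range P.1.length) [] P.1.length
    (by intro r hr; exact List.mem_range.1 hr) (by simp)
  unfold basis0
  refine ⟨?_, h.2⟩
  simpa using h.1

theorem pd_basis0 {P : α → LPd} {x : α → List ℚ} (hP : NPC.Poly P) (hx : NPC.Poly x) :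
    NPC.Poly (fun a => basis0 (P a) (x a)) := by
  obtain ⟨r, hr⟩ := hP.sz_le
  unfold basis0
  have g1 : NPC.Poly (fun p : α × List ℕ × ℕ => P p.1) := hP.comp (NPC.Poly.fst NPC.Poly.id)
  have g2 : NPC.Poly (fun p : α × List ℕ × ℕ => x p.1) := hx.comp (NPC.Poly.fst NPC.Poly.id)
  have g3 : NPC.Poly (fun p : α × List ℕ × ℕ => p.2.1) := NPC.Poly.fst (NPC.Poly.snd NPC.Poly.id)
  have g4 : NPC.Poly (fun p : α × List ℕ × ℕ => p.2.2) := NPC.Poly.snd (NPC.Poly.snd NPC.Poly.id)
  have g5 : NPC.Poly (fun p : α × List ℕ × ℕ => p.2.1 ++ [p.2.2]) :=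
    NPC.Poly.append g3 (NPC.Poly.cons g4 (NPC.Poly.const []))
  have g6 : NPC.Poly (fun p : α × List ℕ × ℕ => decide (dotL (rowA (P p.1) p.2.2)
      (intVec (lden (x p.1)) (x p.1)) = (lden (x p.1) : ℤ) * rowB (P p.1) p.2.2)) :=
    NPC.Poly.decide_eq (NPC.H670R2.poly_dotL (pd_rowA g1 g4) (pd_intVec (pd_lden g2) g2))
      (NPC.Poly.imul (NPC.Poly.natCast (pd_lden g2)) (pd_rowB g1 g4))
  have g7 : NPC.Poly (fun p : α × List ℕ × ℕ => decide (¬ (gdet (bas (P p.1)
      (p.2.1 ++ [p.2.2])) = 0))) :=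
    NPC.Poly.decide_not (NPC.Poly.decide_eq (NPC.H670R2.poly_gdet (pd_bas g1 g5))
      (NPC.Poly.const 0))
  have g8 : NPC.Poly (fun p : α × List ℕ × ℕ =>
      if dotL (rowA (P p.1) p.2.2) (intVec (lden (x p.1)) (x p.1)) =
          (lden (x p.1) : ℤ) * rowB (P p.1) p.2.2 ∧
        gdet (bas (P p.1) (p.2.1 ++ [p.2.2])) ≠ 0 then p.2.1 ++ [p.2.2] else p.2.1) :=
    NPC.Poly.ite (p := fun p : α × List ℕ × ℕ =>
      dotL (rowA (P p.1) p.2.2) (intVec (lden (x p.1)) (x p.1)) =
          (lden (x p.1) : ℤ) * rowB (P p.1) p.2.2 ∧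
        gdet (bas (P p.1) (p.2.1 ++ [p.2.2])) ≠ 0) (NPC.Poly.decide_and g6 g7) g5 g3
  refine NPC.Poly.foldl (s := fun _ => ([] : List ℕ)) (F := fun a acc r =>
      if dotL (rowA (P a) r) (intVec (lden (x a)) (x a)) = (lden (x a) : ℤ) * rowB (P a) r ∧
        gdet (bas (P a) (acc ++ [r])) ≠ 0 then acc ++ [r] else acc)
    (NPC.Poly.range_length (NPC.Poly.fst hP)) (NPC.Poly.const []) g8
    (r * (Polynomial.C 4 * r + Polynomial.C 2) + Polynomial.C 1) ?_
  intro a k hk
  obtain ⟨h1, h2⟩ := pd_basis0_step (P := P a) (x := x a) ((List.range (P a).1.length).take k) []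
    (P a).1.length (by
      intro r hr
      exact List.mem_range.1 (List.mem_of_mem_take hr)) (by simp)
  have h3 : (P a).1.length ≤ r.eval (sz a) := by
    have e1 := length_lt_sz (P a).1
    have e2 : sz (P a) = sz (P a).1 + sz (P a).2 + 1 := sz_pair _ _
    have e3 := hr a
    omega
  refine (pd_sz_nats (n := r.eval (sz a)) (M := r.eval (sz a)) ?_ ?_).trans ?_
  · refine h1.trans ?_
    simp only [List.length_nil, List.length_take, List.length_range]
    omega
  · intro y hy
    have := h2 y hy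
    omega
  · simp only [Polynomial.eval_add, Polynomial.eval_mul, Polynomial.eval_C]
    exact le_rfl

end pd

/-! ### the invariant of the machine -/

/-- Bounds for a frame of the stack. -/
structure PdFr (R k : ℕ) (t : Frame) : Prop where
  fl : t.1.1.length ≤ k
  fm : ∀ x ∈ t.1.1, x ≤ R
  gl : t.1.2.length ≤ R
  gm : ∀ x ∈ t.1.2, x ≤ R
  s1 : t.2.1 ≤ 3
  s2 : t.2.2 ≤ R

/-- Bounds for a configuration. -/
structure PdInv (R k : ℕ) (c : Cfg) : Prop where
  vl : c.1.length ≤ R
  vm : ∀ x ∈ c.1, x ≤ R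
  sl : c.2.1.length ≤ k + 1
  st : ∀ t ∈ c.2.1, PdFr R k t
  m1 : c.2.2.1 ≤ 3
  m2 : c.2.2.2 ≤ R + 2

theorem PdFr.mono {R k : ℕ} {t : Frame} (h : PdFr R k t) : PdFr R (k + 1) t :=
  ⟨h.fl.trans (Nat.le_succ k), h.fm, h.gl, h.gm, h.s1, h.s2⟩

theorem pd_inv_call {o : Orc} {R k : ℕ} {v F G : List ℕ} {st : ℕ × ℕ} {rest : List Frame}
    (hvl : v.length ≤ R) (hvm : ∀ x ∈ v, x ≤ R) (hr : rest.length ≤ k)
    (hf : PdFr R k ((F, G), st)) (hs : ∀ t ∈ rest, PdFr R k t) :
    PdInv R (k + 1) (callStep o v F G rest) := by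
  have hhead : ∀ p : ℕ → Bool, (v.filter p).headD 0 ≤ R := by
    intro p
    cases h : v.filter p with
    | nil => simp
    | cons a l =>
        have ha : a ∈ v.filter p := by rw [h]; simp
        simpa using hvm a (List.mem_of_mem_filter ha)
  obtain ⟨f1, f2, f3, f4, -, -⟩ := hf
  simp only at f1 f2 f3 f4
  unfold callStep
  split_ifs with h1 h2
  · exact ⟨hvl, hvm, by simpa using by omega, fun t ht => (hs t ht).mono, by simp, by simp⟩
  · refine ⟨hvl, hvm, by simp only [List.length_cons]; omega, ?_, by simp, by simp⟩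
    intro t ht
    simp only [List.mem_cons] at ht
    rcases ht with rfl | rfl | ht
    · exact ⟨f1.trans (Nat.le_succ k), f2, (List.length_filter_le _ _).trans f3,
        fun x hx => f4 x (List.mem_of_mem_filter hx), by simp, by simp⟩
    · exact ⟨f1.trans (Nat.le_succ k), f2, f3, f4, by simp, by simp⟩
    · exact (hs t ht).mono
  · refine ⟨hvl, hvm, by simp only [List.length_cons]; omega, ?_, by simp, by simp⟩
    intro t ht
    simp only [List.mem_cons] at ht
    rcases ht with rfl | rfl | ht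
    · refine ⟨by simpa using f1, ?_, ?_, ?_, by simp, by simp⟩
      · intro x hx
        simp only [List.mem_cons] at hx
        rcases hx with rfl | hx
        · exact hhead _
        · exact f2 x hx
      · exact (List.length_erase_le).trans f3
      · exact fun x hx => f4 x (List.mem_of_mem_erase hx)
    · exact ⟨f1.trans (Nat.le_succ k), f2, f3, f4, by simp, hhead _⟩
    · exact (hs t ht).mono

theorem pd_inv_ret {o : Orc} {R k : ℕ} {v F G : List ℕ} {st : ℕ × ℕ} {rest : List Frame}
    (ho : ∀ v j r, o.en v j = some r → r ≤ R)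
    (hvl : v.length ≤ R) (hvm : ∀ x ∈ v, x ≤ R) (hr : rest.length ≤ k)
    (hf : PdFr R k ((F, G), st)) (hs : ∀ t ∈ rest, PdFr R k t) :
    PdInv R (k + 1) (retStep o v F G st rest) := by
  have hst : ∀ t ∈ ((F, G), st) :: rest, PdFr R (k + 1) t := by
    intro t ht
    simp only [List.mem_cons] at ht
    rcases ht with rfl | ht
    · exact hf.mono
    · exact (hs t ht).mono
  unfold retStep
  split_ifs with h1
  · cases h : o.en v st.2 with
    | none =>
        exact ⟨hvl, hvm, by simp only [Option.elim_none, List.length_cons]; omega, hst, by simp,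
          by simp⟩
    | some r =>
        have hrR := ho _ _ _ h
        refine ⟨by simpa [repl] using hvl, ?_,
          by simp only [Option.elim_some, List.length_cons]; omega, hst, by simp, ?_⟩
        · intro x hx
          simp only [Option.elim_some, repl, List.mem_map] at hx
          obtain ⟨y, hy, rfl⟩ := hx
          split_ifs
          · exact hrR
          · exact hvm y hy
        · simp only [Option.elim_some]
          omega
  · exact ⟨hvl, hvm, by simpa using by omega, fun t ht => (hs t ht).mono, by simp, by simp⟩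

theorem pd_inv_enter {o : Orc} {R k : ℕ} {v F G : List ℕ} {st : ℕ × ℕ} {rest : List Frame}
    {r : ℕ} (hrR : r ≤ R + 2)
    (hvl : v.length ≤ R) (hvm : ∀ x ∈ v, x ≤ R) (hr : rest.length ≤ k)
    (hf : PdFr R k ((F, G), st)) (hs : ∀ t ∈ rest, PdFr R k t) :
    PdInv R (k + 1) (enterStep o v F G st rest r) := by
  obtain ⟨f1, f2, f3, f4, -, -⟩ := hf
  simp only at f1 f2 f3 f4
  unfold enterStep
  by_cases hrG : r ∈ G
  · rw [if_neg (by simpa using hrG)]
    by_cases h2 : st.1 = 0
    · rw [if_pos h2]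
      refine ⟨hvl, hvm, by simp only [List.length_cons]; omega, ?_, by simp, by simp⟩
      intro t ht
      simp only [List.mem_cons] at ht
      rcases ht with rfl | rfl | ht
      · refine ⟨by simpa using f1, ?_, ?_, ?_, by simp, by simp⟩
        · intro x hx
          simp only [List.mem_cons] at hx
          rcases hx with rfl | hx
          · exact f4 _ hrG
          · exact f2 x hx
        · exact (List.length_erase_le).trans f3
        · exact fun x hx => f4 x (List.mem_of_mem_erase hx)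
      · exact ⟨f1.trans (Nat.le_succ k), f2, f3, f4, by simp, f4 _ hrG⟩
      · exact (hs t ht).mono
    · rw [if_neg h2]
      refine ⟨hvl, hvm, by simp only [List.length_cons]; omega, ?_, by simp, by simp⟩
      intro t ht
      simp only [List.mem_cons] at ht
      rcases ht with rfl | rfl | ht
      · exact ⟨f1.trans (Nat.le_succ k), f2, (List.length_filter_le _ _).trans f3,
          fun x hx => f4 x (List.mem_of_mem_filter hx), by simp, by simp⟩
      · exact ⟨f1.trans (Nat.le_succ k), f2, f3, f4, by simp, by simp⟩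
      · exact (hs t ht).mono
  · rw [if_pos hrG]
    exact ⟨hvl, hvm, by simp only; omega, fun t ht => (hs t ht).mono, by simp, hrR⟩

theorem pd_inv_step {o : Orc} {R k : ℕ} (ho : ∀ v j r, o.en v j = some r → r ≤ R) {c : Cfg}
    (h : PdInv R k c) : PdInv R (k + 1) (step o c) := by
  obtain ⟨vl, vm, sl, st, m1, m2⟩ := h
  obtain ⟨v, S, m⟩ := c
  simp only at vl vm sl st m1 m2
  unfold step
  by_cases h3 : m.1 = 3
  · rw [if_pos h3]
    exact ⟨vl, vm, sl.trans (Nat.le_succ _), fun t ht => (st t ht).mono, m1, m2⟩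
  rw [if_neg h3]
  cases S with
  | nil =>
      refine ⟨vl, vm, by simp, by simp, by simp, ?_⟩
      simp only [List.head?_nil, Option.elim_none]
      split_ifs <;> omega
  | cons t S =>
      have hf := st t (by simp)
      have hs : ∀ t ∈ S, PdFr R k t := fun t ht => st t (List.mem_cons_of_mem _ ht)
      have hr : S.length ≤ k := by simpa using sl
      simp only [List.head?_cons, Option.elim_some, List.tail_cons]
      split_ifs
      · exact pd_inv_call (st := t.2) vl vm hr hf hs
      · exact pd_inv_ret ho vl vm hr hf hs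
      · exact pd_inv_enter m2 vl vm hr hf hs

theorem pd_inv_iter {o : Orc} {R : ℕ} (ho : ∀ v j r, o.en v j = some r → r ≤ R) {v : List ℕ}
    (hv : v.length ≤ R) (hvm : ∀ x ∈ v, x ≤ R) (k : ℕ) :
    PdInv R k ((step o)^[k] (start R v)) := by
  induction k with
  | zero =>
      refine ⟨hv, hvm, by simp [start], ?_, by simp [start], by simp [start]⟩
      intro t ht
      simp only [Function.iterate_zero, id_eq, start, List.mem_singleton] at ht
      subst ht
      exact ⟨by simp, by simp, by simp, fun x hx => (List.mem_range.1 hx).le, by simp, by simp⟩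
  | succ k ih =>
      rw [Function.iterate_succ_apply']
      exact pd_inv_step ho ih

theorem pd_en_orc {P : LPd} (v : List ℕ) (j r : ℕ) (h : (orc P).en v j = some r) :
    r ≤ P.1.length := by
  simp only [orc, enter] at h
  have h2 := List.mem_of_mem_head? h
  have h3 := List.mem_of_mem_filter h2
  exact (List.mem_range.1 h3).le

theorem pd_tstep_fst (P : LPd) (o : Orc) (s : Cfg × (List ℚ × List (List ℚ))) (k : ℕ) :
    ((tstep P o)^[k] s).1 = (step o)^[k] s.1 := by
  induction k with
  | zero => rfl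
  | succ k ih => rw [Function.iterate_succ_apply', Function.iterate_succ_apply', tstep, ih]

theorem pd_pts (P : LPd) (o : Orc) (Z : ℕ) (s : Cfg × (List ℚ × List (List ℚ)))
    (h1 : sz s.2.1 ≤ Z) (h2 : s.2.2 = []) (T : ℕ)
    (hZ : ∀ k ≤ T, sz (ratPt P ((step o)^[k] s.1).1) ≤ Z) : ∀ k ≤ T,
    sz ((tstep P o)^[k] s).2.1 ≤ Z ∧ ((tstep P o)^[k] s).2.2.length ≤ k ∧
      ∀ l ∈ ((tstep P o)^[k] s).2.2, sz l ≤ Z := by
  intro k
  induction k with
  | zero =>
      intro _
      refine ⟨h1, by simp [h2], by simp [h2]⟩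
  | succ k ih =>
      intro hk
      obtain ⟨i1, i2, i3⟩ := ih (by omega)
      have e := pd_tstep_fst P o s (k + 1)
      rw [Function.iterate_succ_apply'] at e
      rw [Function.iterate_succ_apply']
      have hz := hZ (k + 1) hk
      rw [← e] at hz
      simp only [tstep] at hz ⊢
      split_ifs
      · exact ⟨i1, i2.trans (Nat.le_succ k), i3⟩
      · refine ⟨hz, by simpa using i2, ?_⟩
        intro l hl
        simp only [List.mem_cons] at hl
        rcases hl with rfl | hl
        · exact hz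
        · exact i3 l hl

/-- size of a list of at most `W` numbers which are at most `W` -/
def pdA (W : ℕ) : ℕ := W * (4 * W + 2) + 1

/-- size of a configuration -/
def pdC (W : ℕ) : ℕ := pdA W + (W * (2 * pdA W + 8 * W + 6) + 1) + (8 * W + 3) + 2

theorem pd_sz_le {x W : ℕ} (h : x ≤ W) : sz x ≤ 4 * W + 1 := by
  have h4 := sz_nat_le x
  have h5 := NPC.Poly.size_le_self x
  omega

theorem pd_sz_fr {R k W : ℕ} (h : R + k + 3 ≤ W) {t : Frame} (ht : PdFr R k t) :
    sz t ≤ 2 * pdA W + 8 * W + 5 := by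
  obtain ⟨⟨F, G⟩, a, b⟩ := t
  obtain ⟨f1, f2, f3, f4, f5, f6⟩ := ht
  simp only at f1 f2 f3 f4 f5 f6
  have e1 := pd_sz_nats (n := W) (M := W) (l := F) (by omega) (fun x hx => (f2 x hx).trans (by omega))
  have e2 := pd_sz_nats (n := W) (M := W) (l := G) (by omega) (fun x hx => (f4 x hx).trans (by omega))
  have e3 := pd_sz_le (x := a) (W := W) (by omega)
  have e4 := pd_sz_le (x := b) (W := W) (by omega)
  simp only [sz_pair]
  unfold pdA
  omega

theorem pd_sz_cfg {R k W : ℕ} (h : R + k + 3 ≤ W) {c : Cfg} (hc : PdInv R k c) :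
    sz c ≤ pdC W := by
  obtain ⟨v, S, a, b⟩ := c
  obtain ⟨f1, f2, f3, f4, f5, f6⟩ := hc
  simp only at f1 f2 f3 f4 f5 f6
  have e1 := pd_sz_nats (n := W) (M := W) (l := v) (by omega) (fun x hx => (f2 x hx).trans (by omega))
  have e2 := sz_le_length_mul S (2 * pdA W + 8 * W + 5) (fun t ht => pd_sz_fr h (f4 t ht))
  have e3 := pd_sz_le (x := a) (W := W) (by omega)
  have e4 := pd_sz_le (x := b) (W := W) (by omega)
  have e5 : S.length * (2 * pdA W + 8 * W + 5 + 1) ≤ W * (2 * pdA W + 8 * W + 6) :=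
    Nat.mul_le_mul_right _ (by omega)
  simp only [sz_pair]
  unfold pdC
  have e6 : sz v ≤ pdA W := e1
  omega

theorem poly_outF : Pool.Agent.NPC.Poly (fun a : Inst × List Unit => outF a.1 a.2.length) := by
  have hP : NPC.Poly (fun a : Inst × List Unit => toP a.1) :=
    pd_toP.comp (NPC.Poly.fst NPC.Poly.id)
  have hx : NPC.Poly (fun a : Inst × List Unit => a.1.2.2.2) :=
    NPC.Poly.snd (NPC.Poly.snd (NPC.Poly.snd (NPC.Poly.fst NPC.Poly.id)))
  have hv : NPC.Poly (fun a : Inst × List Unit => basis0 (toP a.1) a.1.2.2.2) := pd_basis0 hP hx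
  have hPP : NPC.Poly (fun a : Inst × List Unit => pert (toP a.1) (basis0 (toP a.1) a.1.2.2.2)) :=
    poly_pert hP hv
  have hl : NPC.Poly (fun a : Inst × List Unit => a.2) := NPC.Poly.snd NPC.Poly.id
  have hrange : NPC.Poly (fun a : Inst × List Unit => List.range (toP a.1).1.length) :=
    NPC.Poly.range_length (NPC.Poly.fst hP)
  have hstart : NPC.Poly (fun a : Inst × List Unit =>
      start (toP a.1).1.length (basis0 (toP a.1) a.1.2.2.2)) :=
    NPC.Poly.pair hv (NPC.Poly.pair (NPC.Poly.cons (NPC.Poly.pair (NPC.Poly.pair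
      (NPC.Poly.const ([] : List ℕ)) hrange) (NPC.Poly.const ((0, 0) : ℕ × ℕ)))
      (NPC.Poly.const [])) (NPC.Poly.const ((0, 0) : ℕ × ℕ)))
  have hs : NPC.Poly (fun a : Inst × List Unit =>
      ((start (toP a.1).1.length (basis0 (toP a.1) a.1.2.2.2),
        (ratPt (toP a.1) (basis0 (toP a.1) a.1.2.2.2), [])) :
          Cfg × (List ℚ × List (List ℚ)))) :=
    NPC.Poly.pair hstart (NPC.Poly.pair (pd_ratPt hP hv) (NPC.Poly.const []))
  have hF : NPC.Poly (fun p : (Inst × List Unit) × (Cfg × (List ℚ × List (List ℚ))) =>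
      tstep (toP p.1.1) (orc (pert (toP p.1.1) (basis0 (toP p.1.1) p.1.1.2.2.2))) p.2) := by
    have k1 : NPC.Poly (fun p : (Inst × List Unit) × (Cfg × (List ℚ × List (List ℚ))) =>
        step (orc (pert (toP p.1.1) (basis0 (toP p.1.1) p.1.1.2.2.2))) p.2.1) :=
      poly_step (P := fun p : (Inst × List Unit) × (Cfg × (List ℚ × List (List ℚ))) =>
        pert (toP p.1.1) (basis0 (toP p.1.1) p.1.1.2.2.2)) (hPP.comp (NPC.Poly.fst NPC.Poly.id))
        (NPC.Poly.fst (NPC.Poly.snd NPC.Poly.id))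
    have k2 : NPC.Poly (fun p : (Inst × List Unit) × (Cfg × (List ℚ × List (List ℚ))) =>
        ratPt (toP p.1.1)
          (step (orc (pert (toP p.1.1) (basis0 (toP p.1.1) p.1.1.2.2.2))) p.2.1).1) :=
      pd_ratPt (P := fun p : (Inst × List Unit) × (Cfg × (List ℚ × List (List ℚ))) => toP p.1.1)
        (hP.comp (NPC.Poly.fst NPC.Poly.id)) (NPC.Poly.fst k1)
    have k3 : NPC.Poly (fun p : (Inst × List Unit) × (Cfg × (List ℚ × List (List ℚ))) =>
        p.2.2) := NPC.Poly.snd (NPC.Poly.snd NPC.Poly.id)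
    unfold tstep
    exact NPC.Poly.pair k1 (NPC.Poly.ite
      (p := fun p : (Inst × List Unit) × (Cfg × (List ℚ × List (List ℚ))) => ratPt (toP p.1.1)
          (step (orc (pert (toP p.1.1) (basis0 (toP p.1.1) p.1.1.2.2.2))) p.2.1).1 = p.2.2.1)
      (NPC.Poly.decide_eq k2 (NPC.Poly.fst k3)) k3
      (NPC.Poly.pair k2 (NPC.Poly.cons k2 (NPC.Poly.snd k3))))
  obtain ⟨r, hr⟩ := hP.sz_le
  obtain ⟨z, hz⟩ := NPC.Poly.sz_le (pd_ratPt (α := LPd × List ℕ) (P := fun p => p.1)
    (v := fun p => p.2) (NPC.Poly.fst NPC.Poly.id) (NPC.Poly.snd NPC.Poly.id))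
  set w : Polynomial ℕ := r + Polynomial.X + Polynomial.C 3 with hw
  set A : Polynomial ℕ := w * (Polynomial.C 4 * w + Polynomial.C 2) + Polynomial.C 1 with hA
  set Cc : Polynomial ℕ := A + (w * (Polynomial.C 2 * A + Polynomial.C 8 * w + Polynomial.C 6) +
    Polynomial.C 1) + (Polynomial.C 8 * w + Polynomial.C 3) + Polynomial.C 2 with hCc
  set Z : Polynomial ℕ := z.comp (r + A + Polynomial.C 1) with hZ
  have main := NPC.Poly.iterLen
    (l := fun a : Inst × List Unit => a.2)
    (s := fun a : Inst × List Unit =>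
      ((start (toP a.1).1.length (basis0 (toP a.1) a.1.2.2.2),
        (ratPt (toP a.1) (basis0 (toP a.1) a.1.2.2.2), [])) :
          Cfg × (List ℚ × List (List ℚ))))
    (F := fun a s => tstep (toP a.1) (orc (pert (toP a.1) (basis0 (toP a.1) a.1.2.2.2))) s)
    hl hs hF (Cc + (Z + (w * (Z + Polynomial.C 1) + Polynomial.C 1) + Polynomial.C 2)) (by
      intro a k hk
      set P := toP a.1 with hPdef
      set v0 := basis0 P a.1.2.2.2 with hv0
      set o := orc (pert P v0) with ho
      set s0 : Cfg × (List ℚ × List (List ℚ)) := (start P.1.length v0, (ratPt P v0, [])) with hs0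
      have hR : P.1.length ≤ r.eval (sz a) := by
        have e1 := length_lt_sz P.1
        have e2 : sz P = sz P.1 + sz P.2 + 1 := sz_pair _ _
        have e3 : sz P ≤ r.eval (sz a) := hr a
        omega
      have hT : a.2.length < sz a := by
        have e1 := length_lt_sz a.2
        have e2 : sz a = sz a.1 + sz a.2 + 1 := sz_pair _ _
        omega
      have hmem := pd_basis0_mem P a.1.2.2.2
      have hinv : ∀ k, PdInv P.1.length k ((step o)^[k] (start P.1.length v0)) := by
        intro k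
        refine pd_inv_iter (R := P.1.length) (fun v j r h => ?_) hmem.1
          (fun x hx => (hmem.2 x hx).le) k
        have h3 := pd_en_orc v j r h
        simpa [pert] using h3
      have hwe : w.eval (sz a) = r.eval (sz a) + sz a + 3 := by
        rw [hw]; simp
      have hAe : A.eval (sz a) = pdA (w.eval (sz a)) := by
        rw [hA]; simp [pdA]
      have hCe : Cc.eval (sz a) = pdC (w.eval (sz a)) := by
        rw [hCc]; simp [pdC, hAe]
      have hpt : ∀ v : List ℕ, v.length ≤ P.1.length → (∀ x ∈ v, x ≤ P.1.length) →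
          sz (ratPt P v) ≤ Z.eval (sz a) := by
        intro v h1 h2
        have e1 := hz (P, v)
        simp only [sz_pair] at e1
        rw [hZ, Polynomial.eval_comp]
        refine e1.trans (eval_mono z ?_)
        have e2 : sz P ≤ r.eval (sz a) := hr a
        have e3 : sz v ≤ pdA (w.eval (sz a)) :=
          pd_sz_nats (n := w.eval (sz a)) (M := w.eval (sz a)) (by omega)
            (fun x hx => (h2 x hx).trans (by omega))
        simp only [Polynomial.eval_add, Polynomial.eval_C]
        rw [hAe]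
        omega
      have hinv2 := fun k => hinv k
      have hpts := pd_pts P o (Z.eval (sz a)) s0 (hpt v0 hmem.1 (fun x hx => (hmem.2 x hx).le))
        rfl k (fun j _ => hpt _ (hinv j).vl (hinv j).vm) k le_rfl
      obtain ⟨p1, p2, p3⟩ := hpts
      have p4 := pd_tstep_fst P o s0 k
      have p5 : sz ((tstep P o)^[k] s0).1 ≤ Cc.eval (sz a) := by
        rw [p4, hCe]
        exact pd_sz_cfg (R := P.1.length) (k := k) (by omega) (hinv k)
      have p6 := sz_le_length_mul ((tstep P o)^[k] s0).2.2 (Z.eval (sz a)) p3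
      have p7 : ((tstep P o)^[k] s0).2.2.length * (Z.eval (sz a) + 1) ≤
          w.eval (sz a) * (Z.eval (sz a) + 1) := Nat.mul_le_mul_right _ (by omega)
      have p8 : sz ((tstep P o)^[k] s0) = sz ((tstep P o)^[k] s0).1 +
          (sz ((tstep P o)^[k] s0).2.1 + sz ((tstep P o)^[k] s0).2.2 + 1) + 1 := by
        rw [← sz_pair, ← sz_pair]
      change sz ((tstep P o)^[k] s0) ≤ _
      simp only [Polynomial.eval_add, Polynomial.eval_mul, Polynomial.eval_C]
      omega)
  exact (NPC.Poly.reverse (NPC.Poly.snd (NPC.Poly.snd main))).congr fun a => rfl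

end Pool.Agent.H24U
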